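import Mathlib

set_option autoImplicit false

namespace Pool.Agent.Lib.MP_3d9a2b_pr

open MeasureTheory ProbabilityTheory Filter Topology
open scoped NNReal ENNReal

/-- The first point of the closed set `R` strictly after time `t`. -/
noncomputable def nextPt (R : Set ℝ) (t : ℝ) : ℝ := sInf {r | r ∈ R ∧ t < r}

/-- `R` is an `α`-stable regenerative set (the closure of the range of an `α`-stable subordinator
started at `0`), on the probability space `(Ω', P')`: a closed unbounded random subset of `[0, ∞)`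
containing `0`, of zero Lebesgue measure, such that, with `D t` the first point of `R` after `t`,
* `t / D t` has the Beta distribution with parameters `α, 1 - α` (generalised arcsine law);
* (regenerative property) for every `t ≥ 0` the set `R` seen from its point `D t` is independent
  of `R` up to `t` and distributed as `R`. -/
structure IsStableRegenerative (α : ℝ) {Ω' : Type} [MeasurableSpace Ω'] (R : Ω' → Set ℝ)
    (P' : Measure Ω') : Prop where
  isClosed : ∀ ω, IsClosed (R ω)
  subset_Ici : ∀ ω, R ω ⊆ Set.Ici 0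
  zero_mem : ∀ ω, (0 : ℝ) ∈ R ω
  unbounded : ∀ ω (t : ℝ), ∃ r ∈ R ω, t < r
  null : ∀ ω, volume (R ω) = 0
  measurable_nextPt : ∀ t, Measurable fun ω => nextPt (R ω) t
  law : ∀ t : ℝ, 0 < t → P'.map (fun ω => t / nextPt (R ω) t) = betaMeasure α (1 - α)
  regen_indep : ∀ t : ℝ, 0 ≤ t →
    IndepFun (fun ω (r : Set.Icc (0 : ℝ) t) => nextPt (R ω) r)
      (fun ω (s : Set.Ici (0 : ℝ)) => nextPt (R ω) (nextPt (R ω) t + s) - nextPt (R ω) t) P'
  regen_law : ∀ t : ℝ, 0 ≤ t →
    P'.map (fun ω (s : Set.Ici (0 : ℝ)) =>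
        nextPt (R ω) (nextPt (R ω) t + s) - nextPt (R ω) t) =
      P'.map (fun ω (s : Set.Ici (0 : ℝ)) => nextPt (R ω) s)

/-- The data of the continuum copolymer model with parameter `α`: a Brownian motion `B` on
`(Ω, P)` (the charges) and, on `(Ω', P')`, an `α`-stable regenerative set `R`, an enumeration
`(left n, right n)` of the components of its complement in `[0, ∞)`, i.i.d. fair bits `ξ n`
independent of `R` and of the enumeration, and for every `t` a version `J t` of the Wiener
integral over `[0, t]` of `Δ = ∑ ξ n 1_(left n, right n)` against `B`. -/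
structure Model (α : ℝ) {Ω Ω' : Type} [MeasurableSpace Ω] [mΩ' : MeasurableSpace Ω']
    (P : Measure Ω) (P' : Measure Ω') where
  /-- Brownian motion -/
  B : ℝ≥0 → Ω → ℝ
  brownian : IsBrownianReal B P
  measurable_B : ∀ t, Measurable (B t)
  continuous_B : ∀ ω, Continuous fun t => B t ω
  /-- the regenerative set -/
  R : Ω' → Set ℝ
  regen : IsStableRegenerative α R P'
  /-- left end points of the excursions -/
  left : ℕ → Ω' → ℝ
  /-- right end points of the excursions -/
  right : ℕ → Ω' → ℝ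
  left_lt_right : ∀ n ω, left n ω < right n ω
  iUnion_Ioo : ∀ ω, ⋃ n, Set.Ioo (left n ω) (right n ω) = Set.Ici 0 \ R ω
  disjoint_Ioo : ∀ ω n m, n ≠ m →
    Disjoint (Set.Ioo (left n ω) (right n ω)) (Set.Ioo (left m ω) (right m ω))
  /-- the signs of the excursions: `true` means below the interface (`Δ = 1`) -/
  ξ : ℕ → Ω' → Bool
  measurable_ξ : ∀ n, Measurable (ξ n)
  fair : ∀ n, P' {ω | ξ n ω = true} = 1 / 2
  iIndep_ξ : iIndepFun ξ P'
  /-- the Wiener integrals -/
  J : ℝ → Ω → Ω' → ℝ
  measurable_J : ∀ t, Measurable (Function.uncurry (J t))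
  wiener : ∀ t : ℝ, 0 ≤ t → ∀ᵐ ω' ∂P', Tendsto (fun N : ℕ => eLpNorm (fun ω => J t ω ω' -
    ∑ n ∈ Finset.range N, if ξ n ω' then
      B (min (right n ω') t).toNNReal ω - B (min (left n ω') t).toNNReal ω else 0) 2 P)
    atTop (𝓝 0)
  /-- the information contained in `R` and in the enumeration of its excursions -/
  𝒢 : MeasurableSpace Ω'
  𝒢_le : 𝒢 ≤ mΩ'
  measurable_nextPt : ∀ t, Measurable[𝒢] fun ω => nextPt (R ω) t
  measurable_left : ∀ n, Measurable[𝒢] (left n)
  measurable_right : ∀ n, Measurable[𝒢] (right n)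
  indep_𝒢 : Indep (MeasurableSpace.comap (fun ω n => ξ n ω) inferInstance) 𝒢 P'

namespace Model

variable {α : ℝ} {Ω Ω' : Type} [MeasurableSpace Ω] [MeasurableSpace Ω'] {P : Measure Ω}
  {P' : Measure Ω'} (M : Model α P P')

/-- The process `Δ`: `1` during the excursions below the interface, `0` otherwise. -/
noncomputable def Δ (s : ℝ) (ω' : Ω') : ℝ :=
  ∑' n, Set.indicator (Set.Ioo (M.left n ω') (M.right n ω')) (fun _ => if M.ξ n ω' then 1 else 0) s

/-- The quenched partition function
`Z t = E[exp(-2 lam ∫_0^t Δ_s (dB_s + h ds))]`, the expectation being over `(R, ξ)` only. -/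
noncomputable def Z (lam h t : ℝ) (ω : Ω) : ℝ :=
  ∫ ω', Real.exp (-2 * lam * (M.J t ω ω' + h * ∫ s in (0 : ℝ)..t, M.Δ s ω')) ∂P'

/-- The drifted Brownian path `y s = B s + h s`. -/
noncomputable def y (h s : ℝ) (ω : Ω) : ℝ := M.B s.toNNReal ω + h * s

/-- The oscillation of the drifted path over `[θ n, θ (n + 1)]`. -/
noncomputable def osc (h θ : ℝ) (n : ℕ) (ω : Ω) : ℝ :=
  ⨆ s : Set.Icc (0 : ℝ) 1, |M.y h (θ * (n + s)) ω - M.y h (θ * n) ω|

end Model

end Pool.Agent.Lib.MP_3d9a2b_pr
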