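import Pool.Agent.Lib.MP_3d9a2b_pr.Env
import Pool.Agent.Lib.MP_3d9a2b_pr.Model

/-! # The Brownian environment (task I of MP_3d9a2b_pr)

The environment read off the drifted Brownian path in windows of length `lam⁻²` is i.i.d., its
increments are Gaussian and the windows costs have mean at most `100`. -/

set_option autoImplicit false
set_option linter.unusedSectionVars false
namespace Pool.Agent.Lib.MP_3d9a2b_pr
open MeasureTheory ProbabilityTheory Filter Topology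
open scoped NNReal ENNReal

theorem bm_pow4_le (x t : ℝ) (ht : 0 < t) :
    x ^ 4 ≤ 24 / t ^ 4 * (Real.exp (t * x) + Real.exp (-t * x)) := by
  have h1 : (t * |x|) ^ 4 / (Nat.factorial 4 : ℕ) ≤ Real.exp (t * |x|) :=
    Real.pow_div_factorial_le_exp _ (by positivity) 4
  have h2 : Real.exp (t * |x|) ≤ Real.exp (t * x) + Real.exp (-t * x) := by
    rcases abs_cases x with ⟨h, _⟩ | ⟨h, _⟩ <;> rw [h]
    · linarith [Real.exp_pos (-t * x)]
    · have : t * -x = -t * x := by ring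
      rw [this]; linarith [Real.exp_pos (t * x)]
  have h3 : (t * |x|) ^ 4 = t ^ 4 * x ^ 4 := by
    rw [mul_pow, ← abs_pow, abs_of_nonneg (by positivity)]
  have h4 : ((Nat.factorial 4 : ℕ) : ℝ) = 24 := by norm_num [Nat.factorial]
  rw [h3, h4] at h1
  have h5 : t ^ 4 * x ^ 4 ≤ 24 * (Real.exp (t * x) + Real.exp (-t * x)) := by
    have := h1.trans h2
    rw [div_le_iff₀ (by norm_num)] at this
    linarith
  rw [div_mul_eq_mul_div, le_div_iff₀ (by positivity)]
  linarith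

theorem bm_fourth {Ω : Type*} [MeasurableSpace Ω] {P : Measure Ω} [IsProbabilityMeasure P]
    {X : Ω → ℝ} {v : ℝ≥0} (hX : HasLaw X (gaussianReal 0 v) P) (hv : 0 < v) :
    ∫⁻ ω, ENNReal.ofReal (X ω ^ 4) ∂P ≤ ENNReal.ofReal (23 * (v : ℝ) ^ 2) := by
  have hv' : (0 : ℝ) < v := by exact_mod_cast hv
  set t : ℝ := 2 / √v with ht
  have hs : 0 < √(v : ℝ) := Real.sqrt_pos.2 hv'
  have ht0 : 0 < t := by positivity
  have hm := hX.aemeasurable
  have hmgf : ∀ s : ℝ, ∫ ω, Real.exp (s * X ω) ∂P = Real.exp ((v : ℝ) * s ^ 2 / 2) := by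
    intro s
    have := mgf_gaussianReal hX.map_eq s
    simpa [mgf] using this
  have hint : ∀ s : ℝ, Integrable (fun ω => Real.exp (s * X ω)) P := by
    intro s
    have h := integrable_exp_mul_gaussianReal (μ := 0) (v := v) s
    rw [← hX.map_eq] at h
    exact (integrable_map_measure (by fun_prop) hm).1 h
  have hb : Integrable (fun ω => 24 / t ^ 4 * (Real.exp (t * X ω) + Real.exp (-t * X ω))) P :=
    ((hint t).add (hint (-t))).const_mul _
  calc ∫⁻ ω, ENNReal.ofReal (X ω ^ 4) ∂P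
      ≤ ∫⁻ ω, ENNReal.ofReal (24 / t ^ 4 * (Real.exp (t * X ω) + Real.exp (-t * X ω))) ∂P :=
        lintegral_mono fun ω => ENNReal.ofReal_le_ofReal (bm_pow4_le _ _ ht0)
    _ = ENNReal.ofReal (∫ ω, 24 / t ^ 4 * (Real.exp (t * X ω) + Real.exp (-t * X ω)) ∂P) := by
        rw [ofReal_integral_eq_lintegral_ofReal hb]
        exact ae_of_all _ fun ω => by positivity
    _ ≤ ENNReal.ofReal (23 * (v : ℝ) ^ 2) := by
        apply ENNReal.ofReal_le_ofReal
        rw [integral_const_mul, integral_add (hint t) (hint (-t)), hmgf, hmgf]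
        have e1 : (v : ℝ) * t ^ 2 / 2 = 2 := by
          rw [ht, div_pow, Real.sq_sqrt hv'.le]; field_simp
        have e2 : (v : ℝ) * (-t) ^ 2 / 2 = 2 := by rw [neg_sq, e1]
        have e3 : t ^ 4 = 16 / (v : ℝ) ^ 2 := by
          rw [ht, div_pow]
          have : √(v : ℝ) ^ 4 = (v : ℝ) ^ 2 := by
            rw [show 4 = 2 * 2 from rfl, pow_mul, Real.sq_sqrt hv'.le]
          rw [this]; norm_num
        rw [e1, e2, e3]
        have e4 : Real.exp 2 ≤ 7.4 := by
          have : Real.exp 2 = Real.exp 1 ^ 2 := by rw [← Real.exp_nat_mul]; norm_num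
          rw [this]
          have := Real.exp_one_lt_d9
          have h0 := Real.exp_pos 1
          nlinarith
        have : 24 / (16 / (v : ℝ) ^ 2) * (Real.exp 2 + Real.exp 2) = 3 * (v : ℝ) ^ 2 * Real.exp 2 := by
          field_simp; ring
        rw [this]
        nlinarith [sq_nonneg (v : ℝ), Real.exp_pos 2]


/-- dyadic points of the unit interval -/
noncomputable def bmDy (p : ℕ × ℕ) : ℝ≥0 := min ((p.2 : ℝ≥0) / 2 ^ p.1) 1

/-- the dyadic chain bound -/
noncomputable def bmY (f : ℝ≥0 → ℝ) (j : ℕ) : ℝ :=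
  2 * (5 / 6) ^ j + (∑ k ∈ Finset.range (2 ^ j),
    (f ((k + 1 : ℕ) / 2 ^ j) - f ((k : ℕ) / 2 ^ j)) ^ 4) / (2 * (5 / 6) ^ j) ^ 3

theorem bmY_nonneg (f : ℝ≥0 → ℝ) (j : ℕ) : 0 ≤ bmY f j := by
  unfold bmY
  have : 0 ≤ ∑ k ∈ Finset.range (2 ^ j),
      (f ((k + 1 : ℕ) / 2 ^ j) - f ((k : ℕ) / 2 ^ j)) ^ 4 :=
    Finset.sum_nonneg fun k _ => by positivity
  positivity

theorem bm_abs_le (x a : ℝ) (ha : 0 < a) : |x| ≤ a + x ^ 4 / a ^ 3 := by
  rcases le_or_gt |x| a with h | h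
  · have : 0 ≤ x ^ 4 / a ^ 3 := by positivity
    linarith
  · have h1 : |x| ≤ x ^ 4 / a ^ 3 := by
      rw [le_div_iff₀ (by positivity)]
      have : x ^ 4 = |x| ^ 4 := by rw [← abs_pow, abs_of_nonneg (by positivity)]
      rw [this, pow_succ' |x| 3]
      exact mul_le_mul_of_nonneg_left (pow_le_pow_left₀ ha.le h.le 3) (abs_nonneg _)
    linarith

theorem bmY_incr (f : ℝ≥0 → ℝ) (j k : ℕ) (hk : k < 2 ^ j) :
    |f ((k + 1 : ℕ) / 2 ^ j) - f ((k : ℕ) / 2 ^ j)| ≤ bmY f j := by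
  unfold bmY
  refine (bm_abs_le _ (2 * (5 / 6) ^ j) (by positivity)).trans ?_
  gcongr
  exact Finset.single_le_sum (f := fun k : ℕ =>
    (f ((k + 1 : ℕ) / 2 ^ j) - f ((k : ℕ) / 2 ^ j)) ^ 4) (fun i _ => by positivity)
    (Finset.mem_range.2 hk)

theorem bm_chain (f : ℝ≥0 → ℝ) (h0 : f 0 = 0) (m : ℕ) : ∀ k : ℕ, k ≤ 2 ^ m →
    |f ((k : ℕ) / 2 ^ m)| ≤ ∑ j ∈ Finset.range (m + 1), bmY f j := by
  induction m with
  | zero =>
    intro k hk
    have hk' : k = 0 ∨ k = 1 := by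
      simp at hk; omega
    rcases hk' with rfl | rfl
    · simp only [Nat.cast_zero, zero_div, h0, abs_zero]
      exact Finset.sum_nonneg fun j _ => bmY_nonneg f j
    · have := bmY_incr f 0 0 (by simp)
      simpa [h0] using this
  | succ m ih =>
    intro k hk
    rw [Finset.sum_range_succ]
    obtain ⟨k', rfl | rfl⟩ := Nat.even_or_odd' k
    · have h1 : (((2 * k' : ℕ) : ℝ≥0) / 2 ^ (m + 1)) = (k' : ℝ≥0) / 2 ^ m := by
        rw [pow_succ]; push_cast; field_simp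
      rw [h1]
      have := ih k' (by rw [pow_succ] at hk; omega)
      linarith [bmY_nonneg f (m + 1)]
    · have h1 : (((2 * k' : ℕ) : ℝ≥0) / 2 ^ (m + 1)) = (k' : ℝ≥0) / 2 ^ m := by
        rw [pow_succ]; push_cast; field_simp
      have h2 := bmY_incr f (m + 1) (2 * k') (by rw [pow_succ] at hk ⊢; omega)
      rw [h1] at h2
      have h3 := ih k' (by rw [pow_succ] at hk; omega)
      have h4 := abs_sub_abs_le_abs_sub (f ((2 * k' + 1 : ℕ) / 2 ^ (m + 1))) (f ((k' : ℕ) / 2 ^ m))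
      linarith

theorem bmY_lintegral {Ω : Type*} [MeasurableSpace Ω] {P : Measure Ω} [IsProbabilityMeasure P]
    {W : ℝ≥0 → Ω → ℝ} (hW : IsPreBrownianReal W P) (hm : ∀ t, Measurable (W t)) (j : ℕ) :
    ∫⁻ ω, ENNReal.ofReal (bmY (fun t => W t ω) j) ∂P ≤
      ENNReal.ofReal (2 * (5 / 6) ^ j + 23 / 8 * (108 / 125) ^ j) := by
  have hv : (0 : ℝ≥0) < 1 / 2 ^ j := by positivity
  have hlaw : ∀ k : ℕ, HasLaw (fun ω => W ((k + 1 : ℕ) / 2 ^ j) ω - W ((k : ℕ) / 2 ^ j) ω)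
      (gaussianReal 0 (1 / 2 ^ j)) P := by
    intro k
    have h := hW.hasLaw_sub ((k + 1 : ℕ) / 2 ^ j) ((k : ℕ) / 2 ^ j)
    have e : nndist ((((k + 1 : ℕ) : ℝ≥0) / 2 ^ j : ℝ≥0) : ℝ) ((((k : ℕ) : ℝ≥0) / 2 ^ j : ℝ≥0) : ℝ)
        = 1 / 2 ^ j := by
      apply NNReal.eq
      rw [coe_nndist, Real.dist_eq]
      have : ((((k + 1 : ℕ) : ℝ≥0) / 2 ^ j : ℝ≥0) : ℝ) - ((((k : ℕ) : ℝ≥0) / 2 ^ j : ℝ≥0) : ℝ) =
          1 / 2 ^ j := by
        push_cast; field_simp; ring
      rw [this, abs_of_pos (by positivity)]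
      push_cast; rfl
    have h' : HasLaw (W ((k + 1 : ℕ) / 2 ^ j) - W ((k : ℕ) / 2 ^ j))
      (gaussianReal 0 (1 / 2 ^ j)) P := by
      rw [← e]; exact h
    exact h'
  have h4 : ∀ k : ℕ, ∫⁻ ω, ENNReal.ofReal
      ((W ((k + 1 : ℕ) / 2 ^ j) ω - W ((k : ℕ) / 2 ^ j) ω) ^ 4) ∂P ≤
      ENNReal.ofReal (23 * (1 / 2 ^ j) ^ 2) := by
    intro k
    have := bm_fourth (hlaw k) hv
    simpa using this
  generalize ha : (2 * (5 / 6) ^ j : ℝ) = a
  have ha0 : (0 : ℝ) < a := by rw [← ha]; positivity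
  have e1 : ∀ ω, ENNReal.ofReal (bmY (fun t => W t ω) j) =
      ENNReal.ofReal a + ENNReal.ofReal (a ^ 3)⁻¹ *
        ∑ k ∈ Finset.range (2 ^ j), ENNReal.ofReal
          ((W ((k + 1 : ℕ) / 2 ^ j) ω - W ((k : ℕ) / 2 ^ j) ω) ^ 4) := by
    intro ω
    have h0 : 0 ≤ ∑ k ∈ Finset.range (2 ^ j),
        (W ((k + 1 : ℕ) / 2 ^ j) ω - W ((k : ℕ) / 2 ^ j) ω) ^ 4 :=
      Finset.sum_nonneg fun k _ => by positivity
    unfold bmY
    rw [ha, ENNReal.ofReal_add ha0.le (by positivity), div_eq_inv_mul,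
      ENNReal.ofReal_mul (by positivity), ENNReal.ofReal_sum_of_nonneg (fun k _ => by positivity)]
  simp_rw [e1]
  rw [lintegral_add_left measurable_const, lintegral_const, lintegral_const_mul,
    lintegral_finsetSum]
  · simp only [measure_univ, mul_one]
    calc ENNReal.ofReal a + ENNReal.ofReal (a ^ 3)⁻¹ * ∑ k ∈ Finset.range (2 ^ j),
          ∫⁻ ω, ENNReal.ofReal ((W ((k + 1 : ℕ) / 2 ^ j) ω - W ((k : ℕ) / 2 ^ j) ω) ^ 4) ∂P
        ≤ ENNReal.ofReal a + ENNReal.ofReal (a ^ 3)⁻¹ * ∑ k ∈ Finset.range (2 ^ j),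
          ENNReal.ofReal (23 * (1 / 2 ^ j) ^ 2) := by
          gcongr with k _
          exact h4 k
      _ = ENNReal.ofReal (a + (a ^ 3)⁻¹ * (2 ^ j * (23 * (1 / 2 ^ j) ^ 2))) := by
          have hq : (((2 ^ j : ℕ) : ℝ≥0∞)) * ENNReal.ofReal (23 * (1 / 2 ^ j) ^ 2) =
              ENNReal.ofReal (2 ^ j * (23 * (1 / 2 ^ j) ^ 2)) := by
            rw [ENNReal.ofReal_mul (show (0 : ℝ) ≤ 2 ^ j by positivity),
              ENNReal.ofReal_pow (by norm_num)]
            congr 1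
            push_cast
            norm_num
          rw [ENNReal.ofReal_add ha0.le (by positivity),
            ENNReal.ofReal_mul (show 0 ≤ (a ^ 3)⁻¹ by positivity), ← hq,
            Finset.sum_const, Finset.card_range, nsmul_eq_mul]
      _ = ENNReal.ofReal (a + 23 / 8 * (108 / 125) ^ j) := by
          congr 2
          rw [← ha]
          have h1 : ((2 : ℝ) * (5 / 6) ^ j) ^ 3 = 8 * (125 / 216) ^ j := by
            rw [mul_pow, ← pow_mul, mul_comm j 3, pow_mul]; norm_num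
          have h2 : ((108 : ℝ) / 125) ^ j = (216 / 125) ^ j * (1 / 2) ^ j := by
            rw [← mul_pow]; norm_num
          have h3 : ((216 : ℝ) / 125) ^ j = ((125 / 216) ^ j)⁻¹ := by
            rw [← inv_pow]; norm_num
          have h4 : ((1 : ℝ) / 2) ^ j = (2 ^ j)⁻¹ := by rw [← inv_pow]; norm_num
          rw [h1, h2, h3, h4]
          field_simp
  · intro k _
    have := hm ((k + 1 : ℕ) / 2 ^ j)
    have := hm ((k : ℕ) / 2 ^ j)
    fun_prop
  · refine Finset.measurable_sum _ fun k _ => ?_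
    have := hm ((k + 1 : ℕ) / 2 ^ j)
    have := hm ((k : ℕ) / 2 ^ j)
    fun_prop

theorem bmY_measurable {Ω : Type*} [MeasurableSpace Ω]
    {W : ℝ≥0 → Ω → ℝ} (hm : ∀ t, Measurable (W t)) (j : ℕ) :
    Measurable fun ω => bmY (fun t => W t ω) j := by
  unfold bmY
  refine Measurable.const_add (Measurable.div_const (Finset.measurable_sum _ fun k _ => ?_) _) _
  have := hm ((k + 1 : ℕ) / 2 ^ j)
  have := hm ((k : ℕ) / 2 ^ j)
  fun_prop

theorem bm_sup {Ω : Type*} [MeasurableSpace Ω] {P : Measure Ω} [IsProbabilityMeasure P]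
    {W : ℝ≥0 → Ω → ℝ} (hW : IsPreBrownianReal W P) (hm : ∀ t, Measurable (W t))
    (h0 : ∀ ω, W 0 ω = 0) :
    ∃ Y : Ω → ℝ≥0∞, Measurable Y ∧ ∫⁻ ω, Y ω ∂P ≤ ENNReal.ofReal 49 ∧
      ∀ ω p, ENNReal.ofReal |W (bmDy p) ω| ≤ Y ω := by
  refine ⟨fun ω => ∑' j, ENNReal.ofReal (bmY (fun t => W t ω) j), ?_, ?_, ?_⟩
  · exact Measurable.tsum fun j => (bmY_measurable hm j).ennreal_ofReal
  · rw [lintegral_tsum fun j => (bmY_measurable hm j).ennreal_ofReal.aemeasurable]
    have hs1 : HasSum (fun j : ℕ => 2 * (5 / 6 : ℝ) ^ j + 23 / 8 * (108 / 125) ^ j)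
        (2 * (1 - 5 / 6)⁻¹ + 23 / 8 * (1 - 108 / 125)⁻¹) :=
      ((hasSum_geometric_of_lt_one (by norm_num) (by norm_num)).mul_left _).add
        ((hasSum_geometric_of_lt_one (by norm_num) (by norm_num)).mul_left _)
    calc ∑' j, ∫⁻ ω, ENNReal.ofReal (bmY (fun t => W t ω) j) ∂P
        ≤ ∑' j : ℕ, ENNReal.ofReal (2 * (5 / 6) ^ j + 23 / 8 * (108 / 125) ^ j) :=
          ENNReal.tsum_le_tsum fun j => bmY_lintegral hW hm j
      _ = ENNReal.ofReal (2 * (1 - 5 / 6)⁻¹ + 23 / 8 * (1 - 108 / 125)⁻¹) := by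
          rw [← ENNReal.ofReal_tsum_of_nonneg (fun j => by positivity) hs1.summable, hs1.tsum_eq]
      _ ≤ ENNReal.ofReal 49 := ENNReal.ofReal_le_ofReal (by norm_num)
  · rintro ω ⟨m, k⟩
    have key : ∀ k : ℕ, k ≤ 2 ^ m → ENNReal.ofReal |W ((k : ℕ) / 2 ^ m) ω| ≤
        ∑' j, ENNReal.ofReal (bmY (fun t => W t ω) j) := by
      intro k hk
      calc ENNReal.ofReal |W ((k : ℕ) / 2 ^ m) ω|
          ≤ ENNReal.ofReal (∑ j ∈ Finset.range (m + 1), bmY (fun t => W t ω) j) :=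
            ENNReal.ofReal_le_ofReal (bm_chain (fun t => W t ω) (h0 ω) m k hk)
        _ = ∑ j ∈ Finset.range (m + 1), ENNReal.ofReal (bmY (fun t => W t ω) j) :=
            ENNReal.ofReal_sum_of_nonneg fun j _ => bmY_nonneg _ j
        _ ≤ _ := ENNReal.sum_le_tsum _
    unfold bmDy
    rcases le_total k (2 ^ m) with h | h
    · rw [min_eq_left]
      · exact key k h
      · simp only
        rw [div_le_one (by positivity)]
        exact_mod_cast h
    · rw [min_eq_right]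
      · have := key (2 ^ m) le_rfl
        simpa using this
      · simp only
        rw [one_le_div (by positivity)]
        exact_mod_cast h


theorem bmDy_le_one (p : ℕ × ℕ) : bmDy p ≤ 1 := min_le_right _ _

theorem bm_tendsto {s : ℝ} (h0 : 0 ≤ s) (h1 : s ≤ 1) :
    Tendsto (fun m : ℕ => ((bmDy (m, ⌊s * 2 ^ m⌋₊) : ℝ≥0) : ℝ)) atTop (𝓝 s) := by
  have h2 : Tendsto (fun m : ℕ => (2 : ℝ) ^ m) atTop atTop :=
    tendsto_pow_atTop_atTop_of_one_lt (by norm_num)
  have h3 := (tendsto_nat_floor_mul_div_atTop h0).comp h2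
  refine h3.congr fun m => ?_
  simp only [Function.comp_apply, bmDy]
  rw [min_eq_left]
  · push_cast; rfl
  · rw [div_le_one (by positivity)]
    have : ((⌊s * 2 ^ m⌋₊ : ℕ) : ℝ) ≤ 2 ^ m := by
      refine (Nat.floor_le (by positivity)).trans ?_
      nlinarith [show (0 : ℝ) < 2 ^ m by positivity]
    exact_mod_cast this

theorem bm_iSup (g : ℝ → ℝ) (hg : Continuous g) :
    ⨆ s : Set.Icc (0 : ℝ) 1, |g s| = ⨆ p : ℕ × ℕ, |g (bmDy p)| := by
  obtain ⟨C, hC⟩ := isCompact_Icc.exists_bound_of_continuousOn (s := Set.Icc (0 : ℝ) 1)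
    hg.continuousOn
  have hdy : ∀ p : ℕ × ℕ, ((bmDy p : ℝ≥0) : ℝ) ∈ Set.Icc (0 : ℝ) 1 := fun p =>
    ⟨NNReal.coe_nonneg _, by exact_mod_cast bmDy_le_one p⟩
  have hb1 : BddAbove (Set.range fun s : Set.Icc (0 : ℝ) 1 => |g s|) :=
    ⟨C, by rintro _ ⟨s, rfl⟩; exact hC s s.2⟩
  have hb2 : BddAbove (Set.range fun p : ℕ × ℕ => |g (bmDy p)|) :=
    ⟨C, by rintro _ ⟨p, rfl⟩; exact hC _ (hdy p)⟩
  apply le_antisymm
  · have : Nonempty (Set.Icc (0 : ℝ) 1) := ⟨⟨0, by simp⟩⟩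
    refine ciSup_le fun s => ?_
    have ht : Tendsto (fun m : ℕ => |g (bmDy (m, ⌊(s : ℝ) * 2 ^ m⌋₊) : ℝ≥0)|) atTop (𝓝 |g s|) :=
      ((continuous_abs.comp hg).tendsto _).comp (bm_tendsto s.2.1 s.2.2)
    exact le_of_tendsto ht (Eventually.of_forall fun m => le_ciSup hb2 _)
  · exact ciSup_le fun p => le_ciSup hb1 ⟨_, hdy p⟩

section BM
variable {α : ℝ} {Ω Ω' : Type} [MeasurableSpace Ω] [MeasurableSpace Ω'] {P : Measure Ω}
  {P' : Measure Ω'} [IsProbabilityMeasure P] [IsProbabilityMeasure P'] (M : Model α P P')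

/-- the environment read off the Brownian path with drift `h`, `θ = lam⁻²` -/
noncomputable def env (lam h : ℝ) (ω : Ω) : Env := fun n =>
  (lam * (M.y h ((lam ^ 2)⁻¹ * (n + 1)) ω - M.y h ((lam ^ 2)⁻¹ * n) ω),
    2 * lam * M.osc h (lam ^ 2)⁻¹ n ω)

/-- the functional of the dyadic increments giving the environment -/
noncomputable def bmF (lam γ : ℝ) (v : ℕ × ℕ → ℝ) : ℝ × ℝ :=
  (lam * v (0, 1) + γ, 2 * lam * ⨆ p, |v p + γ * lam * ((lam ^ 2)⁻¹ * bmDy p)|)

theorem bmF_measurable (lam γ : ℝ) : Measurable (bmF lam γ) := by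
  unfold bmF
  refine Measurable.prodMk (by fun_prop) (Measurable.const_mul (Measurable.iSup fun p => ?_) _)
  exact ((measurable_pi_apply p).add_const _).abs

/-- dyadic increments of the Brownian path in the `n`-th window -/
noncomputable def bmV (θ : ℝ≥0) (n : ℕ) (p : ℕ × ℕ) (ω : Ω) : ℝ :=
  M.B (θ * n + θ * bmDy p) ω - M.B (θ * n) ω

theorem bmV_measurable (θ : ℝ≥0) (n : ℕ) (p : ℕ × ℕ) : Measurable (bmV M θ n p) :=
  (M.measurable_B _).sub (M.measurable_B _)

theorem env_eq {lam : ℝ} (hlam : 0 < lam) (γ : ℝ) (ω : Ω) (n : ℕ) :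
    env M lam (γ * lam) ω n =
      bmF lam γ (fun p => bmV M (lam ^ 2)⁻¹.toNNReal n p ω) := by
  have hθ : (0 : ℝ) ≤ (lam ^ 2)⁻¹ := by positivity
  unfold env bmF bmV
  have hB : ∀ s : ℝ, 0 ≤ s → M.B ((lam ^ 2)⁻¹ * (n + s)).toNNReal ω =
      M.B ((lam ^ 2)⁻¹.toNNReal * n + (lam ^ 2)⁻¹.toNNReal * s.toNNReal) ω := by
    intro s hs
    congr 1
    rw [← mul_add, Real.toNNReal_mul hθ, Real.toNNReal_add (by positivity) hs,
      Real.toNNReal_natCast]
  have hB0 : M.B ((lam ^ 2)⁻¹ * n).toNNReal ω = M.B ((lam ^ 2)⁻¹.toNNReal * n) ω := by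
    congr 1
    rw [Real.toNNReal_mul hθ, Real.toNNReal_natCast]
  have e1 : bmDy (0, 1) = (1 : ℝ).toNNReal := by simp [bmDy]
  refine Prod.ext ?_ ?_
  · simp only [Model.y]
    rw [hB 1 (by norm_num), hB0, e1]
    field_simp
    ring
  · simp only [Model.osc]
    congr 1
    have hc : Continuous fun s : ℝ => M.y (γ * lam) ((lam ^ 2)⁻¹ * (n + s)) ω -
        M.y (γ * lam) ((lam ^ 2)⁻¹ * n) ω := by
      unfold Model.y
      have := (M.continuous_B ω).comp continuous_real_toNNReal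
      have h2 : Continuous fun s : ℝ => M.B ((lam ^ 2)⁻¹ * (n + s)).toNNReal ω :=
        this.comp (by fun_prop : Continuous fun s : ℝ => (lam ^ 2)⁻¹ * (n + s))
      fun_prop
    rw [bm_iSup _ hc]
    refine congrArg _ (funext fun p => ?_)
    simp only [Model.y]
    rw [hB _ (NNReal.coe_nonneg _), hB0, Real.toNNReal_coe]
    congr 1
    ring

theorem bmV_indep (θ : ℝ≥0) : iIndepFun (fun n ω p => bmV M θ n p ω) P := by
  have hB := M.brownian.toIsPreBrownianReal
  apply IsGaussianProcess.iIndepFun_of_covariance_eq_zero (X := fun n p => bmV M θ n p)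
  · apply hB.isGaussianProcess.of_isGaussianProcess
    rintro ⟨n, p⟩
    exact ⟨{θ * n, θ * n + θ * bmDy p},
        { toFun x := x ⟨θ * n + θ * bmDy p, by simp⟩ - x ⟨θ * n, by simp⟩
          map_add' x y := by simp; abel
          map_smul' c x := by simp; ring }, by simp [bmV]⟩
  · intro n p
    exact (bmV_measurable M θ n p).aemeasurable
  · intro n m hnm p q
    wlog h : n < m generalizing n m p q
    · rw [covariance_comm]
      exact this m n hnm.symm q p (by omega)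
    have hL : ∀ t, MemLp (M.B t) 2 P := fun t => (hB.isGaussianProcess.hasGaussianLaw_eval t).memLp_two
    have h1 : θ * (n : ℝ≥0) + θ * bmDy p ≤ θ * m := by
      rw [← mul_add]
      refine mul_le_mul_right ?_ θ
      have h2 : ((n : ℝ≥0)) + 1 ≤ m := by exact_mod_cast h
      exact (add_le_add_right (bmDy_le_one p) _).trans h2
    have h2 : θ * (n : ℝ≥0) ≤ θ * n + θ * bmDy p := le_self_add
    have h3 : θ * (m : ℝ≥0) ≤ θ * m + θ * bmDy q := le_self_add
    change cov[M.B (θ * n + θ * bmDy p) - M.B (θ * n), M.B (θ * m + θ * bmDy q) - M.B (θ * m); P] = 0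
    rw [covariance_sub_left (hL _) (hL _) ((hL _).sub (hL _)),
      covariance_sub_right (hL _) (hL _) (hL _), covariance_sub_right (hL _) (hL _) (hL _),
      hB.covariance_eval, hB.covariance_eval, hB.covariance_eval, hB.covariance_eval,
      min_eq_left (h1.trans h3), min_eq_left h1, min_eq_left (h2.trans (h1.trans h3)),
      min_eq_left (h2.trans h1)]
    simp

theorem bmV_law (θ : ℝ≥0) (n : ℕ) :
    P.map (fun ω p => bmV M θ n p ω) = P.map (fun ω p => bmV M θ 0 p ω) := by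
  have hB := M.brownian.toIsPreBrownianReal
  have hmm : ∀ a : ℝ≥0, Measurable fun ω (t : ℝ≥0) => M.B (a + t) ω - M.B a ω := fun a =>
    measurable_pi_lambda _ fun t => (M.measurable_B _).sub (M.measurable_B _)
  have key : P.map (fun ω (t : ℝ≥0) => M.B (θ * n + t) ω - M.B (θ * n) ω) =
      P.map (fun ω (t : ℝ≥0) => M.B (θ * (0 : ℕ) + t) ω - M.B (θ * (0 : ℕ)) ω) := by
    rw [map_eq_iff_forall_finset_map_restrict_eq (X := fun t ω => M.B (θ * n + t) ω - M.B (θ * n) ω)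
      (Y := fun t ω => M.B (θ * (0 : ℕ) + t) ω - M.B (θ * (0 : ℕ)) ω)
      (hmm _).aemeasurable (hmm _).aemeasurable]
    intro I
    rw [((hB.shift (θ * n)).hasLaw I).map_eq, ((hB.shift (θ * (0 : ℕ))).hasLaw I).map_eq]
  have hg : Measurable fun (b : ℝ≥0 → ℝ) (p : ℕ × ℕ) => b (θ * bmDy p) :=
    measurable_pi_lambda _ fun p => measurable_pi_apply _
  have := congrArg (Measure.map fun (b : ℝ≥0 → ℝ) (p : ℕ × ℕ) => b (θ * bmDy p)) key
  rw [Measure.map_map hg (hmm _), Measure.map_map hg (hmm _)] at this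
  exact this

theorem env_measurable {lam : ℝ} (hlam : 0 < lam) (γ : ℝ) :
    Measurable (env M lam (γ * lam)) := by
  refine measurable_pi_lambda _ fun n => ?_
  simp_rw [env_eq M hlam γ]
  exact (bmF_measurable lam γ).comp (measurable_pi_lambda _ fun p => bmV_measurable M _ n p)


theorem bm_osc_bound {lam : ℝ} (hlam : 0 < lam) {γ : ℝ} (hγ : 0 < γ) (hγ1 : γ ≤ 1) :
    ∫⁻ ω, ENNReal.ofReal (env M lam (γ * lam) ω 0).2 ∂P ≤ ENNReal.ofReal 100 := by
  have hB := M.brownian.toIsPreBrownianReal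
  set θ : ℝ≥0 := (lam ^ 2)⁻¹.toNNReal with hθ
  have hθ0 : θ ≠ 0 := by
    rw [hθ]; simp only [ne_eq, Real.toNNReal_eq_zero, not_le]; positivity
  have hθc : (θ : ℝ) = (lam ^ 2)⁻¹ := Real.coe_toNNReal _ (by positivity)
  have hsq : (√(θ : ℝ))⁻¹ = lam := by
    rw [hθc, Real.sqrt_inv, Real.sqrt_sq hlam.le, inv_inv]
  obtain ⟨Y, hY, hY49, hYb⟩ := bm_sup (W := fun t ω => (√(θ : ℝ))⁻¹ * (M.B (0 + θ * t) ω - M.B 0 ω))
    ((hB.shift 0).smul hθ0) (fun t => ((M.measurable_B _).sub (M.measurable_B _)).const_mul _)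
    (fun ω => by simp)
  rw [hsq] at hYb
  have hpt : ∀ ω, ENNReal.ofReal (env M lam (γ * lam) ω 0).2 ≤ 2 * (Y ω + 1) := by
    intro ω
    rcases eq_or_ne (Y ω) ⊤ with h | h
    · rw [h]; simp
    · have hW : ∀ p, |lam * (M.B (0 + θ * bmDy p) ω - M.B 0 ω)| ≤ (Y ω).toReal := fun p =>
        (ENNReal.ofReal_le_iff_le_toReal h).1 (hYb ω p)
      have h2 : (env M lam (γ * lam) ω 0).2 ≤ 2 * ((Y ω).toReal + 1) := by
        rw [env_eq M hlam γ]
        simp only [bmF, bmV, Nat.cast_zero, mul_zero]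
        rw [mul_assoc]
        refine mul_le_mul_of_nonneg_left ?_ (by norm_num)
        rw [← le_div_iff₀' hlam]
        refine ciSup_le fun p => ?_
        rw [le_div_iff₀' hlam, ← abs_of_pos hlam, ← abs_mul, abs_of_pos hlam, mul_add]
        refine (abs_add_le _ _).trans (add_le_add (hW p) ?_)
        have : lam * (γ * lam * ((lam ^ 2)⁻¹ * (bmDy p : ℝ))) = γ * bmDy p := by
          field_simp
        rw [this, abs_of_nonneg (by positivity)]
        have h1 : ((bmDy p : ℝ≥0) : ℝ) ≤ 1 := by exact_mod_cast bmDy_le_one p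
        nlinarith [NNReal.coe_nonneg (bmDy p)]
      refine (ENNReal.ofReal_le_ofReal h2).trans ?_
      rw [ENNReal.ofReal_mul (by norm_num), ENNReal.ofReal_add ENNReal.toReal_nonneg (by norm_num),
        ENNReal.ofReal_toReal h]
      simp
  calc ∫⁻ ω, ENNReal.ofReal (env M lam (γ * lam) ω 0).2 ∂P
      ≤ ∫⁻ ω, 2 * (Y ω + 1) ∂P := lintegral_mono hpt
    _ = 2 * (∫⁻ ω, Y ω ∂P + 1) := by
        have hY1 : Measurable fun ω => Y ω + 1 := hY.add_const 1
        rw [lintegral_const_mul _ hY1, lintegral_add_left hY]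
        simp
    _ ≤ 2 * (ENNReal.ofReal 49 + 1) := by gcongr
    _ = ENNReal.ofReal 100 := by
        rw [show (100 : ℝ) = 2 * (49 + 1) by norm_num, ENNReal.ofReal_mul (by norm_num),
          ENNReal.ofReal_add (by norm_num) (by norm_num)]
        simp

theorem env_law (γ : ℝ) (hγ : 0 < γ) (hγ1 : γ ≤ 1) {lam : ℝ} (hlam : 0 < lam) :
    ∃ μ : Measure (ℝ × ℝ), IsProbabilityMeasure μ ∧ μ.map Prod.fst = gaussianReal γ 1 ∧
      (∀ᵐ z ∂μ, 0 ≤ z.2) ∧ Integrable (fun z => z.2) μ ∧ ∫ z, z.2 ∂μ ≤ 100 ∧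
      P.map (env M lam (γ * lam)) = nu μ ∧ Measurable (env M lam (γ * lam)) := by
  have hB := M.brownian.toIsPreBrownianReal
  have hmeas := env_measurable M hlam γ
  have hm0 : ∀ n, Measurable fun ω => env M lam (γ * lam) ω n := fun n =>
    measurable_pi_iff.1 hmeas n
  have hpos : ∀ ω, 0 ≤ (env M lam (γ * lam) ω 0).2 := fun ω => by
    unfold env Model.osc
    exact mul_nonneg (by positivity) (Real.iSup_nonneg fun _ => abs_nonneg _)
  have hbd := bm_osc_bound M hlam hγ hγ1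
  have hmz : Measurable fun ω => (env M lam (γ * lam) ω 0).2 := measurable_snd.comp (hm0 0)
  have hint : Integrable (fun ω => (env M lam (γ * lam) ω 0).2) P := by
    refine (lintegral_ofReal_ne_top_iff_integrable hmz.aestronglyMeasurable
      (ae_of_all _ hpos)).1 ?_
    exact ne_top_of_le_ne_top ENNReal.ofReal_ne_top hbd
  refine ⟨P.map fun ω => env M lam (γ * lam) ω 0, Measure.isProbabilityMeasure_map
    (hm0 0).aemeasurable, ?_, ?_, ?_, ?_, ?_, hmeas⟩
  · rw [Measure.map_map measurable_fst (hm0 0)]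
    have h := hB.hasLaw_sub (lam ^ 2)⁻¹.toNNReal 0
    have h2 := gaussianReal_add_const (gaussianReal_const_mul h lam) γ
    have h3 : (Prod.fst ∘ fun ω => env M lam (γ * lam) ω 0) =
        fun ω => lam * (M.B (lam ^ 2)⁻¹.toNNReal - M.B 0) ω + γ := by
      funext ω
      simp only [Function.comp_apply]
      rw [env_eq M hlam γ]
      simp [bmF, bmV, bmDy]
    rw [h3, h2.map_eq]
    congr 1
    · ring
    · apply NNReal.eq
      push_cast
      have hd : dist (((lam ^ 2)⁻¹.toNNReal : ℝ≥0) : ℝ) ((0 : ℝ≥0) : ℝ) = (lam ^ 2)⁻¹ := by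
        rw [Real.dist_eq, NNReal.coe_zero, sub_zero, Real.coe_toNNReal _ (by positivity),
          abs_of_pos (by positivity)]
      refine (congrArg (fun x => lam ^ 2 * x) hd).trans ?_
      field_simp
  · refine (ae_map_iff (hm0 0).aemeasurable ?_).2 (ae_of_all _ hpos)
    exact measurableSet_le measurable_const measurable_snd
  · exact (integrable_map_measure measurable_snd.aestronglyMeasurable (hm0 0).aemeasurable).2 hint
  · rw [integral_map (hm0 0).aemeasurable measurable_snd.aestronglyMeasurable,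
      integral_eq_lintegral_of_nonneg_ae (ae_of_all _ hpos) hmz.aestronglyMeasurable]
    exact ENNReal.toReal_le_of_le_ofReal (by norm_num) hbd
  · have hind := (bmV_indep M (lam ^ 2)⁻¹.toNNReal).comp (fun _ => bmF lam γ)
      (fun _ => bmF_measurable lam γ)
    have h1 := iIndepFun.map_fun_eq_infinitePi_map (fun n => (bmF_measurable lam γ).comp
      (measurable_pi_lambda _ fun p => bmV_measurable M (lam ^ 2)⁻¹.toNNReal n p)) hind
    have h2 : (fun ω n => (bmF lam γ ∘ fun ω p => bmV M (lam ^ 2)⁻¹.toNNReal n p ω) ω) =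
        env M lam (γ * lam) := by
      funext ω n
      exact (env_eq M hlam γ ω n).symm
    rw [h2] at h1
    rw [h1]
    unfold nu
    congr 1
    funext n
    have hV : ∀ n, Measurable fun ω p => bmV M (lam ^ 2)⁻¹.toNNReal n p ω := fun n =>
      measurable_pi_lambda _ fun p => bmV_measurable M (lam ^ 2)⁻¹.toNNReal n p
    rw [← Measure.map_map (bmF_measurable lam γ) (hV n), bmV_law,
      Measure.map_map (bmF_measurable lam γ) (hV 0)]
    congr 1
    funext ω
    exact (env_eq M hlam γ ω 0).symm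

end BM
end Pool.Agent.Lib.MP_3d9a2b_pr
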