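import Pool.Agent.Lib.MP_3d9a2b_pr.Wiener

set_option autoImplicit false

namespace Pool.Agent.Lib.MP_3d9a2b_pr

open MeasureTheory ProbabilityTheory Filter Topology
open scoped NNReal ENNReal

namespace Model

variable {α : ℝ} {Ω Ω' : Type} [MeasurableSpace Ω] [mΩ' : MeasurableSpace Ω'] {P : Measure Ω}
  {P' : Measure Ω'} (M : Model α P P')

/-! ### The bits -/

theorem fair' [IsProbabilityMeasure P'] (n : ℕ) (b : Bool) : P' (M.ξ n ⁻¹' {b}) = 1 / 2 := by
  have hm : MeasurableSet (M.ξ n ⁻¹' {true}) := M.measurable_ξ n (MeasurableSet.of_discrete)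
  have h : P' (M.ξ n ⁻¹' {true}) = 1 / 2 := M.fair n
  cases b
  · have h1 : M.ξ n ⁻¹' {false} = (M.ξ n ⁻¹' {true})ᶜ := by
      ext ω
      simp
    rw [h1, prob_compl_eq_one_sub hm, h]
    simp
  · exact h

theorem bits [IsProbabilityMeasure P'] (S : Finset ℕ) (a : ℕ → Bool) :
    P' {ω' | ∀ j ∈ S, M.ξ j ω' = a j} = (1 / 2 : ℝ≥0∞) ^ S.card := by
  have h := M.iIndep_ξ.measure_inter_preimage_eq_mul S (sets := fun j => {a j})
    (fun j _ => MeasurableSet.of_discrete)
  have h1 : {ω' | ∀ j ∈ S, M.ξ j ω' = a j} = ⋂ j ∈ S, M.ξ j ⁻¹' {a j} := by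
    ext ω
    simp
  rw [h1, h, Finset.prod_congr rfl (fun j _ => M.fair' j (a j)), Finset.prod_const]

theorem bits_real [IsProbabilityMeasure P'] (S : Finset ℕ) (a : ℕ → Bool) :
    P'.real {ω' | ∀ j ∈ S, M.ξ j ω' = a j} = (1 / 2 : ℝ) ^ S.card := by
  rw [measureReal_def, M.bits]
  simp

/-- `1` if the bits with indices `m 0, ..., m (k - 1)` are as prescribed. -/
noncomputable def W (e : ℕ → Bool) (k : ℕ) (m : ℕ → ℕ) (b : ℕ → Bool) : ℝ :=
  ∏ i ∈ Finset.range k, if b (m i) = e i then 1 else 0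

/-- The conditional mean of the bit number `n`. -/
noncomputable def cc (e : ℕ → Bool) (k : ℕ) (m : ℕ → ℕ) (n : ℕ) : ℝ :=
  1 / 2 + ∑ i ∈ Finset.range k, if m i = n then (if e i then (1 / 2 : ℝ) else -(1 / 2)) else 0

theorem W_eq (e : ℕ → Bool) (k : ℕ) (m : ℕ → ℕ) (b : ℕ → Bool) :
    W e k m b = Set.indicator {b : ℕ → Bool | ∀ i < k, b (m i) = e i} (fun _ => (1 : ℝ)) b := by
  classical
  unfold W
  rw [Finset.prod_boole, Set.indicator_apply]
  simp

theorem W_nonneg (e : ℕ → Bool) (k : ℕ) (m : ℕ → ℕ) (b : ℕ → Bool) : 0 ≤ W e k m b :=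
  Finset.prod_nonneg fun i _ => by split_ifs <;> simp

theorem W_le_one (e : ℕ → Bool) (k : ℕ) (m : ℕ → ℕ) (b : ℕ → Bool) : W e k m b ≤ 1 :=
  Finset.prod_le_one (fun i _ => by split_ifs <;> simp) (fun i _ => by split_ifs <;> simp)

/-- The assignment `m i ↦ e i`. -/
theorem exists_assign (e : ℕ → Bool) (k : ℕ) (m : ℕ → ℕ)
    (hm : ∀ i < k, ∀ j < k, m i = m j → i = j) : ∃ a : ℕ → Bool, ∀ i < k, a (m i) = e i := by
  classical
  refine ⟨fun n => decide (∃ i < k, m i = n ∧ e i = true), fun i hi => ?_⟩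
  cases h : e i
  · simp only [decide_eq_false_iff_not, not_exists, not_and]
    intro j hj hji
    rw [hm j hj i hi hji, h]
    simp
  · simp only [decide_eq_true_eq]
    exact ⟨i, hi, rfl, h⟩

theorem integral_W [IsProbabilityMeasure P'] (e : ℕ → Bool) (k : ℕ) (m : ℕ → ℕ)
    (hm : ∀ i < k, ∀ j < k, m i = m j → i = j) :
    ∫ ω', W e k m (fun n => M.ξ n ω') ∂P' = (1 / 2 : ℝ) ^ k := by
  classical
  obtain ⟨a, ha⟩ := exists_assign e k m hm
  have hS : ((Finset.range k).image m).card = k := by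
    rw [Finset.card_image_of_injOn, Finset.card_range]
    intro i hi j hj h
    exact hm i (by simpa using hi) j (by simpa using hj) h
  have h1 : ∀ ω', W e k m (fun n => M.ξ n ω') =
      Set.indicator {ω' | ∀ j ∈ (Finset.range k).image m, M.ξ j ω' = a j}
        (fun _ => (1 : ℝ)) ω' := by
    intro ω'
    rw [W_eq, Set.indicator_apply, Set.indicator_apply]
    congr 1
    simp only [Set.mem_ofPred_eq, Finset.mem_image, Finset.mem_range, forall_exists_index,
      and_imp, forall_apply_eq_imp_iff₂, eq_iff_iff]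
    constructor
    · intro h i hi
      rw [h i hi, ha i hi]
    · intro h i hi
      rw [h i hi, ha i hi]
  simp_rw [h1]
  rw [integral_indicator_const, smul_eq_mul, mul_one, M.bits_real, hS]
  have : {ω' | ∀ j ∈ (Finset.range k).image m, M.ξ j ω' = a j} =
      ⋂ j ∈ (Finset.range k).image m, M.ξ j ⁻¹' {a j} := by
    ext ω
    simp
  rw [this]
  exact Finset.measurableSet_biInter _ fun j _ => M.measurable_ξ j MeasurableSet.of_discrete

theorem integral_W_mul [IsProbabilityMeasure P'] (e : ℕ → Bool) (k : ℕ) (m : ℕ → ℕ)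
    (hm : ∀ i < k, ∀ j < k, m i = m j → i = j) (n : ℕ) :
    ∫ ω', W e k m (fun n => M.ξ n ω') * (if M.ξ n ω' then 1 else 0) ∂P' =
      (1 / 2 : ℝ) ^ k * cc e k m n := by
  classical
  by_cases hn : ∃ i < k, m i = n
  · obtain ⟨i₀, hi₀, hin⟩ := hn
    have hc : cc e k m n = if e i₀ then 1 else 0 := by
      unfold cc
      rw [Finset.sum_eq_single i₀]
      · rw [if_pos hin]
        split_ifs <;> norm_num
      · intro j hj hji
        rw [if_neg]
        intro hjn
        exact hji (hm j (by simpa using hj) i₀ hi₀ (hjn.trans hin.symm))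
      · intro h
        exact absurd (Finset.mem_range.2 hi₀) h
    have h1 : ∀ ω', W e k m (fun n => M.ξ n ω') * (if M.ξ n ω' then 1 else 0) =
        (if e i₀ then 1 else 0) * W e k m (fun n => M.ξ n ω') := by
      intro ω'
      rw [W_eq, Set.indicator_apply]
      split_ifs with h2 h3 h4 h4 h4 h4
      all_goals try simp
      · exact absurd ((h2 i₀ hi₀).symm.trans (by simpa [hin] using h3)) (by simpa using h4)
      · have := h2 i₀ hi₀
        rw [hin] at this
        exact absurd (this.trans h4) h3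
    simp_rw [h1]
    rw [integral_const_mul, M.integral_W e k m hm, hc, mul_comm]
  · have hc : cc e k m n = 1 / 2 := by
      unfold cc
      rw [Finset.sum_eq_zero, add_zero]
      intro i hi
      rw [if_neg]
      intro h
      exact hn ⟨i, by simpa using hi, h⟩
    push Not at hn
    have hm' : ∀ i < k + 1, ∀ j < k + 1, (Function.update m k n) i = (Function.update m k n) j →
        i = j := by
      intro i hi j hj hij
      rcases Nat.lt_succ_iff_lt_or_eq.1 hi with hi' | rfl <;>
        rcases Nat.lt_succ_iff_lt_or_eq.1 hj with hj' | rfl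
      · rw [Function.update_of_ne hi'.ne, Function.update_of_ne hj'.ne] at hij
        exact hm i hi' j hj' hij
      · rw [Function.update_of_ne hi'.ne, Function.update_self] at hij
        exact absurd hij (hn i hi')
      · rw [Function.update_of_ne hj'.ne, Function.update_self] at hij
        exact absurd hij.symm (hn j hj')
      · rfl
    have h2 := M.integral_W (Function.update e k true) (k + 1) (Function.update m k n) hm'
    have h1 : ∀ ω', W (Function.update e k true) (k + 1) (Function.update m k n)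
        (fun n => M.ξ n ω') =
        W e k m (fun n => M.ξ n ω') * (if M.ξ n ω' then 1 else 0) := by
      intro ω'
      unfold W
      rw [Finset.prod_range_succ, Function.update_self, Function.update_self]
      congr 1
      apply Finset.prod_congr rfl
      intro i hi
      have hi' : i ≠ k := (Finset.mem_range.1 hi).ne
      rw [Function.update_of_ne hi', Function.update_of_ne hi']
    simp_rw [h1] at h2
    rw [h2, hc, pow_succ]

/-! ### Freezing the excursions -/

theorem indepFun_of_measurable {𝒱 : Type*} [MeasurableSpace 𝒱] (X : Ω' → 𝒱)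
    (hX : Measurable[M.𝒢] X) : IndepFun X (fun ω' n => M.ξ n ω') P' := by
  rw [IndepFun_iff_Indep]
  exact indep_of_indep_of_le_left M.indep_𝒢.symm hX.comap_le

theorem measurable_bits : Measurable (fun (ω' : Ω') (n : ℕ) => M.ξ n ω') :=
  measurable_pi_lambda _ fun n => M.measurable_ξ n

theorem freeze [IsProbabilityMeasure P'] {𝒱 : Type*} [MeasurableSpace 𝒱] (X : Ω' → 𝒱)
    (hX : Measurable[M.𝒢] X) (F : 𝒱 × (ℕ → Bool) → ℝ) (hF : Measurable F)
    (hint : Integrable (fun ω' => F (X ω', fun n => M.ξ n ω')) P') :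
    ∫ ω', F (X ω', fun n => M.ξ n ω') ∂P' =
      ∫ ω', ∫ ω'', F (X ω', fun n => M.ξ n ω'') ∂P' ∂P' := by
  have hXm : Measurable X := hX.mono M.𝒢_le le_rfl
  have hb := M.measurable_bits
  have hmap := (indepFun_iff_map_prod_eq_prod_map_map hXm.aemeasurable hb.aemeasurable).1
    (M.indepFun_of_measurable X hX)
  have hpair : Measurable (fun ω' => (X ω', fun n => M.ξ n ω')) := hXm.prodMk hb
  have h1 : ∫ ω', F (X ω', fun n => M.ξ n ω') ∂P' =
      ∫ z, F z ∂(P'.map (fun ω' => (X ω', fun n => M.ξ n ω'))) := by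
    rw [integral_map hpair.aemeasurable hF.aestronglyMeasurable]
  have hint' : Integrable F ((P'.map X).prod (P'.map fun ω' n => M.ξ n ω')) := by
    rw [← hmap]
    rwa [integrable_map_measure hF.aestronglyMeasurable hpair.aemeasurable]
  rw [h1, hmap, integral_prod _ hint', integral_map hXm.aemeasurable
    hint'.integral_prod_left.aestronglyMeasurable]
  refine integral_congr_ae (ae_of_all _ fun ω' => ?_)
  simp only
  rw [integral_map hb.aemeasurable]
  exact (hF.comp measurable_prodMk_left).aestronglyMeasurable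

theorem measurable_eval : Measurable (fun q : ℕ × (ℕ → Bool) => q.2 q.1) :=
  measurable_from_prod_countable_right fun n => measurable_pi_apply n

theorem measurable_W (e : ℕ → Bool) (k : ℕ) :
    Measurable (fun q : (ℕ → ℕ) × (ℕ → Bool) => W e k q.1 q.2) := by
  unfold W
  apply Finset.measurable_prod
  intro i _
  have h0 : Measurable (fun q : (ℕ → ℕ) × (ℕ → Bool) => (q.1 i, q.2)) :=
    ((measurable_pi_apply i).comp measurable_fst).prodMk measurable_snd
  have h1 : Measurable (fun q : (ℕ → ℕ) × (ℕ → Bool) => q.2 (q.1 i)) :=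
    Measurable.comp (g := fun q : ℕ × (ℕ → Bool) => q.2 q.1) measurable_eval h0
  exact (measurable_of_countable (fun b : Bool => if b = e i then (1 : ℝ) else 0)).comp h1

/-- Freezing lemma, without an extra bit. -/
theorem integral_mul_W [IsProbabilityMeasure P'] (e : ℕ → Bool) (k : ℕ) (f : Ω' → ℝ)
    (m : Ω' → ℕ → ℕ) (hf : Measurable[M.𝒢] f) (hm : Measurable[M.𝒢] m)
    (hfi : Integrable f P')
    (hinj : ∀ ω', f ω' ≠ 0 → ∀ i < k, ∀ j < k, m ω' i = m ω' j → i = j) :
    ∫ ω', f ω' * W e k (m ω') (fun n => M.ξ n ω') ∂P' = (1 / 2 : ℝ) ^ k * ∫ ω', f ω' ∂P' := by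
  have hX : Measurable[M.𝒢] (fun ω' => (f ω', m ω')) := hf.prodMk hm
  have hF : Measurable (fun q : (ℝ × (ℕ → ℕ)) × (ℕ → Bool) => q.1.1 * W e k q.1.2 q.2) := by
    apply Measurable.mul
    · exact measurable_fst.comp measurable_fst
    · exact (measurable_W e k).comp ((measurable_snd.comp measurable_fst).prodMk measurable_snd)
  have hWm : Measurable (fun ω' => W e k (m ω') (fun n => M.ξ n ω')) :=
    (measurable_W e k).comp ((hm.mono M.𝒢_le le_rfl).prodMk M.measurable_bits)
  have hint : Integrable (fun ω' => f ω' * W e k (m ω') (fun n => M.ξ n ω')) P' := by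
    refine hfi.mul_bdd (c := 1) hWm.aestronglyMeasurable (ae_of_all _ fun ω' => ?_)
    rw [Real.norm_eq_abs, abs_of_nonneg (W_nonneg _ _ _ _)]
    exact W_le_one _ _ _ _
  have h := M.freeze (fun ω' => (f ω', m ω')) hX
    (fun q : (ℝ × (ℕ → ℕ)) × (ℕ → Bool) => q.1.1 * W e k q.1.2 q.2) hF hint
  simp only at h
  rw [h, ← integral_const_mul]
  refine integral_congr_ae (ae_of_all _ fun ω' => ?_)
  simp only
  rw [integral_const_mul]
  by_cases hf0 : f ω' = 0
  · rw [hf0]; ring
  · rw [M.integral_W e k (m ω') (hinj ω' hf0)]; ring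

/-- Freezing lemma, with an extra bit. -/
theorem integral_mul_W_mul [IsProbabilityMeasure P'] (e : ℕ → Bool) (k : ℕ) (n : ℕ) (f : Ω' → ℝ)
    (m : Ω' → ℕ → ℕ) (hf : Measurable[M.𝒢] f) (hm : Measurable[M.𝒢] m)
    (hfi : Integrable f P')
    (hinj : ∀ ω', f ω' ≠ 0 → ∀ i < k, ∀ j < k, m ω' i = m ω' j → i = j) :
    ∫ ω', f ω' * (W e k (m ω') (fun n => M.ξ n ω') * (if M.ξ n ω' then 1 else 0)) ∂P' =
      (1 / 2 : ℝ) ^ k * ∫ ω', f ω' * cc e k (m ω') n ∂P' := by
  have hX : Measurable[M.𝒢] (fun ω' => (f ω', m ω')) := hf.prodMk hm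
  have hbit : Measurable (fun b : ℕ → Bool => if b n then (1 : ℝ) else 0) :=
    (measurable_of_countable (fun b : Bool => if b then (1 : ℝ) else 0)).comp
      (measurable_pi_apply n)
  have hF : Measurable (fun q : (ℝ × (ℕ → ℕ)) × (ℕ → Bool) =>
      q.1.1 * (W e k q.1.2 q.2 * (if q.2 n then 1 else 0))) := by
    apply Measurable.mul
    · exact measurable_fst.comp measurable_fst
    · apply Measurable.mul
      · exact (measurable_W e k).comp ((measurable_snd.comp measurable_fst).prodMk measurable_snd)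
      · exact hbit.comp measurable_snd
  have hWm : Measurable (fun ω' => W e k (m ω') (fun n => M.ξ n ω') *
      (if M.ξ n ω' then (1 : ℝ) else 0)) :=
    ((measurable_W e k).comp ((hm.mono M.𝒢_le le_rfl).prodMk M.measurable_bits)).mul
      (hbit.comp M.measurable_bits)
  have hint : Integrable (fun ω' => f ω' * (W e k (m ω') (fun n => M.ξ n ω') *
      (if M.ξ n ω' then 1 else 0))) P' := by
    refine hfi.mul_bdd (c := 1) hWm.aestronglyMeasurable (ae_of_all _ fun ω' => ?_)
    have h1 := W_nonneg e k (m ω') (fun n => M.ξ n ω')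
    have h2 := W_le_one e k (m ω') (fun n => M.ξ n ω')
    split_ifs
    · rw [mul_one, Real.norm_eq_abs, abs_of_nonneg h1]
      exact h2
    · simp
  have h := M.freeze (fun ω' => (f ω', m ω')) hX (fun q : (ℝ × (ℕ → ℕ)) × (ℕ → Bool) =>
    q.1.1 * (W e k q.1.2 q.2 * (if q.2 n then 1 else 0))) hF hint
  simp only at h
  rw [h, ← integral_const_mul]
  refine integral_congr_ae (ae_of_all _ fun ω' => ?_)
  simp only
  rw [integral_const_mul]
  by_cases hf0 : f ω' = 0
  · rw [hf0]; ring
  · rw [M.integral_W_mul e k (m ω') (hinj ω' hf0)]; ring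

end Model

end Pool.Agent.Lib.MP_3d9a2b_pr
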