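import Mathlib

set_option autoImplicit false

/-!
# The climb lemma

For a function-level random walk `y ↦ y - 2 x`, `x ~ N(γ, 1)`, started at `y₀ < u`, the value of the
search is at least `M - σ * Cr + G * co * exp (-γ (u - y₀))`.
-/

namespace Pool.Agent.Lib.MP_3d9a2b_pr

open MeasureTheory ProbabilityTheory Filter Topology
open scoped NNReal ENNReal

lemma climb_exp (γ t : ℝ) :
    ∫ x, Real.exp (t * x) ∂(gaussianReal γ 1) = Real.exp (γ * t + t ^ 2 / 2) := by
  have h := congrFun (mgf_fun_id_gaussianReal (μ := γ) (v := 1)) t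
  simp only [mgf] at h
  rw [h]; simp

lemma climb_exp_int (γ t : ℝ) : Integrable (fun x => Real.exp (t * x)) (gaussianReal γ 1) :=
  integrable_exp_mul_gaussianReal t

lemma climb_exp_int' (γ t s : ℝ) :
    Integrable (fun x => Real.exp (t * (x + s))) (gaussianReal γ 1) := by
  have : (fun x => Real.exp (t * (x + s))) = fun x => Real.exp (t * s) * Real.exp (t * x) := by
    funext x; rw [← Real.exp_add]; congr 1; ring
  rw [this]
  exact (climb_exp_int γ t).const_mul _

/-- overshoot estimate -/
lemma climb_over (γ : ℝ) (hγ : 0 < γ) (a : ℝ) (ha : 0 ≤ a) :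
    (1 - Real.exp (-16 * γ ^ 2)) *
        ∫ x in Set.Iic (-a), Real.exp (-2 * γ * (x + a)) ∂(gaussianReal γ 1) ≤
      Real.exp (16 * γ ^ 2) * (gaussianReal γ 1).real (Set.Iic (-a)) := by
  set g : ℝ → ℝ := fun x => Real.exp (-2 * γ * (x + a)) with hg
  have hgc : Continuous g := by rw [hg]; fun_prop
  have hint : Integrable g (gaussianReal γ 1) := climb_exp_int' γ _ a
  have hsplit : ∫ x in Set.Iic (-a), g x ∂(gaussianReal γ 1) =
      ∫ x in Set.Iic (-a - 8 * γ), g x ∂(gaussianReal γ 1) +
        ∫ x in Set.Ioc (-a - 8 * γ) (-a), g x ∂(gaussianReal γ 1) := by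
    rw [← setIntegral_union _ measurableSet_Ioc hint.integrableOn hint.integrableOn,
      Set.Iic_union_Ioc_eq_Iic (by linarith)]
    rw [Set.disjoint_left]
    intro x hx hx'
    exact absurd hx'.1 (not_lt.mpr hx)
  have h1 : ∫ x in Set.Ioc (-a - 8 * γ) (-a), g x ∂(gaussianReal γ 1) ≤
      Real.exp (16 * γ ^ 2) * (gaussianReal γ 1).real (Set.Iic (-a)) := by
    calc ∫ x in Set.Ioc (-a - 8 * γ) (-a), g x ∂(gaussianReal γ 1)
        ≤ ∫ x in Set.Ioc (-a - 8 * γ) (-a), Real.exp (16 * γ ^ 2) ∂(gaussianReal γ 1) := by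
          apply setIntegral_mono_on hint.integrableOn (integrable_const _).integrableOn
            measurableSet_Ioc
          intro x hx
          apply Real.exp_le_exp.mpr
          nlinarith [hx.1]
      _ = (gaussianReal γ 1).real (Set.Ioc (-a - 8 * γ) (-a)) * Real.exp (16 * γ ^ 2) := by
          rw [setIntegral_const, smul_eq_mul]
      _ ≤ Real.exp (16 * γ ^ 2) * (gaussianReal γ 1).real (Set.Iic (-a)) := by
          rw [mul_comm]
          apply mul_le_mul_of_nonneg_left _ (Real.exp_pos _).le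
          exact measureReal_mono (fun x hx => hx.2)
  have h2 : ∫ x in Set.Iic (-a - 8 * γ), g x ∂(gaussianReal γ 1) ≤
      Real.exp (-16 * γ ^ 2) * ∫ x in Set.Iic (-a), g x ∂(gaussianReal γ 1) := by
    rw [← integral_indicator measurableSet_Iic, ← integral_indicator measurableSet_Iic,
      integral_gaussianReal_eq_integral_smul one_ne_zero,
      integral_gaussianReal_eq_integral_smul one_ne_zero, ← integral_const_mul,
      ← integral_sub_right_eq_self _ (8 * γ)]
    have hi : ∀ s : Set ℝ, MeasurableSet s →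
        Integrable (fun x => gaussianPDFReal γ 1 x • s.indicator g x) := by
      intro s hs
      have := (hint.indicator hs)
      rw [gaussianReal_of_var_ne_zero _ one_ne_zero, integrable_withDensity_iff_integrable_smul'
        (measurable_gaussianPDF _ _) (ae_of_all _ fun _ => gaussianPDF_lt_top)] at this
      simpa only [toReal_gaussianPDF] using this
    apply integral_mono
    · exact (hi _ measurableSet_Iic).comp_sub_right (8 * γ)
    · exact (hi _ measurableSet_Iic).const_mul _
    · intro x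
      simp only [smul_eq_mul]
      by_cases hx : x ≤ -a
      · have hx' : x - 8 * γ ≤ -a - 8 * γ := by linarith
        rw [Set.indicator_of_mem (show x - 8 * γ ∈ Set.Iic (-a - 8 * γ) from hx'),
          Set.indicator_of_mem (show x ∈ Set.Iic (-a) from hx)]
        simp only [gaussianPDFReal, hg, NNReal.coe_one, mul_one]
        have e1 : (√(2 * Real.pi))⁻¹ * Real.exp (-(x - 8 * γ - γ) ^ 2 / 2) *
            Real.exp (-2 * γ * (x - 8 * γ + a)) =
            (√(2 * Real.pi))⁻¹ * Real.exp (-(x - 8 * γ - γ) ^ 2 / 2 + -2 * γ * (x - 8 * γ + a)) := by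
          rw [Real.exp_add]; ring
        have e2 : Real.exp (-16 * γ ^ 2) * ((√(2 * Real.pi))⁻¹ * Real.exp (-(x - γ) ^ 2 / 2) *
            Real.exp (-2 * γ * (x + a))) =
            (√(2 * Real.pi))⁻¹ *
              Real.exp (-16 * γ ^ 2 + (-(x - γ) ^ 2 / 2 + -2 * γ * (x + a))) := by
          rw [Real.exp_add, Real.exp_add]; ring
        rw [e1, e2]
        apply mul_le_mul_of_nonneg_left _ (by positivity)
        apply Real.exp_le_exp.mpr
        nlinarith
      · have hx' : ¬ x - 8 * γ ≤ -a - 8 * γ := by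
          intro h; exact hx (by linarith)
        rw [Set.indicator_of_notMem (show x - 8 * γ ∉ Set.Iic (-a - 8 * γ) from hx'),
          Set.indicator_of_notMem (show x ∉ Set.Iic (-a) from hx)]
        simp
  rw [sub_mul, one_mul]
  rw [hsplit] at h2 ⊢
  linarith

/-- the overshoot constant -/
noncomputable def climbC (γ : ℝ) : ℝ := Real.exp (-16 * γ ^ 2) * (1 - Real.exp (-16 * γ ^ 2))

lemma climbC_pos {γ : ℝ} (hγ : 0 < γ) : 0 < climbC γ := by
  unfold climbC
  have : Real.exp (-16 * γ ^ 2) < 1 := by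
    rw [Real.exp_lt_one_iff]; nlinarith [sq_pos_of_pos hγ]
  apply mul_pos (Real.exp_pos _)
  linarith

lemma climbC_le {γ : ℝ} : climbC γ ≤ 1 := by
  unfold climbC
  have h1 : Real.exp (-16 * γ ^ 2) ≤ 1 := by
    rw [Real.exp_le_one_iff]; nlinarith [sq_nonneg γ]
  have h0 := Real.exp_pos (-16 * γ ^ 2)
  nlinarith

/-- one step of the truncated exponential -/
lemma climb_psi (γ : ℝ) (hγ : 0 < γ) (u y : ℝ) (hy : y < u) :
    Integrable (fun x => if u ≤ y - 2 * x then (1 : ℝ)
        else climbC γ * Real.exp (γ / 2 * (y - 2 * x - u)) ^ 2) (gaussianReal γ 1) ∧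
    climbC γ * Real.exp (γ / 2 * (y - u)) ^ 2 ≤
      ∫ x, (if u ≤ y - 2 * x then (1 : ℝ)
        else climbC γ * Real.exp (γ / 2 * (y - 2 * x - u)) ^ 2) ∂(gaussianReal γ 1) := by
  set a := (u - y) / 2 with ha
  have ha0 : 0 ≤ a := by rw [ha]; linarith
  set g : ℝ → ℝ := fun x => Real.exp (-2 * γ * (x + a)) with hg
  have hint : Integrable g (gaussianReal γ 1) := climb_exp_int' γ _ a
  have hEq : (fun x => if u ≤ y - 2 * x then (1 : ℝ)
        else climbC γ * Real.exp (γ / 2 * (y - 2 * x - u)) ^ 2) =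
      fun x => climbC γ * g x + (Set.Iic (-a)).indicator (fun x => 1 - climbC γ * g x) x := by
    funext x
    have he : Real.exp (γ / 2 * (y - 2 * x - u)) ^ 2 = g x := by
      rw [hg, ← Real.exp_nat_mul]
      congr 1
      rw [ha]; push_cast; ring
    rw [he]
    by_cases hx : x ≤ -a
    · rw [Set.indicator_of_mem (show x ∈ Set.Iic (-a) from hx), if_pos (by rw [ha] at hx; linarith)]
      ring
    · rw [Set.indicator_of_notMem (show x ∉ Set.Iic (-a) from hx),
        if_neg (by rw [ha] at hx; intro h; exact hx (by linarith))]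
      ring
  have hi1 : Integrable (fun x => climbC γ * g x) (gaussianReal γ 1) := hint.const_mul _
  have hi2 : Integrable (fun x => 1 - climbC γ * g x) (gaussianReal γ 1) :=
    (integrable_const _).sub hi1
  rw [hEq]
  refine ⟨hi1.add (hi2.indicator measurableSet_Iic), ?_⟩
  rw [integral_add hi1 (hi2.indicator measurableSet_Iic), integral_indicator measurableSet_Iic,
    integral_sub (integrable_const _).integrableOn hi1.integrableOn, integral_const_mul,
    integral_const_mul]
  have hg1 : ∫ x, g x ∂(gaussianReal γ 1) = Real.exp (γ / 2 * (y - u)) ^ 2 := by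
    have : g = fun x => Real.exp (-2 * γ * a) * Real.exp ((-2 * γ) * x) := by
      funext x
      rw [hg, ← Real.exp_add]; congr 1; ring
    rw [this, integral_const_mul, climb_exp, ← Real.exp_add, ← Real.exp_nat_mul]
    congr 1
    rw [ha]; push_cast; ring
  rw [hg1]
  have hov := climb_over γ hγ a ha0
  have hone : ∫ x in Set.Iic (-a), (1 : ℝ) ∂(gaussianReal γ 1) =
      (gaussianReal γ 1).real (Set.Iic (-a)) := by
    rw [setIntegral_const, smul_eq_mul, mul_one]
  rw [hone]
  have : climbC γ * ∫ x in Set.Iic (-a), g x ∂(gaussianReal γ 1) ≤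
      (gaussianReal γ 1).real (Set.Iic (-a)) := by
    calc climbC γ * ∫ x in Set.Iic (-a), g x ∂(gaussianReal γ 1)
        = Real.exp (-16 * γ ^ 2) * ((1 - Real.exp (-16 * γ ^ 2)) *
            ∫ x in Set.Iic (-a), g x ∂(gaussianReal γ 1)) := by
          unfold climbC; ring
      _ ≤ Real.exp (-16 * γ ^ 2) *
          (Real.exp (16 * γ ^ 2) * (gaussianReal γ 1).real (Set.Iic (-a))) :=
          mul_le_mul_of_nonneg_left hov (Real.exp_pos _).le
      _ = (gaussianReal γ 1).real (Set.Iic (-a)) := by
          rw [← mul_assoc, ← Real.exp_add]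
          rw [show -16 * γ ^ 2 + 16 * γ ^ 2 = 0 by ring]
          simp
  linarith

theorem climb (γ : ℝ) (hγ : 0 < γ) : ∃ Cr co Cn : ℝ, 0 ≤ Cr ∧ 0 < co ∧ 0 ≤ Cn ∧
    ∀ (k : ℕ → ℝ → ℝ) (M σ G u y₀ : ℝ) (n : ℕ), 0 ≤ σ → 0 ≤ G → y₀ < u →
      (u - y₀) / γ + Cn ≤ n →
      (∀ l < n, ∀ y, Integrable (fun x => k (l + 1) (y - 2 * x)) (gaussianReal γ 1)) →
      (∀ l < n, ∀ y, ∫ x, k (l + 1) (y - 2 * x) ∂(gaussianReal γ 1) ≤ k l y) →
      (∀ l ≤ n, ∀ y, M - σ * l ≤ k l y) →
      (∀ l ≤ n, ∀ y, u ≤ y → M - σ * l + G ≤ k l y) →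
      M - σ * Cr + G * co * Real.exp (- γ * (u - y₀)) ≤ k 0 y₀ := by
  set c0 := climbC γ with hc0
  have hc0pos : 0 < c0 := climbC_pos hγ
  have hc0le : c0 ≤ 1 := climbC_le
  have hγ2 : 0 < γ ^ 2 := by positivity
  set q := Real.exp (-γ ^ 2 / 2) with hq
  have hq0 : 0 < q := Real.exp_pos _
  have hq1 : q < 1 := by
    rw [hq, Real.exp_lt_one_iff]; linarith
  have hlog : Real.log (c0 / 4) ≤ 0 := Real.log_nonpos (by positivity) (by linarith)
  refine ⟨(1 - q)⁻¹ * (4 / c0), c0 / 2, -2 * Real.log (c0 / 4) / γ ^ 2, ?_, by positivity, ?_, ?_⟩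
  · have : 0 < 1 - q := by linarith
    positivity
  · apply div_nonneg _ hγ2.le
    linarith
  intro k M σ G u y₀ n hσ hG hyu hn hint hstep hlow hhigh
  set E : ℝ → ℝ := fun y => Real.exp (γ / 2 * (y - u)) with hE
  have hEpos : ∀ y, 0 < E y := fun y => Real.exp_pos _
  have hE1 : ∀ y, y < u → E y ≤ 1 := by
    intro y hy
    rw [hE]; simp only
    rw [Real.exp_le_one_iff]
    nlinarith
  have hEint : ∀ y, Integrable (fun x => E (y - 2 * x)) (gaussianReal γ 1) := by
    intro y
    have : (fun x => E (y - 2 * x)) =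
        fun x => Real.exp (γ / 2 * (y - u)) * Real.exp ((-γ) * x) := by
      funext x; rw [hE, ← Real.exp_add]; congr 1; ring
    rw [this]
    exact (climb_exp_int γ _).const_mul _
  have hEq : ∀ y, ∫ x, E (y - 2 * x) ∂(gaussianReal γ 1) = q * E y := by
    intro y
    have : (fun x => E (y - 2 * x)) =
        fun x => Real.exp (γ / 2 * (y - u)) * Real.exp ((-γ) * x) := by
      funext x; rw [hE, ← Real.exp_add]; congr 1; ring
    rw [this, integral_const_mul, climb_exp, hq, hE, ← Real.exp_add, ← Real.exp_add]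
    congr 1; ring
  set lam := c0 / 4 * E y₀ with hlam
  have hlampos : 0 < lam := by have := hEpos y₀; positivity
  have h1q : 0 < 1 - q := by linarith
  set Q := (1 - q)⁻¹ with hQ
  have hQpos : 0 < Q := by positivity
  have hQ1 : Q * (1 - q) = 1 := by rw [hQ]; field_simp
  have key : ∀ m l : ℕ, l + m = n → ∀ y < u,
      M - σ * l - σ * (Q * (E y / lam)) + G * (c0 * E y ^ 2 - lam * E y - q ^ m * E y) ≤ k l y := by
    intro m
    induction m with
    | zero =>
      intro l hl y hy
      have h1 := hlow l (by omega) y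
      have h2 : c0 * E y ^ 2 - lam * E y - q ^ 0 * E y ≤ 0 := by
        have e1 := hE1 y hy
        have e0 := hEpos y
        have : c0 * E y ^ 2 ≤ E y := by nlinarith [mul_nonneg hc0pos.le e0.le]
        have : 0 ≤ lam * E y := by positivity
        rw [pow_zero]; linarith
      have h3 : 0 ≤ σ * (Q * (E y / lam)) := by
        have e0 := hEpos y
        positivity
      have h4 : G * (c0 * E y ^ 2 - lam * E y - q ^ 0 * E y) ≤ 0 :=
        mul_nonpos_of_nonneg_of_nonpos hG h2
      linarith
    | succ m ih =>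
      intro l hl y hy
      have e0 := hEpos y
      rcases le_or_gt (E y) lam with hcase | hcase
      · have h1 := hlow l (by omega) y
        have h2 : c0 * E y ^ 2 - lam * E y - q ^ (m + 1) * E y ≤ 0 := by
          have : c0 * E y ^ 2 ≤ lam * E y := by
            nlinarith [mul_nonneg (sub_nonneg.mpr hcase) e0.le, mul_nonneg (sub_nonneg.mpr hc0le) (sq_nonneg (E y))]
          have : 0 ≤ q ^ (m + 1) * E y := by positivity
          linarith
        have h3 : 0 ≤ σ * (Q * (E y / lam)) := by positivity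
        have h4 : G * (c0 * E y ^ 2 - lam * E y - q ^ (m + 1) * E y) ≤ 0 :=
          mul_nonpos_of_nonneg_of_nonpos hG h2
        linarith
      · obtain ⟨hψi, hψ⟩ := climb_psi γ hγ u y hy
        set ψ : ℝ → ℝ := fun x => if u ≤ y - 2 * x then (1 : ℝ)
          else climbC γ * Real.exp (γ / 2 * (y - 2 * x - u)) ^ 2 with hψdef
        have hb : ∀ x, M - σ * ((l + 1 : ℕ) : ℝ) + (G * ψ x -
            (σ * (Q / lam) + G * lam + G * q ^ m) * E (y - 2 * x)) ≤ k (l + 1) (y - 2 * x) := by
          intro x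
          have e1 := hEpos (y - 2 * x)
          by_cases hx : u ≤ y - 2 * x
          · have := hhigh (l + 1) (by omega) (y - 2 * x) hx
            have hψx : ψ x = 1 := by rw [hψdef]; simp only; rw [if_pos hx]
            rw [hψx]
            have : 0 ≤ (σ * (Q / lam) + G * lam + G * q ^ m) * E (y - 2 * x) := by positivity
            linarith
          · have := ih (l + 1) (by omega) (y - 2 * x) (not_le.mp hx)
            have hψx : ψ x = c0 * E (y - 2 * x) ^ 2 := by
              rw [hψdef]; simp only; rw [if_neg hx]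
            rw [hψx]
            refine le_trans (le_of_eq ?_) this
            ring
        have hF : Integrable (fun x => M - σ * ((l + 1 : ℕ) : ℝ) + (G * ψ x -
            (σ * (Q / lam) + G * lam + G * q ^ m) * E (y - 2 * x))) (gaussianReal γ 1) :=
          (integrable_const _).add ((hψi.const_mul _).sub ((hEint y).const_mul _))
        have hmono := integral_mono hF (hint l (by omega) y) hb
        have hval : ∫ x, (M - σ * ((l + 1 : ℕ) : ℝ) + (G * ψ x -
            (σ * (Q / lam) + G * lam + G * q ^ m) * E (y - 2 * x))) ∂(gaussianReal γ 1) =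
            M - σ * ((l + 1 : ℕ) : ℝ) + (G * ∫ x, ψ x ∂(gaussianReal γ 1) -
              (σ * (Q / lam) + G * lam + G * q ^ m) * (q * E y)) := by
          have hi1 : Integrable (fun x => G * ψ x) (gaussianReal γ 1) := hψi.const_mul _
          have hi2 : Integrable (fun x => (σ * (Q / lam) + G * lam + G * q ^ m) * E (y - 2 * x))
              (gaussianReal γ 1) := (hEint y).const_mul _
          have hi3 : Integrable (fun x => G * ψ x -
              (σ * (Q / lam) + G * lam + G * q ^ m) * E (y - 2 * x)) (gaussianReal γ 1) :=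
            hi1.sub hi2
          have hi4 : Integrable (fun _ : ℝ => M - σ * ((l + 1 : ℕ) : ℝ)) (gaussianReal γ 1) :=
            integrable_const _
          rw [integral_add hi4 hi3, integral_sub hi1 hi2, integral_const_mul,
            integral_const_mul, hEq, integral_const]
          simp
        have hk := hstep l (by omega) y
        refine le_trans ?_ (le_trans hmono hk)
        rw [hval]
        have hr : (1 : ℝ) ≤ E y / lam := by rw [le_div_iff₀ hlampos]; linarith
        have hr' : σ ≤ σ * (Q * (1 - q)) * (E y / lam) := by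
          rw [hQ1]; nlinarith
        have hGψ : G * (c0 * E y ^ 2) ≤ G * ∫ x, ψ x ∂(gaussianReal γ 1) :=
          mul_le_mul_of_nonneg_left hψ hG
        have hGl : G * lam * (q * E y) ≤ G * lam * E y := by
          apply mul_le_mul_of_nonneg_left _ (by positivity)
          nlinarith
        have e3 : σ * (Q / lam) * (q * E y) = σ * (Q * (E y / lam)) - σ * (Q * (1 - q)) * (E y / lam) := by
          ring
        have e4 : G * q ^ m * (q * E y) = G * (q ^ (m + 1) * E y) := by ring
        have e5 : (σ * (Q / lam) + G * lam + G * q ^ m) * (q * E y) =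
            σ * (Q / lam) * (q * E y) + G * lam * (q * E y) + G * q ^ m * (q * E y) := by ring
        rw [e5, e3, e4]
        have e6 : σ * ((l + 1 : ℕ) : ℝ) = σ * l + σ := by push_cast; ring
        have e7 : G * (c0 * E y ^ 2 - lam * E y - q ^ (m + 1) * E y) =
            G * (c0 * E y ^ 2) - G * lam * E y - G * (q ^ (m + 1) * E y) := by ring
        rw [e6, e7]
        linarith
  have hfin := key n 0 (by omega) y₀ hyu
  refine le_trans ?_ hfin
  have e0 := hEpos y₀
  have h1 : E y₀ / lam = 4 / c0 := by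
    rw [hlam]; field_simp
  have h2 : q ^ n ≤ c0 / 4 * E y₀ := by
    have e1 : q ^ n = Real.exp (-γ ^ 2 / 2 * n) := by
      rw [hq, ← Real.exp_nat_mul]; congr 1; ring
    have e2 : c0 / 4 * E y₀ = Real.exp (Real.log (c0 / 4) + γ / 2 * (y₀ - u)) := by
      rw [Real.exp_add, Real.exp_log (by positivity)]
    rw [e1, e2]
    apply Real.exp_le_exp.mpr
    have h3 : γ ^ 2 / 2 * ((u - y₀) / γ + -2 * Real.log (c0 / 4) / γ ^ 2) ≤ γ ^ 2 / 2 * n :=
      mul_le_mul_of_nonneg_left hn (by positivity)
    have h4 : γ ^ 2 / 2 * ((u - y₀) / γ + -2 * Real.log (c0 / 4) / γ ^ 2) =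
        γ / 2 * (u - y₀) - Real.log (c0 / 4) := by
      field_simp
      ring
    rw [h4] at h3
    linarith
  have h5 : Real.exp (-γ * (u - y₀)) = E y₀ ^ 2 := by
    rw [hE, ← Real.exp_nat_mul]; congr 1; push_cast; ring
  rw [h1, h5]
  have h6 : c0 / 2 * E y₀ ^ 2 ≤ c0 * E y₀ ^ 2 - lam * E y₀ - q ^ n * E y₀ := by
    have : q ^ n * E y₀ ≤ c0 / 4 * E y₀ * E y₀ := mul_le_mul_of_nonneg_right h2 e0.le
    rw [hlam]
    nlinarith
  have h7 := mul_le_mul_of_nonneg_left h6 hG
  simp only [Nat.cast_zero, mul_zero, sub_zero]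
  linarith

end Pool.Agent.Lib.MP_3d9a2b_pr
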