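import Mathlib

set_option autoImplicit false

namespace Pool.Agent.Lib.MP_3d9a2b_pr

open MeasureTheory ProbabilityTheory Filter Topology
open scoped NNReal ENNReal

/-- An environment: at each time step a pair (increment `x`, window cost `w`). -/
abbrev Env := ℕ → ℝ × ℝ

/-- The shifted environment. -/
def sh (k : ℕ) (ζ : Env) : Env := fun n => ζ (n + k)

/-- The energy collected by staying below the interface during the first `k` steps. -/
noncomputable def S (k : ℕ) (ζ : Env) : ℝ := -2 * ∑ i ∈ Finset.range k, (ζ i).1

/-- The cost of an excursion of length `l`. -/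
noncomputable def kap (α C : ℝ) (l : ℕ) : ℝ := (1 + α) * Real.log l + C

/-- The gain of a scenario, a list of (length, below?) of consecutive long excursions. Every
excursion pays `kap` for its length and the cost of the window where it starts. -/
noncomputable def gain (α C : ℝ) : List (ℕ × Bool) → Env → ℝ
  | [], _ => 0
  | (l, e) :: r, ζ => - kap α C l - (ζ 0).2 + (if e then S l ζ else 0) + gain α C r (sh l ζ)

/-- The best gain of a scenario of total length `N`. -/
noncomputable def L (α C : ℝ) : ℕ → Env → ℝ
  | 0, _ => 0
  | N + 1, ζ => Finset.sup' (Finset.univ : Finset (Fin (N + 1) × Bool)) Finset.univ_nonempty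
      (fun q => - kap α C (q.1 + 1) - (ζ 0).2 + (if q.2 then S (q.1 + 1) ζ else 0)
        + L α C (N - q.1) (sh (q.1 + 1) ζ))
termination_by N => N

/-- The best gain when the polymer has been above since `a` steps, `N` steps remain and the
opening window has already been paid. -/
noncomputable def H (α C : ℝ) (a N : ℕ) (ζ : Env) : ℝ :=
  Finset.sup' (Finset.range (N + 1)) ⟨0, by simp⟩
    (fun b => - kap α C (a + b) + L α C (N - b) (sh b ζ))

/-- The best gain when the polymer was above for `a` steps and then below for `l` steps with net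
energy `y` so far (or, alternatively, has been above since `a + l` steps). -/
noncomputable def K (α C : ℝ) (a l : ℕ) (y : ℝ) (N : ℕ) (ζ : Env) : ℝ :=
  max (H α C (a + l) N ζ)
    (Finset.sup' (Finset.range (N + 1)) ⟨0, by simp⟩
      (fun b => y + S b ζ - kap α C a - kap α C (l + b) + L α C (N - b) (sh b ζ)))

/-- The law of an i.i.d. environment. -/
noncomputable def nu (μ : Measure (ℝ × ℝ)) : Measure Env :=
  Measure.infinitePi (fun _ : ℕ => μ)

/-- In an environment where the polymer is below since `l` steps: flipping to above during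
`(i, j)`, `i < j < D`, gains at least `Γ`. -/
def UA (α C : ℝ) (l D : ℕ) (Γ : ℝ) : Set Env :=
  {ζ | ∃ i j : ℕ, i < j ∧ j < D ∧
    Γ ≤ - kap α C (l + i) - kap α C (j - i) - (ζ i).2 - (ζ j).2 - (S j ζ - S i ζ)}

/-- The mirror image of `UA`. -/
def VA (α C : ℝ) (l D : ℕ) (Γ : ℝ) : Set Env :=
  {ζ | ∃ i j : ℕ, i < j ∧ j < D ∧
    Γ ≤ (S j ζ - S i ζ) - kap α C (l + i) - kap α C (j - i) - (ζ i).2 - (ζ j).2}

end Pool.Agent.Lib.MP_3d9a2b_pr
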