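import Pool.Agent.Lib.MP_3d9a2b_pr.Limit

set_option autoImplicit false

namespace Pool.Agent.Lib.MP_3d9a2b_pr

open MeasureTheory ProbabilityTheory Filter Topology
open scoped NNReal ENNReal

namespace Model

variable {α : ℝ} {Ω Ω' : Type} [MeasurableSpace Ω] [mΩ' : MeasurableSpace Ω'] {P : Measure Ω}
  {P' : Measure Ω'} (M : Model α P P')

/-! ### Measurability -/

theorem measurable_B2 : Measurable (fun q : ℝ≥0 × Ω => M.B q.1 q.2) :=
  measurable_uncurry_of_continuous_of_measurable (u := M.B) M.continuous_B M.measurable_B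

theorem measurable_y2 (h : ℝ) {s : Ω' → ℝ} (hs : Measurable s) :
    Measurable (fun q : Ω × Ω' => M.y h (s q.2) q.1) := by
  unfold y
  have h1 : Measurable (fun q : Ω × Ω' => ((s q.2).toNNReal, q.1)) :=
    (measurable_real_toNNReal.comp (hs.comp measurable_snd)).prodMk measurable_fst
  have h2 : Measurable (fun q : Ω × Ω' => M.B (s q.2).toNNReal q.1) :=
    Measurable.comp (g := fun q : ℝ≥0 × Ω => M.B q.1 q.2) M.measurable_B2 h1
  exact h2.add ((hs.comp measurable_snd).const_mul _)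

theorem measurable_left' (n : ℕ) : Measurable (M.left n) := (M.measurable_left n).mono M.𝒢_le le_rfl

theorem measurable_right' (n : ℕ) : Measurable (M.right n) :=
  (M.measurable_right n).mono M.𝒢_le le_rfl

theorem measurable_mi' (θ : ℝ) (p : ℕ → ℕ) : Measurable (M.mi θ p) :=
  (M.measurable_mi θ p).mono M.𝒢_le le_rfl

theorem measurable_left_mi (θ : ℝ) (p : ℕ → ℕ) (i : ℕ) :
    Measurable (fun ω' => M.left (M.mi θ p ω' i) ω') := by
  have h1 : Measurable (fun q : ℕ × Ω' => M.left q.1 q.2) :=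
    measurable_from_prod_countable_right fun n => M.measurable_left' n
  have h2 : Measurable (fun ω' => (M.mi θ p ω' i, ω')) :=
    ((measurable_pi_apply i).comp (M.measurable_mi' θ p)).prodMk measurable_id
  exact Measurable.comp (g := fun q : ℕ × Ω' => M.left q.1 q.2) h1 h2

theorem measurable_right_mi (θ : ℝ) (p : ℕ → ℕ) (i : ℕ) :
    Measurable (fun ω' => M.right (M.mi θ p ω' i) ω') := by
  have h1 : Measurable (fun q : ℕ × Ω' => M.right q.1 q.2) :=
    measurable_from_prod_countable_right fun n => M.measurable_right' n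
  have h2 : Measurable (fun ω' => (M.mi θ p ω' i, ω')) :=
    ((measurable_pi_apply i).comp (M.measurable_mi' θ p)).prodMk measurable_id
  exact Measurable.comp (g := fun q : ℕ × Ω' => M.right q.1 q.2) h1 h2

theorem measurable_bit (n : ℕ) : Measurable (fun ω' => if M.ξ n ω' then (1 : ℝ) else 0) :=
  (measurable_of_countable (fun b : Bool => if b then (1 : ℝ) else 0)).comp (M.measurable_ξ n)

theorem measurable_X (h : ℝ) {t : ℝ} (ht : 0 ≤ t) :
    Measurable (fun q : Ω × Ω' => M.XE h t q.1 q.2) :=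
  (M.measurable_J t).add (((M.measurable_T ht).comp measurable_snd).const_mul _)

theorem measurable_yinc (h t : ℝ) (n : ℕ) :
    Measurable (fun q : Ω × Ω' => M.yinc h t n q.1 q.2) :=
  (M.measurable_y2 h ((M.measurable_right' n).min measurable_const)).sub
    (M.measurable_y2 h ((M.measurable_left' n).min measurable_const))

theorem measurable_XN (h t : ℝ) (N : ℕ) : Measurable (fun q : Ω × Ω' => M.XN h t N q.1 q.2) :=
  Finset.measurable_fun_sum _ fun n _ =>
    ((M.measurable_bit n).comp measurable_snd).mul (M.measurable_yinc h t n)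

theorem measurable_Xbar (h θ t : ℝ) (p : ℕ → ℕ) (e : ℕ → Bool) (k : ℕ) :
    Measurable (fun q : Ω × Ω' => M.Xbar h θ t p e k q.1 q.2) := by
  unfold Xbar
  refine Measurable.add ?_ (Finset.measurable_fun_sum _ fun i _ => Measurable.const_mul ?_ _)
  · exact (((M.measurable_y_left h t).sub (M.measurable_y_left h 0)).comp
      measurable_fst).div_const _
  · exact (M.measurable_y2 h ((M.measurable_right_mi θ p i).min measurable_const)).sub
      (M.measurable_y2 h ((M.measurable_left_mi θ p i).min measurable_const))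

theorem measurable_cc (e : ℕ → Bool) (k n : ℕ) : Measurable (fun m : ℕ → ℕ => cc e k m n) := by
  unfold cc
  refine measurable_const.add (Finset.measurable_fun_sum _ fun i _ => ?_)
  exact (measurable_of_countable (fun j : ℕ =>
    if j = n then (if e i then (1 / 2 : ℝ) else -(1 / 2)) else 0)).comp (measurable_pi_apply i)

theorem abs_cc_le (e : ℕ → Bool) (k : ℕ) (m : ℕ → ℕ) (n : ℕ) : |cc e k m n| ≤ 1 / 2 + k * (1 / 2) := by
  unfold cc
  refine (abs_add_le _ _).trans (add_le_add (by norm_num) ?_)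
  refine (Finset.abs_sum_le_sum_abs _ _).trans ?_
  refine (Finset.sum_le_card_nsmul _ _ (1 / 2 : ℝ) fun i _ => ?_).trans (by simp)
  split_ifs <;> norm_num [abs_le]

theorem measurable_XbarN (h θ t : ℝ) (p : ℕ → ℕ) (e : ℕ → Bool) (k N : ℕ) :
    Measurable (fun q : Ω × Ω' => M.XbarN h θ t p e k N q.1 q.2) :=
  Finset.measurable_fun_sum _ fun n _ =>
    (((measurable_cc e k n).comp (M.measurable_mi' θ p)).comp measurable_snd).mul
      (M.measurable_yinc h t n)

/-- The indicator of the event that the scenario is realised. -/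
noncomputable def iR (θ : ℝ) (p : ℕ → ℕ) (k : ℕ) (ω' : Ω') : ℝ :=
  (M.ER θ p k).indicator (fun _ => (1 : ℝ)) ω'

theorem measurable_iR_𝒢 (θ : ℝ) (p : ℕ → ℕ) (k : ℕ) : Measurable[M.𝒢] (M.iR θ p k) := by
  show Measurable[M.𝒢] ((M.ER θ p k).indicator (fun _ => (1 : ℝ)))
  exact measurable_const.indicator (M.measurableSet_ER θ p k)

theorem measurable_iR (θ : ℝ) (p : ℕ → ℕ) (k : ℕ) : Measurable (M.iR θ p k) :=
  (M.measurable_iR_𝒢 θ p k).mono M.𝒢_le le_rfl

theorem iR_nonneg (θ : ℝ) (p : ℕ → ℕ) (k : ℕ) (ω' : Ω') : 0 ≤ M.iR θ p k ω' :=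
  Set.indicator_nonneg (fun _ _ => zero_le_one) _

theorem iR_le_one (θ : ℝ) (p : ℕ → ℕ) (k : ℕ) (ω' : Ω') : M.iR θ p k ω' ≤ 1 :=
  Set.indicator_le' (fun _ _ => le_rfl) (fun _ _ => zero_le_one) _

/-- The indicator of the event that the scenario is realised with the prescribed signs. -/
noncomputable def wE (θ : ℝ) (p : ℕ → ℕ) (e : ℕ → Bool) (k : ℕ) (ω' : Ω') : ℝ :=
  M.iR θ p k ω' * W e k (M.mi θ p ω') (fun n => M.ξ n ω')

theorem measurable_wE (θ : ℝ) (p : ℕ → ℕ) (e : ℕ → Bool) (k : ℕ) :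
    Measurable (M.wE θ p e k) :=
  (M.measurable_iR θ p k).mul
    ((measurable_W e k).comp ((M.measurable_mi' θ p).prodMk M.measurable_bits))

theorem wE_nonneg (θ : ℝ) (p : ℕ → ℕ) (e : ℕ → Bool) (k : ℕ) (ω' : Ω') : 0 ≤ M.wE θ p e k ω' :=
  mul_nonneg (M.iR_nonneg θ p k ω') (W_nonneg _ _ _ _)

theorem wE_le_one (θ : ℝ) (p : ℕ → ℕ) (e : ℕ → Bool) (k : ℕ) (ω' : Ω') : M.wE θ p e k ω' ≤ 1 :=
  mul_le_one₀ (M.iR_le_one θ p k ω') (W_nonneg _ _ _ _) (W_le_one _ _ _ _)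

/-! ### Bounds for fixed `ω` -/

theorem exists_bound_y (h t : ℝ) (ω : Ω) : ∃ C : ℝ, 0 ≤ C ∧ ∀ s ∈ Set.Icc 0 t, |M.y h s ω| ≤ C := by
  obtain ⟨C, hC⟩ := (isCompact_Icc (a := (0 : ℝ)) (b := t)).exists_bound_of_continuousOn
    (M.continuous_y h ω).continuousOn
  exact ⟨max C 0, le_max_right _ _, fun s hs => (hC s hs).trans (le_max_left _ _)⟩

theorem exists_bound_yinc (h : ℝ) {t : ℝ} (ht : 0 ≤ t) (ω : Ω) :
    ∃ C : ℝ, 0 ≤ C ∧ ∀ n ω', |M.yinc h t n ω ω'| ≤ C := by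
  obtain ⟨C, hC0, hC⟩ := M.exists_bound_y h t ω
  refine ⟨C + C, by positivity, fun n ω' => ?_⟩
  have h1 := M.left_nonneg n ω'
  have h2 := h1.trans (M.left_lt_right n ω').le
  unfold yinc
  exact (abs_sub _ _).trans (add_le_add (hC _ ⟨le_min h2 ht, min_le_right _ _⟩)
    (hC _ ⟨le_min h1 ht, min_le_right _ _⟩))

theorem measurable_yinc_𝒢 (h t : ℝ) (n : ℕ) (ω : Ω) :
    Measurable[M.𝒢] (fun ω' => M.yinc h t n ω ω') := by
  have hy : Measurable (fun s => M.y h s ω) := (M.continuous_y h ω).measurable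
  have h1 : Measurable[M.𝒢] (fun ω' => min (M.right n ω') t) :=
    (M.measurable_right n).min measurable_const
  have h2 : Measurable[M.𝒢] (fun ω' => min (M.left n ω') t) :=
    (M.measurable_left n).min measurable_const
  exact (hy.comp h1).sub (hy.comp h2)

theorem integrable_Xbar [IsProbabilityMeasure P'] (h θ : ℝ) {t : ℝ} (ht : 0 ≤ t) (p : ℕ → ℕ)
    (e : ℕ → Bool) (k : ℕ) (ω : Ω) : Integrable (fun ω' => M.Xbar h θ t p e k ω ω') P' := by
  obtain ⟨C, hC0, hC⟩ := M.exists_bound_yinc h ht ω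
  refine Integrable.of_bound ((M.measurable_Xbar h θ t p e k).comp
    measurable_prodMk_left).aestronglyMeasurable (|(M.y h t ω - M.y h 0 ω) / 2| + k * C)
    (ae_of_all _ fun ω' => ?_)
  rw [Real.norm_eq_abs]
  unfold Xbar
  refine (abs_add_le _ _).trans (add_le_add le_rfl ?_)
  refine (Finset.abs_sum_le_sum_abs _ _).trans ?_
  refine (Finset.sum_le_card_nsmul _ _ C fun i _ => ?_).trans (by simp)
  rw [abs_mul]
  have h1 := hC (M.mi θ p ω' i) ω'
  unfold yinc at h1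
  have h2 : |if e i then (1 / 2 : ℝ) else -(1 / 2)| ≤ 1 := by
    split_ifs <;> norm_num [abs_le]
  calc _ ≤ 1 * C := mul_le_mul h2 h1 (abs_nonneg _) zero_le_one
    _ = C := one_mul C

/-! ### The exchange identity for finitely many excursions -/

/-- The difference of the two sides of the exchange identity. -/
noncomputable def GN (h θ t : ℝ) (p : ℕ → ℕ) (e : ℕ → Bool) (k N : ℕ) (ω : Ω) (ω' : Ω') : ℝ :=
  M.wE θ p e k ω' * M.XN h t N ω ω' -
    (1 / 2) ^ k * (M.iR θ p k ω' * M.XbarN h θ t p e k N ω ω')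

theorem GN_eq (h θ t : ℝ) (p : ℕ → ℕ) (e : ℕ → Bool) (k N : ℕ) (ω : Ω) (ω' : Ω') :
    M.GN h θ t p e k N ω ω' = ∑ n ∈ Finset.range N,
      ((M.iR θ p k ω' * M.yinc h t n ω ω') * (W e k (M.mi θ p ω') (fun n => M.ξ n ω') *
        (if M.ξ n ω' then 1 else 0)) -
      (1 / 2) ^ k * ((M.iR θ p k ω' * M.yinc h t n ω ω') * cc e k (M.mi θ p ω') n)) := by
  unfold GN wE XN XbarN
  rw [Finset.sum_sub_distrib, Finset.mul_sum, Finset.mul_sum, Finset.mul_sum]
  congr 1
  · exact Finset.sum_congr rfl fun n _ => by ring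
  · exact Finset.sum_congr rfl fun n _ => by ring

theorem integrable_iR_yinc [IsProbabilityMeasure P'] (h θ : ℝ) {t : ℝ} (ht : 0 ≤ t) (p : ℕ → ℕ)
    (k n : ℕ) (ω : Ω) : Integrable (fun ω' => M.iR θ p k ω' * M.yinc h t n ω ω') P' := by
  obtain ⟨C, hC0, hC⟩ := M.exists_bound_yinc h ht ω
  refine Integrable.of_bound ((M.measurable_iR θ p k).mul
    ((M.measurable_yinc h t n).comp measurable_prodMk_left)).aestronglyMeasurable C
    (ae_of_all _ fun ω' => ?_)
  rw [Real.norm_eq_abs, abs_mul, abs_of_nonneg (M.iR_nonneg θ p k ω')]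
  calc _ ≤ 1 * C := mul_le_mul (M.iR_le_one θ p k ω') (hC n ω') (abs_nonneg _) zero_le_one
    _ = C := one_mul C

theorem integrable_term1 [IsProbabilityMeasure P'] (h θ : ℝ) {t : ℝ} (ht : 0 ≤ t) (p : ℕ → ℕ)
    (e : ℕ → Bool) (k n : ℕ) (ω : Ω) : Integrable (fun ω' =>
      (M.iR θ p k ω' * M.yinc h t n ω ω') * (W e k (M.mi θ p ω') (fun n => M.ξ n ω') *
        (if M.ξ n ω' then 1 else 0))) P' := by
  refine (M.integrable_iR_yinc h θ ht p k n ω).mul_bdd (c := 1) ?_ (ae_of_all _ fun ω' => ?_)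
  · exact (((measurable_W e k).comp ((M.measurable_mi' θ p).prodMk M.measurable_bits)).mul
      (M.measurable_bit n)).aestronglyMeasurable
  · have h1 := W_nonneg e k (M.mi θ p ω') (fun n => M.ξ n ω')
    have h2 := W_le_one e k (M.mi θ p ω') (fun n => M.ξ n ω')
    split_ifs
    · rw [mul_one, Real.norm_eq_abs, abs_of_nonneg h1]
      exact h2
    · simp

theorem integrable_term2 [IsProbabilityMeasure P'] (h θ : ℝ) {t : ℝ} (ht : 0 ≤ t) (p : ℕ → ℕ)
    (e : ℕ → Bool) (k n : ℕ) (ω : Ω) : Integrable (fun ω' =>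
      (M.iR θ p k ω' * M.yinc h t n ω ω') * cc e k (M.mi θ p ω') n) P' :=
  (M.integrable_iR_yinc h θ ht p k n ω).mul_bdd (c := 1 / 2 + k * (1 / 2))
    ((measurable_cc e k n).comp (M.measurable_mi' θ p)).aestronglyMeasurable
    (ae_of_all _ fun ω' => abs_cc_le e k (M.mi θ p ω') n)

theorem integrable_GN [IsProbabilityMeasure P'] (h θ : ℝ) {t : ℝ} (ht : 0 ≤ t) (p : ℕ → ℕ)
    (e : ℕ → Bool) (k N : ℕ) (ω : Ω) : Integrable (fun ω' => M.GN h θ t p e k N ω ω') P' := by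
  simp_rw [M.GN_eq]
  exact integrable_finsetSum _ fun n _ => (M.integrable_term1 h θ ht p e k n ω).sub
    ((M.integrable_term2 h θ ht p e k n ω).const_mul _)

theorem integral_GN [IsProbabilityMeasure P'] (h : ℝ) {θ t : ℝ} (hθ : 0 < θ) (ht : 0 ≤ t)
    (p : ℕ → ℕ) (e : ℕ → Bool) (k : ℕ) (hp : ∀ i < k, p i < p (i + 1)) (N : ℕ) (ω : Ω) :
    ∫ ω', M.GN h θ t p e k N ω ω' ∂P' = 0 := by
  simp_rw [M.GN_eq]
  have hT : ∀ n ∈ Finset.range N, Integrable (fun ω' =>
      ((M.iR θ p k ω' * M.yinc h t n ω ω') * (W e k (M.mi θ p ω') (fun n => M.ξ n ω') *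
        (if M.ξ n ω' then 1 else 0)) -
      (1 / 2) ^ k * ((M.iR θ p k ω' * M.yinc h t n ω ω') * cc e k (M.mi θ p ω') n))) P' :=
    fun n _ => (M.integrable_term1 h θ ht p e k n ω).sub
      ((M.integrable_term2 h θ ht p e k n ω).const_mul _)
  rw [integral_finsetSum _ hT]
  refine Finset.sum_eq_zero fun n _ => ?_
  rw [integral_sub (M.integrable_term1 h θ ht p e k n ω)
    ((M.integrable_term2 h θ ht p e k n ω).const_mul _), integral_const_mul,
    M.integral_mul_W_mul e k n (fun ω' => M.iR θ p k ω' * M.yinc h t n ω ω') (M.mi θ p)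
      ((M.measurable_iR_𝒢 θ p k).mul (M.measurable_yinc_𝒢 h t n ω)) (M.measurable_mi θ p)
      (M.integrable_iR_yinc h θ ht p k n ω) ?_, sub_self]
  intro ω' hω'
  apply M.ER_inj hθ hp
  by_contra hne
  apply hω'
  rw [iR, Set.indicator_of_notMem hne, zero_mul]

/-! ### The exchange identity -/

/-- The difference of the two sides of the exchange identity. -/
noncomputable def GG (h θ t : ℝ) (p : ℕ → ℕ) (e : ℕ → Bool) (k : ℕ) (ω : Ω) (ω' : Ω') : ℝ :=
  M.wE θ p e k ω' * M.XE h t ω ω' - (1 / 2) ^ k * (M.iR θ p k ω' * M.Xbar h θ t p e k ω ω')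

theorem measurable_GG (h θ : ℝ) {t : ℝ} (ht : 0 ≤ t) (p : ℕ → ℕ) (e : ℕ → Bool) (k : ℕ) :
    Measurable (fun q : Ω × Ω' => M.GG h θ t p e k q.1 q.2) :=
  (((M.measurable_wE θ p e k).comp measurable_snd).mul (M.measurable_X h ht)).sub
    ((((M.measurable_iR θ p k).comp measurable_snd).mul
      (M.measurable_Xbar h θ t p e k)).const_mul _)

theorem measurable_GN (h θ t : ℝ) (p : ℕ → ℕ) (e : ℕ → Bool) (k N : ℕ) :
    Measurable (fun q : Ω × Ω' => M.GN h θ t p e k N q.1 q.2) :=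
  (((M.measurable_wE θ p e k).comp measurable_snd).mul (M.measurable_XN h t N)).sub
    ((((M.measurable_iR θ p k).comp measurable_snd).mul
      (M.measurable_XbarN h θ t p e k N)).const_mul _)

theorem enorm_sub_le (h θ t : ℝ) (p : ℕ → ℕ) (e : ℕ → Bool) (k N : ℕ) (ω : Ω) (ω' : Ω') :
    ‖M.GG h θ t p e k ω ω' - M.GN h θ t p e k N ω ω'‖ₑ ≤
      ‖M.XE h t ω ω' - M.XN h t N ω ω'‖ₑ +
      ‖M.Xbar h θ t p e k ω ω' - M.XbarN h θ t p e k N ω ω'‖ₑ := by
  have h1 : M.GG h θ t p e k ω ω' - M.GN h θ t p e k N ω ω' =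
      M.wE θ p e k ω' * (M.XE h t ω ω' - M.XN h t N ω ω') +
      (-((1 / 2) ^ k * M.iR θ p k ω')) *
        (M.Xbar h θ t p e k ω ω' - M.XbarN h θ t p e k N ω ω') := by
    unfold GG GN
    ring
  rw [h1]
  refine (enorm_add_le _ _).trans (add_le_add ?_ ?_)
  · rw [enorm_mul]
    refine mul_le_of_le_one_left bot_le ?_
    rw [Real.enorm_eq_ofReal (M.wE_nonneg θ p e k ω')]
    exact ENNReal.ofReal_le_one.2 (M.wE_le_one θ p e k ω')
  · rw [enorm_mul, enorm_neg]
    refine mul_le_of_le_one_left bot_le ?_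
    rw [Real.enorm_eq_ofReal (mul_nonneg (by positivity) (M.iR_nonneg θ p k ω'))]
    refine ENNReal.ofReal_le_one.2 (mul_le_one₀ (pow_le_one₀ (by norm_num) (by norm_num))
      (M.iR_nonneg θ p k ω') (M.iR_le_one θ p k ω'))

/-- The bound for the `L¹(P)` distance. -/
noncomputable def bnd (h θ t : ℝ) (p : ℕ → ℕ) (k N : ℕ) (ω' : Ω') : ℝ≥0∞ :=
  (eLpNorm (fun ω => M.J t ω ω' - ∑ n ∈ Finset.range N,
        (if M.ξ n ω' then (1 : ℝ) else 0) * M.inc t n ω ω') 2 P +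
      ENNReal.ofReal (h * (M.T t ω' - ∑ n ∈ Finset.range N,
        (if M.ξ n ω' then (1 : ℝ) else 0) * M.len t n ω'))) +
  ((ENNReal.ofReal (√(t - ∑ n ∈ Finset.range N, M.len t n ω')) +
      ENNReal.ofReal (h * (t - ∑ n ∈ Finset.range N, M.len t n ω'))) +
      ∑ i ∈ Finset.range k, (if M.mi θ p ω' i < N then 0 else
        (ENNReal.ofReal (√t) + ENNReal.ofReal (h * t))))

theorem l1_le_bnd {h t : ℝ} (hh : 0 ≤ h) (ht : 0 ≤ t) (θ : ℝ) (p : ℕ → ℕ) (e : ℕ → Bool)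
    (k N : ℕ) (ω' : Ω') :
    ∫⁻ ω, ‖M.GG h θ t p e k ω ω' - M.GN h θ t p e k N ω ω'‖ₑ ∂P ≤ M.bnd h θ t p k N ω' := by
  calc ∫⁻ ω, ‖M.GG h θ t p e k ω ω' - M.GN h θ t p e k N ω ω'‖ₑ ∂P
      ≤ ∫⁻ ω, (‖M.XE h t ω ω' - M.XN h t N ω ω'‖ₑ +
          ‖M.Xbar h θ t p e k ω ω' - M.XbarN h θ t p e k N ω ω'‖ₑ) ∂P :=
        lintegral_mono fun ω => M.enorm_sub_le h θ t p e k N ω ω'
    _ = ∫⁻ ω, ‖M.XE h t ω ω' - M.XN h t N ω ω'‖ₑ ∂P +
          ∫⁻ ω, ‖M.Xbar h θ t p e k ω ω' - M.XbarN h θ t p e k N ω ω'‖ₑ ∂P := by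
        rw [lintegral_add_left]
        exact (((M.measurable_X h ht).sub (M.measurable_XN h t N)).comp
          measurable_prodMk_right).enorm
    _ ≤ _ := add_le_add (M.l1_X_sub_le hh ht N ω') (M.l1_Xbar_sub_le hh ht p e k N ω')

theorem tendsto_bnd {h t : ℝ} (ht : 0 ≤ t) (θ : ℝ) (p : ℕ → ℕ) (k : ℕ) :
    ∀ᵐ ω' ∂P', Tendsto (fun N => M.bnd h θ t p k N ω') atTop (𝓝 0) := by
  filter_upwards [M.wiener' ht] with ω' hω'
  have h1 : Tendsto (fun N => ENNReal.ofReal (h * (M.T t ω' - ∑ n ∈ Finset.range N,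
        (if M.ξ n ω' then (1 : ℝ) else 0) * M.len t n ω'))) atTop (𝓝 0) := by
    have := ((M.hasSum_T ht ω').tendsto_sum_nat.const_sub (M.T t ω')).const_mul h
    rw [sub_self, mul_zero] at this
    simpa using ENNReal.tendsto_ofReal this
  have h2 : Tendsto (fun N => t - ∑ n ∈ Finset.range N, M.len t n ω') atTop (𝓝 0) := by
    have := (M.hasSum_len ht ω').tendsto_sum_nat.const_sub t
    rwa [sub_self] at this
  have h3 : Tendsto (fun N => ENNReal.ofReal (√(t - ∑ n ∈ Finset.range N, M.len t n ω')))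
      atTop (𝓝 0) := by
    have := (Real.continuous_sqrt.tendsto _).comp h2
    rw [Real.sqrt_zero] at this
    simpa using ENNReal.tendsto_ofReal this
  have h4 : Tendsto (fun N => ENNReal.ofReal (h * (t - ∑ n ∈ Finset.range N, M.len t n ω')))
      atTop (𝓝 0) := by
    have := h2.const_mul h
    rw [mul_zero] at this
    simpa using ENNReal.tendsto_ofReal this
  have h5 : Tendsto (fun N => ∑ i ∈ Finset.range k, (if M.mi θ p ω' i < N then 0 else
        (ENNReal.ofReal (√t) + ENNReal.ofReal (h * t)))) atTop (𝓝 0) := by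
    have h6 : Tendsto (fun N => ∑ i ∈ Finset.range k, (if M.mi θ p ω' i < N then 0 else
        (ENNReal.ofReal (√t) + ENNReal.ofReal (h * t)))) atTop
        (𝓝 (∑ i ∈ Finset.range k, (0 : ℝ≥0∞))) := by
      refine tendsto_finsetSum _ fun i _ => ?_
      refine tendsto_const_nhds.congr' ?_
      filter_upwards [eventually_gt_atTop (M.mi θ p ω' i)] with N hN
      rw [if_pos hN]
    simpa using h6
  have := (hω'.add h1).add ((h3.add h4).add h5)
  simpa [bnd] using this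

theorem bnd_le {h t : ℝ} (hh : 0 ≤ h) (ht : 0 ≤ t) (θ : ℝ) (p : ℕ → ℕ) (k : ℕ) :
    ∀ᵐ ω' ∂P', ∀ N, M.bnd h θ t p k N ω' ≤
      ((ENNReal.ofReal (√t) + ENNReal.ofReal (√t)) + ENNReal.ofReal (h * t)) +
      ((ENNReal.ofReal (√t) + ENNReal.ofReal (h * t)) +
        ∑ _i ∈ Finset.range k, (ENNReal.ofReal (√t) + ENNReal.ofReal (h * t))) := by
  filter_upwards [M.eLpNorm_J_le ht] with ω' hω' N
  have hs0 : 0 ≤ ∑ n ∈ Finset.range N, M.len t n ω' :=
    Finset.sum_nonneg fun n _ => M.len_nonneg t n ω'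
  have hs1 : 0 ≤ ∑ n ∈ Finset.range N, (if M.ξ n ω' then (1 : ℝ) else 0) * M.len t n ω' :=
    Finset.sum_nonneg fun n _ => mul_nonneg (by split_ifs <;> simp) (M.len_nonneg t n ω')
  have hT := M.T_le ht ω'
  unfold bnd
  refine add_le_add (add_le_add ?_ ?_) (add_le_add (add_le_add ?_ ?_) ?_)
  · refine (eLpNorm_sub_le (M.measurable_J_left t ω').aestronglyMeasurable
      (M.measurable_sum_inc t N _ ω').aestronglyMeasurable (by norm_num)).trans ?_
    exact add_le_add hω' (M.eLpNorm_inc_sum_le ht _ (fun n => abs_ite_le _) N ω')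
  · exact ENNReal.ofReal_le_ofReal (mul_le_mul_of_nonneg_left (by linarith) hh)
  · exact ENNReal.ofReal_le_ofReal (Real.sqrt_le_sqrt (by linarith))
  · exact ENNReal.ofReal_le_ofReal (mul_le_mul_of_nonneg_left (by linarith) hh)
  · refine Finset.sum_le_sum fun i _ => ?_
    split_ifs
    · exact bot_le
    · exact le_rfl

theorem tendsto_lintegral [IsProbabilityMeasure P'] {h t : ℝ} (hh : 0 ≤ h) (ht : 0 ≤ t) (θ : ℝ)
    (p : ℕ → ℕ) (e : ℕ → Bool) (k : ℕ) :
    Tendsto (fun N => ∫⁻ ω', ∫⁻ ω, ‖M.GG h θ t p e k ω ω' - M.GN h θ t p e k N ω ω'‖ₑ ∂P ∂P')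
      atTop (𝓝 0) := by
  have hP := M.isProbabilityMeasure_P
  have h1 := tendsto_lintegral_of_dominated_convergence (μ := P')
    (F := fun N ω' => ∫⁻ ω, ‖M.GG h θ t p e k ω ω' - M.GN h θ t p e k N ω ω'‖ₑ ∂P)
    (f := fun _ => 0)
    (bound := fun _ => ((ENNReal.ofReal (√t) + ENNReal.ofReal (√t)) + ENNReal.ofReal (h * t)) +
      ((ENNReal.ofReal (√t) + ENNReal.ofReal (h * t)) +
        ∑ _i ∈ Finset.range k, (ENNReal.ofReal (√t) + ENNReal.ofReal (h * t))))
    (fun N => ((M.measurable_GG h θ ht p e k).sub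
      (M.measurable_GN h θ t p e k N)).enorm.lintegral_prod_left')
    (fun N => by
      filter_upwards [M.bnd_le hh ht θ p k] with ω' hω'
      exact (M.l1_le_bnd hh ht θ p e k N ω').trans (hω' N))
    (by
      rw [lintegral_const, measure_univ, mul_one, Finset.sum_const, nsmul_eq_mul]
      have h0 : ENNReal.ofReal (√t) + ENNReal.ofReal (h * t) ≠ ∞ :=
        ENNReal.add_ne_top.2 ⟨ENNReal.ofReal_ne_top, ENNReal.ofReal_ne_top⟩
      exact ENNReal.add_ne_top.2 ⟨ENNReal.add_ne_top.2 ⟨ENNReal.add_ne_top.2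
        ⟨ENNReal.ofReal_ne_top, ENNReal.ofReal_ne_top⟩, ENNReal.ofReal_ne_top⟩,
        ENNReal.add_ne_top.2 ⟨h0, ENNReal.mul_ne_top (ENNReal.natCast_ne_top _) h0⟩⟩)
    (by
      filter_upwards [M.tendsto_bnd (h := h) ht θ p k] with ω' hω'
      exact tendsto_of_tendsto_of_tendsto_of_le_of_le tendsto_const_nhds hω'
        (fun N => bot_le) (fun N => M.l1_le_bnd hh ht θ p e k N ω'))
  simpa using h1

theorem ae_integrable_X [IsProbabilityMeasure P'] {h t : ℝ} (hh : 0 ≤ h) (ht : 0 ≤ t) :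
    ∀ᵐ ω ∂P, Integrable (fun ω' => M.XE h t ω ω') P' := by
  have hP := M.isProbabilityMeasure_P
  have hm : Measurable (fun q : Ω × Ω' => ‖M.XE h t q.1 q.2‖ₑ) := (M.measurable_X h ht).enorm
  have h1 : ∫⁻ ω, ∫⁻ ω', ‖M.XE h t ω ω'‖ₑ ∂P' ∂P < ∞ := by
    rw [lintegral_lintegral_swap hm.aemeasurable]
    calc ∫⁻ ω', ∫⁻ ω, ‖M.XE h t ω ω'‖ₑ ∂P ∂P'
        ≤ ∫⁻ _ω' : Ω', (ENNReal.ofReal (√t) + ENNReal.ofReal (h * t)) ∂P' :=
          lintegral_mono_ae (M.l1_X_le hh ht)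
      _ < ∞ := by
          rw [lintegral_const, measure_univ, mul_one]
          simp
  filter_upwards [ae_lt_top hm.lintegral_prod_right' h1.ne] with ω hω
  exact ⟨((M.measurable_X h ht).comp measurable_prodMk_left).aestronglyMeasurable, hω⟩

theorem ae_integrable_exp [IsProbabilityMeasure P'] {lam h t : ℝ} (hlam : 0 < lam) (hh : 0 ≤ h)
    (ht : 0 ≤ t) : ∀ᵐ ω ∂P, Integrable (fun ω' => Real.exp (-2 * lam * M.XE h t ω ω')) P' := by
  have hP := M.isProbabilityMeasure_P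
  have hm0 : Measurable (fun q : Ω × Ω' => Real.exp (-2 * lam * M.XE h t q.1 q.2)) :=
    Real.measurable_exp.comp ((M.measurable_X h ht).const_mul _)
  have hm : Measurable (fun q : Ω × Ω' => ENNReal.ofReal (Real.exp (-2 * lam * M.XE h t q.1 q.2))) :=
    hm0.ennreal_ofReal
  have h1 : ∫⁻ ω, ∫⁻ ω', ENNReal.ofReal (Real.exp (-2 * lam * M.XE h t ω ω')) ∂P' ∂P < ∞ := by
    rw [lintegral_lintegral_swap hm.aemeasurable]
    calc ∫⁻ ω', ∫⁻ ω, ENNReal.ofReal (Real.exp (-2 * lam * M.XE h t ω ω')) ∂P ∂P'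
        ≤ ∫⁻ _ω' : Ω', ENNReal.ofReal (Real.exp (t * (-2 * lam) ^ 2 / 2)) ∂P' := by
          refine lintegral_mono_ae ?_
          filter_upwards [M.lintegral_exp_J_le ht (-2 * lam)] with ω' hω'
          refine le_trans (lintegral_mono fun ω => ENNReal.ofReal_le_ofReal ?_) hω'
          apply Real.exp_le_exp.2
          have := mul_nonneg hh (M.T_nonneg ht ω')
          unfold XE
          nlinarith
      _ < ∞ := by
          rw [lintegral_const, measure_univ, mul_one]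
          simp
  filter_upwards [ae_lt_top hm.lintegral_prod_right' h1.ne] with ω hω
  refine ⟨(hm0.comp measurable_prodMk_left).aestronglyMeasurable, ?_⟩
  rw [hasFiniteIntegral_iff_ofReal (ae_of_all _ fun ω' => (Real.exp_pos _).le)]
  exact hω

theorem ae_exchange [IsProbabilityMeasure P'] {h θ t : ℝ} (hh : 0 ≤ h) (hθ : 0 < θ) (ht : 0 ≤ t)
    (p : ℕ → ℕ) (e : ℕ → Bool) (k : ℕ) (hp : ∀ i < k, p i < p (i + 1)) :
    ∀ᵐ ω ∂P, ∫ ω', M.wE θ p e k ω' * M.XE h t ω ω' ∂P' =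
      (1 / 2) ^ k * ∫ ω', M.iR θ p k ω' * M.Xbar h θ t p e k ω ω' ∂P' := by
  have hP := M.isProbabilityMeasure_P
  have hi1 : ∀ᵐ ω ∂P, Integrable (fun ω' => M.wE θ p e k ω' * M.XE h t ω ω') P' := by
    filter_upwards [M.ae_integrable_X hh ht] with ω hω
    refine hω.bdd_mul (c := 1) (M.measurable_wE θ p e k).aestronglyMeasurable
      (ae_of_all _ fun ω' => ?_)
    rw [Real.norm_eq_abs, abs_of_nonneg (M.wE_nonneg θ p e k ω')]
    exact M.wE_le_one θ p e k ω'
  have hi2 : ∀ ω, Integrable (fun ω' => M.iR θ p k ω' * M.Xbar h θ t p e k ω ω') P' := by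
    intro ω
    refine (M.integrable_Xbar h θ ht p e k ω).bdd_mul (c := 1)
      (M.measurable_iR θ p k).aestronglyMeasurable (ae_of_all _ fun ω' => ?_)
    rw [Real.norm_eq_abs, abs_of_nonneg (M.iR_nonneg θ p k ω')]
    exact M.iR_le_one θ p k ω'
  have hle : ∀ N, ∫⁻ ω, ‖∫ ω', M.GG h θ t p e k ω ω' ∂P'‖ₑ ∂P ≤
      ∫⁻ ω', ∫⁻ ω, ‖M.GG h θ t p e k ω ω' - M.GN h θ t p e k N ω ω'‖ₑ ∂P ∂P' := by
    intro N
    have hm : Measurable (fun q : Ω × Ω' =>
        ‖M.GG h θ t p e k q.1 q.2 - M.GN h θ t p e k N q.1 q.2‖ₑ) :=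
      ((M.measurable_GG h θ ht p e k).sub (M.measurable_GN h θ t p e k N)).enorm
    rw [← lintegral_lintegral_swap hm.aemeasurable]
    refine lintegral_mono_ae ?_
    filter_upwards [hi1] with ω hω
    have hG : Integrable (fun ω' => M.GG h θ t p e k ω ω') P' := hω.sub ((hi2 ω).const_mul _)
    have h1 : ∫ ω', M.GG h θ t p e k ω ω' ∂P' =
        ∫ ω', (M.GG h θ t p e k ω ω' - M.GN h θ t p e k N ω ω') ∂P' := by
      rw [integral_sub hG (M.integrable_GN h θ ht p e k N ω),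
        M.integral_GN h hθ ht p e k hp N ω, sub_zero]
    rw [h1]
    exact enorm_integral_le_lintegral_enorm _
  have h0 : ∫⁻ ω, ‖∫ ω', M.GG h θ t p e k ω ω' ∂P'‖ₑ ∂P = 0 :=
    le_antisymm (ge_of_tendsto' (M.tendsto_lintegral hh ht θ p e k) hle) bot_le
  have hmI : Measurable (fun ω => ‖∫ ω', M.GG h θ t p e k ω ω' ∂P'‖ₑ) :=
    ((M.measurable_GG h θ ht p e k).stronglyMeasurable.integral_prod_right').measurable.enorm
  rw [lintegral_eq_zero_iff hmI] at h0
  filter_upwards [h0, hi1] with ω hω hω1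
  simp only [Pi.zero_apply, enorm_eq_zero] at hω
  unfold GG at hω
  rw [integral_sub hω1 ((hi2 ω).const_mul _), integral_const_mul] at hω
  linarith

end Model

end Pool.Agent.Lib.MP_3d9a2b_pr
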