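import Pool.Agent.Lib.MP_3d9a2b_pr.Model

set_option autoImplicit false

namespace Pool.Agent.Lib.MP_3d9a2b_pr

open MeasureTheory ProbabilityTheory Filter Topology
open scoped NNReal ENNReal

namespace Model

variable {α : ℝ} {Ω Ω' : Type} [MeasurableSpace Ω] [mΩ' : MeasurableSpace Ω'] {P : Measure Ω}
  {P' : Measure Ω'} (M : Model α P P')

/-! ### Geometry of the excursions -/

theorem mem_compl_iff (ω : Ω') (x : ℝ) :
    (∃ n, x ∈ Set.Ioo (M.left n ω) (M.right n ω)) ↔ 0 ≤ x ∧ x ∉ M.R ω := by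
  have h := M.iUnion_Ioo ω
  have : x ∈ ⋃ n, Set.Ioo (M.left n ω) (M.right n ω) ↔ x ∈ Set.Ici 0 \ M.R ω := by rw [h]
  simpa using this

theorem left_nonneg (n : ℕ) (ω : Ω') : 0 ≤ M.left n ω := by
  by_contra h
  push Not at h
  have hlt := M.left_lt_right n ω
  set x := (M.left n ω + min (M.right n ω) 0) / 2 with hx
  have h1 : min (M.right n ω) 0 ≤ M.right n ω := min_le_left _ _
  have h2 : min (M.right n ω) 0 ≤ 0 := min_le_right _ _
  have h3 : M.left n ω < min (M.right n ω) 0 := lt_min hlt h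
  have hx1 : x ∈ Set.Ioo (M.left n ω) (M.right n ω) := ⟨by rw [hx]; linarith, by rw [hx]; linarith⟩
  have := ((M.mem_compl_iff ω x).1 ⟨n, hx1⟩).1
  rw [hx] at this
  linarith

theorem left_mem (n : ℕ) (ω : Ω') : M.left n ω ∈ M.R ω := by
  by_contra h
  obtain ⟨m, hm⟩ := (M.mem_compl_iff ω (M.left n ω)).2 ⟨M.left_nonneg n ω, h⟩
  have hnm : n ≠ m := by
    rintro rfl
    exact lt_irrefl _ hm.1
  have hlt := M.left_lt_right n ω
  have hd := M.disjoint_Ioo ω n m hnm
  rw [Set.disjoint_left] at hd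
  set x := (M.left n ω + min (M.right n ω) (M.right m ω)) / 2 with hx
  have h1 : min (M.right n ω) (M.right m ω) ≤ M.right n ω := min_le_left _ _
  have h2 : min (M.right n ω) (M.right m ω) ≤ M.right m ω := min_le_right _ _
  have h3 : M.left n ω < min (M.right n ω) (M.right m ω) := lt_min hlt hm.2
  have h4 := hm.1
  exact hd (a := x) ⟨by rw [hx]; linarith, by rw [hx]; linarith⟩
    ⟨by rw [hx]; linarith, by rw [hx]; linarith⟩

theorem right_mem (n : ℕ) (ω : Ω') : M.right n ω ∈ M.R ω := by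
  by_contra h
  obtain ⟨m, hm⟩ := (M.mem_compl_iff ω (M.right n ω)).2
    ⟨(M.left_nonneg n ω).trans (M.left_lt_right n ω).le, h⟩
  have hnm : n ≠ m := by
    rintro rfl
    exact lt_irrefl _ hm.2
  have hlt := M.left_lt_right n ω
  have hd := M.disjoint_Ioo ω n m hnm
  rw [Set.disjoint_left] at hd
  set x := (M.right n ω + max (M.left n ω) (M.left m ω)) / 2 with hx
  have h1 : M.left n ω ≤ max (M.left n ω) (M.left m ω) := le_max_left _ _
  have h2 : M.left m ω ≤ max (M.left n ω) (M.left m ω) := le_max_right _ _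
  have h3 : max (M.left n ω) (M.left m ω) < M.right n ω := max_lt hlt hm.1
  have h4 := hm.2
  exact hd (a := x) ⟨by rw [hx]; linarith, by rw [hx]; linarith⟩
    ⟨by rw [hx]; linarith, by rw [hx]; linarith⟩

theorem not_mem_of_mem_Ioo {n : ℕ} {ω : Ω'} {x : ℝ}
    (h : x ∈ Set.Ioo (M.left n ω) (M.right n ω)) : x ∉ M.R ω :=
  ((M.mem_compl_iff ω x).1 ⟨n, h⟩).2

/-- The excursion intervals are ordered. -/
theorem right_le_left_or (ω : Ω') {n m : ℕ} (hnm : n ≠ m) :
    M.right n ω ≤ M.left m ω ∨ M.right m ω ≤ M.left n ω := by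
  by_contra h
  push Not at h
  obtain ⟨h1, h2⟩ := h
  have hd := M.disjoint_Ioo ω n m hnm
  rw [Set.disjoint_left] at hd
  have hn := M.left_lt_right n ω
  have hm := M.left_lt_right m ω
  obtain ⟨x, hx1, hx2⟩ : ∃ x, max (M.left n ω) (M.left m ω) < x ∧
      x < min (M.right n ω) (M.right m ω) :=
    exists_between (max_lt (lt_min hn h2) (lt_min h1 hm))
  rw [max_lt_iff] at hx1
  rw [lt_min_iff] at hx2
  exact hd (a := x) ⟨hx1.1, hx2.1⟩ ⟨hx1.2, hx2.2⟩

theorem eq_of_mem {n m : ℕ} {ω : Ω'} {x : ℝ}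
    (hn1 : M.left n ω ≤ x) (hn2 : x < M.right n ω) (hm1 : M.left m ω ≤ x)
    (hm2 : x < M.right m ω) : n = m := by
  by_contra h
  rcases M.right_le_left_or ω h with h1 | h1 <;> linarith

/-- The next point of `R` after a point inside an excursion. -/
theorem nextPt_eq_right {n : ℕ} {ω : Ω'} {x : ℝ}
    (hn1 : M.left n ω ≤ x) (hn2 : x < M.right n ω) : nextPt (M.R ω) x = M.right n ω := by
  unfold nextPt
  apply le_antisymm
  · exact csInf_le (s := {r | r ∈ M.R ω ∧ x < r}) ⟨x, fun r hr => hr.2.le⟩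
      ⟨M.right_mem n ω, hn2⟩
  · refine le_csInf (s := {r | r ∈ M.R ω ∧ x < r}) ⟨M.right n ω, M.right_mem n ω, hn2⟩ ?_
    rintro r ⟨hr, hxr⟩
    by_contra h
    push Not at h
    exact M.not_mem_of_mem_Ioo (n := n) (x := r) ⟨lt_of_le_of_lt hn1 hxr, h⟩ hr

theorem lt_of_lt_nextPt {R : Set ℝ} {x z r : ℝ}
    (hz : z < nextPt R x) (hr : r ∈ R) (hr' : x < r) : z < r :=
  lt_of_lt_of_le hz (csInf_le (s := {r | r ∈ R ∧ x < r}) ⟨x, fun _ h => h.2.le⟩ ⟨hr, hr'⟩)

/-- If `x` is followed by a gap, it belongs to an excursion. -/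
theorem exists_excursion {ω : Ω'} {x : ℝ} (hx : 0 ≤ x) (h : x < nextPt (M.R ω) x) :
    ∃ n, M.left n ω ≤ x ∧ x < M.right n ω := by
  obtain ⟨z, hz1, hz2⟩ := exists_between h
  have hzR : z ∉ M.R ω := by
    intro hz
    exact lt_irrefl _ (lt_of_lt_nextPt hz2 hz hz1)
  obtain ⟨n, hn⟩ := (M.mem_compl_iff ω z).2 ⟨hx.trans hz1.le, hzR⟩
  refine ⟨n, ?_, hz1.trans hn.2⟩
  by_contra h'
  push Not at h'
  exact absurd (lt_of_lt_nextPt hz2 (M.left_mem n ω) h') (not_lt.2 hn.1.le)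

/-! ### Lengths -/

/-- The length of the part before `t` of the `n`-th excursion. -/
noncomputable def len (t : ℝ) (n : ℕ) (ω : Ω') : ℝ := min (M.right n ω) t - min (M.left n ω) t

theorem len_nonneg (t : ℝ) (n : ℕ) (ω : Ω') : 0 ≤ M.len t n ω :=
  sub_nonneg.2 (min_le_min_right _ (M.left_lt_right n ω).le)

theorem volume_inter (t : ℝ) (n : ℕ) (ω : Ω') :
    volume (Set.Ioo (M.left n ω) (M.right n ω) ∩ Set.Ioo 0 t) = ENNReal.ofReal (M.len t n ω) := by
  rw [Set.Ioo_inter_Ioo, Real.volume_Ioo]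
  have h0 := M.left_nonneg n ω
  have h1 := M.left_lt_right n ω
  unfold len
  rw [sup_of_le_left h0]
  rcases le_total t (M.left n ω) with h | h
  · rw [min_eq_right h, min_eq_right (h.trans h1.le), sub_self, ENNReal.ofReal_zero,
      ENNReal.ofReal_eq_zero]
    linarith
  · rw [min_eq_left h]

theorem tsum_len (t : ℝ) (ω : Ω') :
    ∑' n, ENNReal.ofReal (M.len t n ω) = ENNReal.ofReal t := by
  have h1 : ∀ n, ENNReal.ofReal (M.len t n ω) =
      volume (Set.Ioo (M.left n ω) (M.right n ω) ∩ Set.Ioo 0 t) :=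
    fun n => (M.volume_inter t n ω).symm
  simp_rw [h1]
  rw [← measure_iUnion, ← Set.iUnion_inter, M.iUnion_Ioo]
  · have h2 : Set.Ici (0 : ℝ) \ M.R ω ∩ Set.Ioo 0 t = Set.Ioo 0 t \ M.R ω := by
      ext x
      simp only [Set.mem_inter_iff, Set.mem_sdiff, Set.mem_Ici, Set.mem_Ioo]
      constructor
      · rintro ⟨⟨_, h⟩, h'⟩
        exact ⟨h', h⟩
      · rintro ⟨h', h⟩
        exact ⟨⟨h'.1.le, h⟩, h'⟩
    rw [h2, measure_sdiff_null (M.regen.null ω), Real.volume_Ioo, sub_zero]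
  · intro n m hnm
    exact (M.disjoint_Ioo ω n m hnm).mono Set.inter_subset_left Set.inter_subset_left
  · intro n
    exact measurableSet_Ioo.inter measurableSet_Ioo

theorem hasSum_len {t : ℝ} (ht : 0 ≤ t) (ω : Ω') : HasSum (fun n => M.len t n ω) t := by
  have h1 := M.tsum_len t ω
  have h2 : ∑' n, ENNReal.ofReal (M.len t n ω) ≠ ∞ := by
    rw [h1]; exact ENNReal.ofReal_ne_top
  have h3 := ENNReal.hasSum_toReal h2
  have h4 : ∀ n, (ENNReal.ofReal (M.len t n ω)).toReal = M.len t n ω :=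
    fun n => ENNReal.toReal_ofReal (M.len_nonneg t n ω)
  simp_rw [h4] at h3
  have h5 : ∑' n, M.len t n ω = t := by
    have := congrArg ENNReal.toReal h1
    rw [ENNReal.tsum_toReal_eq (fun n => ENNReal.ofReal_ne_top)] at this
    simp_rw [h4] at this
    rwa [ENNReal.toReal_ofReal ht] at this
  rwa [h5] at h3

theorem sum_len_le {t : ℝ} (ht : 0 ≤ t) (ω : Ω') (N : ℕ) :
    ∑ n ∈ Finset.range N, M.len t n ω ≤ t :=
  sum_le_hasSum _ (fun n _ => M.len_nonneg t n ω) (M.hasSum_len ht ω)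

theorem len_le {t : ℝ} (ht : 0 ≤ t) (ω : Ω') (n : ℕ) : M.len t n ω ≤ t :=
  (Finset.single_le_sum (f := fun m => M.len t m ω) (fun m _ => M.len_nonneg t m ω)
    (Finset.self_mem_range_succ n)).trans (M.sum_len_le ht ω (n + 1))

end Model

end Pool.Agent.Lib.MP_3d9a2b_pr
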