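import Pool.Agent.Lib.MP_3d9a2b_pr.Model

/-! # Integrability and monotonicity of `log Z` (task H3 of MP_3d9a2b_pr) -/

set_option autoImplicit false
set_option linter.unusedSectionVars false

namespace Pool.Agent.Lib.MP_3d9a2b_pr

open MeasureTheory ProbabilityTheory Filter Topology
open scoped NNReal ENNReal

section LZ
variable {α : ℝ} {Ω Ω' : Type} [MeasurableSpace Ω] [MeasurableSpace Ω'] {P : Measure Ω}
  {P' : Measure Ω'} [IsProbabilityMeasure P] [IsProbabilityMeasure P'] (M : Model α P P')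

theorem lz_left_nonneg (n : ℕ) (ω' : Ω') : 0 ≤ M.left n ω' := by
  by_contra h
  push Not at h
  have hlr := M.left_lt_right n ω'
  obtain ⟨x, hx1, hx2⟩ := exists_between (lt_min hlr h)
  have hx : x ∈ ⋃ n, Set.Ioo (M.left n ω') (M.right n ω') :=
    Set.mem_iUnion.2 ⟨n, hx1, hx2.trans_le (min_le_left _ _)⟩
  rw [M.iUnion_Ioo] at hx
  have h0 : (0 : ℝ) ≤ x := hx.1
  have := hx2.trans_le (min_le_right _ _)
  linarith

/-- the contribution of the `n`-th excursion to the Wiener integral -/
noncomputable def lzX (t : ℝ) (ω' : Ω') (n : ℕ) (ω : Ω) : ℝ :=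
  if M.ξ n ω' then
      M.B (min (M.right n ω') t).toNNReal ω - M.B (min (M.left n ω') t).toNNReal ω else 0

theorem lzX_measurable (t : ℝ) (ω' : Ω') (n : ℕ) : Measurable (lzX M t ω' n) := by
  unfold lzX
  split_ifs
  · exact (M.measurable_B _).sub (M.measurable_B _)
  · exact measurable_const

theorem lzX_gaussian (t : ℝ) (ω' : Ω') : IsGaussianProcess (lzX M t ω') P := by
  have hB := M.brownian.toIsPreBrownianReal
  apply hB.isGaussianProcess.of_isGaussianProcess
  intro n
  by_cases h : M.ξ n ω' = true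
  · exact ⟨{(min (M.right n ω') t).toNNReal, (min (M.left n ω') t).toNNReal},
        { toFun x := x ⟨(min (M.right n ω') t).toNNReal, by simp⟩ -
            x ⟨(min (M.left n ω') t).toNNReal, by simp⟩
          map_add' x y := by simp; abel
          map_smul' c x := by simp; ring }, by simp [lzX, h]⟩
  · exact ⟨∅, 0, by simp [lzX, h]⟩

theorem lzX_integral (t : ℝ) (ω' : Ω') (n : ℕ) : ∫ ω, lzX M t ω' n ω ∂P = 0 := by
  have hB := M.brownian.toIsPreBrownianReal
  unfold lzX
  split_ifs
  · rw [integral_sub (hB.integrable_eval _) (hB.integrable_eval _), hB.integral_eval,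
      hB.integral_eval, sub_zero]
  · simp

theorem lzX_cov (t : ℝ) (ω' : Ω') (n m : ℕ) (hnm : n ≠ m) :
    cov[lzX M t ω' n, lzX M t ω' m; P] = 0 := by
  have hB := M.brownian.toIsPreBrownianReal
  have hL : ∀ t, MemLp (M.B t) 2 P := fun t =>
    (hB.isGaussianProcess.hasGaussianLaw_eval t).memLp_two
  wlog h : M.right n ω' ≤ M.left m ω' generalizing n m
  · rw [covariance_comm]
    refine this m n hnm.symm ?_
    have hd := M.disjoint_Ioo ω' n m hnm
    rw [Set.Ioo_disjoint_Ioo] at hd
    have h1 := M.left_lt_right n ω'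
    have h2 := M.left_lt_right m ω'
    push Not at h
    rcases le_total (M.right n ω') (M.right m ω') with h3 | h3
    · rw [min_eq_left h3] at hd
      rcases le_max_iff.1 hd with h4 | h4 <;> linarith
    · rw [min_eq_right h3] at hd
      rcases le_max_iff.1 hd with h4 | h4 <;> linarith
  by_cases hn : M.ξ n ω' = true
  · by_cases hm : M.ξ m ω' = true
    · have e1 : lzX M t ω' n = M.B (min (M.right n ω') t).toNNReal -
          M.B (min (M.left n ω') t).toNNReal := by funext ω; simp [lzX, hn]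
      have e2 : lzX M t ω' m = M.B (min (M.right m ω') t).toNNReal -
          M.B (min (M.left m ω') t).toNNReal := by funext ω; simp [lzX, hm]
      have l1 : (min (M.left n ω') t).toNNReal ≤ (min (M.right n ω') t).toNNReal :=
        Real.toNNReal_le_toNNReal (min_le_min_right t (M.left_lt_right n ω').le)
      have l2 : (min (M.right n ω') t).toNNReal ≤ (min (M.left m ω') t).toNNReal :=
        Real.toNNReal_le_toNNReal (min_le_min_right t h)
      have l3 : (min (M.left m ω') t).toNNReal ≤ (min (M.right m ω') t).toNNReal :=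
        Real.toNNReal_le_toNNReal (min_le_min_right t (M.left_lt_right m ω').le)
      rw [e1, e2, covariance_sub_left (hL _) (hL _) ((hL _).sub (hL _)),
        covariance_sub_right (hL _) (hL _) (hL _), covariance_sub_right (hL _) (hL _) (hL _),
        hB.covariance_eval, hB.covariance_eval, hB.covariance_eval, hB.covariance_eval,
        min_eq_left (l2.trans l3), min_eq_left l2, min_eq_left (l1.trans (l2.trans l3)),
        min_eq_left (l1.trans l2)]
      simp
    · have e2 : lzX M t ω' m = 0 := by funext ω; simp [lzX, hm]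
      rw [e2, covariance_zero_right]
  · have e1 : lzX M t ω' n = 0 := by funext ω; simp [lzX, hn]
    rw [e1, covariance_zero_left]

theorem lzX_var (t : ℝ) (ht : 0 ≤ t) (ω' : Ω') (n : ℕ) :
    cov[lzX M t ω' n, lzX M t ω' n; P] ≤ min (M.right n ω') t - min (M.left n ω') t := by
  have hB := M.brownian.toIsPreBrownianReal
  have hL : ∀ t, MemLp (M.B t) 2 P := fun t =>
    (hB.isGaussianProcess.hasGaussianLaw_eval t).memLp_two
  have h0 := lz_left_nonneg M n ω'
  have h1 := M.left_lt_right n ω'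
  have l1 : min (M.left n ω') t ≤ min (M.right n ω') t := min_le_min_right t h1.le
  by_cases hn : M.ξ n ω' = true
  · have e1 : lzX M t ω' n = M.B (min (M.right n ω') t).toNNReal -
          M.B (min (M.left n ω') t).toNNReal := by funext ω; simp [lzX, hn]
    rw [e1, covariance_sub_left (hL _) (hL _) ((hL _).sub (hL _)),
        covariance_sub_right (hL _) (hL _) (hL _), covariance_sub_right (hL _) (hL _) (hL _),
        hB.covariance_eval, hB.covariance_eval, hB.covariance_eval, hB.covariance_eval,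
        min_self, min_self, min_eq_right (Real.toNNReal_le_toNNReal l1),
        min_eq_left (Real.toNNReal_le_toNNReal l1), Real.coe_toNNReal _ (le_min h0 ht),
        Real.coe_toNNReal _ (le_min (h0.trans h1.le) ht)]
    linarith
  · have e1 : lzX M t ω' n = 0 := by funext ω; simp [lzX, hn]
    rw [e1, covariance_zero_left]
    linarith

theorem lz_sum_len (t : ℝ) (ht : 0 ≤ t) (ω' : Ω') (N : ℕ) :
    ∑ n ∈ Finset.range N, (min (M.right n ω') t - min (M.left n ω') t) ≤ t := by
  have hsub : ∀ n, Set.Ioo (min (M.left n ω') t) (min (M.right n ω') t) ⊆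
      Set.Ioo (M.left n ω') (M.right n ω') := by
    intro n x hx
    have h2 : x < t := hx.2.trans_le (min_le_right _ _)
    refine ⟨?_, hx.2.trans_le (min_le_left _ _)⟩
    rcases min_lt_iff.1 hx.1 with h | h
    · exact h
    · linarith
  have hnn : ∀ n, 0 ≤ min (M.right n ω') t - min (M.left n ω') t := fun n =>
    sub_nonneg.2 (min_le_min_right t (M.left_lt_right n ω').le)
  have key : ENNReal.ofReal (∑ n ∈ Finset.range N, (min (M.right n ω') t - min (M.left n ω') t)) ≤
      ENNReal.ofReal t := by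
    rw [ENNReal.ofReal_sum_of_nonneg fun n _ => hnn n]
    have h1 : ∑ n ∈ Finset.range N, ENNReal.ofReal (min (M.right n ω') t - min (M.left n ω') t) =
        volume (⋃ n ∈ Finset.range N,
          Set.Ioo (min (M.left n ω') t) (min (M.right n ω') t)) := by
      rw [measure_biUnion_finset]
      · refine Finset.sum_congr rfl fun n _ => ?_
        rw [Real.volume_Ioo]
      · intro i _ j _ hij
        exact (M.disjoint_Ioo ω' i j hij).mono (hsub i) (hsub j)
      · intro i _
        exact measurableSet_Ioo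
    rw [h1]
    calc volume (⋃ n ∈ Finset.range N, Set.Ioo (min (M.left n ω') t) (min (M.right n ω') t))
        ≤ volume (Set.Icc 0 t) := by
          refine measure_mono (Set.iUnion₂_subset fun n _ x hx => ⟨?_, ?_⟩)
          · exact (le_min (lz_left_nonneg M n ω') ht).trans hx.1.le
          · exact hx.2.le.trans (min_le_right _ _)
      _ = ENNReal.ofReal t := by rw [Real.volume_Icc, sub_zero]
  exact (ENNReal.ofReal_le_ofReal_iff ht).1 key

theorem lz_mgf_sum (s t : ℝ) (ht : 0 ≤ t) (ω' : Ω') (N : ℕ) :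
    ∫⁻ ω, ENNReal.ofReal (Real.exp (s * ∑ n ∈ Finset.range N, lzX M t ω' n ω)) ∂P ≤
      ENNReal.ofReal (Real.exp (s ^ 2 * t / 2)) := by
  have hG := lzX_gaussian M t ω'
  have hL : ∀ n, MemLp (lzX M t ω' n) 2 P := fun n => (hG.hasGaussianLaw_eval n).memLp_two
  have hS : HasGaussianLaw (∑ n ∈ Finset.range N, lzX M t ω' n) P := hG.hasGaussianLaw_sum
  have hmap := hS.map_eq_gaussianReal
  have hfun : (∑ n ∈ Finset.range N, lzX M t ω' n) =
      fun ω => ∑ n ∈ Finset.range N, lzX M t ω' n ω := by funext ω; simp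
  have hmean : ∫ ω, (∑ n ∈ Finset.range N, lzX M t ω' n) ω ∂P = 0 := by
    rw [hfun]
    simp only
    rw [integral_finsetSum _ fun n _ => (hL n).integrable (by norm_num)]
    exact Finset.sum_eq_zero fun n _ => lzX_integral M t ω' n
  have hvar : Var[∑ n ∈ Finset.range N, lzX M t ω' n; P] ≤ t := by
    rw [variance_sum' fun n _ => hL n]
    refine le_trans ?_ (lz_sum_len M t ht ω' N)
    refine Finset.sum_le_sum fun n hn => ?_
    rw [Finset.sum_eq_single_of_mem n hn fun m _ hm => lzX_cov M t ω' n m hm.symm]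
    exact lzX_var M t ht ω' n
  have hmgf := mgf_gaussianReal hmap s
  have hint : Integrable (fun ω => Real.exp (s * (∑ n ∈ Finset.range N, lzX M t ω' n) ω)) P := by
    have h := integrable_exp_mul_gaussianReal
      (μ := ∫ ω, (∑ n ∈ Finset.range N, lzX M t ω' n) ω ∂P)
      (v := Var[∑ n ∈ Finset.range N, lzX M t ω' n; P].toNNReal) s
    rw [← hmap] at h
    exact (integrable_map_measure (by fun_prop) hS.aemeasurable).1 h
  have e : ∀ ω, (∑ n ∈ Finset.range N, lzX M t ω' n ω) =
      (∑ n ∈ Finset.range N, lzX M t ω' n) ω := fun ω => by simp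
  simp_rw [e]
  rw [← ofReal_integral_eq_lintegral_ofReal hint (ae_of_all _ fun ω => (Real.exp_pos _).le)]
  apply ENNReal.ofReal_le_ofReal
  rw [mgf, hmean] at hmgf
  rw [hmgf]
  apply Real.exp_le_exp.2
  rw [zero_mul, zero_add, Real.coe_toNNReal _ (variance_nonneg _ _)]
  nlinarith [sq_nonneg s]

theorem lz_mgf_J (s t : ℝ) (ht : 0 ≤ t) : ∀ᵐ ω' ∂P',
    ∫⁻ ω, ENNReal.ofReal (Real.exp (s * M.J t ω ω')) ∂P ≤
      ENNReal.ofReal (Real.exp (s ^ 2 * t / 2)) := by
  filter_upwards [M.wiener t ht] with ω' hω'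
  have hJm : Measurable fun ω => M.J t ω ω' :=
    (M.measurable_J t).comp (measurable_id.prodMk measurable_const)
  have hSm : ∀ N, Measurable fun ω => ∑ n ∈ Finset.range N, lzX M t ω' n ω := fun N =>
    Finset.measurable_sum _ fun n _ => lzX_measurable M t ω' n
  have hconv : Tendsto (fun N => eLpNorm ((fun ω => ∑ n ∈ Finset.range N, lzX M t ω' n ω) -
      fun ω => M.J t ω ω') 2 P) atTop (𝓝 0) := by
    refine hω'.congr fun N => ?_
    rw [eLpNorm_sub_comm]
    rfl
  have hmeas := tendstoInMeasure_of_tendsto_eLpNorm (by norm_num)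
    (fun N => (hSm N).aestronglyMeasurable) hJm.aestronglyMeasurable hconv
  obtain ⟨ns, -, hns⟩ := hmeas.exists_seq_tendsto_ae
  calc ∫⁻ ω, ENNReal.ofReal (Real.exp (s * M.J t ω ω')) ∂P
      = ∫⁻ ω, liminf (fun i => ENNReal.ofReal
          (Real.exp (s * ∑ n ∈ Finset.range (ns i), lzX M t ω' n ω))) atTop ∂P := by
        refine lintegral_congr_ae ?_
        filter_upwards [hns] with ω hω
        have h1 : Tendsto (fun i => ENNReal.ofReal
            (Real.exp (s * ∑ n ∈ Finset.range (ns i), lzX M t ω' n ω))) atTop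
            (𝓝 (ENNReal.ofReal (Real.exp (s * M.J t ω ω')))) :=
          ENNReal.tendsto_ofReal ((Real.continuous_exp.tendsto _).comp (hω.const_mul s))
        exact h1.liminf_eq.symm
    _ ≤ liminf (fun i => ∫⁻ ω, ENNReal.ofReal
          (Real.exp (s * ∑ n ∈ Finset.range (ns i), lzX M t ω' n ω)) ∂P) atTop :=
        lintegral_liminf_le fun i => ((hSm (ns i)).const_mul s).exp.ennreal_ofReal
    _ ≤ ENNReal.ofReal (Real.exp (s ^ 2 * t / 2)) := by
        refine liminf_le_of_le (by isBoundedDefault) fun b hb => ?_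
        obtain ⟨i, hi⟩ := hb.exists
        exact hi.trans (lz_mgf_sum M s t ht ω' (ns i))


theorem lz_integrable_prod (s t : ℝ) (ht : 0 ≤ t) :
    Integrable (fun p : Ω × Ω' => Real.exp (s * M.J t p.1 p.2)) (P.prod P') := by
  have hm : Measurable fun p : Ω × Ω' => Real.exp (s * M.J t p.1 p.2) :=
    ((M.measurable_J t).const_mul s).exp
  refine (lintegral_ofReal_ne_top_iff_integrable hm.aestronglyMeasurable
    (ae_of_all _ fun p => (Real.exp_pos _).le)).1 ?_
  rw [lintegral_prod_symm _ hm.ennreal_ofReal.aemeasurable]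
  refine ne_top_of_le_ne_top (b := ENNReal.ofReal (Real.exp (s ^ 2 * t / 2)))
    ENNReal.ofReal_ne_top ?_
  calc ∫⁻ ω', ∫⁻ ω, ENNReal.ofReal (Real.exp (s * M.J t ω ω')) ∂P ∂P'
      ≤ ∫⁻ _, ENNReal.ofReal (Real.exp (s ^ 2 * t / 2)) ∂P' :=
        lintegral_mono_ae (lz_mgf_J M s t ht)
    _ = ENNReal.ofReal (Real.exp (s ^ 2 * t / 2)) := by simp

theorem lz_integrable_J (t : ℝ) (ht : 0 ≤ t) :
    Integrable (fun p : Ω × Ω' => M.J t p.1 p.2) (P.prod P') := by
  refine ((lz_integrable_prod M 1 t ht).add (lz_integrable_prod M (-1) t ht)).mono'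
    (M.measurable_J t).aestronglyMeasurable (ae_of_all _ fun p => ?_)
  simp only [Pi.add_apply, one_mul, Real.norm_eq_abs]
  rcases abs_cases (M.J t p.1 p.2) with ⟨h, _⟩ | ⟨h, _⟩ <;> rw [h]
  · linarith [Real.add_one_le_exp (M.J t p.1 p.2), Real.exp_pos (-1 * M.J t p.1 p.2)]
  · have := Real.add_one_le_exp (-1 * M.J t p.1 p.2)
    linarith [Real.exp_pos (M.J t p.1 p.2)]

theorem lz_Δ_nonneg (s : ℝ) (ω' : Ω') : 0 ≤ M.Δ s ω' := by
  unfold Model.Δ
  refine tsum_nonneg fun n => Set.indicator_nonneg (fun x _ => ?_) s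
  split_ifs <;> norm_num

theorem lz_Δ_le (s : ℝ) (ω' : Ω') : M.Δ s ω' ≤ 1 := by
  unfold Model.Δ
  by_cases h : ∃ n, s ∈ Set.Ioo (M.left n ω') (M.right n ω')
  · obtain ⟨n, hn⟩ := h
    rw [tsum_eq_single n]
    · rw [Set.indicator_of_mem hn]
      split_ifs <;> norm_num
    · intro m hm
      refine Set.indicator_of_notMem (fun hm' => ?_) _
      exact Set.disjoint_left.1 (M.disjoint_Ioo ω' m n hm) hm' hn
  · push Not at h
    have : ∀ n, Set.indicator (Set.Ioo (M.left n ω') (M.right n ω'))
        (fun _ => if M.ξ n ω' then (1 : ℝ) else 0) s = 0 := fun n =>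
      Set.indicator_of_notMem (h n) _
    simp [this]

theorem lz_Δ_measurable : Measurable fun p : Ω' × ℝ => M.Δ p.2 p.1 := by
  unfold Model.Δ
  refine Measurable.tsum fun n => ?_
  have hl : Measurable (M.left n) := (M.measurable_left n).mono M.𝒢_le le_rfl
  have hr : Measurable (M.right n) := (M.measurable_right n).mono M.𝒢_le le_rfl
  have h1 : MeasurableSet {p : Ω' × ℝ | p.2 ∈ Set.Ioo (M.left n p.1) (M.right n p.1)} :=
    (measurableSet_lt (hl.comp measurable_fst) measurable_snd).inter
      (measurableSet_lt measurable_snd (hr.comp measurable_fst))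
  have h2 : Measurable fun p : Ω' × ℝ => if M.ξ n p.1 = true then (1 : ℝ) else 0 :=
    Measurable.ite (((M.measurable_ξ n).comp measurable_fst) (measurableSet_singleton true))
      measurable_const measurable_const
  have h3 : (fun p : Ω' × ℝ => Set.indicator (Set.Ioo (M.left n p.1) (M.right n p.1))
      (fun _ => if M.ξ n p.1 = true then (1 : ℝ) else 0) p.2) =
      Set.indicator {p : Ω' × ℝ | p.2 ∈ Set.Ioo (M.left n p.1) (M.right n p.1)}
        (fun p => if M.ξ n p.1 = true then (1 : ℝ) else 0) := by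
    funext p
    rfl
  rw [h3]
  exact h2.indicator h1

/-- the time spent below the interface -/
noncomputable def lzA (t : ℝ) (ω' : Ω') : ℝ := ∫ s in (0 : ℝ)..t, M.Δ s ω'

theorem lzA_nonneg (t : ℝ) (ht : 0 ≤ t) (ω' : Ω') : 0 ≤ lzA M t ω' :=
  intervalIntegral.integral_nonneg ht fun s _ => lz_Δ_nonneg M s ω'

theorem lzA_le (t : ℝ) (ht : 0 ≤ t) (ω' : Ω') : lzA M t ω' ≤ t := by
  have h := intervalIntegral.norm_integral_le_of_norm_le_const (a := 0) (b := t) (C := 1)
    (f := fun s => M.Δ s ω') (fun s _ => by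
      rw [Real.norm_eq_abs, abs_of_nonneg (lz_Δ_nonneg M s ω')]
      exact lz_Δ_le M s ω')
  rw [sub_zero, abs_of_nonneg ht, one_mul] at h
  exact (Real.le_norm_self _).trans h

theorem lzA_measurable (t : ℝ) (ht : 0 ≤ t) : Measurable (lzA M t) := by
  unfold lzA
  simp_rw [intervalIntegral.integral_of_le ht]
  exact (StronglyMeasurable.integral_prod_right' (ν := volume.restrict (Set.Ioc 0 t))
    (f := fun p : Ω' × ℝ => M.Δ p.2 p.1) (lz_Δ_measurable M).stronglyMeasurable).measurable

/-- the integrand of `Z` -/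
noncomputable def lzF (lam h t : ℝ) (p : Ω × Ω') : ℝ :=
  Real.exp (-2 * lam * (M.J t p.1 p.2 + h * lzA M t p.2))

theorem lzF_measurable (lam h t : ℝ) (ht : 0 ≤ t) : Measurable (lzF M lam h t) := by
  unfold lzF
  have h1 : Measurable fun p : Ω × Ω' => M.J t p.1 p.2 := M.measurable_J t
  have h2 : Measurable fun p : Ω × Ω' => lzA M t p.2 := (lzA_measurable M t ht).comp measurable_snd
  fun_prop

theorem lzF_le {lam h t : ℝ} (hlam : 0 < lam) (hh : 0 ≤ h) (ht : 0 ≤ t) (p : Ω × Ω') :
    lzF M lam h t p ≤ Real.exp (-2 * lam * M.J t p.1 p.2) := by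
  unfold lzF
  apply Real.exp_le_exp.2
  have := mul_nonneg hh (lzA_nonneg M t ht p.2)
  nlinarith

theorem lzF_integrable {lam h t : ℝ} (hlam : 0 < lam) (hh : 0 ≤ h) (ht : 0 ≤ t) :
    Integrable (lzF M lam h t) (P.prod P') := by
  refine (lz_integrable_prod M (-2 * lam) t ht).mono'
    (lzF_measurable M lam h t ht).aestronglyMeasurable (ae_of_all _ fun p => ?_)
  rw [Real.norm_eq_abs, abs_of_nonneg (by unfold lzF; positivity)]
  exact lzF_le M hlam hh ht p

theorem lz_Z_eq (lam h t : ℝ) (ω : Ω) : M.Z lam h t ω = ∫ ω', lzF M lam h t (ω, ω') ∂P' := rfl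

theorem integrable_log_Z {lam h t : ℝ} (hlam : 0 < lam) (hh : 0 ≤ h) (ht : 0 ≤ t) :
    Integrable (fun ω => Real.log (M.Z lam h t ω)) P := by
  have hZint : Integrable (M.Z lam h t) P := (lzF_integrable M hlam hh ht).integral_prod_left
  have hZm : Measurable (M.Z lam h t) :=
    (StronglyMeasurable.integral_prod_right' (ν := P') (f := lzF M lam h t)
      (lzF_measurable M lam h t ht).stronglyMeasurable).measurable
  have hJint : Integrable (fun ω => ∫ ω', |M.J t ω ω'| ∂P') P :=
    (lz_integrable_J M t ht).abs.integral_prod_left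
  refine ((hZint.add (hJint.const_mul (2 * lam))).add
    (integrable_const (2 * lam * (h * t)))).mono' hZm.log.aestronglyMeasurable ?_
  filter_upwards [(lzF_integrable M hlam hh ht).prod_right_ae,
    (lz_integrable_J M t ht).prod_right_ae] with ω hF hJ
  have hpos : 0 < M.Z lam h t ω := integral_exp_pos hF
  have hJabs : 0 ≤ ∫ ω', |M.J t ω ω'| ∂P' := integral_nonneg fun _ => abs_nonneg _
  have hup : Real.log (M.Z lam h t ω) ≤ M.Z lam h t ω := by
    linarith [Real.log_le_sub_one_of_pos hpos]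
  have hA : Integrable (fun ω' => lzA M t ω') P' := by
    refine (integrable_const t).mono' (lzA_measurable M t ht).aestronglyMeasurable
      (ae_of_all _ fun ω' => ?_)
    rw [Real.norm_eq_abs, abs_of_nonneg (lzA_nonneg M t ht ω')]
    exact lzA_le M t ht ω'
  have hlow : -(2 * lam * ∫ ω', |M.J t ω ω'| ∂P') - 2 * lam * (h * t) ≤
      Real.log (M.Z lam h t ω) := by
    have hG : Integrable (fun ω' => -2 * lam * (M.J t ω ω' + h * lzA M t ω')) P' :=
      (hJ.add (hA.const_mul h)).const_mul _
    have hjen := ConvexOn.map_integral_le (μ := P') (s := Set.univ) (g := Real.exp)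
      (f := fun ω' => -2 * lam * (M.J t ω ω' + h * lzA M t ω')) convexOn_exp
      Real.continuous_exp.continuousOn isClosed_univ (by simp) hG hF
    have h1 : ∫ ω', -2 * lam * (M.J t ω ω' + h * lzA M t ω') ∂P' ≤
        Real.log (M.Z lam h t ω) := (Real.le_log_iff_exp_le hpos).2 hjen
    refine le_trans ?_ h1
    rw [integral_const_mul, integral_add hJ (hA.const_mul h), integral_const_mul]
    have h2 : ∫ ω', M.J t ω ω' ∂P' ≤ ∫ ω', |M.J t ω ω'| ∂P' :=
      integral_mono hJ hJ.abs fun _ => le_abs_self _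
    have h3 : ∫ ω', lzA M t ω' ∂P' ≤ t := by
      calc ∫ ω', lzA M t ω' ∂P' ≤ ∫ _, t ∂P' :=
            integral_mono hA (integrable_const _) fun ω' => lzA_le M t ht ω'
        _ = t := by simp
    have h4 : h * ∫ ω', lzA M t ω' ∂P' ≤ h * t := mul_le_mul_of_nonneg_left h3 hh
    nlinarith
  rw [Real.norm_eq_abs, abs_le]
  simp only [Pi.add_apply]
  have hc : 0 ≤ 2 * lam * (h * t) := by positivity
  have hc2 : 0 ≤ 2 * lam * ∫ ω', |M.J t ω ω'| ∂P' := by positivity
  constructor <;> linarith

/-- `Z` is decreasing in `h`. -/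
theorem log_Z_anti {lam h h' t : ℝ} (hlam : 0 < lam) (hh : 0 ≤ h) (hhh' : h ≤ h') (ht : 0 ≤ t) :
    ∀ᵐ ω ∂P, Real.log (M.Z lam h' t ω) ≤ Real.log (M.Z lam h t ω) := by
  filter_upwards [(lzF_integrable M hlam hh ht).prod_right_ae,
    (lzF_integrable M hlam (hh.trans hhh') ht).prod_right_ae] with ω hF hF'
  have hpos : 0 < M.Z lam h' t ω := integral_exp_pos hF'
  refine Real.log_le_log hpos (integral_mono hF' hF fun ω' => ?_)
  apply Real.exp_le_exp.2
  have := lzA_nonneg M t ht ω'
  unfold lzA at this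
  have h2 := mul_le_mul_of_nonneg_right hhh' this
  nlinarith

end LZ
end Pool.Agent.Lib.MP_3d9a2b_pr
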