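import Pool.Agent.Lib.MP_3d9a2b_pr.Env
import Pool.Agent.Lib.MP_3d9a2b_pr.Model

set_option autoImplicit false

namespace Pool.Agent.Lib.MP_3d9a2b_pr

open MeasureTheory ProbabilityTheory Filter Topology
open scoped NNReal ENNReal

/-- lower bound for the beta measure of an interval -/
lemma G_beta (α : ℝ) (h0 : 0 < α) (h1 : α < 1) {a b : ℝ} (ha : 0 < a) (hab : a < b) (hb : b ≤ 1) :
    (1 / beta α (1 - α)) * b ^ (α - 1) * (b - a) ≤ (betaMeasure α (1 - α)).real (Set.Ioo a b) := by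
  have hB : 0 < beta α (1 - α) := beta_pos h0 (by linarith)
  have hprob : IsProbabilityMeasure (betaMeasure α (1 - α)) :=
    isProbabilityMeasureBeta h0 (by linarith)
  set c : ℝ := (1 / beta α (1 - α)) * b ^ (α - 1) with hc
  have hb0 : 0 < b := ha.trans hab
  have hc0 : 0 ≤ c := by positivity
  have key : ENNReal.ofReal c * volume (Set.Ioo a b) ≤ betaMeasure α (1 - α) (Set.Ioo a b) := by
    calc ENNReal.ofReal c * volume (Set.Ioo a b)
        = ∫⁻ _ in Set.Ioo a b, ENNReal.ofReal c := by rw [setLIntegral_const]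
      _ ≤ ∫⁻ x in Set.Ioo a b, betaPDF α (1 - α) x := by
          refine setLIntegral_mono' measurableSet_Ioo fun x hx => ?_
          have hx0 : 0 < x := ha.trans hx.1
          have hx1 : x < 1 := hx.2.trans_le hb
          rw [betaPDF_of_pos_lt_one hx0 hx1]
          refine ENNReal.ofReal_le_ofReal ?_
          have e1 : b ^ (α - 1) ≤ x ^ (α - 1) :=
            Real.rpow_le_rpow_of_nonpos hx0 hx.2.le (by linarith)
          have e2 : (1 : ℝ) ≤ (1 - x) ^ (1 - α - 1) :=
            Real.one_le_rpow_of_pos_of_le_one_of_nonpos (by linarith) (by linarith) (by linarith)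
          have e3 : 0 < x ^ (α - 1) := Real.rpow_pos_of_pos hx0 _
          calc c = (1 / beta α (1 - α)) * b ^ (α - 1) * 1 := by rw [hc, mul_one]
            _ ≤ (1 / beta α (1 - α)) * x ^ (α - 1) * (1 - x) ^ (1 - α - 1) := by
                refine mul_le_mul (mul_le_mul_of_nonneg_left e1 (by positivity)) e2 zero_le_one
                  (by positivity)
      _ = betaMeasure α (1 - α) (Set.Ioo a b) := by
          rw [betaMeasure, withDensity_apply _ measurableSet_Ioo]
  have h2 := ENNReal.toReal_mono (measure_ne_top _ _) key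
  rw [Real.volume_Ioo, ← ENNReal.ofReal_mul hc0, ENNReal.toReal_ofReal
    (mul_nonneg hc0 (by linarith))] at h2
  exact h2

section
variable {α : ℝ} {Ω' : Type} [MeasurableSpace Ω'] {P' : Measure Ω'} [IsProbabilityMeasure P']
  {R : Ω' → Set ℝ}

lemma G_law (h0 : 0 < α) (h1 : α < 1) (hR : IsStableRegenerative α R P') {s u v : ℝ}
    (hs : 0 < s) (hsu : s ≤ u) (huv : u < v) :
    (1 / beta α (1 - α)) * (s / u) ^ (α - 1) * (s / u - s / v) ≤
      P'.real {ω | nextPt (R ω) s ∈ Set.Ioo u v} := by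
  have hu : 0 < u := hs.trans_le hsu
  have hv : 0 < v := hu.trans huv
  have e1 := G_beta α h0 h1 (a := s / v) (b := s / u) (by positivity)
    (div_lt_div_of_pos_left hs hu huv) ((div_le_one hu).2 hsu)
  refine e1.trans ?_
  have hm : Measurable fun ω => s / nextPt (R ω) s := measurable_const.div (hR.measurable_nextPt s)
  rw [← hR.law s hs, measureReal_def, Measure.map_apply hm measurableSet_Ioo, ← measureReal_def]
  refine measureReal_mono ?_ (measure_ne_top _ _)
  intro ω hω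
  simp only [Set.mem_preimage, Set.mem_Ioo] at hω
  obtain ⟨h3, h4⟩ := hω
  have h5 : 0 < s / nextPt (R ω) s := lt_trans (by positivity) h3
  have h6 : 0 < nextPt (R ω) s := by
    rcases lt_or_ge 0 (nextPt (R ω) s) with h | h
    · exact h
    · exact absurd h5 (not_lt.2 (div_nonpos_of_nonneg_of_nonpos hs.le h))
  refine ⟨?_, ?_⟩
  · rw [div_lt_div_iff₀ h6 hu] at h4
    nlinarith
  · rw [div_lt_div_iff₀ hv h6] at h3
    nlinarith

lemma G_num (h0 : 0 < α) (h1 : α < 1) {a δ l : ℝ} (hl : 0 < l) (ha : 0 < a)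
    (hal : a ≤ 1 / l) (hδ : 1 / (8 * l ^ 2) ≤ δ) :
    1 / (8 * beta α (1 - α)) * l ^ (-(1 + α)) ≤ 1 / beta α (1 - α) * a ^ (α - 1) * δ := by
  have hB : 0 < beta α (1 - α) := beta_pos h0 (by linarith)
  have e1 : (1 / l) ^ (α - 1) ≤ a ^ (α - 1) :=
    Real.rpow_le_rpow_of_nonpos ha hal (by linarith)
  have e2 : (1 / l) ^ (α - 1) = l ^ (1 - α) := by
    rw [one_div, Real.inv_rpow hl.le, ← Real.rpow_neg hl.le]
    congr 1; ring
  have e3 : l ^ (-(1 + α)) = l ^ (1 - α) * (1 / l ^ 2) := by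
    rw [one_div, ← Real.rpow_natCast l 2, ← Real.rpow_neg hl.le, ← Real.rpow_add hl]
    congr 1; push_cast; ring
  have hp : 0 < l ^ (1 - α) := Real.rpow_pos_of_pos hl _
  calc 1 / (8 * beta α (1 - α)) * l ^ (-(1 + α))
      = 1 / beta α (1 - α) * l ^ (1 - α) * (1 / (8 * l ^ 2)) := by
        rw [e3]; field_simp
    _ ≤ 1 / beta α (1 - α) * a ^ (α - 1) * δ := by
        refine mul_le_mul (mul_le_mul_of_nonneg_left (e2 ▸ e1) (by positivity)) hδ (by positivity)
          (by positivity)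

lemma G_case1 (h0 : 0 < α) (h1 : α < 1) (hR : IsStableRegenerative α R P') {θ l : ℝ}
    (hθ : 0 < θ) (hl : 1 ≤ l) :
    1 / (8 * beta α (1 - α)) * l ^ (-(1 + α)) ≤
      P'.real {ω | nextPt (R ω) (3 * θ / 4) ∈ Set.Ioo (θ * l) (θ * (l + 1 / 4))} := by
  have h2 := G_law h0 h1 hR (s := 3 * θ / 4) (u := θ * l) (v := θ * (l + 1 / 4)) (by positivity)
    (by nlinarith) (by nlinarith)
  refine le_trans (G_num h0 h1 (by linarith) (by positivity) ?_ ?_) h2
  · rw [div_le_div_iff₀ (by positivity) (by positivity)]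
    nlinarith
  · have e : 3 * θ / 4 / (θ * l) - 3 * θ / 4 / (θ * (l + 1 / 4)) = 3 / (4 * l * (4 * l + 1)) := by
      field_simp; ring
    rw [e, div_le_div_iff₀ (by positivity) (by positivity)]
    nlinarith

lemma G_case2 (h0 : 0 < α) (h1 : α < 1) (hR : IsStableRegenerative α R P') {θ l : ℝ}
    (hθ : 0 < θ) (hl : 1 ≤ l) :
    1 / (8 * beta α (1 - α)) * l ^ (-(1 + α)) ≤
      P'.real {ω | nextPt (R ω) (θ / 2) ∈ Set.Ioo (θ * (l - 1 / 4)) (θ * l)} := by
  have hl' : 0 < l - 1 / 4 := by linarith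
  have h2 := G_law h0 h1 hR (s := θ / 2) (u := θ * (l - 1 / 4)) (v := θ * l) (by positivity)
    (by nlinarith) (by nlinarith)
  refine le_trans (G_num h0 h1 (by linarith) (by positivity) ?_ ?_) h2
  · rw [div_le_div_iff₀ (by positivity) (by positivity)]
    nlinarith
  · have e : θ / 2 / (θ * (l - 1 / 4)) - θ / 2 / (θ * l) = 1 / (8 * l * (l - 1 / 4)) := by
      obtain ⟨m, rfl⟩ : ∃ m, l = m + 1 / 4 := ⟨l - 1 / 4, by ring⟩
      have e0 : m + 1 / 4 - 1 / 4 = m := by ring
      rw [e0] at hl' ⊢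
      have : m + 1 / 4 ≠ 0 := by positivity
      rw [div_sub_div _ _ (by positivity) (by positivity), div_eq_div_iff (by positivity) (by positivity)]
      ring
    rw [e, div_le_div_iff₀ (by positivity) (by positivity)]
    nlinarith

lemma G_next {S : Set ℝ} (hc : IsClosed S) (hu : ∀ t : ℝ, ∃ r ∈ S, t < r) {s s' : ℝ}
    (h : s ≤ s') (h' : s' < nextPt S s) : nextPt S s' = nextPt S s := by
  have hne : ∀ t : ℝ, {r | r ∈ S ∧ t < r}.Nonempty := fun t => by
    obtain ⟨r, hr, htr⟩ := hu t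
    exact ⟨r, hr, htr⟩
  have hbd : ∀ t : ℝ, BddBelow {r | r ∈ S ∧ t < r} := fun t => ⟨t, fun r hr => hr.2.le⟩
  have hmem : nextPt S s ∈ S := by
    have h1 := csInf_mem_closure (hne s) (hbd s)
    exact (hc.closure_subset_iff.2 fun r hr => hr.1) h1
  refine le_antisymm (csInf_le (hbd s') ⟨hmem, h'⟩) ?_
  exact csInf_le_csInf (hbd s) (hne s') fun r hr => ⟨hr.1, h.trans_lt hr.2⟩

lemma G_aemeas (hR : IsStableRegenerative α R P') {t : ℝ} (ht : 0 ≤ t) :
    AEMeasurable (fun ω (s : Set.Ici (0 : ℝ)) =>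
      nextPt (R ω) (nextPt (R ω) t + s) - nextPt (R ω) t) P' := by
  by_contra hcon
  have h1 := hR.regen_law t ht
  rw [Measure.map_of_not_aemeasurable hcon] at h1
  have hm : Measurable (fun ω (s : Set.Ici (0 : ℝ)) => nextPt (R ω) s) :=
    measurable_pi_iff.2 fun s => hR.measurable_nextPt s
  have h2 := congrArg (fun m => m Set.univ) h1
  simp only [Measure.coe_zero, Pi.zero_apply] at h2
  rw [Measure.map_apply hm MeasurableSet.univ, Set.preimage_univ, measure_univ] at h2
  exact zero_ne_one h2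

/-- probability of an event in the past together with an event for the regenerated set -/
lemma G_indep (hR : IsStableRegenerative α R P') {t : ℝ} (ht : 0 ≤ t)
    (A : Set (Set.Icc (0 : ℝ) t → ℝ)) (hA : MeasurableSet A) {s : ℝ} (hs : 0 ≤ s) (u v : ℝ) :
    P'.real ({ω | (fun r : Set.Icc (0 : ℝ) t => nextPt (R ω) r) ∈ A} ∩
      {ω | nextPt (R ω) (nextPt (R ω) t + s) - nextPt (R ω) t ∈ Set.Ioo u v}) =
      P'.real {ω | (fun r : Set.Icc (0 : ℝ) t => nextPt (R ω) r) ∈ A} *
        P'.real {ω | nextPt (R ω) s ∈ Set.Ioo u v} := by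
  have hT : MeasurableSet {ψ : Set.Ici (0 : ℝ) → ℝ | ψ ⟨s, hs⟩ ∈ Set.Ioo u v} :=
    (measurable_pi_apply _) measurableSet_Ioo
  have h1 := (hR.regen_indep t ht).measure_inter_preimage_eq_mul A
    {ψ : Set.Ici (0 : ℝ) → ℝ | ψ ⟨s, hs⟩ ∈ Set.Ioo u v} hA hT
  have hm : Measurable (fun ω (s : Set.Ici (0 : ℝ)) => nextPt (R ω) s) :=
    measurable_pi_iff.2 fun s => hR.measurable_nextPt s
  have h2 := congrArg (fun m => m {ψ : Set.Ici (0 : ℝ) → ℝ | ψ ⟨s, hs⟩ ∈ Set.Ioo u v})
    (hR.regen_law t ht)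
  beta_reduce at h2
  rw [Measure.map_apply_of_aemeasurable (G_aemeas hR ht) hT, Measure.map_apply hm hT] at h2
  rw [h2] at h1
  have h3 := congrArg ENNReal.toReal h1
  rw [ENNReal.toReal_mul] at h3
  exact h3

end

theorem regen_scenario (α : ℝ) (h0 : 0 < α) (h1 : α < 1) : ∃ c > 0, c ≤ 1 ∧
    ∀ {Ω' : Type} [MeasurableSpace Ω'] (P' : Measure Ω') [IsProbabilityMeasure P']
      (R : Ω' → Set ℝ), IsStableRegenerative α R P' →
      ∀ (θ : ℝ), 0 < θ → ∀ (p : ℕ → ℕ) (k : ℕ), p 0 = 0 → (∀ i < k, p i < p (i + 1)) →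
        ∏ i ∈ Finset.range k, (c * ((p (i + 1) - p i : ℕ) : ℝ) ^ (-(1 + α))) ≤
          P'.real {ω | ∀ i < k, nextPt (R ω) (θ * (p i + 1)) ∈
            Set.Ioc (θ * p (i + 1)) (θ * (p (i + 1) + 1 / 2))} := by
  have hB : 0 < beta α (1 - α) := beta_pos h0 (by linarith)
  refine ⟨min 1 (1 / (8 * beta α (1 - α))), lt_min one_pos (by positivity), min_le_left _ _, ?_⟩
  intro Ω' _ P' _ R hR θ hθ p k hp0
  set c : ℝ := min 1 (1 / (8 * beta α (1 - α))) with hc
  have hc0 : 0 < c := lt_min one_pos (by positivity)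
  -- the two basic estimates
  have hq1 : ∀ l : ℕ, 1 ≤ l → c * (l : ℝ) ^ (-(1 + α)) ≤
      P'.real {ω | nextPt (R ω) (3 * θ / 4) ∈ Set.Ioo (θ * l) (θ * (l + 1 / 4))} := by
    intro l hl
    have hl' : (1 : ℝ) ≤ l := by exact_mod_cast hl
    refine le_trans ?_ (G_case1 h0 h1 hR hθ hl')
    exact mul_le_mul_of_nonneg_right (min_le_right _ _) (Real.rpow_nonneg (by positivity) _)
  have hq2 : ∀ l : ℕ, 1 ≤ l → c * (l : ℝ) ^ (-(1 + α)) ≤
      P'.real {ω | nextPt (R ω) (θ / 2) ∈ Set.Ioo (θ * (l - 1 / 4)) (θ * l)} := by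
    intro l hl
    have hl' : (1 : ℝ) ≤ l := by exact_mod_cast hl
    refine le_trans ?_ (G_case2 h0 h1 hR hθ hl')
    exact mul_le_mul_of_nonneg_right (min_le_right _ _) (Real.rpow_nonneg (by positivity) _)
  induction k with
  | zero => intro _; simp
  | succ k ih =>
    intro hp
    have ih' := ih fun i hi => hp i (by omega)
    rw [Finset.prod_range_succ]
    have hpk := hp k (by omega)
    set l : ℕ := p (k + 1) - p k with hl
    have hl1 : 1 ≤ l := by omega
    have hl1' : (1 : ℝ) ≤ l := by exact_mod_cast hl1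
    have hpl : (p (k + 1) : ℝ) = p k + l := by
      have : p (k + 1) = p k + l := by omega
      rw [this]; push_cast; ring
    have hcl : 0 ≤ c * (l : ℝ) ^ (-(1 + α)) := mul_nonneg hc0.le (Real.rpow_nonneg (by positivity) _)
    rcases Nat.eq_zero_or_pos k with rfl | hk
    · -- first step
      simp only [Finset.range_zero, Finset.prod_empty, one_mul]
      refine (hq1 l hl1).trans (measureReal_mono ?_ (measure_ne_top _ _))
      intro ω hω i hi
      obtain rfl : i = 0 := by omega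
      simp only [Set.mem_ofPred_eq, Set.mem_Ioo] at hω
      have e1 : nextPt (R ω) (θ * (p 0 + 1)) = nextPt (R ω) (3 * θ / 4) := by
        refine G_next (hR.isClosed ω) (hR.unbounded ω) ?_ ?_
        · rw [hp0]; push_cast; nlinarith
        · rw [hp0]; push_cast; nlinarith [hω.1]
      rw [e1, hpl, hp0]
      push_cast
      constructor
      · linarith [hω.1]
      · nlinarith [hω.2]
    · -- induction step
      obtain ⟨m, rfl⟩ : ∃ m, k = m + 1 := ⟨k - 1, by omega⟩
      set t : ℝ := θ * (p m + 1) with ht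
      have ht0 : 0 ≤ t := by positivity
      have hmono : ∀ i ≤ m, p i ≤ p m := by
        intro i hi
        have : ∀ j, i + j ≤ m → p i ≤ p (i + j) := by
          intro j
          induction j with
          | zero => intro _; exact le_refl _
          | succ j ihj =>
            intro hj
            have h3 := hp (i + j) (by omega)
            have h4 := ihj (by omega)
            rw [← add_assoc]; omega
        have h5 := this (m - i) (by omega)
        rwa [Nat.add_sub_cancel' hi] at h5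
      have hti : ∀ i < m + 1, θ * (p i + 1) ∈ Set.Icc (0 : ℝ) t := by
        intro i hi
        have h3 : (p i : ℝ) ≤ p m := by exact_mod_cast hmono i (by omega)
        exact ⟨by positivity, by rw [ht]; nlinarith⟩
      set A0 : Set (Set.Icc (0 : ℝ) t → ℝ) := {φ | ∀ i : Fin (m + 1),
        φ ⟨θ * (p i + 1), hti i i.2⟩ ∈ Set.Ioc (θ * p (i + 1)) (θ * (p (i + 1) + 1 / 2))} with hA0
      set A1 : Set (Set.Icc (0 : ℝ) t → ℝ) := {φ | φ ⟨t, ht0, le_refl t⟩ ≤ θ * (p (m + 1) + 1 / 4)} with hA1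
      have hA0m : MeasurableSet A0 := by
        have : A0 = ⋂ i : Fin (m + 1), {φ | φ ⟨θ * (p i + 1), hti i i.2⟩ ∈
            Set.Ioc (θ * p (i + 1)) (θ * (p (i + 1) + 1 / 2))} := by
          ext φ; simp [hA0]
        rw [this]
        exact MeasurableSet.iInter fun i => (measurable_pi_apply _) measurableSet_Ioc
      have hA1m : MeasurableSet A1 := (measurable_pi_apply _) measurableSet_Iic
      set E : Set Ω' := {ω | ∀ i < m + 1, nextPt (R ω) (θ * (p i + 1)) ∈
            Set.Ioc (θ * p (i + 1)) (θ * (p (i + 1) + 1 / 2))} with hE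
      set E' : Set Ω' := {ω | ∀ i < m + 1 + 1, nextPt (R ω) (θ * (p i + 1)) ∈
            Set.Ioc (θ * p (i + 1)) (θ * (p (i + 1) + 1 / 2))} with hE'
      set F : Set Ω' := {ω | nextPt (R ω) t ≤ θ * (p (m + 1) + 1 / 4)} with hF
      have hFm : MeasurableSet F := (hR.measurable_nextPt t) measurableSet_Iic
      have hEA : E = {ω | (fun r : Set.Icc (0 : ℝ) t => nextPt (R ω) r) ∈ A0} := by
        ext ω
        simp only [hE, hA0, Set.mem_ofPred_eq]
        exact ⟨fun h i => h i i.2, fun h i hi => h ⟨i, hi⟩⟩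
      have hE1 : E ∩ F = {ω | (fun r : Set.Icc (0 : ℝ) t => nextPt (R ω) r) ∈ A0 ∩ A1} := by
        rw [hEA]; rfl
      have hE2 : E \ F = {ω | (fun r : Set.Icc (0 : ℝ) t => nextPt (R ω) r) ∈ A0 ∩ A1ᶜ} := by
        rw [hEA]; rfl
      have i1 := G_indep hR ht0 (A0 ∩ A1) (hA0m.inter hA1m) (s := 3 * θ / 4) (by positivity)
        (θ * l) (θ * (l + 1 / 4))
      have i2 := G_indep hR ht0 (A0 ∩ A1ᶜ) (hA0m.inter hA1m.compl) (s := θ / 2) (by positivity)
        (θ * (l - 1 / 4)) (θ * l)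
      rw [← hE1] at i1
      rw [← hE2] at i2
      have s1 : (E ∩ F) ∩ {ω | nextPt (R ω) (nextPt (R ω) t + 3 * θ / 4) - nextPt (R ω) t ∈
          Set.Ioo (θ * l) (θ * (l + 1 / 4))} ⊆ E' ∩ F := by
        rintro ω ⟨⟨h3, h4⟩, h5⟩
        refine ⟨?_, h4⟩
        intro i hi
        rcases Nat.lt_succ_iff_lt_or_eq.1 hi with hi' | rfl
        · exact h3 i hi'
        have h6 := h3 m (by omega)
        rw [← ht] at h6
        simp only [Set.mem_ofPred_eq, Set.mem_Ioo, Set.mem_Ioc, hF] at h4 h5 h6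
        have e1 : nextPt (R ω) (θ * (p (m + 1) + 1)) = nextPt (R ω) (nextPt (R ω) t + 3 * θ / 4) := by
          refine G_next (hR.isClosed ω) (hR.unbounded ω) ?_ ?_
          · nlinarith
          · nlinarith [h5.1, h6.1]
        rw [e1, hpl]
        constructor
        · nlinarith [h5.1, h6.1]
        · nlinarith [h5.2, h6.2]
      have s2 : (E \ F) ∩ {ω | nextPt (R ω) (nextPt (R ω) t + θ / 2) - nextPt (R ω) t ∈
          Set.Ioo (θ * (l - 1 / 4)) (θ * l)} ⊆ E' \ F := by
        rintro ω ⟨⟨h3, h4⟩, h5⟩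
        refine ⟨?_, h4⟩
        intro i hi
        rcases Nat.lt_succ_iff_lt_or_eq.1 hi with hi' | rfl
        · exact h3 i hi'
        have h6 := h3 m (by omega)
        rw [← ht] at h6
        simp only [Set.mem_ofPred_eq, Set.mem_Ioo, Set.mem_Ioc, hF, not_le] at h4 h5 h6
        have e1 : nextPt (R ω) (θ * (p (m + 1) + 1)) = nextPt (R ω) (nextPt (R ω) t + θ / 2) := by
          refine G_next (hR.isClosed ω) (hR.unbounded ω) ?_ ?_
          · nlinarith [h6.2]
          · nlinarith [h5.1, h6.1]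
        rw [e1, hpl]
        constructor
        · nlinarith [h5.1, h6.1]
        · nlinarith [h5.2, h6.2]
      have j1 : P'.real (E ∩ F) * (c * (l : ℝ) ^ (-(1 + α))) ≤ P'.real (E' ∩ F) := by
        refine le_trans ?_ (measureReal_mono s1 (measure_ne_top _ _))
        rw [i1]
        exact mul_le_mul_of_nonneg_left (hq1 l hl1) measureReal_nonneg
      have j2 : P'.real (E \ F) * (c * (l : ℝ) ^ (-(1 + α))) ≤ P'.real (E' \ F) := by
        refine le_trans ?_ (measureReal_mono s2 (measure_ne_top _ _))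
        rw [i2]
        exact mul_le_mul_of_nonneg_left (hq2 l hl1) measureReal_nonneg
      have k1 : P'.real (E ∩ F) + P'.real (E \ F) = P'.real E :=
        measureReal_inter_add_sdiff hFm
      have k2 : P'.real (E' ∩ F) + P'.real (E' \ F) = P'.real E' :=
        measureReal_inter_add_sdiff hFm
      calc (∏ i ∈ Finset.range (m + 1), c * ((p (i + 1) - p i : ℕ) : ℝ) ^ (-(1 + α))) *
            (c * (l : ℝ) ^ (-(1 + α)))
          ≤ P'.real E * (c * (l : ℝ) ^ (-(1 + α))) := mul_le_mul_of_nonneg_right ih' hcl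
        _ = P'.real (E ∩ F) * (c * (l : ℝ) ^ (-(1 + α))) +
            P'.real (E \ F) * (c * (l : ℝ) ^ (-(1 + α))) := by rw [← k1]; ring
        _ ≤ P'.real (E' ∩ F) + P'.real (E' \ F) := add_le_add j1 j2
        _ = P'.real E' := k2

end Pool.Agent.Lib.MP_3d9a2b_pr
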