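import Pool.Agent.Lib.MP_3d9a2b_pr.StageB2

set_option autoImplicit false

namespace Pool.Agent.Lib.MP_3d9a2b_pr

open MeasureTheory ProbabilityTheory Filter Topology
open scoped NNReal ENNReal

lemma integrable_fst_of_gaussian {μ : Measure (ℝ × ℝ)} {γ : ℝ}
    (hx : μ.map Prod.fst = gaussianReal γ 1) : Integrable (fun z : ℝ × ℝ => z.1) μ := by
  have hgi : Integrable (fun x : ℝ => x) (gaussianReal γ 1) := by
    have := memLp_id_gaussianReal (μ := γ) (v := 1) 1
    exact memLp_one_iff_integrable.mp (by exact_mod_cast this)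
  have h1 : Integrable (fun x : ℝ => x) (μ.map Prod.fst) := by rw [hx]; exact hgi
  exact h1.comp_measurable measurable_fst

/-- the starting point of a trial is not too low with probability at least `1 / 2` -/
lemma start_prob {μ : Measure (ℝ × ℝ)} [IsProbabilityMeasure μ] {γ Kw : ℝ}
    (hx : μ.map Prod.fst = gaussianReal γ 1) (hw0 : ∀ᵐ z ∂μ, 0 ≤ z.2)
    (hw : Integrable (fun z : ℝ × ℝ => z.2) μ) (hKw : ∫ z, z.2 ∂μ ≤ Kw) (hKw0 : 0 ≤ Kw) :
    1 / 2 ≤ μ.real {z | - (4 * (Kw + 1) + 2 * (γ + 2)) ≤ - z.2 - 2 * z.1} := by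
  set A := {z : ℝ × ℝ | 4 * (Kw + 1) ≤ z.2} with hA
  set B := {z : ℝ × ℝ | 2 ≤ |z.1 - γ|} with hB
  have hAm : MeasurableSet A := measurableSet_le measurable_const measurable_snd
  have hBm : MeasurableSet B := by
    apply measurableSet_le measurable_const
    fun_prop
  have h1 : μ.real A ≤ 1 / 4 := by
    have := mul_meas_ge_le_integral_of_nonneg hw0 hw (4 * (Kw + 1))
    have h2 : 4 * (Kw + 1) * μ.real A ≤ Kw := this.trans hKw
    have h3 : 0 ≤ μ.real A := measureReal_nonneg
    have : (Kw + 1) * (4 * μ.real A) ≤ (Kw + 1) * 1 := by nlinarith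
    have := le_of_mul_le_mul_left this (by linarith)
    linarith
  have h2 : μ.real B ≤ 1 / 4 := by
    have h3 : μ.real B = (gaussianReal γ 1).real {x | 2 ≤ |x - γ|} := by
      rw [← hx, measureReal_def, measureReal_def, Measure.map_apply measurable_fst]
      · rfl
      · apply measurableSet_le measurable_const
        fun_prop
    have h4 := meas_ge_le_variance_div_sq (μ := gaussianReal γ 1) (X := id)
      (memLp_id_gaussianReal 2) (c := 2) (by norm_num)
    rw [variance_id_gaussianReal] at h4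
    simp only [id_eq] at h4
    rw [integral_id_gaussianReal] at h4
    rw [h3, measureReal_def]
    have h5 : (ENNReal.ofReal ((1 : ℝ≥0) / 2 ^ 2)).toReal = 1 / 4 := by
      rw [ENNReal.toReal_ofReal (by positivity)]; norm_num
    rw [← h5]
    exact ENNReal.toReal_mono ENNReal.ofReal_ne_top h4
  have h3 : (A ∪ B)ᶜ ⊆ {z : ℝ × ℝ | - (4 * (Kw + 1) + 2 * (γ + 2)) ≤ - z.2 - 2 * z.1} := by
    intro z hz
    simp only [Set.mem_compl_iff, Set.mem_union, not_or, hA, hB, Set.mem_ofPred_eq, not_le] at hz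
    obtain ⟨hz1, hz2⟩ := hz
    rw [abs_lt] at hz2
    simp only [Set.mem_ofPred_eq]
    linarith
  have h4 : 1 / 2 ≤ μ.real (A ∪ B)ᶜ := by
    rw [measureReal_compl (hAm.union hBm), probReal_univ]
    have := measureReal_union_le (μ := μ) A B
    linarith
  exact h4.trans (measureReal_mono h3)

lemma exists_D (U α C B : ℝ) (hB : 0 ≤ B) : ∀ᶠ D : ℕ in atTop,
    (U + kap α C (2 * D)) * B ≤ (Real.log D) ^ 2 := by
  have hlog : Tendsto (fun a : ℕ => Real.log a) atTop atTop :=
    Real.tendsto_log_atTop.comp tendsto_natCast_atTop_atTop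
  have h1 : ∀ᶠ D : ℕ in atTop, 1 ≤ Real.log D := hlog.eventually_ge_atTop _
  have h2 : ∀ᶠ D : ℕ in atTop, (|U + (1 + α) * Real.log 2 + C| + (1 + α)) * B ≤ Real.log D :=
    hlog.eventually_ge_atTop _
  filter_upwards [h1, h2, eventually_ge_atTop 1] with D h1 h2 h3
  have h4 : (0 : ℝ) < D := by exact_mod_cast h3
  have h5 : U + kap α C (2 * D) = (U + (1 + α) * Real.log 2 + C) + (1 + α) * Real.log D := by
    unfold kap
    push_cast
    rw [Real.log_mul (by norm_num) h4.ne']
    ring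
  rw [h5]
  have h6 : (U + (1 + α) * Real.log 2 + C) + (1 + α) * Real.log D ≤
      (|U + (1 + α) * Real.log 2 + C| + (1 + α)) * Real.log D := by
    have := le_abs_self (U + (1 + α) * Real.log 2 + C)
    have := abs_nonneg (U + (1 + α) * Real.log 2 + C)
    nlinarith
  calc _ ≤ (|U + (1 + α) * Real.log 2 + C| + (1 + α)) * Real.log D * B := by gcongr
    _ = ((|U + (1 + α) * Real.log 2 + C| + (1 + α)) * B) * Real.log D := by ring
    _ ≤ Real.log D * Real.log D := by gcongr
    _ = _ := by ring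

lemma weight_ge {μ ρ : Measure (ℝ × ℝ)} [IsProbabilityMeasure μ] {α C γ Γ v : ℝ} {l DA : ℕ}
    (hγ0 : 0 < γ) (hDA1' : (1 : ℝ) ≤ DA) (hDAγ : 1 ≤ γ * DA) (hv : v = 16 * DA)
    (h2 : 1 / 4 ≤ (nu ρ).real (VA α C l DA Γ))
    (h1 : (nu ρ).real (VA α C l DA Γ) - 8 * (DA : ℝ) ^ 2 / v ^ 2 ≤
      ∫ ζ in UA α C l DA Γ ∩ {ζ | S DA ζ < v}, Real.exp (γ * S DA ζ) ∂nu μ) :
    1 / 8 ≤ ∫ ζ in UA α C l DA Γ ∩ {ζ | |S DA ζ| < v}, Real.exp (γ * S DA ζ) ∂nu μ := by
  have hprob : IsProbabilityMeasure (nu μ) := by unfold nu; infer_instance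
  have h3 : 8 * (DA : ℝ) ^ 2 / v ^ 2 = 1 / 32 := by
    rw [hv]; field_simp; norm_num
  have hSm := measurable_S' DA
  have hUm := measurableSet_UA α C l DA Γ
  set B1 := UA α C l DA Γ ∩ {ζ | |S DA ζ| < v} with hB1
  set B2 : Set Env := {ζ | S DA ζ ≤ -v} with hB2
  have hB1m : MeasurableSet B1 := hUm.inter (measurableSet_lt hSm.abs measurable_const)
  have hB2m : MeasurableSet B2 := measurableSet_le hSm measurable_const
  have hio : ∀ (B : Set Env) (c : ℝ), (∀ ζ ∈ B, S DA ζ ≤ c) → MeasurableSet B →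
      IntegrableOn (fun ζ => Real.exp (γ * S DA ζ)) B (nu μ) := by
    intro B c hB hBm
    have hc : IntegrableOn (fun _ : Env => Real.exp (γ * c)) B (nu μ) :=
      (integrable_const _).integrableOn
    refine Integrable.mono' hc (Measurable.aestronglyMeasurable (by fun_prop)) ?_
    refine (ae_restrict_iff' hBm).mpr (Eventually.of_forall fun ζ hζ => ?_)
    rw [Real.norm_eq_abs, abs_of_pos (Real.exp_pos _)]
    apply Real.exp_le_exp.mpr
    have := hB ζ hζ
    nlinarith
  have hi1 := hio B1 v (fun ζ hζ => (abs_lt.mp hζ.2).2.le) hB1m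
  have hi2 := hio B2 (-v) (fun ζ hζ => hζ) hB2m
  have h4 : ∫ ζ in UA α C l DA Γ ∩ {ζ | S DA ζ < v}, Real.exp (γ * S DA ζ) ∂nu μ ≤
      ∫ ζ in B1 ∪ B2, Real.exp (γ * S DA ζ) ∂nu μ := by
    apply setIntegral_mono_set (hi1.union hi2)
    · exact Eventually.of_forall fun ζ => (Real.exp_pos _).le
    · apply HasSubset.Subset.eventuallyLE
      intro ζ hζ
      rcases lt_or_ge (-v) (S DA ζ) with h5 | h5
      · exact Or.inl ⟨hζ.1, abs_lt.mpr ⟨h5, hζ.2⟩⟩
      · exact Or.inr h5
  have h5 : ∫ ζ in B1 ∪ B2, Real.exp (γ * S DA ζ) ∂nu μ ≤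
      ∫ ζ in B1, Real.exp (γ * S DA ζ) ∂nu μ + ∫ ζ in B2, Real.exp (γ * S DA ζ) ∂nu μ := by
    rw [setIntegral_union _ hB2m hi1 hi2]
    rw [Set.disjoint_left]
    intro ζ h6 h7
    have := (abs_lt.mp (show |S DA ζ| < v from h6.2)).1
    exact absurd h7 (not_le.mpr this)
  have h6 : ∫ ζ in B2, Real.exp (γ * S DA ζ) ∂nu μ ≤ 1 / 81 := by
    calc ∫ ζ in B2, Real.exp (γ * S DA ζ) ∂nu μ ≤ ∫ ζ in B2, (1 / 81 : ℝ) ∂nu μ := by
          apply setIntegral_mono_on hi2 (integrable_const _).integrableOn hB2m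
          intro ζ hζ
          have h7 : γ * S DA ζ ≤ -16 := by
            have : S DA ζ ≤ -v := hζ
            rw [hv] at this
            nlinarith
          have h8 : Real.exp (γ * S DA ζ) ≤ Real.exp (-16) := Real.exp_le_exp.mpr h7
          have h9 : (81 : ℝ) ≤ Real.exp 16 := by
            have h10 : (16 : ℝ) = 8 + 8 := by norm_num
            have h11 := Real.add_one_le_exp (8 : ℝ)
            rw [h10, Real.exp_add]
            nlinarith
          have h12 : Real.exp (-16) ≤ 1 / 81 := by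
            rw [Real.exp_neg, one_div]
            exact inv_anti₀ (by norm_num) h9
          exact h8.trans h12
      _ = (nu μ).real B2 * (1 / 81) := by rw [setIntegral_const, smul_eq_mul]
      _ ≤ 1 * (1 / 81) := by gcongr; exact measureReal_le_one
      _ = 1 / 81 := one_mul _
  linarith

lemma numeric {γ Cr co cu K0 Γ X r DA W q u σ G : ℝ} (hCr : 0 ≤ Cr) (hco : 0 < co)
    (hcu : 0 < cu) (hX : X = 32 * (1 + Cr) / (co * cu) +
      64 * (1 + Cr) * Real.exp (γ * K0) / (co ^ 2 * cu))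
    (hΓX : Real.exp (γ * Γ) = X) (hrDA : Real.exp (γ * r) = DA) (hDA : 1 ≤ DA) (hW : 0 ≤ W)
    (hq : 0 ≤ q) (hG : G = W) (hσ : σ = 2 * W * q) (hu : cu * q ≤ Real.exp (-γ * u)) :
    0 ≤ G * co * Real.exp (-γ * (u - r - Γ)) / 8 - σ * (DA + Cr) ∧
    σ * (1 + Cr) ≤ (G * co * Real.exp (-γ * (u - r - Γ)) / 8 - σ * (DA + Cr)) * co *
      Real.exp (- γ * (r + K0)) / 2 := by
  have hX1 : 32 * (1 + Cr) ≤ co * cu * X := by
    have h0 : co * cu * X = co * cu * (32 * (1 + Cr) / (co * cu)) +
        co * cu * (64 * (1 + Cr) * Real.exp (γ * K0) / (co ^ 2 * cu)) := by rw [hX]; ring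
    have h1 : co * cu * (32 * (1 + Cr) / (co * cu)) = 32 * (1 + Cr) := by field_simp
    have : 0 ≤ co * cu * (64 * (1 + Cr) * Real.exp (γ * K0) / (co ^ 2 * cu)) := by positivity
    linarith
  have hX2 : 64 * (1 + Cr) * Real.exp (γ * K0) ≤ co ^ 2 * cu * X := by
    have h0 : co ^ 2 * cu * X = co ^ 2 * cu * (32 * (1 + Cr) / (co * cu)) +
        co ^ 2 * cu * (64 * (1 + Cr) * Real.exp (γ * K0) / (co ^ 2 * cu)) := by rw [hX]; ring
    have h1 : co ^ 2 * cu * (64 * (1 + Cr) * Real.exp (γ * K0) / (co ^ 2 * cu)) =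
        64 * (1 + Cr) * Real.exp (γ * K0) := by field_simp
    have : 0 ≤ co ^ 2 * cu * (32 * (1 + Cr) / (co * cu)) := by positivity
    linarith
  have hX0 : 0 < X := by rw [← hΓX]; exact Real.exp_pos _
  have hDA0 : 0 < DA := by linarith
  have hE : Real.exp (-γ * (u - r - Γ)) = Real.exp (-γ * u) * DA * X := by
    rw [← hΓX, ← hrDA, ← Real.exp_add, ← Real.exp_add]
    congr 1; ring
  set G' := G * co * Real.exp (-γ * (u - r - Γ)) / 8 - σ * (DA + Cr) with hG'
  have hlow : W * q * DA * (co * cu * X) / 16 ≤ G' := by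
    rw [hG', hE, hG, hσ]
    have h1 : W * co * (cu * q * DA * X) / 8 ≤ W * co * (Real.exp (-γ * u) * DA * X) / 8 := by
      gcongr
    have h2 : 2 * W * q * (DA + Cr) ≤ W * q * DA * (2 * (1 + Cr)) := by
      have : DA + Cr ≤ DA * (1 + Cr) := by nlinarith
      calc 2 * W * q * (DA + Cr) ≤ 2 * W * q * (DA * (1 + Cr)) := by gcongr
        _ = _ := by ring
    have h3 : W * q * DA * (32 * (1 + Cr)) ≤ W * q * DA * (co * cu * X) := by gcongr
    have h4 : W * co * (cu * q * DA * X) / 8 = W * q * DA * (co * cu * X) / 8 := by ring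
    linarith
  have hG'0 : 0 ≤ G' := le_trans (by positivity) hlow
  refine ⟨hG'0, ?_⟩
  have hE2 : Real.exp (-γ * (r + K0)) = DA⁻¹ * (Real.exp (γ * K0))⁻¹ := by
    rw [← hrDA, ← Real.exp_neg, ← Real.exp_neg, ← Real.exp_add]
    congr 1; ring
  rw [hE2, hσ]
  calc 2 * W * q * (1 + Cr) = W * q * (64 * (1 + Cr) * Real.exp (γ * K0)) *
        (Real.exp (γ * K0))⁻¹ / 32 := by
        have := (Real.exp_pos (γ * K0)).ne'
        field_simp
        ring
    _ ≤ W * q * (co ^ 2 * cu * X) * (Real.exp (γ * K0))⁻¹ / 32 := by gcongr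
    _ = (W * q * DA * (co * cu * X) / 16) * co * (DA⁻¹ * (Real.exp (γ * K0))⁻¹) / 2 := by
        field_simp
        ring
    _ ≤ _ := by gcongr

theorem linear_growth (α C Kw : ℝ) (hα : 0 < α) (hC : 0 ≤ C) : ∃ ε > 0, ∃ C' : ℝ,
    ∀ (μ : Measure (ℝ × ℝ)) [IsProbabilityMeasure μ],
      μ.map Prod.fst = gaussianReal (1 / (1 + α)) 1 →
      (∀ᵐ z ∂μ, 0 ≤ z.2) → Integrable (fun z => z.2) μ → ∫ z, z.2 ∂μ ≤ Kw →
      ∀ N : ℕ, ε * N - C' ≤ ∫ ζ, L α C N ζ ∂nu μ := by
  set γ := 1 / (1 + α) with hγ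
  have hγ0 : 0 < γ := by rw [hγ]; positivity
  have hγ1 : γ ≤ 1 := by
    rw [hγ, div_le_one (by positivity)]; linarith
  obtain ⟨Cr, co, Cn, hCr, hco, hCn, hcl⟩ := climb γ hγ0
  set Kw' := max Kw 0 with hKw'
  have hKw'0 : 0 ≤ Kw' := le_max_right _ _
  obtain ⟨K1, hK1⟩ := tilt γ hγ0 hγ1 Kw'
  set K0 := 4 * (Kw' + 1) + 2 * (γ + 2) with hK0
  have hK0' : 0 < K0 := by positivity
  set U := Kw' + 3 with hU
  set CL := 2 * ((1 + α) / γ) + 1 with hCL
  have hCL0 : 0 < CL := by positivity
  set cu := Real.exp (-γ * (U + 2 * C)) / (2 * CL) with hcu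
  have hcu0 : 0 < cu := by positivity
  set X := 32 * (1 + Cr) / (co * cu) + 64 * (1 + Cr) * Real.exp (γ * K0) / (co ^ 2 * cu) with hX
  have hX0 : 0 < X := by positivity
  set Γ := Real.log X / γ with hΓ
  have hΓX : Real.exp (γ * Γ) = X := by
    rw [hΓ, mul_div_cancel₀ _ hγ0.ne', Real.exp_log hX0]
  set A₀ := 1 / γ ^ 2 + K0 / γ + Cn + 3 with hA₀
  obtain ⟨D₀, hD₀⟩ := stageA α C hα hC K1 Γ A₀
  set DA := max D₀ (⌈1 / γ⌉₊ + 1) with hDA
  have hDA1 : 1 ≤ DA := by
    have : ⌈1 / γ⌉₊ + 1 ≤ DA := le_max_right _ _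
    omega
  have hDA1' : (1 : ℝ) ≤ DA := by exact_mod_cast hDA1
  have hDAγ : 1 ≤ γ * DA := by
    have h1 : 1 / γ ≤ ⌈1 / γ⌉₊ := Nat.le_ceil _
    have h2 : ⌈1 / γ⌉₊ + 1 ≤ DA := le_max_right _ _
    have h3 : ((⌈1 / γ⌉₊ : ℝ)) + 1 ≤ DA := by exact_mod_cast h2
    have h4 : 1 / γ ≤ DA := by linarith
    rw [div_le_iff₀ hγ0] at h4
    linarith
  set r := Real.log DA / γ with hr
  have hr0 : 0 ≤ r := div_nonneg (Real.log_nonneg hDA1') hγ0.le
  have hrDA : Real.exp (γ * r) = DA := by
    rw [hr, mul_div_cancel₀ _ hγ0.ne', Real.exp_log (by linarith)]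
  set nr := ⌈(r + K0) / γ + Cn⌉₊ with hnr
  have hnr1 : (r + K0) / γ + Cn ≤ nr := Nat.le_ceil _
  have hnr2 : (nr : ℝ) ≤ (r + K0) / γ + Cn + 1 := (Nat.ceil_lt_add_one (by positivity)).le
  have hnrA : (1 + nr : ℝ) ≤ A₀ * (1 + Real.log DA) := by
    have h1 : (r + K0) / γ = 1 / γ ^ 2 * Real.log DA + K0 / γ := by
      rw [hr]; field_simp
    have h2 : 0 ≤ Real.log DA := Real.log_nonneg hDA1'
    have h3 : 0 ≤ 1 / γ ^ 2 := by positivity
    have h4 : 0 ≤ K0 / γ := by positivity
    rw [hA₀]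
    nlinarith
  set v : ℝ := 16 * DA with hv
  -- the parameters depending on `a`
  set c3 := 2 + nr + DA + Cn + (v - r - Γ) / γ with hc3
  obtain ⟨a0, ha0⟩ := eventually_atTop.mp
    (eventually_params α C γ U (r + v + Γ) c3 CL hα hγ hCL)
  set a1 := max a0 3 with ha1
  have ha13 : 3 ≤ a1 := le_max_right _ _
  obtain ⟨D, hD1, hD2⟩ : ∃ D : ℕ, a1 ≤ D ∧
      (U + kap α C (2 * D)) * (Real.log a1) ^ 2 ≤ (Real.log D) ^ 2 := by
    obtain ⟨D1, h⟩ := eventually_atTop.mp (exists_D U α C ((Real.log a1) ^ 2) (by positivity))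
    exact ⟨max D1 a1, le_max_right _ _, h _ (le_max_left _ _)⟩
  have hD3 : 3 ≤ D := ha13.trans hD1
  have hlogD : 0 < Real.log D := Real.log_pos (by exact_mod_cast (by omega : 1 < D))
  set Λ := U + kap α C (2 * D) with hΛ
  have hΛ0 : 0 ≤ Λ := by
    rw [hΛ]; unfold kap
    have : 0 ≤ Real.log ((2 * D : ℕ) : ℝ) := Real.log_natCast_nonneg _
    positivity
  -- key claim
  have key : ∀ (μ : Measure (ℝ × ℝ)) [IsProbabilityMeasure μ],
      μ.map Prod.fst = gaussianReal γ 1 →
      (∀ᵐ z ∂μ, 0 ≤ z.2) → Integrable (fun z => z.2) μ → ∫ z, z.2 ∂μ ≤ Kw' →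
      ∀ (N : ℕ) (A : ℝ), 2 * D < N → (∀ N', N - 2 * D ≤ N' → N' < N → A ≤ aN α C μ N') →
        A + U - 1 ≤ hN α C μ a1 (N - a1) := by
    intro μ _ hx hw0 hw hwK N A hDN hA
    have hxi := integrable_fst_of_gaussian hx
    obtain ⟨ρ, hρp, hρx, hρ1, hρ2⟩ := hK1 μ hx hw0 hw hwK
    -- the weight of the flips
    have hW : ∀ l : ℕ, 1 ≤ l → l ≤ 1 + nr →
        1 / 8 ≤ ∫ ζ in UA α C l DA Γ ∩ {ζ | |S DA ζ| < v}, Real.exp (γ * S DA ζ) ∂nu μ := by
      intro l hl hl'
      have h1 := hρ2 α C l DA Γ v (by rw [hv]; linarith)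
      have h2 : 1 / 4 ≤ (nu ρ).real (VA α C l DA Γ) := by
        refine hD₀ DA (le_max_left _ _) ρ (by rw [← hγ]; exact hρx) hρ1 l hl ?_
        have : (l : ℝ) ≤ 1 + nr := by exact_mod_cast hl'
        exact this.trans hnrA
      exact weight_ge hγ0 hDA1' hDAγ hv h2 h1
    have hclaim : ∀ n a : ℕ, a1 ≤ a → a ≤ 2 * D → 2 * D - a = n →
        A + U - Λ * (Real.log a / Real.log D) ^ 2 ≤ hN α C μ a (N - a) := by
      intro n
      induction n using Nat.strong_induction_on with
      | _ n ih =>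
      intro a haa ha2 han
      have hapos : (0 : ℝ) < a := by
        have : 0 < a := by omega
        exact_mod_cast this
      rcases le_or_gt D a with hDa | hDa
      · -- above `D`: give up
        have h1 := hN_end (α := α) (C := C) (a := a) (N := N - a) hxi hw
        have h2 : A ≤ aN α C μ (N - a) := hA _ (by omega) (by omega)
        have h3 : kap α C a ≤ kap α C (2 * D) := by
          unfold kap
          gcongr
        have h4 : 1 ≤ (Real.log a / Real.log D) ^ 2 := by
          have : 1 ≤ Real.log a / Real.log D := by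
            rw [one_le_div hlogD]
            apply Real.log_le_log (by exact_mod_cast (by omega : 0 < D))
            exact_mod_cast hDa
          exact one_le_pow₀ this
        have h5 : Λ ≤ Λ * (Real.log a / Real.log D) ^ 2 := le_mul_of_one_le_right hΛ0 h4
        linarith
      · -- run one trial at `a`
        obtain ⟨p1, p2, p3, p4, p5, p6⟩ := ha0 a (by omega)
        set La := ⌈CL * Real.log a⌉₊ with hLa
        set u := U + kap α C a + kap α C La with hu
        have hloga : 0 < Real.log a := Real.log_pos (by exact_mod_cast (by omega : 1 < a))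
        have hv0 : 0 ≤ v := by rw [hv]; positivity
        have hnonneg : 0 ≤ (u - (r - v + Γ)) / γ + Cn := by
          have : 0 ≤ (u - (r - v + Γ)) / γ := div_nonneg (by linarith) hγ0.le
          linarith
        set nf := ⌈(u - (r - v + Γ)) / γ + Cn⌉₊ with hnf
        have hnf1 : (u - (r - v + Γ)) / γ + Cn ≤ nf := Nat.le_ceil _
        have hnf2 : (nf : ℝ) ≤ (u - (r - v + Γ)) / γ + Cn + 1 :=
          (Nat.ceil_lt_add_one hnonneg).le
        have hLa' : 1 + nr + DA + nf ≤ La := by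
          have h1 : (u - (r - v + Γ)) / γ = u / γ + (v - r - Γ) / γ := by ring
          have h2 : CL * Real.log a ≤ La := Nat.le_ceil _
          have h3 : ((1 + nr + DA + nf : ℕ) : ℝ) ≤ La := by
            push_cast
            rw [hc3] at p3
            linarith
          exact_mod_cast h3
        have hnum := numeric (γ := γ) (Cr := Cr) (co := co) (cu := cu) (K0 := K0) (Γ := Γ) (X := X)
          (r := r) (DA := DA) (W := Λ * (Real.log a / Real.log D) ^ 2)
          (q := 1 / (a * Real.log a)) (u := u)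
          (σ := Λ * (2 * Real.log a / a) / (Real.log D) ^ 2)
          (G := Λ * (Real.log a / Real.log D) ^ 2) hCr hco hcu0 hX hΓX hrDA hDA1'
          (by positivity) (by positivity) rfl (by field_simp) (by
            rw [mul_one_div]; exact p6)
        have htr := trial (α := α) (C := C) hγ0 hco hcl μ hx hw
          (fun l y => kN α C μ a l y (N - a - l)) (A + U - Λ * (Real.log a / Real.log D) ^ 2)
          (Λ * (2 * Real.log a / a) / (Real.log D) ^ 2)
          (Λ * (Real.log a / Real.log D) ^ 2) u r K0 Γ v (hN α C μ a (N - a)) La nr nf DA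
          (by positivity) (by positivity) hCr
          (fun l y y' => kN_lip hxi hw y')
          (fun l y y' h => kN_mono hxi hw h)
          ?_ ?_ ?_ ?_ ?_ (start_prob hx hw0 hw hwK hKw'0) hW hnr1 (by linarith) hnf1
          (by linarith) hLa' hnum.1
        · have := hnum.2
          linarith
        · intro l hl hlLa y
          have := kN_step (α := α) (C := C) (a := a) (l := l) (y := y) (N := N - a - (l + 1))
            hxi hw
          rwa [show N - a - (l + 1) + 1 = N - a - l by omega] at this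
        · intro l hl hlLa y
          have h1 := kN_abandon (α := α) (C := C) (a := a) (l := l) (y := y) (N := N - a - l)
            hxi hw
          have h2 := ih (2 * D - (a + l)) (by omega) (a + l) (by omega) (by omega) rfl
          rw [show N - (a + l) = N - a - l by omega] at h2
          refine le_trans ?_ (h2.trans h1)
          have h3 := sq_log_le (a := (a : ℝ)) (t := (l : ℝ)) (by exact_mod_cast p1)
            (Nat.cast_nonneg _)
          push_cast
          have h4 : Λ * ((Real.log (a + l)) ^ 2 / (Real.log D) ^ 2) ≤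
              Λ * (((Real.log a) ^ 2 + 2 * Real.log a / a * l) / (Real.log D) ^ 2) := by gcongr
          rw [div_pow, div_pow]
          have h5 : Λ * (((Real.log a) ^ 2 + 2 * Real.log a / a * l) / (Real.log D) ^ 2) =
              Λ * ((Real.log a) ^ 2 / (Real.log D) ^ 2) +
                Λ * (2 * Real.log a / a) / (Real.log D) ^ 2 * l := by ring
          linarith
        · intro l hlLa hl y hy
          have h1 := kN_finish (α := α) (C := C) (a := a) (l := l) (y := y) (N := N - a - l)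
            hxi hw
          have h2 : A ≤ aN α C μ (N - a - l) := hA _ (by omega) (by omega)
          have h3 : kap α C l ≤ kap α C La := by
            unfold kap
            gcongr
          linarith
        · intro l hl hlLa y
          have := kN_flip (α := α) (C := C) (a := a) (l := l) (y := y) (N := N - a - (l + DA))
            hxi hw hα.le hC hl DA Γ
          rwa [show N - a - (l + DA) + DA = N - a - l by omega] at this
        · have := hN_start (α := α) (C := C) (a := a) (N := N - a - 1) hxi hw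
          rwa [show N - a - 1 + 1 = N - a by omega] at this
    have := hclaim (2 * D - a1) a1 le_rfl (by omega) rfl
    have h2 : Λ * (Real.log a1 / Real.log D) ^ 2 ≤ 1 := by
      rw [div_pow, ← mul_div_assoc, div_le_one (by positivity)]
      exact hD2
    linarith
  -- conclusion
  have hstep : ∀ (μ : Measure (ℝ × ℝ)) [IsProbabilityMeasure μ],
      μ.map Prod.fst = gaussianReal γ 1 →
      (∀ᵐ z ∂μ, 0 ≤ z.2) → Integrable (fun z => z.2) μ → ∫ z, z.2 ∂μ ≤ Kw' →
      ∀ (N : ℕ) (A : ℝ), 2 * D < N → (∀ N', N - 2 * D ≤ N' → N' < N → A ≤ aN α C μ N') →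
        A + 1 ≤ aN α C μ N := by
    intro μ _ hx hw0 hw hwK N A hDN hA
    have hxi := integrable_fst_of_gaussian hx
    have h1 := key μ hx hw0 hw hwK N A hDN hA
    have h2 : ∀ a, 1 ≤ a → a ≤ a1 → hN α C μ a1 (N - a1) ≤ hN α C μ a (N - a) := by
      intro a ha1' ha2'
      induction ha2' using Nat.decreasingInduction with
      | self => exact le_rfl
      | of_succ k hk ih =>
        have h3 := ih (by omega)
        have h4 := hN_shift (α := α) (C := C) (a := k) (N := N - (k + 1)) hxi hw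
        rw [show N - (k + 1) + 1 = N - k by omega] at h4
        exact h3.trans h4
    have h3 := h2 1 le_rfl (by omega)
    have h4 := aN_start (α := α) (C := C) (N := N - 1) hxi hw
    rw [show N - 1 + 1 = N by omega] at h4
    linarith
  refine ⟨1 / (2 * D), by positivity, 1 + kap α C (2 * D) + Kw', ?_⟩
  intro μ _ hx hw0 hw hwK N
  have hwK' : ∫ z, z.2 ∂μ ≤ Kw' := hwK.trans (le_max_left _ _)
  have hxi := integrable_fst_of_gaussian hx
  change 1 / (2 * (D : ℝ)) * N - (1 + kap α C (2 * D) + Kw') ≤ aN α C μ N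
  have hD0 : (0 : ℝ) < D := by exact_mod_cast (by omega : 0 < D)
  have hkap0 : 0 ≤ kap α C (2 * D) := by
    unfold kap
    have : 0 ≤ Real.log ((2 * D : ℕ) : ℝ) := Real.log_natCast_nonneg _
    positivity
  induction N using Nat.strong_induction_on with
  | _ N ih =>
  rcases le_or_gt N (2 * D) with hND | hND
  · have h1 : 1 / (2 * (D : ℝ)) * N ≤ 1 := by
      rw [one_div, inv_mul_le_iff₀ (by positivity), mul_one]
      exact_mod_cast hND
    rcases Nat.eq_zero_or_pos N with h0 | h0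
    · subst h0
      have : aN α C μ 0 = 0 := by
        unfold aN
        simp [L]
      rw [this]
      simp only [Nat.cast_zero, mul_zero]
      linarith
    · obtain ⟨N, rfl⟩ : ∃ N', N = N' + 1 := ⟨N - 1, by omega⟩
      have h2 := aN_single (α := α) (C := C) (N := N) hxi hw
      have h3 : kap α C (N + 1) ≤ kap α C (2 * D) := by
        unfold kap
        gcongr
      linarith
  · have h1 := hstep μ hx hw0 hw hwK' N
      (1 / (2 * (D : ℝ)) * N - (1 + kap α C (2 * D) + Kw') - 1) hND (by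
        intro N' hN1 hN2
        refine le_trans ?_ (ih N' hN2)
        have h3 : ((N - 2 * D : ℕ) : ℝ) ≤ N' := by exact_mod_cast hN1
        rw [Nat.cast_sub hND.le] at h3
        push_cast at h3
        have h4 : 1 / (2 * (D : ℝ)) * (N - 2 * D) ≤ 1 / (2 * (D : ℝ)) * N' := by gcongr
        have h5 : 1 / (2 * (D : ℝ)) * (N - 2 * D) = 1 / (2 * (D : ℝ)) * N - 1 := by
          field_simp
        linarith)
    linarith

end Pool.Agent.Lib.MP_3d9a2b_pr
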