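import Pool.Agent.Lib.MP_3d9a2b_pr.Jensen
import Pool.Agent.Lib.MP_3d9a2b_pr.LogZ
import Pool.Agent.Lib.MP_3d9a2b_pr.StageB3
import Pool.Agent.Lib.MP_3d9a2b_pr.Regen
import Pool.Agent.Lib.MP_3d9a2b_pr.BM

set_option autoImplicit false

namespace Pool.Agent.Lib.MP_3d9a2b_pr

open MeasureTheory ProbabilityTheory Filter Topology
open scoped NNReal ENNReal

/-- the position after `i` excursions -/
def fin_p (sc : List (ℕ × Bool)) (i : ℕ) : ℕ := ((sc.take i).map Prod.fst).sum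

/-- the sign of the `i`-th excursion -/
def fin_e (sc : List (ℕ × Bool)) (i : ℕ) : Bool := (sc.getD i (1, false)).2

lemma fin_p_zero (sc : List (ℕ × Bool)) : fin_p sc 0 = 0 := by simp [fin_p]

lemma fin_p_cons (q : ℕ × Bool) (sc : List (ℕ × Bool)) (i : ℕ) :
    fin_p (q :: sc) (i + 1) = q.1 + fin_p sc i := by simp [fin_p]

lemma fin_e_cons_zero (q : ℕ × Bool) (sc : List (ℕ × Bool)) :
    fin_e (q :: sc) 0 = q.2 := by simp [fin_e]

lemma fin_e_cons (q : ℕ × Bool) (sc : List (ℕ × Bool)) (i : ℕ) :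
    fin_e (q :: sc) (i + 1) = fin_e sc i := by simp [fin_e]

lemma fin_p_length (sc : List (ℕ × Bool)) :
    fin_p sc sc.length = (sc.map Prod.fst).sum := by simp [fin_p]

lemma fin_p_lt : ∀ (sc : List (ℕ × Bool)) (_ : ∀ q ∈ sc, 1 ≤ q.1) (i : ℕ) (_ : i < sc.length),
    fin_p sc i < fin_p sc (i + 1)
  | [], _, i, hi => by simp at hi
  | q :: sc, h, 0, _ => by
    rw [fin_p_cons, fin_p_zero, fin_p_zero]
    have := h q (by simp)
    omega
  | q :: sc, h, i + 1, hi => by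
    rw [fin_p_cons, fin_p_cons]
    have := fin_p_lt sc (fun r hr => h r (by simp [hr])) i (by simpa using hi)
    omega

lemma sh_sh' (a b : ℕ) (ζ : Env) : sh a (sh b ζ) = sh (b + a) ζ := by
  funext n
  simp only [sh]
  congr 1
  ring

lemma sh_apply (a : ℕ) (ζ : Env) (n : ℕ) : sh a ζ n = ζ (n + a) := rfl

/-- the gain of a scenario as a sum -/
lemma gain_eq (α C : ℝ) : ∀ (sc : List (ℕ × Bool)) (ζ : Env), gain α C sc ζ =
    ∑ i ∈ Finset.range sc.length, (- kap α C (fin_p sc (i + 1) - fin_p sc i : ℕ)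
      - (ζ (fin_p sc i)).2 + (if fin_e sc i then
        S (fin_p sc (i + 1) - fin_p sc i) (sh (fin_p sc i) ζ) else 0))
  | [], ζ => by simp [gain]
  | (l, e) :: r, ζ => by
    rw [gain, gain_eq α C r (sh l ζ), List.length_cons, Finset.sum_range_succ']
    rw [add_comm]
    congr 1
    · refine Finset.sum_congr rfl fun i _ => ?_
      rw [fin_p_cons, fin_p_cons, fin_e_cons, sh_sh', sh_apply]
      simp only [Nat.add_sub_add_left]
      rw [add_comm (fin_p r i) l]

section J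
variable {α : ℝ} {Ω Ω' : Type} [MeasurableSpace Ω] [MeasurableSpace Ω'] {P : Measure Ω}
  {P' : Measure Ω'} [IsProbabilityMeasure P] [IsProbabilityMeasure P'] (M : Model α P P')

omit [IsProbabilityMeasure P] [IsProbabilityMeasure P'] in
/-- the energy of the Brownian environment telescopes -/
lemma S_env (lam h : ℝ) (ω : Ω) (a l : ℕ) :
    S l (sh a (env M lam h ω)) = -2 * lam * (M.y h ((lam ^ 2)⁻¹ * ((a + l : ℕ) : ℝ)) ω
      - M.y h ((lam ^ 2)⁻¹ * a) ω) := by
  unfold S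
  have : ∑ i ∈ Finset.range l, (sh a (env M lam h ω) i).1 =
      lam * (M.y h ((lam ^ 2)⁻¹ * ((a + l : ℕ) : ℝ)) ω - M.y h ((lam ^ 2)⁻¹ * a) ω) := by
    induction l with
    | zero => simp
    | succ l ih =>
      rw [Finset.sum_range_succ, ih, sh_apply]
      simp only [env]
      push_cast
      rw [add_comm (l : ℝ) a]
      rw [show (a : ℝ) + ((l : ℝ) + 1) = a + l + 1 by ring]
      ring
  rw [this]
  ring

omit [IsProbabilityMeasure P] [IsProbabilityMeasure P'] in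
lemma scenario_ge {c : ℝ} (hc : 0 < c) {lam h θ t Q : ℝ} (hθ : θ = (lam ^ 2)⁻¹)
    (sc : List (ℕ × Bool)) (hsc : ∀ q ∈ sc, 1 ≤ q.1) {N : ℕ} (hN : (sc.map Prod.fst).sum = N)
    (hQ : ∏ i ∈ Finset.range sc.length,
      (c * ((fin_p sc (i + 1) - fin_p sc i : ℕ) : ℝ) ^ (-(1 + α))) ≤ Q) (ω : Ω) :
    gain α (Real.log (2 / c)) sc (env M lam h ω) - (env M lam h ω N).2
      - lam * (M.y h t ω - M.y h ((lam ^ 2)⁻¹ * N) ω) ≤
    Real.log Q - sc.length * Real.log 2
        - lam * (M.y h t ω - M.y h (θ * fin_p sc sc.length) ω)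
        - 2 * lam * ∑ i ∈ Finset.range sc.length,
            (if fin_e sc i then M.y h (θ * fin_p sc (i + 1)) ω - M.y h (θ * fin_p sc i) ω else 0)
        - 2 * lam * ∑ i ∈ Finset.range (sc.length + 1), M.osc h θ (fin_p sc i) ω := by
  subst hθ
  have hpk : fin_p sc sc.length = N := by rw [fin_p_length, hN]
  have hlt := fin_p_lt sc hsc
  have hpos : ∀ i ∈ Finset.range sc.length,
      0 < c * ((fin_p sc (i + 1) - fin_p sc i : ℕ) : ℝ) ^ (-(1 + α)) := by
    intro i hi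
    have := hlt i (Finset.mem_range.1 hi)
    have h1 : 0 < ((fin_p sc (i + 1) - fin_p sc i : ℕ) : ℝ) := by
      exact_mod_cast Nat.sub_pos_of_lt this
    positivity
  have hlog : ∑ i ∈ Finset.range sc.length,
      (Real.log c - (1 + α) * Real.log ((fin_p sc (i + 1) - fin_p sc i : ℕ) : ℝ)) ≤
      Real.log Q := by
    refine le_trans (le_of_eq ?_) (Real.log_le_log (Finset.prod_pos hpos) hQ)
    rw [Real.log_prod (fun i hi => (hpos i hi).ne')]
    refine Finset.sum_congr rfl fun i hi => ?_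
    have := hlt i (Finset.mem_range.1 hi)
    have h1 : 0 < ((fin_p sc (i + 1) - fin_p sc i : ℕ) : ℝ) := by
      exact_mod_cast Nat.sub_pos_of_lt this
    rw [Real.log_mul hc.ne' (by positivity), Real.log_rpow h1]
    ring
  rw [gain_eq, hpk]
  have hosc : 2 * lam * ∑ i ∈ Finset.range (sc.length + 1), M.osc h (lam ^ 2)⁻¹ (fin_p sc i) ω =
      ∑ i ∈ Finset.range sc.length, (env M lam h ω (fin_p sc i)).2 + (env M lam h ω N).2 := by
    rw [Finset.sum_range_succ, hpk, mul_add, Finset.mul_sum]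
    rfl
  have hS : ∑ i ∈ Finset.range sc.length, (if fin_e sc i then
        S (fin_p sc (i + 1) - fin_p sc i) (sh (fin_p sc i) (env M lam h ω)) else 0) =
      - (2 * lam * ∑ i ∈ Finset.range sc.length,
            (if fin_e sc i then M.y h ((lam ^ 2)⁻¹ * fin_p sc (i + 1)) ω
              - M.y h ((lam ^ 2)⁻¹ * fin_p sc i) ω else 0)) := by
    rw [Finset.mul_sum, ← Finset.sum_neg_distrib]
    refine Finset.sum_congr rfl fun i hi => ?_
    have := hlt i (Finset.mem_range.1 hi)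
    split_ifs
    · rw [S_env, Nat.add_sub_cancel' this.le]
      ring
    · simp
  have hkap : ∑ i ∈ Finset.range sc.length,
      (- kap α (Real.log (2 / c)) (fin_p sc (i + 1) - fin_p sc i : ℕ)) =
      ∑ i ∈ Finset.range sc.length,
      (Real.log c - (1 + α) * Real.log ((fin_p sc (i + 1) - fin_p sc i : ℕ) : ℝ)) -
        sc.length * Real.log 2 := by
    rw [eq_sub_iff_add_eq, ← nsmul_eq_mul, ← Finset.card_range sc.length, ← Finset.sum_const,
      Finset.card_range, ← Finset.sum_add_distrib]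
    refine Finset.sum_congr rfl fun i _ => ?_
    rw [kap, Real.log_div two_ne_zero hc.ne']
    ring
  rw [hosc, Finset.sum_add_distrib, Finset.sum_sub_distrib, hS, hkap]
  linarith

/-- the best scenario bounds `log Z` from below -/
lemma logZ_ge_L {c : ℝ} (hc : 0 < c)
    (hR : ∀ (θ : ℝ), 0 < θ → ∀ (p : ℕ → ℕ) (k : ℕ), p 0 = 0 → (∀ i < k, p i < p (i + 1)) →
        ∏ i ∈ Finset.range k, (c * ((p (i + 1) - p i : ℕ) : ℝ) ^ (-(1 + α))) ≤
          P'.real {ω | ∀ i < k, nextPt (M.R ω) (θ * (p i + 1)) ∈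
            Set.Ioc (θ * p (i + 1)) (θ * (p (i + 1) + 1 / 2))})
    {lam h t : ℝ} (hlam : 0 < lam) (hh : 0 ≤ h) (N : ℕ) (ht : (lam ^ 2)⁻¹ * (N + 1) ≤ t) :
    ∀ᵐ ω ∂P, L α (Real.log (2 / c)) N (env M lam h ω) - (env M lam h ω N).2
      - lam * (M.y h t ω - M.y h ((lam ^ 2)⁻¹ * N) ω) ≤ Real.log (M.Z lam h t ω) := by
  have hθ : 0 < (lam ^ 2)⁻¹ := by positivity
  have key : ∀ sc : List (ℕ × Bool), ∀ᵐ ω ∂P, (∀ q ∈ sc, 1 ≤ q.1) → (sc.map Prod.fst).sum = N →
      gain α (Real.log (2 / c)) sc (env M lam h ω) - (env M lam h ω N).2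
      - lam * (M.y h t ω - M.y h ((lam ^ 2)⁻¹ * N) ω) ≤ Real.log (M.Z lam h t ω) := by
    intro sc
    by_cases hsc : ∀ q ∈ sc, 1 ≤ q.1
    swap
    · exact Eventually.of_forall fun ω h => absurd h hsc
    by_cases hN : (sc.map Prod.fst).sum = N
    swap
    · exact Eventually.of_forall fun ω _ h => absurd h hN
    have hlt := fin_p_lt sc hsc
    have hQ := hR _ hθ (fin_p sc) sc.length (fin_p_zero sc) hlt
    have hpos : 0 < ∏ i ∈ Finset.range sc.length,
        (c * ((fin_p sc (i + 1) - fin_p sc i : ℕ) : ℝ) ^ (-(1 + α))) := by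
      refine Finset.prod_pos fun i hi => ?_
      have := hlt i (Finset.mem_range.1 hi)
      have h1 : 0 < ((fin_p sc (i + 1) - fin_p sc i : ℕ) : ℝ) := by
        exact_mod_cast Nat.sub_pos_of_lt this
      positivity
    have hpk : fin_p sc sc.length = N := by rw [fin_p_length, hN]
    have ht' : (lam ^ 2)⁻¹ * (fin_p sc sc.length + 1) ≤ t := by rw [hpk]; exact ht
    filter_upwards [log_Z_ge M hlam hh hθ (fin_p sc) (fin_e sc) sc.length (fin_p_zero sc) hlt
      ht' (hpos.trans_le hQ)] with ω hω _ _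
    exact (scenario_ge M hc rfl sc hsc hN hQ ω).trans hω
  filter_upwards [ae_all_iff.2 key] with ω hω
  obtain ⟨sc, h1, h2, h3⟩ := L_eq_gain α (Real.log (2 / c)) N (env M lam h ω)
  rw [h3]
  exact hω sc h1 h2

omit [IsProbabilityMeasure P] [IsProbabilityMeasure P'] in
lemma env_fst {lam γ η : ℝ} (hlam : 0 < lam) (ω : Ω) (i : ℕ) :
    (env M lam ((γ + η) * lam) ω i).1 = (env M lam (γ * lam) ω i).1 + η := by
  simp only [env, Model.y]
  field_simp
  ring

omit [IsProbabilityMeasure P] [IsProbabilityMeasure P'] in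
lemma env_snd {lam γ η : ℝ} (hlam : 0 < lam) (hη : 0 ≤ η) (ω : Ω) (i : ℕ) :
    (env M lam ((γ + η) * lam) ω i).2 ≤ (env M lam (γ * lam) ω i).2 + 2 * η := by
  simp only [env]
  have hθ : 0 < (lam ^ 2)⁻¹ := by positivity
  have hbdd : BddAbove (Set.range fun s : Set.Icc (0 : ℝ) 1 =>
      |M.y (γ * lam) ((lam ^ 2)⁻¹ * (i + s)) ω - M.y (γ * lam) ((lam ^ 2)⁻¹ * i) ω|) := by
    refine (isCompact_range ?_).bddAbove
    have hB := M.continuous_B ω
    unfold Model.y
    have h1 : Continuous fun s : Set.Icc (0 : ℝ) 1 => ((lam ^ 2)⁻¹ * ((i : ℝ) + s)).toNNReal := by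
      fun_prop
    have h2 := hB.comp h1
    simp only [Function.comp_def] at h2
    fun_prop
  have key : M.osc ((γ + η) * lam) (lam ^ 2)⁻¹ i ω ≤
      M.osc (γ * lam) (lam ^ 2)⁻¹ i ω + η * lam * (lam ^ 2)⁻¹ := by
    unfold Model.osc
    refine ciSup_le fun s => ?_
    have hs0 : (0 : ℝ) ≤ s := s.2.1
    have hs1 : (s : ℝ) ≤ 1 := s.2.2
    have h1 : M.y ((γ + η) * lam) ((lam ^ 2)⁻¹ * (i + s)) ω
        - M.y ((γ + η) * lam) ((lam ^ 2)⁻¹ * i) ω =
        (M.y (γ * lam) ((lam ^ 2)⁻¹ * (i + s)) ω - M.y (γ * lam) ((lam ^ 2)⁻¹ * i) ω) +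
          η * lam * ((lam ^ 2)⁻¹ * s) := by
      simp only [Model.y]
      ring
    rw [h1]
    refine (abs_add_le _ _).trans (add_le_add (le_ciSup hbdd s) ?_)
    rw [abs_of_nonneg (by positivity)]
    have : (lam ^ 2)⁻¹ * s ≤ (lam ^ 2)⁻¹ := by nlinarith
    exact mul_le_mul_of_nonneg_left this (by positivity)
  calc 2 * lam * M.osc ((γ + η) * lam) (lam ^ 2)⁻¹ i ω
      ≤ 2 * lam * (M.osc (γ * lam) (lam ^ 2)⁻¹ i ω + η * lam * (lam ^ 2)⁻¹) :=
        mul_le_mul_of_nonneg_left key (by positivity)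
    _ = 2 * lam * M.osc (γ * lam) (lam ^ 2)⁻¹ i ω + 2 * η := by
        field_simp

omit [IsProbabilityMeasure P'] in
lemma integral_y (h t s : ℝ) :
    Integrable (fun ω => M.y h t ω - M.y h s ω) P ∧
      ∫ ω, (M.y h t ω - M.y h s ω) ∂P = h * (t - s) := by
  have hB := M.brownian.toIsPreBrownianReal
  have hi := hB.integrable_eval
  have he := hB.integral_eval
  have h1 : ∀ ω, M.y h t ω - M.y h s ω = (M.B t.toNNReal ω - M.B s.toNNReal ω) + h * (t - s) := by
    intro ω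
    simp only [Model.y]
    ring
  simp only [h1]
  have h2 := (hi t.toNNReal).sub (hi s.toNNReal)
  refine ⟨h2.add (integrable_const _), ?_⟩
  have h3 := integral_add h2 (integrable_const (μ := P) (h * (t - s)))
  simp only [Pi.sub_apply] at h3
  rw [h3, integral_sub (hi _) (hi _), he, he]
  simp

/-- the averaged bound -/
lemma integral_logZ_ge {γ η c ε C' : ℝ} (hγ : 0 < γ) (hγ1 : γ ≤ 1) (hη : 0 ≤ η) (hc : 0 < c)
    (hR : ∀ (θ : ℝ), 0 < θ → ∀ (p : ℕ → ℕ) (k : ℕ), p 0 = 0 → (∀ i < k, p i < p (i + 1)) →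
        ∏ i ∈ Finset.range k, (c * ((p (i + 1) - p i : ℕ) : ℝ) ^ (-(1 + α))) ≤
          P'.real {ω | ∀ i < k, nextPt (M.R ω) (θ * (p i + 1)) ∈
            Set.Ioc (θ * p (i + 1)) (θ * (p (i + 1) + 1 / 2))})
    (hlin : ∀ (μ : Measure (ℝ × ℝ)) [IsProbabilityMeasure μ],
      μ.map Prod.fst = gaussianReal γ 1 →
      (∀ᵐ z ∂μ, 0 ≤ z.2) → Integrable (fun z => z.2) μ → ∫ z, z.2 ∂μ ≤ 100 →
      ∀ N : ℕ, ε * N - C' ≤ ∫ ζ, L α (Real.log (2 / c)) N ζ ∂nu μ)
    {lam t : ℝ} (hlam : 0 < lam) (N : ℕ) (ht : (lam ^ 2)⁻¹ * (N + 1) ≤ t) :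
    ε * N - C' - 4 * η * N - (100 + 2 * η)
      - lam * ((γ + η) * lam * (t - (lam ^ 2)⁻¹ * N)) ≤
      ∫ ω, Real.log (M.Z lam ((γ + η) * lam) t ω) ∂P := by
  obtain ⟨μ, hμ, hμ1, hμ2, hμ3, hμ4, hμ5, hμ6⟩ := env_law M γ hγ hγ1 hlam
  have hL := hlin μ hμ1 hμ2 hμ3 hμ4 N
  have hθ : 0 < (lam ^ 2)⁻¹ := by positivity
  have ht0 : 0 ≤ t := le_trans (by positivity) ht
  have hμf : Integrable (fun z : ℝ × ℝ => z.1) μ := integrable_fst_of_gaussian hμ1
  set CC := Real.log (2 / c) with hCC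
  have hLi : Integrable (L α CC N) (nu μ) := law_integrable_L hμf hμ3
  have hLi' : Integrable (fun ω => L α CC N (env M lam (γ * lam) ω)) P := by
    rw [← hμ5] at hLi
    exact hLi.comp_measurable hμ6
  have hLe : ∫ ω, L α CC N (env M lam (γ * lam) ω) ∂P = ∫ ζ, L α CC N ζ ∂nu μ := by
    rw [← hμ5, integral_map hμ6.aemeasurable]
    rw [hμ5]
    exact hLi.aestronglyMeasurable
  have hWi : Integrable (fun ζ : Env => (ζ N).2) (nu μ) := law_integrable_eval hμ3 N
  have hWi' : Integrable (fun ω => (env M lam (γ * lam) ω N).2) P := by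
    rw [← hμ5] at hWi
    exact hWi.comp_measurable hμ6
  have hWe : ∫ ω, (env M lam (γ * lam) ω N).2 ∂P ≤ 100 := by
    have h1 : ∫ ω, (env M lam (γ * lam) ω N).2 ∂P = ∫ ζ, (ζ N).2 ∂nu μ := by
      rw [← hμ5, integral_map hμ6.aemeasurable]
      rw [hμ5]
      exact hWi.aestronglyMeasurable
    rw [h1, law_integral_eval (g := fun z => z.2) hμ3.aestronglyMeasurable N]
    exact hμ4
  obtain ⟨hyi, hye⟩ := integral_y M ((γ + η) * lam) t ((lam ^ 2)⁻¹ * N)
  have hae : ∀ᵐ ω ∂P, L α CC N (env M lam (γ * lam) ω) - 4 * η * N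
      - (env M lam (γ * lam) ω N).2 - 2 * η
      - lam * (M.y ((γ + η) * lam) t ω - M.y ((γ + η) * lam) ((lam ^ 2)⁻¹ * N) ω) ≤
      Real.log (M.Z lam ((γ + η) * lam) t ω) := by
    filter_upwards [logZ_ge_L M hc hR hlam (h := (γ + η) * lam) (by positivity) N ht] with ω hω
    have h1 := L_perturb α CC hη (by positivity : 0 ≤ 2 * η) (env M lam (γ * lam) ω)
      (env M lam ((γ + η) * lam) ω) (fun i => (env_fst M hlam ω i).le)
      (fun i => env_snd M hlam hη ω i) N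
    have h2 := env_snd M (γ := γ) hlam hη ω N
    rw [← hCC] at hω
    linarith
  have hint : Integrable (fun ω => L α CC N (env M lam (γ * lam) ω) - 4 * η * N
      - (env M lam (γ * lam) ω N).2 - 2 * η
      - lam * (M.y ((γ + η) * lam) t ω - M.y ((γ + η) * lam) ((lam ^ 2)⁻¹ * N) ω)) P :=
    (((hLi'.sub (integrable_const _)).sub hWi').sub (integrable_const _)).sub (hyi.const_mul _)
  have hle := integral_mono_ae hint
    (integrable_log_Z M hlam (by positivity : 0 ≤ (γ + η) * lam) ht0) hae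
  refine le_trans ?_ hle
  have e1 := integral_sub (((hLi'.sub (integrable_const (μ := P) (4 * η * N))).sub hWi').sub
    (integrable_const (μ := P) (2 * η))) (hyi.const_mul lam)
  have e2 := integral_sub ((hLi'.sub (integrable_const (μ := P) (4 * η * N))).sub hWi')
    (integrable_const (μ := P) (2 * η))
  have e3 := integral_sub (hLi'.sub (integrable_const (μ := P) (4 * η * N))) hWi'
  have e4 := integral_sub hLi' (integrable_const (μ := P) (4 * η * N))
  simp only [Pi.sub_apply] at e1 e2 e3 e4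
  rw [e1, e2, e3, e4, integral_const_mul (μ := P) lam, hye, hLe]
  simp only [integral_const, probReal_univ, smul_eq_mul, one_mul]
  linarith

end J

/-- the strict bound `m_α > 1 / (1 + α)` -/
theorem slope_gt (α : ℝ) (h0 : 0 < α) (h1 : α < 1) : ∃ m, 1 / (1 + α) < m ∧
    ∀ {Ω Ω' : Type} [MeasurableSpace Ω] [MeasurableSpace Ω'] (P : Measure Ω) (P' : Measure Ω')
      [IsProbabilityMeasure P] [IsProbabilityMeasure P'] (M : Model α P P') (lam h : ℝ),
      0 < lam → 0 ≤ h → h ≤ m * lam →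
      ∃ c > 0, ∀ᶠ t in atTop, Integrable (fun ω => Real.log (M.Z lam h t ω)) P ∧
        c ≤ 1 / t * ∫ ω, Real.log (M.Z lam h t ω) ∂P := by
  obtain ⟨c, hc, hc1, hR⟩ := regen_scenario α h0 h1
  have hC : 0 ≤ Real.log (2 / c) := Real.log_nonneg (by rw [le_div_iff₀ hc]; linarith)
  obtain ⟨ε, hε, C', hlin⟩ := linear_growth α (Real.log (2 / c)) 100 h0 hC
  refine ⟨1 / (1 + α) + ε / 8, by linarith, ?_⟩
  intro Ω Ω' _ _ P P' _ _ M lam h hlam hh hhm
  set γ := 1 / (1 + α) with hγ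
  have hγ0 : 0 < γ := by positivity
  have hγ1 : γ ≤ 1 := by
    rw [hγ, div_le_one (by linarith)]
    linarith
  set η := ε / 8 with hη
  have hη0 : 0 < η := by positivity
  have hθ : 0 < (lam ^ 2)⁻¹ := by positivity
  set θ := (lam ^ 2)⁻¹ with hθd
  set K : ℝ := ε + |C'| + 100 + 2 * η + 2 * (lam * ((γ + η) * lam)) * θ with hK
  have hKpos : 0 < K := by positivity
  refine ⟨ε / (4 * θ), by positivity, ?_⟩
  filter_upwards [eventually_ge_atTop (2 * θ), eventually_ge_atTop (4 * K * θ / ε),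
    eventually_gt_atTop 0] with t ht1 ht2 ht3
  refine ⟨integrable_log_Z M hlam hh ht3.le, ?_⟩
  have hfl : 2 ≤ ⌊t / θ⌋₊ := Nat.le_floor (by push_cast; rw [le_div_iff₀ hθ]; exact ht1)
  obtain ⟨N, hN⟩ : ∃ N, ⌊t / θ⌋₊ = N + 1 := ⟨⌊t / θ⌋₊ - 1, by omega⟩
  have hN1 : (N : ℝ) + 1 ≤ t / θ := by
    have := Nat.floor_le (by positivity : 0 ≤ t / θ)
    rw [hN] at this
    exact_mod_cast this
  have hN2 : t / θ < N + 2 := by
    have := Nat.lt_floor_add_one (t / θ)
    rw [hN] at this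
    push_cast at this
    linarith
  have ht : θ * (N + 1) ≤ t := by
    rw [le_div_iff₀ hθ] at hN1
    linarith
  have hb := integral_logZ_ge M hγ0 hγ1 hη0.le hc (hR P' M.R M.regen) hlin hlam N ht
  have hanti := integral_mono_ae (integrable_log_Z M hlam (by positivity : 0 ≤ (γ + η) * lam)
    ht3.le) (integrable_log_Z M hlam hh ht3.le) (log_Z_anti M hlam hh hhm ht3.le)
  have hfin : ε / (4 * θ) * t ≤ ∫ ω, Real.log (M.Z lam ((γ + η) * lam) t ω) ∂P := by
    refine le_trans ?_ hb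
    have h5 : t - θ * N ≤ 2 * θ := by
      rw [div_lt_iff₀ hθ] at hN2
      linarith
    have h6 : lam * ((γ + η) * lam * (t - θ * N)) ≤ 2 * (lam * ((γ + η) * lam)) * θ := by
      have : lam * ((γ + η) * lam * (t - θ * N)) ≤ lam * ((γ + η) * lam * (2 * θ)) := by
        gcongr
      linarith
    have h7 : ε / 2 * (t / θ - 2) ≤ ε * N - 4 * η * N := by
      have : ε * N - 4 * η * N = ε / 2 * N := by rw [hη]; ring
      rw [this]
      gcongr
      linarith
    have h8 : K ≤ ε / (4 * θ) * t := by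
      rw [div_le_iff₀ hε] at ht2
      rw [div_mul_eq_mul_div, le_div_iff₀ (by positivity)]
      linarith
    have h9 : ε / 2 * (t / θ - 2) = 2 * (ε / (4 * θ) * t) - ε := by
      field_simp
      ring
    have h10 := le_abs_self C'
    rw [hK] at h8
    linarith
  rw [one_div, ← div_eq_inv_mul, le_div_iff₀ ht3]
  exact hfin.trans hanti

end Pool.Agent.Lib.MP_3d9a2b_pr
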