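import Mathlib

set_option autoImplicit false

namespace Pool.Agent.Lib.MP_3d9a2b_pr

open MeasureTheory ProbabilityTheory Filter Topology
open scoped NNReal ENNReal

/-! ### Sums of increments of a Brownian motion over disjoint intervals -/

section Gauss

variable {Ω : Type} [MeasurableSpace Ω] {P : Measure Ω} {B : ℝ≥0 → Ω → ℝ}

theorem memLp_eval (hB : IsPreBrownianReal B P) (a : ℝ≥0) : MemLp (B a) 2 P :=
  (hB.isGaussianProcess.hasGaussianLaw_eval _).memLp_two

theorem memLp_incr (hB : IsPreBrownianReal B P) (a b : ℝ≥0) :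
    MemLp (fun ω => B b ω - B a ω) 2 P :=
  (memLp_eval hB b).sub (memLp_eval hB a)

theorem integral_incr (hB : IsPreBrownianReal B P) (a b : ℝ≥0) :
    ∫ ω, (B b ω - B a ω) ∂P = 0 := by
  rw [integral_sub (hB.integrable_eval b) (hB.integrable_eval a), hB.integral_eval,
    hB.integral_eval, sub_self]

theorem cov_incr (hB : IsPreBrownianReal B P) (a b c d : ℝ≥0) :
    cov[fun ω => B b ω - B a ω, fun ω => B d ω - B c ω; P] =
      ((min b d : ℝ≥0) : ℝ) - (min b c : ℝ≥0) - (min a d : ℝ≥0) + (min a c : ℝ≥0) := by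
  have := hB.isGaussianProcess.isProbabilityMeasure
  rw [covariance_fun_sub_fun_sub (memLp_eval hB _) (memLp_eval hB _) (memLp_eval hB _)
    (memLp_eval hB _)]
  simp_rw [hB.covariance_eval]

theorem cov_incr_real (hB : IsPreBrownianReal B P) {a b c d : ℝ} (ha : 0 ≤ a) (hb : 0 ≤ b)
    (hc : 0 ≤ c) (hd : 0 ≤ d) :
    cov[fun ω => B b.toNNReal ω - B a.toNNReal ω, fun ω => B d.toNNReal ω - B c.toNNReal ω; P] =
      min b d - min b c - min a d + min a c := by
  rw [cov_incr hB]
  simp only [NNReal.coe_min, Real.coe_toNNReal _ ha, Real.coe_toNNReal _ hb,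
    Real.coe_toNNReal _ hc, Real.coe_toNNReal _ hd]

/-- The process of increments over a sequence of intervals. -/
theorem isGaussianProcess_incr (hB : IsPreBrownianReal B P) (a b : ℕ → ℝ≥0) (c : ℕ → ℝ) :
    IsGaussianProcess (fun n ω => c n * (B (b n) ω - B (a n) ω)) P := by
  classical
  apply hB.isGaussianProcess.of_isGaussianProcess
  intro n
  refine ⟨{a n, b n}, ?_, ?_⟩
  · exact c n • (ContinuousLinearMap.proj (R := ℝ)
        (φ := fun _ : ({a n, b n} : Finset ℝ≥0) => ℝ) ⟨b n, by simp⟩ -
      ContinuousLinearMap.proj (R := ℝ)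
        (φ := fun _ : ({a n, b n} : Finset ℝ≥0) => ℝ) ⟨a n, by simp⟩)
  · intro ω
    simp

theorem hasLaw_sum (hB : IsPreBrownianReal B P) (a b : ℕ → ℝ) (h0 : ∀ n, 0 ≤ a n)
    (hab : ∀ n, a n ≤ b n) (hdis : ∀ n m, n ≠ m → b n ≤ a m ∨ b m ≤ a n) (c : ℕ → ℝ) (N : ℕ) :
    HasLaw (fun ω => ∑ n ∈ Finset.range N, c n * (B (b n).toNNReal ω - B (a n).toNNReal ω))
      (gaussianReal 0 (∑ n ∈ Finset.range N, (c n) ^ 2 * (b n - a n)).toNNReal) P := by
  have hP := hB.isGaussianProcess.isProbabilityMeasure
  have hG := isGaussianProcess_incr hB (fun n => (a n).toNNReal) (fun n => (b n).toNNReal) c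
  have hS := hG.hasGaussianLaw_fun_sum (I := Finset.range N)
  have hm : ∫ ω, (∑ n ∈ Finset.range N, c n * (B (b n).toNNReal ω - B (a n).toNNReal ω)) ∂P
      = 0 := by
    rw [integral_finsetSum]
    · apply Finset.sum_eq_zero
      intro n _
      rw [integral_const_mul, integral_incr hB, mul_zero]
    · intro n _
      exact ((memLp_incr hB _ _).integrable (by norm_num)).const_mul _
  have hv : Var[fun ω => ∑ n ∈ Finset.range N, c n * (B (b n).toNNReal ω - B (a n).toNNReal ω);
      P] = ∑ n ∈ Finset.range N, (c n) ^ 2 * (b n - a n) := by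
    rw [variance_fun_sum' (X := fun n ω => c n * (B (b n).toNNReal ω - B (a n).toNNReal ω))
      (fun n _ => (memLp_incr hB _ _).const_mul _)]
    apply Finset.sum_congr rfl
    intro n hn
    rw [Finset.sum_eq_single n]
    · rw [covariance_const_mul_left, covariance_const_mul_right,
        cov_incr_real hB (h0 n) ((h0 n).trans (hab n)) (h0 n) ((h0 n).trans (hab n))]
      rw [min_self, min_self, min_eq_right (hab n), min_eq_left (hab n)]
      ring
    · intro m _ hmn
      rw [covariance_const_mul_left, covariance_const_mul_right,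
        cov_incr_real hB (h0 n) ((h0 n).trans (hab n)) (h0 m) ((h0 m).trans (hab m))]
      rcases hdis n m hmn.symm with h | h
      · rw [min_eq_left (h.trans (hab m)), min_eq_left h, min_eq_left ((hab n).trans
          (h.trans (hab m))), min_eq_left ((hab n).trans h)]
        ring
      · rw [min_eq_right (h.trans (hab n)), min_eq_right ((hab m).trans (h.trans (hab n))),
          min_eq_right h, min_eq_right ((hab m).trans h)]
        ring
    · intro h
      exact absurd hn h
  refine ⟨hS.aemeasurable, ?_⟩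
  rw [hS.map_eq_gaussianReal, hm, hv]

end Gauss

end Pool.Agent.Lib.MP_3d9a2b_pr
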