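import Pool.Agent.Lib.MP_3d9a2b_pr.Env

set_option autoImplicit false

namespace Pool.Agent.Lib.MP_3d9a2b_pr

open MeasureTheory ProbabilityTheory Filter Topology
open scoped NNReal ENNReal

/-! ### Task A: pathwise inequalities -/

section A
variable {α C : ℝ} {a l N : ℕ} {y : ℝ}

/-! #### basic facts on shifts -/

theorem A_sh_apply (k n : ℕ) (ζ : Env) : sh k ζ n = ζ (n + k) := rfl

theorem A_sh_zero (ζ : Env) : sh 0 ζ = ζ := rfl

theorem A_sh_sh (i j : ℕ) (ζ : Env) : sh i (sh j ζ) = sh (i + j) ζ := by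
  funext n
  simp only [sh]
  rw [add_assoc]

theorem A_S_zero (ζ : Env) : S 0 ζ = 0 := by simp [S]

theorem A_S_one (ζ : Env) : S 1 ζ = -2 * (ζ 0).1 := by simp [S]

theorem A_S_add (i j : ℕ) (ζ : Env) : S (i + j) ζ = S i ζ + S j (sh i ζ) := by
  simp only [S, sh]
  rw [Finset.sum_range_add, mul_add]
  congr 2
  refine Finset.sum_congr rfl fun x _ => ?_
  rw [add_comm]

theorem A_L_zero (ζ : Env) : L α C 0 ζ = 0 := by rw [L]

theorem A_L_succ (α C : ℝ) (N : ℕ) (ζ : Env) : L α C (N + 1) ζ =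
    Finset.sup' (Finset.univ : Finset (Fin (N + 1) × Bool)) Finset.univ_nonempty
      (fun q => - kap α C (q.1 + 1) - (ζ 0).2 + (if q.2 then S (q.1 + 1) ζ else 0)
        + L α C (N - q.1) (sh (q.1 + 1) ζ)) := by
  rw [L]

theorem L_ge (hl : 1 ≤ l) (hlN : l ≤ N) (e : Bool) (ζ : Env) :
    - kap α C l - (ζ 0).2 + (if e then S l ζ else 0) + L α C (N - l) (sh l ζ) ≤ L α C N ζ := by
  obtain ⟨l', rfl⟩ : ∃ l', l = l' + 1 := ⟨l - 1, by omega⟩
  obtain ⟨N', rfl⟩ : ∃ N', N = N' + 1 := ⟨N - 1, by omega⟩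
  rw [A_L_succ]
  have h := Finset.le_sup' (s := (Finset.univ : Finset (Fin (N' + 1) × Bool)))
    (f := fun q => - kap α C (q.1 + 1) - (ζ 0).2 + (if q.2 then S (q.1 + 1) ζ else 0)
        + L α C (N' - q.1) (sh (q.1 + 1) ζ))
    (Finset.mem_univ ((⟨l', by omega⟩ : Fin (N' + 1)), e))
  have hN : N' + 1 - (l' + 1) = N' - l' := by omega
  rw [hN]
  exact h

/-- the supremum in the recursion of `L` is attained -/
theorem A_L_attained (α C : ℝ) (N : ℕ) (ζ : Env) : ∃ (q : ℕ) (e : Bool), q ≤ N ∧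
    L α C (N + 1) ζ = - kap α C (q + 1) - (ζ 0).2 + (if e then S (q + 1) ζ else 0)
        + L α C (N - q) (sh (q + 1) ζ) := by
  rw [A_L_succ]
  obtain ⟨q, -, hq⟩ := Finset.exists_mem_eq_sup'
    (Finset.univ_nonempty : (Finset.univ : Finset (Fin (N + 1) × Bool)).Nonempty)
    (fun q => - kap α C (q.1 + 1) - (ζ 0).2 + (if q.2 then S (q.1 + 1) ζ else 0)
        + L α C (N - q.1) (sh (q.1 + 1) ζ))
  exact ⟨q.1, q.2, by omega, hq⟩

theorem L_eq_gain (α C : ℝ) (N : ℕ) (ζ : Env) : ∃ sc : List (ℕ × Bool),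
    (∀ q ∈ sc, 1 ≤ q.1) ∧ (sc.map Prod.fst).sum = N ∧ L α C N ζ = gain α C sc ζ := by
  induction N using Nat.strong_induction_on generalizing ζ with
  | _ N ih =>
    rcases Nat.eq_zero_or_pos N with rfl | hN
    · exact ⟨[], by simp, by simp, by rw [A_L_zero, gain]⟩
    · obtain ⟨N', rfl⟩ : ∃ N', N = N' + 1 := ⟨N - 1, by omega⟩
      obtain ⟨q, e, hq, h⟩ := A_L_attained α C N' ζ
      obtain ⟨sc, h1, h2, h3⟩ := ih (N' - q) (by omega) (sh (q + 1) ζ)
      refine ⟨(q + 1, e) :: sc, ?_, ?_, ?_⟩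
      · intro r hr
        rcases List.mem_cons.mp hr with rfl | hr
        · simp
        · exact h1 r hr
      · rw [List.map_cons, List.sum_cons, h2]
        simp only
        omega
      · rw [h, gain, h3]

/-- option `b` of `H` -/
theorem A_H_ge {b : ℕ} (hb : b ≤ N) (ζ : Env) :
    - kap α C (a + b) + L α C (N - b) (sh b ζ) ≤ H α C a N ζ := by
  unfold H
  exact Finset.le_sup' (fun b => - kap α C (a + b) + L α C (N - b) (sh b ζ))
    (Finset.mem_range.mpr (by omega))

theorem A_H_le {c : ℝ} {ζ : Env}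
    (h : ∀ b ≤ N, - kap α C (a + b) + L α C (N - b) (sh b ζ) ≤ c) : H α C a N ζ ≤ c := by
  unfold H
  refine Finset.sup'_le _ _ fun b hb => ?_
  rw [Finset.mem_range] at hb
  exact h b (by omega)

/-- option `b` of `K` -/
theorem A_K_ge {b : ℕ} (hb : b ≤ N) (ζ : Env) :
    y + S b ζ - kap α C a - kap α C (l + b) + L α C (N - b) (sh b ζ) ≤ K α C a l y N ζ := by
  unfold K
  refine le_trans ?_ (le_max_right _ _)
  exact Finset.le_sup'
    (fun b => y + S b ζ - kap α C a - kap α C (l + b) + L α C (N - b) (sh b ζ))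
    (Finset.mem_range.mpr (by omega))

theorem A_K_le {c : ℝ} {ζ : Env} (h0 : H α C (a + l) N ζ ≤ c)
    (h : ∀ b ≤ N, y + S b ζ - kap α C a - kap α C (l + b) + L α C (N - b) (sh b ζ) ≤ c) :
    K α C a l y N ζ ≤ c := by
  unfold K
  refine max_le h0 (Finset.sup'_le _ _ fun b hb => ?_)
  rw [Finset.mem_range] at hb
  exact h b (by omega)

theorem L_start (ζ : Env) : - (ζ 0).2 + H α C 1 N (sh 1 ζ) ≤ L α C (N + 1) ζ := by
  have h : H α C 1 N (sh 1 ζ) ≤ L α C (N + 1) ζ + (ζ 0).2 := by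
    refine A_H_le fun b hb => ?_
    have h1 := L_ge (α := α) (C := C) (l := b + 1) (N := N + 1) (by omega) (by omega) false ζ
    rw [show N + 1 - (b + 1) = N - b by omega] at h1
    rw [A_sh_sh, add_comm 1 b]
    simp only [Bool.false_eq_true, if_false] at h1
    linarith
  linarith

theorem H_shift (ζ : Env) : H α C (a + 1) N (sh 1 ζ) ≤ H α C a (N + 1) ζ := by
  refine A_H_le fun b hb => ?_
  have h1 := A_H_ge (α := α) (C := C) (a := a) (N := N + 1) (b := b + 1) (by omega) ζ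
  rw [show N + 1 - (b + 1) = N - b by omega] at h1
  rw [A_sh_sh, show a + 1 + b = a + (b + 1) by omega]
  exact h1

theorem H_end (ζ : Env) : - kap α C a + L α C N ζ ≤ H α C a N ζ := by
  have h1 := A_H_ge (α := α) (C := C) (a := a) (N := N) (b := 0) (by omega) ζ
  exact h1

theorem K_abandon (ζ : Env) : H α C (a + l) N ζ ≤ K α C a l y N ζ := by
  unfold K
  exact le_max_left _ _

theorem K_finish (ζ : Env) :
    y - kap α C a - kap α C l + L α C N ζ ≤ K α C a l y N ζ := by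
  have h1 := A_K_ge (α := α) (C := C) (a := a) (l := l) (y := y) (N := N) (b := 0) (by omega) ζ
  rw [A_S_zero, add_zero] at h1
  exact h1

theorem K_step (ζ : Env) :
    K α C a (l + 1) (y - 2 * (ζ 0).1) N (sh 1 ζ) ≤ K α C a l y (N + 1) ζ := by
  refine A_K_le ?_ fun b hb => ?_
  · exact (H_shift (a := a + l) ζ).trans (K_abandon ζ)
  · have h1 := A_K_ge (α := α) (C := C) (a := a) (l := l) (y := y) (N := N + 1) (b := b + 1)
      (by omega) ζ
    rw [show N + 1 - (b + 1) = N - b by omega, add_comm b 1, A_S_add, A_S_one] at h1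
    rw [A_sh_sh, show l + 1 + b = l + (1 + b) by omega, add_comm b 1]
    linarith

theorem H_start (ζ : Env) :
    K α C a 1 (- (ζ 0).2 - 2 * (ζ 0).1) N (sh 1 ζ) ≤ H α C a (N + 1) ζ := by
  refine A_K_le (H_shift ζ) fun b hb => ?_
  refine le_trans ?_ (H_end ζ)
  have h1 := L_ge (α := α) (C := C) (l := 1 + b) (N := N + 1) (by omega) (by omega) true ζ
  rw [show N + 1 - (1 + b) = N - b by omega, A_S_add, A_S_one] at h1
  rw [A_sh_sh, add_comm b 1]
  simp only [if_true] at h1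
  linarith

theorem A_K_add {t : ℝ} (ht : 0 ≤ t) (ζ : Env) :
    K α C a l (y + t) N ζ ≤ K α C a l y N ζ + t := by
  refine A_K_le ?_ fun b hb => ?_
  · have := K_abandon (α := α) (C := C) (a := a) (l := l) (N := N) (y := y) ζ
    linarith
  · have := A_K_ge (α := α) (C := C) (a := a) (l := l) (y := y) (N := N) (b := b) hb ζ
    linarith

theorem K_mono {y' : ℝ} (h : y ≤ y') (ζ : Env) : K α C a l y N ζ ≤ K α C a l y' N ζ := by
  refine A_K_le (K_abandon ζ) fun b hb => ?_
  have := A_K_ge (α := α) (C := C) (a := a) (l := l) (y := y') (N := N) (b := b) hb ζ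
  linarith

theorem K_lip (y' : ℝ) (ζ : Env) : |K α C a l y N ζ - K α C a l y' N ζ| ≤ |y - y'| := by
  rw [abs_le]
  have h1 : K α C a l y N ζ ≤ K α C a l y' N ζ + |y - y'| :=
    (K_mono (by linarith [le_abs_self (y - y')]) ζ).trans (A_K_add (abs_nonneg _) ζ)
  have h2 : K α C a l y' N ζ ≤ K α C a l y N ζ + |y - y'| :=
    (K_mono (by linarith [neg_abs_le (y - y')]) ζ).trans (A_K_add (abs_nonneg _) ζ)
  constructor <;> linarith

theorem K_iter (D : ℕ) (ζ : Env) :
    K α C a (l + D) (y + S D ζ) N (sh D ζ) ≤ K α C a l y (N + D) ζ := by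
  induction D generalizing N with
  | zero => simp only [add_zero, A_S_zero, A_sh_zero, le_refl]
  | succ D ih =>
    have h1 := K_step (α := α) (C := C) (a := a) (l := l + D) (y := y + S D ζ) (N := N) (sh D ζ)
    have h2 := ih (N := N + 1)
    rw [A_sh_sh, add_comm 1 D] at h1
    have h3 : y + S (D + 1) ζ = y + S D ζ - 2 * (sh D ζ 0).1 := by
      rw [A_S_add, A_S_one]
      ring
    rw [h3, show l + (D + 1) = l + D + 1 by omega, show N + (D + 1) = N + 1 + D by omega]
    exact h1.trans h2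

theorem A_H_iter (D : ℕ) (ζ : Env) : H α C (a + D) N (sh D ζ) ≤ H α C a (N + D) ζ := by
  induction D generalizing N with
  | zero => simp only [add_zero, A_sh_zero, le_refl]
  | succ D ih =>
    have h1 := H_shift (α := α) (C := C) (a := a + D) (N := N) (sh D ζ)
    rw [A_sh_sh, add_comm 1 D] at h1
    rw [show a + (D + 1) = a + D + 1 by omega, show N + (D + 1) = N + 1 + D by omega]
    exact h1.trans (ih (N := N + 1))

theorem A_kap_mono (hα : 0 ≤ α) {m n : ℕ} (hm : 1 ≤ m) (hmn : m ≤ n) :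
    kap α C m ≤ kap α C n := by
  unfold kap
  have h : Real.log m ≤ Real.log n :=
    Real.log_le_log (by exact_mod_cast hm) (by exact_mod_cast hmn)
  have := mul_le_mul_of_nonneg_left h (show (0 : ℝ) ≤ 1 + α by linarith)
  linarith

set_option linter.unusedVariables false in
theorem K_flip (hα : 0 ≤ α) (hC : 0 ≤ C) (hl : 1 ≤ l) {D : ℕ} {Γ : ℝ} (ζ : Env)
    (hζ : ζ ∈ UA α C l D Γ) :
    K α C a (l + D) (y + S D ζ + Γ) N (sh D ζ) ≤ K α C a l y (N + D) ζ := by
  obtain ⟨i, j, hij, hjD, hΓ⟩ := hζ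
  refine A_K_le ?_ fun b hb => ?_
  · refine le_trans ?_ (K_abandon ζ)
    rw [← add_assoc]
    exact A_H_iter D ζ
  · have h1 := A_K_ge (α := α) (C := C) (a := a) (l := l) (y := y) (N := N + D) (b := i)
      (by omega) ζ
    have h2 := L_ge (α := α) (C := C) (l := j - i) (N := N + D - i) (by omega) (by omega) false
      (sh i ζ)
    rw [A_sh_sh, show j - i + i = j by omega, show N + D - i - (j - i) = N + D - j by omega,
      A_sh_apply, Nat.zero_add] at h2
    have h3 := L_ge (α := α) (C := C) (l := D + b - j) (N := N + D - j) (by omega) (by omega) true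
      (sh j ζ)
    rw [A_sh_sh, show D + b - j + j = b + D by omega,
      show N + D - j - (D + b - j) = N - b by omega, A_sh_apply, Nat.zero_add] at h3
    have h4 : S j ζ + S (D + b - j) (sh j ζ) = S D ζ + S b (sh D ζ) := by
      rw [← A_S_add, ← A_S_add]
      congr 1
      omega
    have h5 := A_kap_mono (α := α) (C := C) hα (m := D + b - j) (n := l + D + b) (by omega)
      (by omega)
    rw [A_sh_sh]
    simp only [Bool.false_eq_true, if_false] at h2
    simp only [if_true] at h3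
    linarith

/-! #### measurability -/

theorem A_measurable_sh (k : ℕ) : Measurable (sh k) :=
  measurable_pi_lambda _ fun n => measurable_pi_apply (n + k)

theorem A_measurable_S (k : ℕ) : Measurable (S k) := by
  unfold S
  refine Measurable.const_mul ?_ _
  refine Finset.measurable_sum _ fun i _ => ?_
  exact (measurable_pi_apply i).fst

theorem A_measurable_w (k : ℕ) : Measurable (fun ζ : Env => (ζ k).2) :=
  (measurable_pi_apply k).snd

theorem A_measurable_x (k : ℕ) : Measurable (fun ζ : Env => (ζ k).1) :=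
  (measurable_pi_apply k).fst

theorem A_measurable_sup' {ι X : Type*} [MeasurableSpace X] {s : Finset ι} (hs : s.Nonempty)
    {f : ι → X → ℝ} (hf : ∀ i ∈ s, Measurable (f i)) :
    Measurable (fun x => s.sup' hs (fun i => f i x)) := by
  have h := Finset.measurable_sup' hs hf
  have h2 : (fun x => s.sup' hs (fun i => f i x)) = s.sup' hs f := by
    funext x
    rw [Finset.sup'_apply]
  rw [h2]
  exact h

theorem measurable_L (α C : ℝ) (N : ℕ) : Measurable (L α C N) := by
  induction N using Nat.strong_induction_on with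
  | _ N ih =>
    rcases Nat.eq_zero_or_pos N with rfl | hN
    · have : L α C 0 = fun _ => 0 := by funext ζ; exact A_L_zero ζ
      rw [this]
      exact measurable_const
    · obtain ⟨N', rfl⟩ : ∃ N', N = N' + 1 := ⟨N - 1, by omega⟩
      have : L α C (N' + 1) = fun ζ =>
          Finset.sup' (Finset.univ : Finset (Fin (N' + 1) × Bool)) Finset.univ_nonempty
            (fun q => - kap α C (q.1 + 1) - (ζ 0).2 + (if q.2 then S (q.1 + 1) ζ else 0)
            + L α C (N' - q.1) (sh (q.1 + 1) ζ)) := by funext ζ; exact A_L_succ α C N' ζ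
      rw [this]
      refine A_measurable_sup' _ fun q _ => ?_
      refine ((measurable_const.sub (A_measurable_w 0)).add ?_).add
        ((ih (N' - q.1) (by omega)).comp (A_measurable_sh _))
      by_cases hq : q.2 = true
      · simp only [hq, if_true]
        exact A_measurable_S _
      · simp only [hq]
        exact measurable_const

theorem measurable_H (α C : ℝ) (a N : ℕ) : Measurable (H α C a N) := by
  unfold H
  refine A_measurable_sup' _ fun b _ => ?_
  exact measurable_const.add ((measurable_L α C (N - b)).comp (A_measurable_sh b))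

theorem measurable_K (α C : ℝ) (a l N : ℕ) :
    Measurable (fun p : ℝ × Env => K α C a l p.1 N p.2) := by
  unfold K
  refine Measurable.max ((measurable_H α C (a + l) N).comp measurable_snd) ?_
  refine A_measurable_sup' _ fun b _ => ?_
  refine ((((measurable_fst.add ((A_measurable_S b).comp measurable_snd)).sub
    measurable_const).sub measurable_const).add ?_)
  exact ((measurable_L α C (N - b)).comp (A_measurable_sh b)).comp measurable_snd

/-! #### growth -/

/-- size of the first `n` coordinates -/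
noncomputable def Bs (n : ℕ) (ζ : Env) : ℝ := ∑ i ∈ Finset.range n, (|(ζ i).1| + |(ζ i).2|)

theorem Bs_nonneg (n : ℕ) (ζ : Env) : 0 ≤ Bs n ζ :=
  Finset.sum_nonneg fun _ _ => add_nonneg (abs_nonneg _) (abs_nonneg _)

theorem Bs_mono {m n : ℕ} (h : m ≤ n) (ζ : Env) : Bs m ζ ≤ Bs n ζ :=
  Finset.sum_le_sum_of_subset_of_nonneg (Finset.range_mono h)
    fun _ _ _ => add_nonneg (abs_nonneg _) (abs_nonneg _)

theorem Bs_sh (m k : ℕ) (ζ : Env) : Bs m (sh k ζ) ≤ Bs (k + m) ζ := by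
  unfold Bs
  rw [Finset.sum_range_add]
  have h1 : ∑ i ∈ Finset.range m, (|(sh k ζ i).1| + |(sh k ζ i).2|) =
      ∑ i ∈ Finset.range m, (|(ζ (k + i)).1| + |(ζ (k + i)).2|) := by
    refine Finset.sum_congr rfl fun i _ => ?_
    rw [A_sh_apply, add_comm i k]
  rw [h1]
  have h2 : 0 ≤ ∑ i ∈ Finset.range k, (|(ζ i).1| + |(ζ i).2|) := Bs_nonneg k ζ
  linarith

theorem abs_S_le (k : ℕ) (ζ : Env) : |S k ζ| ≤ 2 * Bs k ζ := by
  unfold S Bs
  rw [abs_mul, abs_neg, abs_two]
  refine mul_le_mul_of_nonneg_left ?_ (by norm_num)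
  refine (Finset.abs_sum_le_sum_abs _ _).trans (Finset.sum_le_sum fun i _ => ?_)
  linarith [abs_nonneg (ζ i).2]

/-- linear growth in the first `m` coordinates -/
def LG (m : ℕ) (f : Env → ℝ) : Prop := ∃ c : ℝ, 0 ≤ c ∧ ∀ ζ, |f ζ| ≤ c * (1 + Bs m ζ)

theorem LG.const (m : ℕ) (r : ℝ) : LG m (fun _ => r) := by
  refine ⟨|r|, abs_nonneg r, fun ζ => ?_⟩
  have := mul_nonneg (abs_nonneg r) (Bs_nonneg m ζ)
  linarith

theorem LG.add {m : ℕ} {f g : Env → ℝ} (hf : LG m f) (hg : LG m g) :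
    LG m (fun ζ => f ζ + g ζ) := by
  obtain ⟨c, hc, h1⟩ := hf
  obtain ⟨d, hd, h2⟩ := hg
  refine ⟨c + d, add_nonneg hc hd, fun ζ => ?_⟩
  have := abs_add_le (f ζ) (g ζ)
  have e1 := h1 ζ
  have e2 := h2 ζ
  rw [add_mul]
  linarith

theorem LG.neg {m : ℕ} {f : Env → ℝ} (hf : LG m f) : LG m (fun ζ => - f ζ) := by
  obtain ⟨c, hc, h1⟩ := hf
  exact ⟨c, hc, fun ζ => by rw [abs_neg]; exact h1 ζ⟩

theorem LG.sub {m : ℕ} {f g : Env → ℝ} (hf : LG m f) (hg : LG m g) :
    LG m (fun ζ => f ζ - g ζ) := by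
  have := hf.add hg.neg
  simpa only [sub_eq_add_neg] using this

theorem LG.mono {m n : ℕ} (h : m ≤ n) {f : Env → ℝ} (hf : LG m f) : LG n f := by
  obtain ⟨c, hc, h1⟩ := hf
  refine ⟨c, hc, fun ζ => (h1 ζ).trans (mul_le_mul_of_nonneg_left ?_ hc)⟩
  linarith [Bs_mono h ζ]

theorem LG.sh {m k : ℕ} {f : Env → ℝ} (hf : LG m f) : LG (k + m) (fun ζ => f (sh k ζ)) := by
  obtain ⟨c, hc, h1⟩ := hf
  refine ⟨c, hc, fun ζ => (h1 _).trans (mul_le_mul_of_nonneg_left ?_ hc)⟩
  linarith [Bs_sh m k ζ]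

theorem LG.S (k : ℕ) : LG k (S k) := by
  refine ⟨2, by norm_num, fun ζ => ?_⟩
  have := abs_S_le k ζ
  linarith

theorem LG.w {m k : ℕ} (h : k < m) : LG m (fun ζ => (ζ k).2) := by
  refine ⟨1, by norm_num, fun ζ => ?_⟩
  have h1 : |(ζ k).1| + |(ζ k).2| ≤ Bs m ζ := by
    unfold Bs
    exact Finset.single_le_sum (f := fun i => |(ζ i).1| + |(ζ i).2|)
      (fun i _ => add_nonneg (abs_nonneg _) (abs_nonneg _)) (Finset.mem_range.mpr h)
  linarith [abs_nonneg (ζ k).1]

theorem LG.sup' {m : ℕ} {ι : Type*} {s : Finset ι} (hs : s.Nonempty) {f : ι → Env → ℝ}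
    (hf : ∀ i ∈ s, LG m (f i)) : LG m (fun ζ => s.sup' hs (fun i => f i ζ)) := by
  classical
  have h : ∀ i : ι, ∃ c : ℝ, 0 ≤ c ∧ (i ∈ s → ∀ ζ, |f i ζ| ≤ c * (1 + Bs m ζ)) := by
    intro i
    by_cases hi : i ∈ s
    · obtain ⟨c, hc, h1⟩ := hf i hi
      exact ⟨c, hc, fun _ => h1⟩
    · exact ⟨0, le_rfl, fun h => absurd h hi⟩
  choose c hc h1 using h
  refine ⟨∑ i ∈ s, c i, Finset.sum_nonneg fun i _ => hc i, fun ζ => ?_⟩
  obtain ⟨i, hi, h2⟩ := Finset.exists_mem_eq_sup' hs (fun i => f i ζ)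
  simp only
  rw [h2]
  refine (h1 i hi ζ).trans (mul_le_mul_of_nonneg_right ?_ (by linarith [Bs_nonneg m ζ]))
  exact Finset.single_le_sum (fun j _ => hc j) hi

theorem LG.ite {m : ℕ} {f : Env → ℝ} (b : Bool) (hf : LG m f) :
    LG m (fun ζ => if b then f ζ else 0) := by
  cases b
  · simpa using LG.const m 0
  · simpa using hf

theorem LG.L (α C : ℝ) (N : ℕ) : LG (N + 1) (L α C N) := by
  induction N using Nat.strong_induction_on with
  | _ N ih =>
    rcases Nat.eq_zero_or_pos N with rfl | hN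
    · have : MP_3d9a2b_pr.L α C 0 = fun _ => 0 := by funext ζ; exact A_L_zero ζ
      rw [this]
      exact LG.const _ _
    · obtain ⟨N', rfl⟩ : ∃ N', N = N' + 1 := ⟨N - 1, by omega⟩
      have : MP_3d9a2b_pr.L α C (N' + 1) = fun ζ =>
          Finset.sup' (Finset.univ : Finset (Fin (N' + 1) × Bool)) Finset.univ_nonempty
            (fun q => - kap α C (q.1 + 1) - (ζ 0).2 +
              (if q.2 then MP_3d9a2b_pr.S (q.1 + 1) ζ else 0)
            + MP_3d9a2b_pr.L α C (N' - q.1) (MP_3d9a2b_pr.sh (q.1 + 1) ζ)) := by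
        funext ζ; exact A_L_succ α C N' ζ
      rw [this]
      refine LG.sup' _ fun q _ => ?_
      have hq : (q.1 : ℕ) ≤ N' := by omega
      refine (((LG.const _ _).sub (LG.w (by omega))).add
        (LG.ite q.2 ((LG.S _).mono (by omega)))).add ?_
      exact (LG.sh (k := q.1 + 1) (ih (N' - q.1) (by omega))).mono (by omega)

theorem LG.H (α C : ℝ) (a N : ℕ) : LG (N + 1) (H α C a N) := by
  unfold MP_3d9a2b_pr.H
  refine LG.sup' _ fun b hb => ?_
  rw [Finset.mem_range] at hb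
  refine (LG.const _ _).add ?_
  exact (LG.sh (k := b) (LG.L α C (N - b))).mono (by omega)

theorem LG.K (α C : ℝ) (a l : ℕ) (y : ℝ) (N : ℕ) : LG (N + 1) (K α C a l y N) := by
  have h2 : LG (N + 1) (fun ζ => Finset.sup' (Finset.range (N + 1)) ⟨0, by simp⟩
      (fun b => y + MP_3d9a2b_pr.S b ζ - kap α C a - kap α C (l + b)
        + MP_3d9a2b_pr.L α C (N - b) (MP_3d9a2b_pr.sh b ζ))) := by
    refine LG.sup' _ fun b hb => ?_
    rw [Finset.mem_range] at hb
    refine ((((LG.const _ _).add ((LG.S b).mono (by omega))).sub (LG.const _ _)).sub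
      (LG.const _ _)).add ?_
    exact (LG.sh (k := b) (LG.L α C (N - b))).mono (by omega)
  obtain ⟨c, hc, h1⟩ := LG.H α C (a + l) N
  obtain ⟨d, hd, h3⟩ := h2
  refine ⟨c + d, add_nonneg hc hd, fun ζ => ?_⟩
  have hB := Bs_nonneg (N + 1) ζ
  unfold MP_3d9a2b_pr.K
  have e1 := h1 ζ
  have e2 := h3 ζ
  have e3 : 0 ≤ c * (1 + Bs (N + 1) ζ) := mul_nonneg hc (by linarith)
  have e4 : 0 ≤ d * (1 + Bs (N + 1) ζ) := mul_nonneg hd (by linarith)
  rw [add_mul]
  refine (abs_max_le_max_abs_abs).trans (max_le ?_ ?_)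
  · linarith
  · linarith

theorem LG.bound {m : ℕ} {f : Env → ℝ} (hf : LG m f) : ∃ c : ℝ, ∀ ζ : Env,
    |f ζ| ≤ c + ∑ i ∈ Finset.range m, (c * |(ζ i).1| + c * |(ζ i).2|) := by
  obtain ⟨c, hc, h1⟩ := hf
  refine ⟨c, fun ζ => (h1 ζ).trans (le_of_eq ?_)⟩
  unfold Bs
  rw [mul_add, mul_one, Finset.mul_sum]
  congr 1
  exact Finset.sum_congr rfl fun i _ => mul_add _ _ _

/-- growth bounds (for integrability) -/
theorem abs_L_le (α C : ℝ) (N : ℕ) : ∃ c : ℝ, ∀ ζ : Env,
    |L α C N ζ| ≤ c + ∑ i ∈ Finset.range (N + 1), (c * |(ζ i).1| + c * |(ζ i).2|) :=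
  (LG.L α C N).bound

theorem abs_H_le (α C : ℝ) (a N : ℕ) : ∃ c : ℝ, ∀ ζ : Env,
    |H α C a N ζ| ≤ c + ∑ i ∈ Finset.range (N + 1), (c * |(ζ i).1| + c * |(ζ i).2|) :=
  (LG.H α C a N).bound

theorem abs_K_le (α C : ℝ) (a l N : ℕ) : ∃ c : ℝ, ∀ (y : ℝ) (ζ : Env),
    |K α C a l y N ζ| ≤ |y| + c +
      ∑ i ∈ Finset.range (N + 1), (c * |(ζ i).1| + c * |(ζ i).2|) := by
  obtain ⟨c, h1⟩ := (LG.K α C a l 0 N).bound
  refine ⟨c, fun y ζ => ?_⟩
  have h2 := K_lip (α := α) (C := C) (a := a) (l := l) (y := y) (N := N) 0 ζ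
  rw [sub_zero] at h2
  have h3 := h1 ζ
  have h4 := abs_sub_abs_le_abs_sub (K α C a l y N ζ) (K α C a l 0 N ζ)
  linarith

/-- perturbation of the environment -/
theorem L_perturb (α C : ℝ) {η η' : ℝ} (hη : 0 ≤ η) (hη' : 0 ≤ η') (ζ ζ' : Env)
    (h1 : ∀ i, (ζ' i).1 ≤ (ζ i).1 + η) (h2 : ∀ i, (ζ' i).2 ≤ (ζ i).2 + η') (N : ℕ) :
    L α C N ζ - (2 * η + η') * N ≤ L α C N ζ' := by
  induction N using Nat.strong_induction_on generalizing ζ ζ' with
  | _ N ih =>
    rcases Nat.eq_zero_or_pos N with rfl | hN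
    · rw [A_L_zero, A_L_zero]
      simp
    · obtain ⟨N', rfl⟩ : ∃ N', N = N' + 1 := ⟨N - 1, by omega⟩
      obtain ⟨q, e, hq, h⟩ := A_L_attained α C N' ζ
      have h3 := L_ge (α := α) (C := C) (l := q + 1) (N := N' + 1) (by omega) (by omega) e ζ'
      rw [show N' + 1 - (q + 1) = N' - q by omega] at h3
      have h4 := ih (N' - q) (by omega) (sh (q + 1) ζ) (sh (q + 1) ζ')
        (fun i => h1 _) (fun i => h2 _)
      have h5 : S (q + 1) ζ - 2 * η * ((q : ℝ) + 1) ≤ S (q + 1) ζ' := by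
        unfold S
        have : ∑ i ∈ Finset.range (q + 1), (ζ' i).1 ≤
            ∑ i ∈ Finset.range (q + 1), ((ζ i).1 + η) := Finset.sum_le_sum fun i _ => h1 i
        rw [Finset.sum_add_distrib, Finset.sum_const, Finset.card_range, nsmul_eq_mul] at this
        push_cast at this
        linarith
      have h6 : (if e then S (q + 1) ζ else 0) - 2 * η * ((q : ℝ) + 1) ≤
          (if e then S (q + 1) ζ' else 0) := by
        cases e
        · simp only [Bool.false_eq_true, if_false]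
          have : 0 ≤ 2 * η * ((q : ℝ) + 1) := by positivity
          linarith
        · simp only [if_true]
          exact h5
      have h7 := h2 0
      have hcast : ((N' - q : ℕ) : ℝ) = (N' : ℝ) - q := by
        rw [Nat.cast_sub hq]
      rw [hcast] at h4
      rw [h]
      push_cast
      have h8 : 0 ≤ η' * (q : ℝ) := by positivity
      nlinarith

end A

end Pool.Agent.Lib.MP_3d9a2b_pr
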