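import Pool.Agent.Lib.MP_3d9a2b_pr.Exchange

set_option autoImplicit false

namespace Pool.Agent.Lib.MP_3d9a2b_pr

open MeasureTheory ProbabilityTheory Filter Topology
open scoped NNReal ENNReal

namespace Model

variable {α : ℝ} {Ω Ω' : Type} [MeasurableSpace Ω] [mΩ' : MeasurableSpace Ω'] {P : Measure Ω}
  {P' : Measure Ω'} (M : Model α P P')

theorem wE_eq_zero_or_one (θ : ℝ) (p : ℕ → ℕ) (e : ℕ → Bool) (k : ℕ) (ω' : Ω') :
    M.wE θ p e k ω' = 0 ∨ M.wE θ p e k ω' = 1 := by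
  classical
  unfold wE iR
  rw [W_eq, Set.indicator_apply, Set.indicator_apply]
  split_ifs <;> simp

theorem wE_eq_indicator (θ : ℝ) (p : ℕ → ℕ) (e : ℕ → Bool) (k : ℕ) (ω' : Ω') :
    M.wE θ p e k ω' = (M.wE θ p e k ⁻¹' {1}).indicator (fun _ => (1 : ℝ)) ω' := by
  classical
  rw [Set.indicator_apply]
  rcases M.wE_eq_zero_or_one θ p e k ω' with h | h
  · rw [if_neg, h]
    simp [h]
  · rw [if_pos, h]
    simp [h]

theorem integral_wE [IsProbabilityMeasure P'] {θ : ℝ} (hθ : 0 < θ) {p : ℕ → ℕ} (e : ℕ → Bool)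
    {k : ℕ} (hp : ∀ i < k, p i < p (i + 1)) :
    ∫ ω', M.wE θ p e k ω' ∂P' = (1 / 2) ^ k * P'.real (M.ER θ p k) := by
  have h1 : ∫ ω', M.iR θ p k ω' ∂P' = P'.real (M.ER θ p k) := by
    unfold iR
    rw [integral_indicator_const _ (M.𝒢_le _ (M.measurableSet_ER θ p k)), smul_eq_mul, mul_one]
  rw [← h1]
  refine M.integral_mul_W e k (M.iR θ p k) (M.mi θ p) (M.measurable_iR_𝒢 θ p k)
    (M.measurable_mi θ p) ?_ ?_
  · refine Integrable.of_bound (M.measurable_iR θ p k).aestronglyMeasurable 1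
      (ae_of_all _ fun ω' => ?_)
    rw [Real.norm_eq_abs, abs_of_nonneg (M.iR_nonneg θ p k ω')]
    exact M.iR_le_one θ p k ω'
  · intro ω' hω'
    apply M.ER_inj hθ hp
    by_contra hne
    exact hω' (Set.indicator_of_notMem hne _)

end Model

section HH
variable {α : ℝ} {Ω Ω' : Type} [MeasurableSpace Ω] [MeasurableSpace Ω'] {P : Measure Ω}
  {P' : Measure Ω'} [IsProbabilityMeasure P] [IsProbabilityMeasure P'] (M : Model α P P')

theorem log_Z_ge {lam h θ t : ℝ} (hlam : 0 < lam) (hh : 0 ≤ h) (hθ : 0 < θ) (p : ℕ → ℕ)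
    (e : ℕ → Bool) (k : ℕ) (hp0 : p 0 = 0) (hp : ∀ i < k, p i < p (i + 1))
    (ht : θ * (p k + 1) ≤ t)
    (hpos : 0 < P'.real {ω | ∀ i < k, nextPt (M.R ω) (θ * (p i + 1)) ∈
            Set.Ioc (θ * p (i + 1)) (θ * (p (i + 1) + 1 / 2))}) :
    ∀ᵐ ω ∂P, Real.log (P'.real {ω | ∀ i < k, nextPt (M.R ω) (θ * (p i + 1)) ∈
            Set.Ioc (θ * p (i + 1)) (θ * (p (i + 1) + 1 / 2))}) - k * Real.log 2
        - lam * (M.y h t ω - M.y h (θ * p k) ω)
        - 2 * lam * ∑ i ∈ Finset.range k,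
            (if e i then M.y h (θ * p (i + 1)) ω - M.y h (θ * p i) ω else 0)
        - 2 * lam * ∑ i ∈ Finset.range (k + 1), M.osc h θ (p i) ω
      ≤ Real.log (M.Z lam h t ω) := by
  have ht0 : 0 ≤ t := le_trans (by positivity) ht
  change 0 < P'.real (M.ER θ p k) at hpos
  have hEm : MeasurableSet (M.wE θ p e k ⁻¹' {1}) :=
    M.measurable_wE θ p e k (measurableSet_singleton 1)
  have hint := M.integral_wE hθ e hp
  have hq : P'.real (M.wE θ p e k ⁻¹' {1}) = (1 / 2) ^ k * P'.real (M.ER θ p k) := by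
    rw [← hint]
    simp_rw [fun ω' => M.wE_eq_indicator θ p e k ω']
    rw [integral_indicator_const _ hEm, smul_eq_mul, mul_one]
  have hqpos : 0 < P'.real (M.wE θ p e k ⁻¹' {1}) := by
    rw [hq]
    positivity
  have hq0 : P' (M.wE θ p e k ⁻¹' {1}) ≠ 0 := by
    intro h0
    rw [measureReal_def, h0] at hqpos
    simp at hqpos
  filter_upwards [M.ae_integrable_X hh ht0, M.ae_integrable_exp hlam hh ht0,
    M.ae_exchange hh hθ ht0 p e k hp] with ω hX hexp hexch
  change Real.log (P'.real (M.ER θ p k)) - k * Real.log 2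
        - lam * (M.y h t ω - M.y h (θ * p k) ω)
        - 2 * lam * ∑ i ∈ Finset.range k,
            (if e i then M.y h (θ * p (i + 1)) ω - M.y h (θ * p i) ω else 0)
        - 2 * lam * ∑ i ∈ Finset.range (k + 1), M.osc h θ (p i) ω
      ≤ Real.log (∫ ω', Real.exp (-2 * lam * M.XE h t ω ω') ∂P')
  set q : ℝ := P'.real (M.wE θ p e k ⁻¹' {1}) with hqdef
  set Z : ℝ := ∫ ω', Real.exp (-2 * lam * M.XE h t ω ω') ∂P' with hZ
  -- Jensen
  have hj := ConvexOn.map_set_average_le (μ := P') (t := M.wE θ p e k ⁻¹' {1})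
    (f := fun ω' => -2 * lam * M.XE h t ω ω') convexOn_exp Real.continuous_exp.continuousOn
    isClosed_univ hq0 (measure_ne_top _ _) (ae_of_all _ fun _ => Set.mem_univ _)
    (hX.const_mul _).integrableOn hexp.integrableOn
  rw [setAverage_eq, setAverage_eq, smul_eq_mul, smul_eq_mul] at hj
  rw [← hqdef] at hj
  have hle : ∫ ω' in M.wE θ p e k ⁻¹' {1}, Real.exp (-2 * lam * M.XE h t ω ω') ∂P' ≤ Z :=
    setIntegral_le_integral hexp (ae_of_all _ fun ω' => (Real.exp_pos _).le)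
  have hexpq : Real.exp (q⁻¹ * ∫ ω' in M.wE θ p e k ⁻¹' {1}, -2 * lam * M.XE h t ω ω' ∂P') ≤
      q⁻¹ * Z := hj.trans (mul_le_mul_of_nonneg_left hle (by positivity))
  have hZpos : 0 < Z := by
    have h1 := (Real.exp_pos _).trans_le hexpq
    have h2 : 0 < q⁻¹ := by positivity
    exact (pos_iff_pos_of_mul_pos h1).1 h2
  have hlog := (Real.le_log_iff_exp_le (by positivity)).2 hexpq
  rw [Real.log_mul (by positivity) (by positivity), Real.log_inv] at hlog
  -- the frozen energy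
  have hset : ∫ ω' in M.wE θ p e k ⁻¹' {1}, -2 * lam * M.XE h t ω ω' ∂P' =
      -2 * lam * ((1 / 2) ^ k * ∫ ω', M.iR θ p k ω' * M.Xbar h θ t p e k ω ω' ∂P') := by
    rw [integral_const_mul, ← hexch, ← integral_indicator hEm]
    congr 1
    refine integral_congr_ae (ae_of_all _ fun ω' => ?_)
    simp only
    rcases M.wE_eq_zero_or_one θ p e k ω' with h1 | h1
    · rw [Set.indicator_of_notMem (by simp [h1]), h1, zero_mul]
    · rw [Set.indicator_of_mem (by simp [h1]), h1, one_mul]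
  set C : ℝ := (M.y h t ω - M.y h (θ * p k) ω) / 2
      + ∑ i ∈ Finset.range k, (if e i then M.y h (θ * p (i + 1)) ω - M.y h (θ * p i) ω else 0)
      + ∑ i ∈ Finset.range (k + 1), M.osc h θ (p i) ω with hC
  have hi1 : Integrable (fun ω' => M.iR θ p k ω' * M.Xbar h θ t p e k ω ω') P' := by
    refine (M.integrable_Xbar h θ ht0 p e k ω).bdd_mul (c := 1)
      (M.measurable_iR θ p k).aestronglyMeasurable (ae_of_all _ fun ω' => ?_)
    rw [Real.norm_eq_abs, abs_of_nonneg (M.iR_nonneg θ p k ω')]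
    exact M.iR_le_one θ p k ω'
  have hi2 : Integrable (M.iR θ p k) P' := by
    refine Integrable.of_bound (M.measurable_iR θ p k).aestronglyMeasurable 1
      (ae_of_all _ fun ω' => ?_)
    rw [Real.norm_eq_abs, abs_of_nonneg (M.iR_nonneg θ p k ω')]
    exact M.iR_le_one θ p k ω'
  have hiR : ∫ ω', M.iR θ p k ω' ∂P' = P'.real (M.ER θ p k) := by
    unfold Model.iR
    rw [integral_indicator_const _ (M.𝒢_le _ (M.measurableSet_ER θ p k)), smul_eq_mul, mul_one]
  have hbound : ∫ ω', M.iR θ p k ω' * M.Xbar h θ t p e k ω ω' ∂P' ≤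
      P'.real (M.ER θ p k) * C := by
    rw [← hiR, ← integral_mul_const]
    refine integral_mono hi1 (hi2.mul_const C) fun ω' => ?_
    simp only
    by_cases hω' : ω' ∈ M.ER θ p k
    · exact mul_le_mul_of_nonneg_left (M.Xbar_le hθ e hp0 hp ht ω hω') (M.iR_nonneg θ p k ω')
    · have : M.iR θ p k ω' = 0 := Set.indicator_of_notMem hω' _
      rw [this, zero_mul, zero_mul]
  have hqC : q⁻¹ * (-2 * lam * ((1 / 2) ^ k *
      ∫ ω', M.iR θ p k ω' * M.Xbar h θ t p e k ω ω' ∂P')) ≥ -2 * lam * C := by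
    have h1 : (1 / 2 : ℝ) ^ k * ∫ ω', M.iR θ p k ω' * M.Xbar h θ t p e k ω ω' ∂P' ≤ q * C := by
      rw [hq, mul_assoc]
      exact mul_le_mul_of_nonneg_left hbound (by positivity)
    have h2 : q⁻¹ * ((1 / 2 : ℝ) ^ k * ∫ ω', M.iR θ p k ω' * M.Xbar h θ t p e k ω ω' ∂P') ≤ C := by
      rw [inv_mul_le_iff₀ hqpos]
      exact h1
    have h3 : q⁻¹ * (-2 * lam * ((1 / 2) ^ k *
      ∫ ω', M.iR θ p k ω' * M.Xbar h θ t p e k ω ω' ∂P')) = -2 * lam * (q⁻¹ * ((1 / 2) ^ k *
      ∫ ω', M.iR θ p k ω' * M.Xbar h θ t p e k ω ω' ∂P')) := by ring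
    rw [h3]
    nlinarith
  rw [hset] at hlog
  have hlogq : Real.log q = Real.log (P'.real (M.ER θ p k)) - k * Real.log 2 := by
    rw [hq, Real.log_mul (by positivity) (by positivity), Real.log_pow, one_div, Real.log_inv]
    ring
  have hfin : -2 * lam * C = - lam * (M.y h t ω - M.y h (θ * p k) ω)
        - 2 * lam * ∑ i ∈ Finset.range k,
            (if e i then M.y h (θ * p (i + 1)) ω - M.y h (θ * p i) ω else 0)
        - 2 * lam * ∑ i ∈ Finset.range (k + 1), M.osc h θ (p i) ω := by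
    rw [hC]
    ring
  linarith

end HH

end Pool.Agent.Lib.MP_3d9a2b_pr
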