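import Pool.Agent.Lib.MP_3d9a2b_pr.Ineq

set_option autoImplicit false

namespace Pool.Agent.Lib.MP_3d9a2b_pr

open MeasureTheory ProbabilityTheory Filter Topology
open scoped NNReal ENNReal

/-! ### Splitting the i.i.d. environment -/

instance law_isProb_nu (μ : Measure (ℝ × ℝ)) [IsProbabilityMeasure μ] : IsProbabilityMeasure (nu μ) := by
  unfold nu; infer_instance

theorem law_measurable_sh (D : ℕ) : Measurable (sh D) := by
  unfold sh; fun_prop

/-- glue the first `D` coordinates with a tail -/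
def law_glue (D : ℕ) (p : (Fin D → ℝ × ℝ) × Env) : Env := fun n =>
  if h : n < D then p.1 ⟨n, h⟩ else p.2 (n - D)

theorem law_measurable_glue (D : ℕ) : Measurable (law_glue D) := by
  rw [measurable_pi_iff]
  intro n
  unfold law_glue
  by_cases h : n < D
  · simp only [h, dif_pos]; fun_prop
  · simp only [h, dif_neg, not_false_eq_true]; fun_prop

theorem law_map_glue (μ : Measure (ℝ × ℝ)) [IsProbabilityMeasure μ] (D : ℕ) :
    ((Measure.pi (fun _ : Fin D => μ)).prod (nu μ)).map (law_glue D) = nu μ := by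
  unfold nu
  apply Measure.eq_infinitePi
  intro s t ht
  rw [Measure.map_apply (law_measurable_glue D) (.pi s.countable_toSet fun _ _ => ht _)]
  have h1 : law_glue D ⁻¹' (Set.pi s t) =
      (Set.pi Set.univ (fun i : Fin D => if (i : ℕ) ∈ s then t i else Set.univ)) ×ˢ
      (Set.pi ((s.filter (fun n => D ≤ n)).image (fun n => n - D)) (fun n => t (n + D))) := by
    ext ⟨a, b⟩
    simp only [Set.mem_preimage, Set.mem_pi, Set.mem_prod, law_glue]
    constructor
    · intro h
      constructor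
      · intro i _
        by_cases hi : (i : ℕ) ∈ s
        · have := h i hi
          simpa [hi] using this
        · simp [hi]
      · intro n hn
        simp only [Finset.coe_image, Finset.coe_filter, Set.mem_image, Set.mem_ofPred_eq] at hn
        obtain ⟨m, ⟨hm, hD⟩, rfl⟩ := hn
        have := h m hm
        rw [dif_neg (by omega)] at this
        rwa [Nat.sub_add_cancel hD]
    · rintro ⟨ha, hb⟩ n hn
      by_cases h : n < D
      · rw [dif_pos h]
        have := ha ⟨n, h⟩ trivial
        simpa [Finset.mem_coe.1 hn] using this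
      · rw [dif_neg h]
        have hD : D ≤ n := by omega
        have := hb (n - D) (by
          simp only [Finset.coe_image, Finset.coe_filter, Set.mem_image, Set.mem_ofPred_eq]
          exact ⟨n, ⟨hn, hD⟩, rfl⟩)
        rwa [Nat.sub_add_cancel hD] at this
  rw [h1, Measure.prod_prod, Measure.pi_pi]
  have h2 : Measure.infinitePi (fun _ : ℕ => μ)
      (Set.pi ((s.filter (fun n => D ≤ n)).image (fun n => n - D)) (fun n => t (n + D))) =
      ∏ n ∈ (s.filter (fun n => D ≤ n)).image (fun n => n - D), μ (t (n + D)) :=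
    Measure.infinitePi_pi (fun _ : ℕ => μ) (fun i _ => ht _)
  rw [h2, Finset.prod_image]
  · have h3 : ∏ n ∈ s.filter (fun n => D ≤ n), μ (t (n - D + D)) =
        ∏ n ∈ s.filter (fun n => D ≤ n), μ (t n) := by
      apply Finset.prod_congr rfl
      intro n hn
      rw [Nat.sub_add_cancel (Finset.mem_filter.1 hn).2]
    have h4 : ∏ i : Fin D, μ (if (i : ℕ) ∈ s then t i else Set.univ) =
        ∏ n ∈ s.filter (fun n => ¬ D ≤ n), μ (t n) := by
      have h5 : ∀ i : Fin D, μ (if (i : ℕ) ∈ s then t i else Set.univ) =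
          (fun n : ℕ => if n ∈ s then μ (t n) else 1) i := by
        intro i
        by_cases hi : (i : ℕ) ∈ s
        · simp [hi]
        · simp [hi]
      rw [Finset.prod_congr rfl (fun i _ => h5 i),
        Fin.prod_univ_eq_prod_range (fun n : ℕ => if n ∈ s then μ (t n) else 1) D,
        ← Finset.prod_filter]
      apply Finset.prod_congr _ (fun _ _ => rfl)
      ext n
      simp only [Finset.mem_filter, Finset.mem_range, not_le]
      tauto
    rw [h3, h4, mul_comm, Finset.prod_filter_mul_prod_filter_not]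
  · intro x hx y hy hxy
    simp only [Finset.coe_filter, Set.mem_ofPred_eq] at hx hy
    simp only at hxy
    omega

theorem law_first (μ : Measure (ℝ × ℝ)) [IsProbabilityMeasure μ] (D : ℕ) :
    (nu μ).map (fun ζ => (fun i : Fin D => ζ i)) = Measure.pi (fun _ : Fin D => μ) := by
  unfold nu
  rw [← Measure.infinitePi_eq_pi]
  exact Measure.map_infinitePi_infinitePi_of_inj (P := fun _ : ℕ => μ)
    (f := fun i : Fin D => (i : ℕ)) Fin.val_injective

theorem nu_split (μ : Measure (ℝ × ℝ)) [IsProbabilityMeasure μ] (D : ℕ) :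
    (nu μ).map (fun ζ => ((fun i : Fin D => ζ i), sh D ζ)) =
      ((nu μ).map (fun ζ => (fun i : Fin D => ζ i))).prod (nu μ) := by
  rw [law_first]
  conv_lhs => rw [← law_map_glue μ D]
  have hm : Measurable (fun ζ : Env => ((fun i : Fin D => ζ i), sh D ζ)) :=
    Measurable.prodMk (by fun_prop) (law_measurable_sh D)
  rw [Measure.map_map hm (law_measurable_glue D)]
  have : (fun ζ : Env => ((fun i : Fin D => ζ i), sh D ζ)) ∘ law_glue D = id := by
    funext ⟨a, b⟩
    simp only [Function.comp_apply, id_eq, Prod.mk.injEq]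
    constructor
    · funext i
      simp [law_glue]
    · funext n
      simp [law_glue, sh]
  rw [this, Measure.map_id]

section B

variable (α C : ℝ) (μ : Measure (ℝ × ℝ))

noncomputable def aN (N : ℕ) : ℝ := ∫ ζ, L α C N ζ ∂nu μ
noncomputable def hN (a N : ℕ) : ℝ := ∫ ζ, H α C a N ζ ∂nu μ
noncomputable def kN (a l : ℕ) (y : ℝ) (N : ℕ) : ℝ := ∫ ζ, K α C a l y N ζ ∂nu μ

variable {α C μ} {a l N : ℕ} {y : ℝ} [IsProbabilityMeasure μ]

theorem law_map_eval (n : ℕ) : (nu μ).map (fun ζ => ζ n) = μ :=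
  Measure.infinitePi_map_eval (fun _ : ℕ => μ) n

theorem law_map_sh (D : ℕ) : (nu μ).map (sh D) = nu μ := by
  unfold nu
  exact Measure.map_infinitePi_infinitePi_of_inj (P := fun _ : ℕ => μ)
    (f := fun i : ℕ => i + D) (add_left_injective D)

theorem law_integral_eval {g : ℝ × ℝ → ℝ} (hg : AEStronglyMeasurable g μ) (n : ℕ) :
    ∫ ζ, g (ζ n) ∂nu μ = ∫ z, g z ∂μ := by
  conv_rhs => rw [← law_map_eval (μ := μ) n]
  rw [integral_map (measurable_pi_apply n).aemeasurable]
  rwa [law_map_eval]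

theorem law_integrable_eval {g : ℝ × ℝ → ℝ} (hg : Integrable g μ) (n : ℕ) :
    Integrable (fun ζ : Env => g (ζ n)) (nu μ) :=
  (measurePreserving_eval_infinitePi (fun _ : ℕ => μ) n).integrable_comp_of_integrable hg

theorem law_integral_sh {f : Env → ℝ} (hf : Measurable f) (D : ℕ) :
    ∫ ζ, f (sh D ζ) ∂nu μ = ∫ ζ, f ζ ∂nu μ := by
  conv_rhs => rw [← law_map_sh (μ := μ) D]
  rw [integral_map (law_measurable_sh D).aemeasurable hf.aestronglyMeasurable]

theorem law_integrable_sh {f : Env → ℝ} (hf : Integrable f (nu μ)) (D : ℕ) :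
    Integrable (fun ζ => f (sh D ζ)) (nu μ) := by
  have h := hf
  rw [← law_map_sh (μ := μ) D] at h
  exact h.comp_measurable (law_measurable_sh D)

/-- the integral of a function of the first `D` coordinates and of the shifted sequence -/
theorem law_integrable_split {D : ℕ} {F : (Fin D → ℝ × ℝ) × Env → ℝ} (hF : Measurable F)
    (hi : Integrable (fun ζ : Env => F ((fun i : Fin D => ζ i), sh D ζ)) (nu μ)) :
    Integrable F ((Measure.pi (fun _ : Fin D => μ)).prod (nu μ)) := by
  rw [← law_first μ D, ← nu_split μ D]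
  rw [integrable_map_measure hF.aestronglyMeasurable
    (Measurable.prodMk (by fun_prop) (law_measurable_sh D)).aemeasurable]
  exact hi

theorem law_integral_split {D : ℕ} {F : (Fin D → ℝ × ℝ) × Env → ℝ} (hF : Measurable F)
    (hi : Integrable (fun ζ : Env => F ((fun i : Fin D => ζ i), sh D ζ)) (nu μ)) :
    ∫ ζ, F ((fun i : Fin D => ζ i), sh D ζ) ∂nu μ =
      ∫ ζ, (∫ ζ', F ((fun i : Fin D => ζ i), ζ') ∂nu μ) ∂nu μ := by
  have hm : Measurable (fun ζ : Env => ((fun i : Fin D => ζ i), sh D ζ)) :=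
    Measurable.prodMk (by fun_prop) (law_measurable_sh D)
  have h1 := law_integrable_split hF hi
  have h2 : ∫ ζ, F ((fun i : Fin D => ζ i), sh D ζ) ∂nu μ =
      ∫ p, F p ∂((Measure.pi (fun _ : Fin D => μ)).prod (nu μ)) := by
    rw [← law_first μ D, ← nu_split μ D, integral_map hm.aemeasurable hF.aestronglyMeasurable]
  have hm1 : Measurable (fun ζ : Env => (fun i : Fin D => ζ i)) := by fun_prop
  rw [h2, integral_prod _ h1, ← law_first μ D, integral_map hm1.aemeasurable]
  rw [law_first]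
  exact h1.integral_prod_left.aestronglyMeasurable

theorem law_integrable_one {F : (ℝ × ℝ) × Env → ℝ} (hF : Measurable F)
    (hi : Integrable (fun ζ : Env => F (ζ 0, sh 1 ζ)) (nu μ)) :
    ∫ ζ, F (ζ 0, sh 1 ζ) ∂nu μ = ∫ z, (∫ ζ', F (z, ζ') ∂nu μ) ∂μ := by
  have h1 := law_integral_split (μ := μ) (D := 1)
    (F := fun p => F (p.1 0, p.2)) (by fun_prop) hi
  have h3 : ∀ ζ : Env, (fun p : (Fin 1 → ℝ × ℝ) × Env => F (p.1 0, p.2))
    ((fun i : Fin 1 => ζ i), sh 1 ζ) = F (ζ 0, sh 1 ζ) := fun ζ => rfl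
  simp only [h3] at h1
  rw [h1]
  have hF2 : StronglyMeasurable (fun z : ℝ × ℝ => ∫ ζ', F (z, ζ') ∂nu μ) :=
    hF.stronglyMeasurable.integral_prod_right'
  exact law_integral_eval (μ := μ) (g := fun z : ℝ × ℝ => ∫ ζ', F (z, ζ') ∂nu μ)
    hF2.aestronglyMeasurable 0

theorem law_integrable_of_abs_le (h1 : Integrable (fun z : ℝ × ℝ => z.1) μ)
    (h2 : Integrable (fun z : ℝ × ℝ => z.2) μ) {f : Env → ℝ} (hf : Measurable f) (c : ℝ)
    (N : ℕ) (h : ∀ ζ : Env,
      |f ζ| ≤ c + ∑ i ∈ Finset.range (N + 1), (c * |(ζ i).1| + c * |(ζ i).2|)) :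
    Integrable f (nu μ) := by
  have hg : Integrable (fun ζ : Env =>
      c + ∑ i ∈ Finset.range (N + 1), (c * |(ζ i).1| + c * |(ζ i).2|)) (nu μ) := by
    refine (integrable_const c).add (integrable_finsetSum _ fun i _ => ?_)
    have h3 : Integrable (fun ζ : Env => |(ζ i).1|) (nu μ) :=
      law_integrable_eval (g := fun z => |z.1|) h1.abs i
    have h4 : Integrable (fun ζ : Env => |(ζ i).2|) (nu μ) :=
      law_integrable_eval (g := fun z => |z.2|) h2.abs i
    exact (h3.const_mul c).add (h4.const_mul c)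
  refine hg.mono' hf.aestronglyMeasurable (ae_of_all _ fun ζ => ?_)
  rw [Real.norm_eq_abs]
  exact h ζ

theorem law_measurable_K (a l N : ℕ) (y : ℝ) : Measurable (K α C a l y N) :=
  (measurable_K α C a l N).comp (measurable_const.prodMk measurable_id)

theorem law_integrable_L (h1 : Integrable (fun z : ℝ × ℝ => z.1) μ)
    (h2 : Integrable (fun z : ℝ × ℝ => z.2) μ) : Integrable (L α C N) (nu μ) := by
  obtain ⟨c, hc⟩ := abs_L_le α C N
  exact law_integrable_of_abs_le h1 h2 (measurable_L α C N) c N hc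

theorem law_integrable_H (h1 : Integrable (fun z : ℝ × ℝ => z.1) μ)
    (h2 : Integrable (fun z : ℝ × ℝ => z.2) μ) : Integrable (H α C a N) (nu μ) := by
  obtain ⟨c, hc⟩ := abs_H_le α C a N
  exact law_integrable_of_abs_le h1 h2 (measurable_H α C a N) c N hc

theorem law_integrable_Kfun (h1 : Integrable (fun z : ℝ × ℝ => z.1) μ)
    (h2 : Integrable (fun z : ℝ × ℝ => z.2) μ) {Y : Env → ℝ} (hY : Measurable Y)
    (hYi : Integrable Y (nu μ)) (D : ℕ) :
    Integrable (fun ζ => K α C a l (Y ζ) N (sh D ζ)) (nu μ) := by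
  obtain ⟨c, hc⟩ := abs_K_le α C a l N
  have hm : Measurable (fun ζ : Env => K α C a l (Y ζ) N (sh D ζ)) :=
    (measurable_K α C a l N).comp (hY.prodMk (law_measurable_sh D))
  have hg : Integrable (fun ζ : Env =>
      c + ∑ i ∈ Finset.range (N + 1), (c * |(ζ i).1| + c * |(ζ i).2|)) (nu μ) := by
    refine (integrable_const c).add (integrable_finsetSum _ fun i _ => ?_)
    have h3 : Integrable (fun ζ : Env => |(ζ i).1|) (nu μ) :=
      law_integrable_eval (g := fun z => |z.1|) h1.abs i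
    have h4 : Integrable (fun ζ : Env => |(ζ i).2|) (nu μ) :=
      law_integrable_eval (g := fun z => |z.2|) h2.abs i
    exact (h3.const_mul c).add (h4.const_mul c)
  have hg2 := law_integrable_sh hg D
  refine (hYi.abs.add hg2).mono' hm.aestronglyMeasurable (ae_of_all _ fun ζ => ?_)
  rw [Real.norm_eq_abs]
  have := hc (Y ζ) (sh D ζ)
  simp only [Pi.add_apply]
  linarith

theorem law_integrable_K (h1 : Integrable (fun z : ℝ × ℝ => z.1) μ)
    (h2 : Integrable (fun z : ℝ × ℝ => z.2) μ) : Integrable (K α C a l y N) (nu μ) := by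
  have h := law_integrable_Kfun (α := α) (C := C) (a := a) (l := l) (N := N) h1 h2
    (Y := fun _ => y) measurable_const (integrable_const y) 0
  exact h

variable (h1 : Integrable (fun z : ℝ × ℝ => z.1) μ) (h2 : Integrable (fun z : ℝ × ℝ => z.2) μ)

include h1 h2

theorem aN_start : - ∫ z, z.2 ∂μ + hN α C μ 1 N ≤ aN α C μ (N + 1) := by
  have e1 : ∫ ζ, (ζ 0).2 ∂nu μ = ∫ z, z.2 ∂μ :=
    law_integral_eval (g := fun z : ℝ × ℝ => z.2) h2.aestronglyMeasurable 0
  have e2 : ∫ ζ, H α C 1 N (sh 1 ζ) ∂nu μ = hN α C μ 1 N :=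
    law_integral_sh (measurable_H α C 1 N) 1
  have i1 : Integrable (fun ζ : Env => -(ζ 0).2) (nu μ) :=
    (law_integrable_eval (g := fun z : ℝ × ℝ => z.2) h2 0).neg
  have i2 : Integrable (fun ζ : Env => H α C 1 N (sh 1 ζ)) (nu μ) :=
    law_integrable_sh (law_integrable_H h1 h2) 1
  rw [← e1, ← e2, ← integral_neg, ← integral_add i1 i2]
  exact integral_mono (i1.add i2) (law_integrable_L h1 h2) (fun ζ => L_start ζ)

theorem aN_single : - kap α C (N + 1) - ∫ z, z.2 ∂μ ≤ aN α C μ (N + 1) := by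
  have e1 : ∫ ζ, (ζ 0).2 ∂nu μ = ∫ z, z.2 ∂μ :=
    law_integral_eval (g := fun z : ℝ × ℝ => z.2) h2.aestronglyMeasurable 0
  have i1 : Integrable (fun ζ : Env => (ζ 0).2) (nu μ) :=
    law_integrable_eval (g := fun z : ℝ × ℝ => z.2) h2 0
  have e3 : ∫ ζ, (- kap α C (N + 1) - (ζ 0).2) ∂nu μ = - kap α C (N + 1) - ∫ z, z.2 ∂μ := by
    rw [integral_sub (integrable_const _) i1, e1]
    simp
  rw [← e3]
  refine integral_mono ((integrable_const _).sub i1) (law_integrable_L h1 h2) (fun ζ => ?_)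
  have h := L_ge (α := α) (C := C) (l := N + 1) (N := N + 1) (by omega) le_rfl false ζ
  have h0 : L α C (N + 1 - (N + 1)) (sh (N + 1) ζ) = 0 := by
    rw [Nat.sub_self, L]
  rw [h0] at h
  simp only [Bool.false_eq_true, if_false, add_zero] at h
  push_cast at h ⊢
  exact h

theorem hN_shift : hN α C μ (a + 1) N ≤ hN α C μ a (N + 1) := by
  have e2 : ∫ ζ, H α C (a + 1) N (sh 1 ζ) ∂nu μ = hN α C μ (a + 1) N :=
    law_integral_sh (measurable_H α C (a + 1) N) 1
  rw [← e2]
  exact integral_mono (law_integrable_sh (law_integrable_H h1 h2) 1) (law_integrable_H h1 h2)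
    (fun ζ => H_shift ζ)

theorem hN_end : - kap α C a + aN α C μ N ≤ hN α C μ a N := by
  have e3 : ∫ ζ, (- kap α C a + L α C N ζ) ∂nu μ = - kap α C a + aN α C μ N := by
    rw [integral_add (integrable_const _) (law_integrable_L h1 h2)]
    simp [aN]
  rw [← e3]
  exact integral_mono ((integrable_const _).add (law_integrable_L h1 h2))
    (law_integrable_H h1 h2) (fun ζ => H_end ζ)

theorem kN_abandon : hN α C μ (a + l) N ≤ kN α C μ a l y N :=
  integral_mono (law_integrable_H h1 h2) (law_integrable_K h1 h2) (fun ζ => K_abandon ζ)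

theorem kN_finish : y - kap α C a - kap α C l + aN α C μ N ≤ kN α C μ a l y N := by
  have e3 : ∫ ζ, (y - kap α C a - kap α C l + L α C N ζ) ∂nu μ =
      y - kap α C a - kap α C l + aN α C μ N := by
    rw [integral_add (integrable_const _) (law_integrable_L h1 h2)]
    simp [aN]
  rw [← e3]
  exact integral_mono ((integrable_const _).add (law_integrable_L h1 h2))
    (law_integrable_K h1 h2) (fun ζ => K_finish ζ)

theorem kN_step : ∫ z, kN α C μ a (l + 1) (y - 2 * z.1) N ∂μ ≤ kN α C μ a l y (N + 1) := by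
  have hY : Measurable (fun ζ : Env => y - 2 * (ζ 0).1) := by fun_prop
  have hYi : Integrable (fun ζ : Env => y - 2 * (ζ 0).1) (nu μ) :=
    (integrable_const _).sub ((law_integrable_eval (g := fun z : ℝ × ℝ => z.1) h1 0).const_mul 2)
  have i1 : Integrable (fun ζ => K α C a (l + 1) (y - 2 * (ζ 0).1) N (sh 1 ζ)) (nu μ) :=
    law_integrable_Kfun h1 h2 hY hYi 1
  have hF : Measurable (fun p : (ℝ × ℝ) × Env => K α C a (l + 1) (y - 2 * p.1.1) N p.2) :=
    (measurable_K α C a (l + 1) N).comp (Measurable.prodMk (by fun_prop) measurable_snd)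
  have e := law_integrable_one (μ := μ) hF i1
  have e2 : ∫ z, kN α C μ a (l + 1) (y - 2 * z.1) N ∂μ =
      ∫ ζ, K α C a (l + 1) (y - 2 * (ζ 0).1) N (sh 1 ζ) ∂nu μ := e.symm
  rw [e2]
  exact integral_mono i1 (law_integrable_K h1 h2) (fun ζ => K_step ζ)

theorem hN_start : ∫ z, kN α C μ a 1 (- z.2 - 2 * z.1) N ∂μ ≤ hN α C μ a (N + 1) := by
  have hY : Measurable (fun ζ : Env => - (ζ 0).2 - 2 * (ζ 0).1) := by fun_prop
  have hYi : Integrable (fun ζ : Env => - (ζ 0).2 - 2 * (ζ 0).1) (nu μ) :=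
    (law_integrable_eval (g := fun z : ℝ × ℝ => z.2) h2 0).neg.sub
      ((law_integrable_eval (g := fun z : ℝ × ℝ => z.1) h1 0).const_mul 2)
  have i1 : Integrable (fun ζ => K α C a 1 (- (ζ 0).2 - 2 * (ζ 0).1) N (sh 1 ζ)) (nu μ) :=
    law_integrable_Kfun h1 h2 hY hYi 1
  have hF : Measurable (fun p : (ℝ × ℝ) × Env => K α C a 1 (- p.1.2 - 2 * p.1.1) N p.2) :=
    (measurable_K α C a 1 N).comp (Measurable.prodMk (by fun_prop) measurable_snd)
  have e := law_integrable_one (μ := μ) hF i1
  have e2 : ∫ z, kN α C μ a 1 (- z.2 - 2 * z.1) N ∂μ =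
      ∫ ζ, K α C a 1 (- (ζ 0).2 - 2 * (ζ 0).1) N (sh 1 ζ) ∂nu μ := e.symm
  rw [e2]
  exact integral_mono i1 (law_integrable_H h1 h2) (fun ζ => H_start ζ)

theorem kN_mono {y' : ℝ} (h : y ≤ y') : kN α C μ a l y N ≤ kN α C μ a l y' N :=
  integral_mono (law_integrable_K h1 h2) (law_integrable_K h1 h2) (fun ζ => K_mono h ζ)

theorem kN_lip (y' : ℝ) : |kN α C μ a l y N - kN α C μ a l y' N| ≤ |y - y'| := by
  unfold kN
  rw [← integral_sub (law_integrable_K h1 h2) (law_integrable_K h1 h2)]
  refine (abs_integral_le_integral_abs).trans ?_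
  have : ∫ _ζ : Env, |y - y'| ∂nu μ = |y - y'| := by simp
  rw [← this]
  exact integral_mono ((law_integrable_K h1 h2).sub (law_integrable_K h1 h2)).abs
    (integrable_const _) (fun ζ => K_lip y' ζ)

omit h1 h2 in
theorem law_measurable_S (D : ℕ) : Measurable (S D) := by
  unfold S; fun_prop

omit h1 h2 in
theorem law_measurableSet_UA (α C : ℝ) (l D : ℕ) (Γ : ℝ) : MeasurableSet (UA α C l D Γ) := by
  have : UA α C l D Γ = ⋃ i : ℕ, ⋃ j : ℕ, {ζ : Env | i < j ∧ j < D ∧
      Γ ≤ - kap α C (l + i) - kap α C (j - i) - (ζ i).2 - (ζ j).2 - (S j ζ - S i ζ)} := by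
    ext ζ
    simp [UA]
  rw [this]
  refine MeasurableSet.iUnion fun i => MeasurableSet.iUnion fun j => ?_
  refine (MeasurableSet.const _).inter ((MeasurableSet.const _).inter ?_)
  have hSi := law_measurable_S i
  have hSj := law_measurable_S j
  have hm : Measurable (fun ζ : Env =>
      - kap α C (l + i) - kap α C (j - i) - (ζ i).2 - (ζ j).2 - (S j ζ - S i ζ)) := by
    fun_prop
  exact measurableSet_le measurable_const hm

omit h1 h2 in
theorem law_S_first {D : ℕ} (ζ : Env) (ζ0 : Env) {j : ℕ} (hj : j ≤ D) :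
    S j (law_glue D ((fun i : Fin D => ζ i), ζ0)) = S j ζ := by
  unfold S
  congr 1
  apply Finset.sum_congr rfl
  intro i hi
  have : i < D := lt_of_lt_of_le (Finset.mem_range.1 hi) hj
  simp [law_glue, this]

omit h1 h2 in
theorem law_UA_first (α C : ℝ) (l D : ℕ) (Γ : ℝ) (ζ ζ0 : Env) :
    law_glue D ((fun i : Fin D => ζ i), ζ0) ∈ UA α C l D Γ ↔ ζ ∈ UA α C l D Γ := by
  simp only [UA, Set.mem_ofPred_eq]
  refine exists_congr fun i => exists_congr fun j => ?_
  refine and_congr_right fun hij => and_congr_right fun hj => ?_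
  rw [law_S_first ζ ζ0 hj.le, law_S_first ζ ζ0 (hij.trans hj).le]
  have e1 : law_glue D ((fun i : Fin D => ζ i), ζ0) i = ζ i := by
    simp [law_glue, hij.trans hj]
  have e2 : law_glue D ((fun i : Fin D => ζ i), ζ0) j = ζ j := by
    simp [law_glue, hj]
  rw [e1, e2]

open Classical in
theorem kN_flip (hα : 0 ≤ α) (hC : 0 ≤ C) (hl : 1 ≤ l) (D : ℕ) (Γ : ℝ) :
    ∫ ζ, kN α C μ a (l + D) (y + S D ζ + (if ζ ∈ UA α C l D Γ then Γ else 0)) N ∂nu μ
      ≤ kN α C μ a l y (N + D) := by
  set Y : Env → ℝ := fun ζ => y + S D ζ + (if ζ ∈ UA α C l D Γ then Γ else 0) with hYdef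
  have hUA := law_measurableSet_UA α C l D Γ
  have hS := law_measurable_S D
  have hY : Measurable Y := by
    refine (measurable_const.add hS).add ?_
    exact Measurable.ite hUA measurable_const measurable_const
  have hSi : Integrable (S D) (nu μ) := by
    unfold S
    refine (integrable_finsetSum _ fun i _ => ?_).const_mul (-2)
    exact law_integrable_eval (g := fun z : ℝ × ℝ => z.1) h1 i
  have hInd : Integrable (fun ζ : Env => if ζ ∈ UA α C l D Γ then Γ else 0) (nu μ) := by
    have := (integrable_const (μ := nu μ) Γ).indicator hUA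
    refine this.congr (ae_of_all _ fun ζ => ?_)
    simp [Set.indicator_apply]
  have hYi : Integrable Y (nu μ) := ((integrable_const y).add hSi).add hInd
  have i1 : Integrable (fun ζ => K α C a (l + D) (Y ζ) N (sh D ζ)) (nu μ) :=
    law_integrable_Kfun h1 h2 hY hYi D
  set Yf : (Fin D → ℝ × ℝ) → ℝ := fun p => Y (law_glue D (p, fun _ => 0)) with hYf
  have hYfm : Measurable Yf :=
    hY.comp ((law_measurable_glue D).comp (measurable_id.prodMk measurable_const))
  have hYfY : ∀ ζ : Env, Yf (fun i : Fin D => ζ i) = Y ζ := by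
    intro ζ
    simp only [hYf, hYdef]
    rw [law_S_first ζ _ le_rfl]
    simp only [law_UA_first α C l D Γ ζ (fun _ => 0)]
  set F : (Fin D → ℝ × ℝ) × Env → ℝ := fun p => K α C a (l + D) (Yf p.1) N p.2 with hFdef
  have hF : Measurable F :=
    (measurable_K α C a (l + D) N).comp ((hYfm.comp measurable_fst).prodMk measurable_snd)
  have hFζ : ∀ ζ : Env, F ((fun i : Fin D => ζ i), sh D ζ) = K α C a (l + D) (Y ζ) N (sh D ζ) := by
    intro ζ
    simp only [hFdef, hYfY]
  have e := law_integral_split (μ := μ) (D := D) hF (by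
    simp only [hFζ]
    exact i1)
  have e3 : ∀ ζ : Env, ∫ ζ', F ((fun i : Fin D => ζ i), ζ') ∂nu μ =
      kN α C μ a (l + D) (Y ζ) N := by
    intro ζ
    simp only [hFdef, hYfY, kN]
  simp only [hFζ, e3] at e
  rw [← e]
  refine integral_mono i1 (law_integrable_K h1 h2) (fun ζ => ?_)
  by_cases hζ : ζ ∈ UA α C l D Γ
  · have := K_flip (a := a) (N := N) (y := y) hα hC hl ζ hζ
    simpa [hYdef, hζ] using this
  · have := K_iter (α := α) (C := C) (a := a) (l := l) (N := N) (y := y) D ζ
    simpa [hYdef, hζ] using this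

end B

end Pool.Agent.Lib.MP_3d9a2b_pr
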