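import Pool.Agent.Lib.MP_3d9a2b_pr.Window

set_option autoImplicit false

namespace Pool.Agent.Lib.MP_3d9a2b_pr

open MeasureTheory ProbabilityTheory Filter Topology
open scoped NNReal ENNReal

section Gauss

variable {Ω : Type} [MeasurableSpace Ω] {P : Measure Ω}

theorem eLpNorm_two_eq {X : Ω → ℝ} (hX : MemLp X 2 P) :
    eLpNorm X 2 P = ENNReal.ofReal (√(∫ ω, X ω ^ 2 ∂P)) := by
  rw [eLpNorm_eq_lintegral_rpow_enorm_toReal (by norm_num) (by norm_num)]
  have h4 : ∫⁻ x, ‖X x‖ₑ ^ (2 : ℝ≥0∞).toReal ∂P = ENNReal.ofReal (∫ ω, X ω ^ 2 ∂P) := by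
    rw [ofReal_integral_eq_lintegral_ofReal hX.integrable_sq (ae_of_all _ fun x => sq_nonneg _)]
    refine lintegral_congr fun x => ?_
    rw [ENNReal.toReal_ofNat, ENNReal.rpow_ofNat, Real.enorm_eq_ofReal_abs,
      ← ENNReal.ofReal_pow (abs_nonneg _), sq_abs]
  rw [h4, ENNReal.toReal_ofNat, ENNReal.ofReal_rpow_of_nonneg
    (integral_nonneg fun x => sq_nonneg _) (by norm_num), Real.sqrt_eq_rpow]

theorem l1_le [IsProbabilityMeasure P] {X : Ω → ℝ} (hX : AEStronglyMeasurable X P) :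
    ∫⁻ ω, ‖X ω‖ₑ ∂P ≤ eLpNorm X 2 P := by
  rw [← eLpNorm_one_eq_lintegral_enorm]
  exact eLpNorm_le_eLpNorm_of_exponent_le (by norm_num) hX

end Gauss

namespace Model

variable {α : ℝ} {Ω Ω' : Type} [MeasurableSpace Ω] [mΩ' : MeasurableSpace Ω'] {P : Measure Ω}
  {P' : Measure Ω'} (M : Model α P P')

/-- The increment of the drifted path over the part before `t` of the `n`-th excursion. -/
noncomputable def yinc (h t : ℝ) (n : ℕ) (ω : Ω) (ω' : Ω') : ℝ :=
  M.y h (min (M.right n ω') t) ω - M.y h (min (M.left n ω') t) ω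

theorem yinc_eq (h t : ℝ) (n : ℕ) (ω : Ω) (ω' : Ω') :
    M.yinc h t n ω ω' = M.inc t n ω ω' + h * M.len t n ω' := by
  unfold yinc y inc len
  ring

include M in
theorem isProbabilityMeasure_P : IsProbabilityMeasure P :=
  M.brownian.toIsPreBrownianReal.isGaussianProcess.isProbabilityMeasure

/-! ### The remainder of the sum over all the excursions -/

theorem integral_inc (t : ℝ) (n : ℕ) (ω' : Ω') : ∫ ω, M.inc t n ω ω' ∂P = 0 :=
  integral_incr M.brownian.toIsPreBrownianReal _ _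

theorem memLp_inc (t : ℝ) (n : ℕ) (ω' : Ω') : MemLp (fun ω => M.inc t n ω ω') 2 P :=
  memLp_incr M.brownian.toIsPreBrownianReal _ _

theorem memLp_inc_sum (t : ℝ) (N : ℕ) (ω' : Ω') :
    MemLp (fun ω => ∑ n ∈ Finset.range N, M.inc t n ω ω') 2 P :=
  memLp_finsetSum _ fun n _ => M.memLp_inc t n ω'

theorem integral_rem_sq {t : ℝ} (ht : 0 ≤ t) (N : ℕ) (ω' : Ω') :
    ∫ ω, ((M.B t.toNNReal ω - M.B (0 : ℝ).toNNReal ω)
      - ∑ n ∈ Finset.range N, M.inc t n ω ω') ^ 2 ∂P =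
      t - ∑ n ∈ Finset.range N, M.len t n ω' := by
  have hP := M.isProbabilityMeasure_P
  have hU : MemLp (fun ω => M.B t.toNNReal ω - M.B (0 : ℝ).toNNReal ω) 2 P :=
    memLp_incr M.brownian.toIsPreBrownianReal _ _
  have hV := M.memLp_inc_sum t N ω'
  have hVm : ∫ ω, (∑ n ∈ Finset.range N, M.inc t n ω ω') ∂P = 0 := by
    rw [integral_finsetSum _ fun n _ => (M.memLp_inc t n ω').integrable (by norm_num)]
    exact Finset.sum_eq_zero fun n _ => M.integral_inc t n ω'
  have hUm : ∫ ω, (M.B t.toNNReal ω - M.B (0 : ℝ).toNNReal ω) ∂P = 0 :=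
    integral_incr M.brownian.toIsPreBrownianReal _ _
  have hvU : Var[fun ω => M.B t.toNNReal ω - M.B (0 : ℝ).toNNReal ω; P] = t := by
    rw [← covariance_self hU.aemeasurable,
      cov_incr_real M.brownian.toIsPreBrownianReal le_rfl ht le_rfl ht]
    simp [ht]
  have hvV : Var[fun ω => ∑ n ∈ Finset.range N, M.inc t n ω ω'; P] =
      ∑ n ∈ Finset.range N, M.len t n ω' := by
    have h1 := M.hasLaw_inc_sum ht (fun _ => 1) N ω'
    simp only [one_mul, one_pow] at h1
    rw [h1.variance_eq, variance_id_gaussianReal, Real.coe_toNNReal _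
      (Finset.sum_nonneg fun n _ => M.len_nonneg t n ω')]
  have hc : cov[fun ω => M.B t.toNNReal ω - M.B (0 : ℝ).toNNReal ω,
      fun ω => ∑ n ∈ Finset.range N, M.inc t n ω ω'; P] =
      ∑ n ∈ Finset.range N, M.len t n ω' := by
    rw [covariance_fun_sum_right' (fun n _ => M.memLp_inc t n ω') hU]
    refine Finset.sum_congr rfl fun n _ => ?_
    have h1 := M.left_nonneg n ω'
    have h2 := h1.trans (M.left_lt_right n ω').le
    unfold inc len
    rw [cov_incr_real M.brownian.toIsPreBrownianReal le_rfl ht (le_min h1 ht) (le_min h2 ht)]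
    rw [min_eq_right (min_le_right _ t), min_eq_right (min_le_right _ t),
      min_eq_left (le_min h2 ht), min_eq_left (le_min h1 ht)]
    ring
  have hvar := variance_fun_sub (μ := P) hU hV
  rw [hvU, hvV, hc] at hvar
  have hm : ∫ ω, ((M.B t.toNNReal ω - M.B (0 : ℝ).toNNReal ω)
      - ∑ n ∈ Finset.range N, M.inc t n ω ω') ∂P = 0 := by
    rw [integral_sub (hU.integrable (by norm_num)) (hV.integrable (by norm_num)), hUm, hVm,
      sub_zero]
  rw [variance_of_integral_eq_zero (X := fun ω => (M.B t.toNNReal ω - M.B (0 : ℝ).toNNReal ω)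
      - ∑ n ∈ Finset.range N, M.inc t n ω ω') (hU.sub hV).aemeasurable hm] at hvar
  rw [hvar]
  ring

/-- The remainder. -/
noncomputable def rem (h t : ℝ) (N : ℕ) (ω : Ω) (ω' : Ω') : ℝ :=
  M.y h t ω - M.y h 0 ω - ∑ n ∈ Finset.range N, M.yinc h t n ω ω'

theorem rem_eq {h t : ℝ} (N : ℕ) (ω : Ω) (ω' : Ω') :
    M.rem h t N ω ω' = ((M.B t.toNNReal ω - M.B (0 : ℝ).toNNReal ω)
      - ∑ n ∈ Finset.range N, M.inc t n ω ω') + h * (t - ∑ n ∈ Finset.range N, M.len t n ω') := by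
  unfold rem
  simp_rw [M.yinc_eq]
  rw [Finset.sum_add_distrib, ← Finset.mul_sum]
  unfold y
  ring

theorem measurable_y_left (h s : ℝ) : Measurable (fun ω => M.y h s ω) :=
  (M.measurable_B _).add_const _

theorem l1_rem_le {h t : ℝ} (hh : 0 ≤ h) (ht : 0 ≤ t) (N : ℕ) (ω' : Ω') :
    ∫⁻ ω, ‖M.rem h t N ω ω'‖ₑ ∂P ≤
      ENNReal.ofReal (√(t - ∑ n ∈ Finset.range N, M.len t n ω')) +
      ENNReal.ofReal (h * (t - ∑ n ∈ Finset.range N, M.len t n ω')) := by
  have hP := M.isProbabilityMeasure_P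
  have hU : MemLp (fun ω => M.B t.toNNReal ω - M.B (0 : ℝ).toNNReal ω) 2 P :=
    memLp_incr M.brownian.toIsPreBrownianReal _ _
  have hV := M.memLp_inc_sum t N ω'
  have hUV := hU.sub hV
  have h0 : 0 ≤ h * (t - ∑ n ∈ Finset.range N, M.len t n ω') :=
    mul_nonneg hh (sub_nonneg.2 (M.sum_len_le ht ω' N))
  calc ∫⁻ ω, ‖M.rem h t N ω ω'‖ₑ ∂P
      ≤ ∫⁻ ω, (‖(M.B t.toNNReal ω - M.B (0 : ℝ).toNNReal ω)
          - ∑ n ∈ Finset.range N, M.inc t n ω ω'‖ₑ +
          ENNReal.ofReal (h * (t - ∑ n ∈ Finset.range N, M.len t n ω'))) ∂P := by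
        refine lintegral_mono fun ω => ?_
        rw [M.rem_eq]
        refine (enorm_add_le _ _).trans ?_
        rw [Real.enorm_eq_ofReal h0]
    _ = ∫⁻ ω, ‖(M.B t.toNNReal ω - M.B (0 : ℝ).toNNReal ω)
          - ∑ n ∈ Finset.range N, M.inc t n ω ω'‖ₑ ∂P +
          ENNReal.ofReal (h * (t - ∑ n ∈ Finset.range N, M.len t n ω')) := by
        rw [lintegral_add_right _ measurable_const, lintegral_const, measure_univ, mul_one]
    _ ≤ _ := by
        gcongr
        refine (l1_le hUV.aestronglyMeasurable).trans ?_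
        rw [eLpNorm_two_eq hUV]
        apply le_of_eq
        rw [← M.integral_rem_sq ht N ω']
        rfl

/-! ### The energy -/

/-- The energy `∫_0^t Δ dy`. -/
noncomputable def XE (h t : ℝ) (ω : Ω) (ω' : Ω') : ℝ := M.J t ω ω' + h * M.T t ω'

/-- The energy of the first `N` excursions. -/
noncomputable def XN (h t : ℝ) (N : ℕ) (ω : Ω) (ω' : Ω') : ℝ :=
  ∑ n ∈ Finset.range N, (if M.ξ n ω' then (1 : ℝ) else 0) * M.yinc h t n ω ω'

theorem XN_eq (h t : ℝ) (N : ℕ) (ω : Ω) (ω' : Ω') : M.XN h t N ω ω' =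
    ∑ n ∈ Finset.range N, (if M.ξ n ω' then (1 : ℝ) else 0) * M.inc t n ω ω' +
    h * ∑ n ∈ Finset.range N, (if M.ξ n ω' then (1 : ℝ) else 0) * M.len t n ω' := by
  unfold XN
  rw [Finset.mul_sum, ← Finset.sum_add_distrib]
  refine Finset.sum_congr rfl fun n _ => ?_
  rw [M.yinc_eq]
  ring

theorem measurable_sum_inc (t : ℝ) (N : ℕ) (c : ℕ → ℝ) (ω' : Ω') :
    Measurable (fun ω => ∑ n ∈ Finset.range N, c n * M.inc t n ω ω') :=
  Finset.measurable_fun_sum _ fun n _ => (M.measurable_inc_left t n ω').const_mul _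

theorem sum_ξ_len_le {t : ℝ} (ht : 0 ≤ t) (N : ℕ) (ω' : Ω') :
    ∑ n ∈ Finset.range N, (if M.ξ n ω' then (1 : ℝ) else 0) * M.len t n ω' ≤ M.T t ω' :=
  sum_le_hasSum _ (fun n _ => mul_nonneg (by split_ifs <;> simp) (M.len_nonneg t n ω'))
    (M.hasSum_T ht ω')

theorem l1_X_sub_le {h t : ℝ} (hh : 0 ≤ h) (ht : 0 ≤ t) (N : ℕ) (ω' : Ω') :
    ∫⁻ ω, ‖M.XE h t ω ω' - M.XN h t N ω ω'‖ₑ ∂P ≤
      eLpNorm (fun ω => M.J t ω ω' - ∑ n ∈ Finset.range N,
        (if M.ξ n ω' then (1 : ℝ) else 0) * M.inc t n ω ω') 2 P +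
      ENNReal.ofReal (h * (M.T t ω' - ∑ n ∈ Finset.range N,
        (if M.ξ n ω' then (1 : ℝ) else 0) * M.len t n ω')) := by
  have hP := M.isProbabilityMeasure_P
  have h0 : 0 ≤ h * (M.T t ω' - ∑ n ∈ Finset.range N,
      (if M.ξ n ω' then (1 : ℝ) else 0) * M.len t n ω') :=
    mul_nonneg hh (sub_nonneg.2 (M.sum_ξ_len_le ht N ω'))
  calc ∫⁻ ω, ‖M.XE h t ω ω' - M.XN h t N ω ω'‖ₑ ∂P
      ≤ ∫⁻ ω, (‖M.J t ω ω' - ∑ n ∈ Finset.range N,
          (if M.ξ n ω' then (1 : ℝ) else 0) * M.inc t n ω ω'‖ₑ +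
          ENNReal.ofReal (h * (M.T t ω' - ∑ n ∈ Finset.range N,
        (if M.ξ n ω' then (1 : ℝ) else 0) * M.len t n ω'))) ∂P := by
        refine lintegral_mono fun ω => ?_
        have : M.XE h t ω ω' - M.XN h t N ω ω' = (M.J t ω ω' - ∑ n ∈ Finset.range N,
          (if M.ξ n ω' then (1 : ℝ) else 0) * M.inc t n ω ω') + h * (M.T t ω' -
          ∑ n ∈ Finset.range N, (if M.ξ n ω' then (1 : ℝ) else 0) * M.len t n ω') := by
          rw [M.XN_eq, XE]; ring
        rw [this]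
        refine (enorm_add_le _ _).trans ?_
        rw [Real.enorm_eq_ofReal h0]
    _ = ∫⁻ ω, ‖M.J t ω ω' - ∑ n ∈ Finset.range N,
          (if M.ξ n ω' then (1 : ℝ) else 0) * M.inc t n ω ω'‖ₑ ∂P +
          ENNReal.ofReal (h * (M.T t ω' - ∑ n ∈ Finset.range N,
        (if M.ξ n ω' then (1 : ℝ) else 0) * M.len t n ω')) := by
        rw [lintegral_add_right _ measurable_const, lintegral_const, measure_univ, mul_one]
    _ ≤ _ := by
        gcongr
        exact l1_le ((M.measurable_J_left t ω').sub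
          (M.measurable_sum_inc t N _ ω')).aestronglyMeasurable

theorem l1_X_le {h t : ℝ} (hh : 0 ≤ h) (ht : 0 ≤ t) : ∀ᵐ ω' ∂P',
    ∫⁻ ω, ‖M.XE h t ω ω'‖ₑ ∂P ≤ ENNReal.ofReal (√t) + ENNReal.ofReal (h * t) := by
  have hP := M.isProbabilityMeasure_P
  filter_upwards [M.eLpNorm_J_le ht] with ω' hω'
  calc ∫⁻ ω, ‖M.XE h t ω ω'‖ₑ ∂P
      ≤ ∫⁻ ω, (‖M.J t ω ω'‖ₑ + ENNReal.ofReal (h * t)) ∂P := by
        refine lintegral_mono fun ω => ?_
        refine (enorm_add_le _ _).trans ?_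
        gcongr
        rw [Real.enorm_eq_ofReal (mul_nonneg hh (M.T_nonneg ht ω'))]
        exact ENNReal.ofReal_le_ofReal (mul_le_mul_of_nonneg_left (M.T_le ht ω') hh)
    _ = ∫⁻ ω, ‖M.J t ω ω'‖ₑ ∂P + ENNReal.ofReal (h * t) := by
        rw [lintegral_add_right _ measurable_const, lintegral_const, measure_univ, mul_one]
    _ ≤ _ := by
        gcongr
        exact (l1_le (M.measurable_J_left t ω').aestronglyMeasurable).trans hω'

theorem l1_yinc_le {h t : ℝ} (hh : 0 ≤ h) (ht : 0 ≤ t) (n : ℕ) (ω' : Ω') :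
    ∫⁻ ω, ‖M.yinc h t n ω ω'‖ₑ ∂P ≤ ENNReal.ofReal (√t) + ENNReal.ofReal (h * t) := by
  have hP := M.isProbabilityMeasure_P
  have hmem := M.memLp_inc t n ω'
  have h2 : ∫ ω, (M.inc t n ω ω') ^ 2 ∂P = M.len t n ω' := by
    have hv := variance_of_integral_eq_zero hmem.aemeasurable (M.integral_inc t n ω')
    rw [← covariance_self hmem.aemeasurable] at hv
    have h1 := M.left_nonneg n ω'
    have h2 := h1.trans (M.left_lt_right n ω').le
    have h3 := (M.left_lt_right n ω').le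
    have hc : cov[fun ω => M.inc t n ω ω', fun ω => M.inc t n ω ω'; P] = M.len t n ω' := by
      unfold inc len
      rw [cov_incr_real M.brownian.toIsPreBrownianReal (le_min h1 ht) (le_min h2 ht)
        (le_min h1 ht) (le_min h2 ht), min_self, min_self,
        min_eq_right (min_le_min_right t h3), min_eq_left (min_le_min_right t h3)]
      ring
    rw [hc] at hv
    simpa using hv.symm
  calc ∫⁻ ω, ‖M.yinc h t n ω ω'‖ₑ ∂P
      ≤ ∫⁻ ω, (‖M.inc t n ω ω'‖ₑ + ENNReal.ofReal (h * t)) ∂P := by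
        refine lintegral_mono fun ω => ?_
        rw [M.yinc_eq]
        refine (enorm_add_le _ _).trans ?_
        gcongr
        rw [Real.enorm_eq_ofReal (mul_nonneg hh (M.len_nonneg t n ω'))]
        exact ENNReal.ofReal_le_ofReal (mul_le_mul_of_nonneg_left (M.len_le ht ω' n) hh)
    _ = ∫⁻ ω, ‖M.inc t n ω ω'‖ₑ ∂P + ENNReal.ofReal (h * t) := by
        rw [lintegral_add_right _ measurable_const, lintegral_const, measure_univ, mul_one]
    _ ≤ _ := by
        gcongr
        refine (l1_le hmem.aestronglyMeasurable).trans ?_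
        rw [eLpNorm_two_eq hmem, h2]
        exact ENNReal.ofReal_le_ofReal (Real.sqrt_le_sqrt (M.len_le ht ω' n))

/-! ### The frozen energy -/

/-- The frozen energy of the first `N` excursions. -/
noncomputable def XbarN (h θ t : ℝ) (p : ℕ → ℕ) (e : ℕ → Bool) (k N : ℕ) (ω : Ω) (ω' : Ω') : ℝ :=
  ∑ n ∈ Finset.range N, cc e k (M.mi θ p ω') n * M.yinc h t n ω ω'

theorem Xbar_sub (h θ t : ℝ) (p : ℕ → ℕ) (e : ℕ → Bool) (k N : ℕ) (ω : Ω) (ω' : Ω') :
    M.Xbar h θ t p e k ω ω' - M.XbarN h θ t p e k N ω ω' =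
      (1 / 2) * M.rem h t N ω ω' + ∑ i ∈ Finset.range k,
        (if M.mi θ p ω' i < N then 0 else
          (if e i then (1 / 2 : ℝ) else -(1 / 2)) * M.yinc h t (M.mi θ p ω' i) ω ω') := by
  have h1 : M.XbarN h θ t p e k N ω ω' = (1 / 2) * ∑ n ∈ Finset.range N, M.yinc h t n ω ω' +
      ∑ i ∈ Finset.range k, (if M.mi θ p ω' i < N then
        (if e i then (1 / 2 : ℝ) else -(1 / 2)) * M.yinc h t (M.mi θ p ω' i) ω ω' else 0) := by
    unfold XbarN cc
    simp_rw [add_mul]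
    rw [Finset.sum_add_distrib, ← Finset.mul_sum]
    congr 1
    simp_rw [Finset.sum_mul]
    rw [Finset.sum_comm]
    refine Finset.sum_congr rfl fun i _ => ?_
    simp_rw [ite_mul, zero_mul]
    rw [Finset.sum_ite_eq]
    simp only [Finset.mem_range]
  rw [h1]
  unfold Xbar rem
  rw [sub_eq_iff_eq_add]
  have h2 : ∑ i ∈ Finset.range k, (if e i then (1 / 2 : ℝ) else -(1 / 2)) *
      (M.y h (min (M.right (M.mi θ p ω' i) ω') t) ω
        - M.y h (min (M.left (M.mi θ p ω' i) ω') t) ω) =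
      ∑ i ∈ Finset.range k, (if M.mi θ p ω' i < N then 0 else
          (if e i then (1 / 2 : ℝ) else -(1 / 2)) * M.yinc h t (M.mi θ p ω' i) ω ω') +
      ∑ i ∈ Finset.range k, (if M.mi θ p ω' i < N then
        (if e i then (1 / 2 : ℝ) else -(1 / 2)) * M.yinc h t (M.mi θ p ω' i) ω ω' else 0) := by
    rw [← Finset.sum_add_distrib]
    refine Finset.sum_congr rfl fun i _ => ?_
    unfold yinc
    split_ifs <;> simp
  rw [h2]
  ring

theorem l1_Xbar_sub_le {h θ t : ℝ} (hh : 0 ≤ h) (ht : 0 ≤ t) (p : ℕ → ℕ) (e : ℕ → Bool)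
    (k N : ℕ) (ω' : Ω') :
    ∫⁻ ω, ‖M.Xbar h θ t p e k ω ω' - M.XbarN h θ t p e k N ω ω'‖ₑ ∂P ≤
      (ENNReal.ofReal (√(t - ∑ n ∈ Finset.range N, M.len t n ω')) +
      ENNReal.ofReal (h * (t - ∑ n ∈ Finset.range N, M.len t n ω'))) +
      ∑ i ∈ Finset.range k, (if M.mi θ p ω' i < N then 0 else
        (ENNReal.ofReal (√t) + ENNReal.ofReal (h * t))) := by
  have hm1 : Measurable (fun ω => ‖M.rem h t N ω ω'‖ₑ) := by
    unfold rem yinc
    apply Measurable.enorm
    apply Measurable.sub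
    · exact (M.measurable_y_left h t).sub (M.measurable_y_left h 0)
    · exact Finset.measurable_fun_sum _ fun n _ =>
        (M.measurable_y_left h _).sub (M.measurable_y_left h _)
  have hm2 : ∀ n, Measurable (fun ω => ‖M.yinc h t n ω ω'‖ₑ) := fun n =>
    ((M.measurable_y_left h _).sub (M.measurable_y_left h _)).enorm
  calc ∫⁻ ω, ‖M.Xbar h θ t p e k ω ω' - M.XbarN h θ t p e k N ω ω'‖ₑ ∂P
      ≤ ∫⁻ ω, (‖M.rem h t N ω ω'‖ₑ + ∑ i ∈ Finset.range k, (if M.mi θ p ω' i < N then 0 else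
        ‖M.yinc h t (M.mi θ p ω' i) ω ω'‖ₑ)) ∂P := by
        refine lintegral_mono fun ω => ?_
        rw [M.Xbar_sub]
        refine (enorm_add_le _ _).trans ?_
        refine add_le_add ?_ ?_
        · rw [enorm_mul]
          refine mul_le_of_le_one_left bot_le ?_
          rw [Real.enorm_eq_ofReal (by norm_num)]
          exact ENNReal.ofReal_le_one.2 (by norm_num)
        · refine (enorm_sum_le _ _).trans ?_
          refine Finset.sum_le_sum fun i _ => ?_
          split_ifs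
          · simp
          · rw [enorm_mul]
            refine mul_le_of_le_one_left bot_le ?_
            rw [Real.enorm_eq_ofReal (by norm_num)]
            exact ENNReal.ofReal_le_one.2 (by norm_num)
          · rw [enorm_mul]
            refine mul_le_of_le_one_left bot_le ?_
            rw [Real.enorm_eq_ofReal_abs]
            exact ENNReal.ofReal_le_one.2 (by norm_num [abs_le])
    _ = ∫⁻ ω, ‖M.rem h t N ω ω'‖ₑ ∂P + ∑ i ∈ Finset.range k, (if M.mi θ p ω' i < N then 0 else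
        ∫⁻ ω, ‖M.yinc h t (M.mi θ p ω' i) ω ω'‖ₑ ∂P) := by
        rw [lintegral_add_left hm1, lintegral_finsetSum]
        · congr 1
          refine Finset.sum_congr rfl fun i _ => ?_
          split_ifs
          · simp
          · rfl
        · intro i _
          split_ifs
          · exact measurable_const
          · exact hm2 _
    _ ≤ _ := by
        refine add_le_add (M.l1_rem_le hh ht N ω') ?_
        refine Finset.sum_le_sum fun i _ => ?_
        split_ifs
        · exact le_rfl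
        · exact M.l1_yinc_le hh ht _ ω'

end Model

end Pool.Agent.Lib.MP_3d9a2b_pr
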