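import Pool.Agent.Lib.MP_3d9a2b_pr.Env
import Pool.Agent.Lib.MP_3d9a2b_pr.Climb

set_option autoImplicit false

namespace Pool.Agent.Lib.MP_3d9a2b_pr

open MeasureTheory ProbabilityTheory Filter Topology
open scoped NNReal ENNReal

namespace StageA

/-- prepend one step to an environment -/
def cons (p : (ℝ × ℝ) × Env) : Env := fun n => Nat.casesOn n p.1 p.2

@[simp] lemma cons_zero (p : (ℝ × ℝ) × Env) : cons p 0 = p.1 := rfl
@[simp] lemma cons_succ (p : (ℝ × ℝ) × Env) (n : ℕ) : cons p (n + 1) = p.2 n := rfl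

lemma measurable_cons : Measurable cons := by
  refine measurable_pi_lambda _ fun n => ?_
  cases n with
  | zero => exact measurable_fst
  | succ n => exact (measurable_pi_apply n).comp measurable_snd

instance instProbNu {ρ : Measure (ℝ × ℝ)} [IsProbabilityMeasure ρ] :
    IsProbabilityMeasure (nu ρ) := by unfold nu; infer_instance

lemma map_cons (μ : Measure (ℝ × ℝ)) [IsProbabilityMeasure μ] :
    (μ.prod (nu μ)).map cons = nu μ := by
  refine Measure.eq_infinitePi _ fun s t ht => ?_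
  classical
  obtain ⟨N, hN⟩ : ∃ N, s ⊆ Finset.range (N + 1) :=
    ⟨s.sup id, fun i hi => Finset.mem_range.2 (Nat.lt_succ_of_le (Finset.le_sup (f := id) hi))⟩
  set t' : ℕ → Set (ℝ × ℝ) := fun i => if i ∈ s then t i else Set.univ with ht'
  have hmt' : ∀ i, MeasurableSet (t' i) := fun i => by
    simp only [ht']; split_ifs
    · exact ht i
    · exact MeasurableSet.univ
  have hpre : cons ⁻¹' (Set.pi s t) =
      (t' 0) ×ˢ (Set.pi (Finset.range N) (fun i => t' (i + 1))) := by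
    ext p
    simp only [Set.mem_preimage, Set.mem_pi, Set.mem_prod, Finset.coe_range, Set.mem_Iio, ht']
    constructor
    · intro h
      constructor
      · split_ifs with h0
        · exact h 0 h0
        · trivial
      · intro i _
        split_ifs with h0
        · exact h (i + 1) h0
        · trivial
    · rintro ⟨h0, h1⟩ i hi
      have hiN := Finset.mem_range.1 (hN hi)
      cases i with
      | zero => simpa [Finset.mem_coe.1 hi] using h0
      | succ i =>
        have := h1 i (by omega)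
        simpa [Finset.mem_coe.1 hi] using this
  rw [Measure.map_apply measurable_cons (MeasurableSet.pi (Finset.countable_toSet _)
    (fun i _ => ht i)), hpre, Measure.prod_prod]
  unfold nu
  rw [Measure.infinitePi_pi _ (fun i _ => hmt' _)]
  have h2 : ∏ i ∈ s, μ (t i) = ∏ i ∈ Finset.range (N + 1), μ (t' i) := by
    rw [← Finset.prod_subset hN]
    · refine Finset.prod_congr rfl fun i hi => ?_
      simp [ht', hi]
    · intro i _ hi
      simp [ht', hi]
  rw [h2, Finset.prod_range_succ', mul_comm]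

lemma sh_cons (p : (ℝ × ℝ) × Env) : sh 1 (cons p) = p.2 := by
  funext n; simp [sh]

lemma S_zero (ζ : Env) : S 0 ζ = 0 := by simp [S]

lemma S_succ (b : ℕ) (ζ : Env) : S (b + 1) ζ = -2 * (ζ 0).1 + S b (sh 1 ζ) := by
  simp only [S, Finset.sum_range_succ', sh]
  ring

lemma measurable_S (b : ℕ) : Measurable (S b) := by
  unfold S
  fun_prop

/-- success set of the second phase of the simple search -/
def KA (α C Γ : ℝ) (a l : ℕ) (y : ℝ) (N : ℕ) : Set Env :=
  {ζ | ζ ∈ VA α C (a + l) N Γ ∨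
    ∃ b < N, Γ ≤ y + S b ζ - kap α C a - kap α C (l + b) - (ζ b).2}

variable {α C Γ : ℝ}

lemma VA_shift {a N : ℕ} {ζ : Env} (h : sh 1 ζ ∈ VA α C (a + 1) N Γ) :
    ζ ∈ VA α C a (N + 1) Γ := by
  obtain ⟨i, j, hij, hj, h⟩ := h
  refine ⟨i + 1, j + 1, by omega, by omega, ?_⟩
  rw [S_succ, S_succ, Nat.add_sub_add_right, show a + (i + 1) = a + 1 + i by ring]
  simp only [sh] at h ⊢
  linarith

lemma VA_start {a N : ℕ} {ζ : Env}
    (h : sh 1 ζ ∈ KA α C Γ a 1 (- (ζ 0).2 - 2 * (ζ 0).1) N) : ζ ∈ VA α C a (N + 1) Γ := by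
  rcases h with h | ⟨b, hb, h⟩
  · exact VA_shift h
  · refine ⟨0, b + 1, by omega, by omega, ?_⟩
    rw [S_succ, S_zero, add_zero, Nat.sub_zero, show b + 1 = 1 + b by ring]
    simp only [sh] at h ⊢
    rw [show 1 + b = b + 1 by ring] at h ⊢
    linarith

lemma KA_abandon {a l N : ℕ} {y : ℝ} {ζ : Env} (h : ζ ∈ VA α C (a + l) N Γ) :
    ζ ∈ KA α C Γ a l y N := Or.inl h

lemma KA_step {a l N : ℕ} {y : ℝ} {ζ : Env}
    (h : sh 1 ζ ∈ KA α C Γ a (l + 1) (y - 2 * (ζ 0).1) N) : ζ ∈ KA α C Γ a l y (N + 1) := by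
  rcases h with h | ⟨b, hb, h⟩
  · exact Or.inl (VA_shift (by simpa [add_assoc] using h))
  · refine Or.inr ⟨b + 1, by omega, ?_⟩
    rw [S_succ, show l + (b + 1) = l + 1 + b by ring]
    simp only [sh] at h ⊢
    linarith

lemma KA_mono {a l N : ℕ} {y y' : ℝ} (h : y ≤ y') : KA α C Γ a l y N ⊆ KA α C Γ a l y' N := by
  rintro ζ (h1 | ⟨b, hb, h1⟩)
  · exact Or.inl h1
  · exact Or.inr ⟨b, hb, by linarith⟩

lemma measurableSet_VA (a N : ℕ) : MeasurableSet (VA α C a N Γ) := by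
  have : VA α C a N Γ = ⋃ i : ℕ, ⋃ j : ℕ, {ζ | i < j ∧ j < N ∧ Γ ≤ (S j ζ - S i ζ) -
      kap α C (a + i) - kap α C (j - i) - (ζ i).2 - (ζ j).2} := by
    ext ζ; simp [VA]
  rw [this]
  refine MeasurableSet.iUnion fun i => MeasurableSet.iUnion fun j => ?_
  have h1 := measurable_S j
  have h2 := measurable_S i
  have h3 : MeasurableSet {ζ : Env | Γ ≤ (S j ζ - S i ζ) -
      kap α C (a + i) - kap α C (j - i) - (ζ i).2 - (ζ j).2} :=
    measurableSet_le measurable_const (by fun_prop)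
  exact (MeasurableSet.const (i < j)).inter ((MeasurableSet.const (j < N)).inter h3)

lemma measurableSet_KA_prod (a l N : ℕ) :
    MeasurableSet {p : ℝ × Env | p.2 ∈ KA α C Γ a l p.1 N} := by
  have : {p : ℝ × Env | p.2 ∈ KA α C Γ a l p.1 N} =
      (Prod.snd ⁻¹' VA α C (a + l) N Γ) ∪ ⋃ b : ℕ, {p : ℝ × Env | b < N ∧
        Γ ≤ p.1 + S b p.2 - kap α C a - kap α C (l + b) - (p.2 b).2} := by
    ext p; simp [KA]
  rw [this]
  refine (measurable_snd (measurableSet_VA _ _)).union (MeasurableSet.iUnion fun b => ?_)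
  have h1 : Measurable (fun p : ℝ × Env => S b p.2) := (measurable_S b).comp measurable_snd
  have h3 : MeasurableSet {p : ℝ × Env | Γ ≤ p.1 + S b p.2 - kap α C a - kap α C (l + b)
      - (p.2 b).2} :=
    measurableSet_le measurable_const (by fun_prop)
  exact (MeasurableSet.const (b < N)).inter h3

variable (α C Γ) in
/-- success probability of the simple search -/
noncomputable def f (ρ : Measure (ℝ × ℝ)) (a N : ℕ) : ℝ := (nu ρ).real (VA α C a N Γ)

variable (α C Γ) in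
noncomputable def kA (ρ : Measure (ℝ × ℝ)) (a l : ℕ) (y : ℝ) (N : ℕ) : ℝ :=
  (nu ρ).real (KA α C Γ a l y N)

variable {ρ : Measure (ℝ × ℝ)} [IsProbabilityMeasure ρ]

lemma kA_mono {a l N : ℕ} {y y' : ℝ} (h : y ≤ y') :
    kA α C Γ ρ a l y N ≤ kA α C Γ ρ a l y' N :=
  measureReal_mono (KA_mono h)

omit [IsProbabilityMeasure ρ] in
lemma kA_nonneg {a l N : ℕ} {y : ℝ} : 0 ≤ kA α C Γ ρ a l y N := measureReal_nonneg

lemma kA_le_one {a l N : ℕ} {y : ℝ} : kA α C Γ ρ a l y N ≤ 1 := measureReal_le_one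

omit [IsProbabilityMeasure ρ] in
lemma f_nonneg {a N : ℕ} : 0 ≤ f α C Γ ρ a N := measureReal_nonneg

lemma measurable_kA (a l N : ℕ) : Measurable (fun y => kA α C Γ ρ a l y N) :=
  Monotone.measurable (fun _ _ h => kA_mono h)

/-- integrate a section over the first step -/
lemma real_eq_integral {T : Set Env} (hT : MeasurableSet T) :
    (nu ρ).real T = ∫ z, (nu ρ).real {ζ | cons (z, ζ) ∈ T} ∂ρ := by
  have h1 : (nu ρ) T = ∫⁻ z, (nu ρ) {ζ | cons (z, ζ) ∈ T} ∂ρ := by
    conv_lhs => rw [← map_cons ρ]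
    rw [Measure.map_apply measurable_cons hT, Measure.prod_apply (measurable_cons hT)]
    rfl
  rw [measureReal_def, h1, integral_eq_lintegral_of_nonneg_ae
    (Eventually.of_forall fun z => measureReal_nonneg)]
  · congr 1
    refine lintegral_congr fun z => ?_
    rw [measureReal_def, ENNReal.ofReal_toReal (measure_ne_top _ _)]
  · refine Measurable.aestronglyMeasurable ?_
    exact (measurable_measure_prodMk_left (measurable_cons hT)).ennreal_toReal

lemma f_shift (a N : ℕ) : f α C Γ ρ (a + 1) N ≤ f α C Γ ρ a (N + 1) := by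
  unfold f
  rw [real_eq_integral (measurableSet_VA a (N + 1))]
  have : (nu ρ).real (VA α C (a + 1) N Γ) = ∫ z, (nu ρ).real (VA α C (a + 1) N Γ) ∂ρ := by simp
  rw [this]
  refine integral_mono (integrable_const _) ?_ fun z => ?_
  · refine Integrable.mono' (integrable_const (1 : ℝ)) ?_ (Eventually.of_forall fun z => ?_)
    · exact ((measurable_measure_prodMk_left (measurable_cons
        (measurableSet_VA a (N + 1)))).ennreal_toReal).aestronglyMeasurable
    · rw [Real.norm_of_nonneg measureReal_nonneg]; exact measureReal_le_one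
  · refine measureReal_mono fun ζ hζ => ?_
    exact VA_shift (by rw [sh_cons]; exact hζ)

lemma integrable_section {T : Set Env} (hT : MeasurableSet T) :
    Integrable (fun z => (nu ρ).real {ζ | cons (z, ζ) ∈ T}) ρ := by
  refine Integrable.mono' (integrable_const (1 : ℝ)) ?_ (Eventually.of_forall fun z => ?_)
  · exact ((measurable_measure_prodMk_left (measurable_cons hT)).ennreal_toReal).aestronglyMeasurable
  · rw [Real.norm_of_nonneg measureReal_nonneg]; exact measureReal_le_one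

lemma integrable_kA (a l N : ℕ) {g : ℝ × ℝ → ℝ} (hg : Measurable g) :
    Integrable (fun z => kA α C Γ ρ a l (g z) N) ρ := by
  refine Integrable.mono' (integrable_const (1 : ℝ)) ?_ (Eventually.of_forall fun z => ?_)
  · exact ((measurable_kA a l N).comp hg).aestronglyMeasurable
  · rw [Real.norm_of_nonneg kA_nonneg]; exact kA_le_one

lemma f_start (a N : ℕ) :
    ∫ z, kA α C Γ ρ a 1 (- z.2 - 2 * z.1) N ∂ρ ≤ f α C Γ ρ a (N + 1) := by
  unfold f
  rw [real_eq_integral (measurableSet_VA a (N + 1))]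
  refine integral_mono (integrable_kA _ _ _ (by fun_prop))
    (integrable_section (measurableSet_VA a (N + 1))) fun z => ?_
  refine measureReal_mono fun ζ hζ => ?_
  exact VA_start (by rw [sh_cons]; simpa using hζ)

lemma measurableSet_KA (a l : ℕ) (y : ℝ) (N : ℕ) : MeasurableSet (KA α C Γ a l y N) :=
  (measurable_prodMk_left (x := y)) (measurableSet_KA_prod a l N)

lemma kA_step (a l : ℕ) (y : ℝ) (N : ℕ) :
    ∫ z, kA α C Γ ρ a (l + 1) (y - 2 * z.1) N ∂ρ ≤ kA α C Γ ρ a l y (N + 1) := by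
  conv_rhs => unfold kA
  rw [real_eq_integral (measurableSet_KA a l y (N + 1))]
  refine integral_mono (integrable_kA _ _ _ (by fun_prop))
    (integrable_section (measurableSet_KA a l y (N + 1))) fun z => ?_
  refine measureReal_mono fun ζ hζ => ?_
  exact KA_step (by rw [sh_cons]; simpa using hζ)

lemma kA_abandon (a l : ℕ) (y : ℝ) (N : ℕ) : f α C Γ ρ (a + l) N ≤ kA α C Γ ρ a l y N :=
  measureReal_mono fun _ h => KA_abandon h

lemma kA_win {Kw : ℝ} (hw : 1 / 2 ≤ ρ.real {z | z.2 ≤ Kw}) (a l : ℕ) (y : ℝ) (N : ℕ)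
    (hy : Γ + Kw ≤ y - kap α C a - kap α C l) : 1 / 2 ≤ kA α C Γ ρ a l y (N + 1) := by
  have h1 : ρ.real {z | z.2 ≤ Kw} = (nu ρ).real {ζ | (ζ 0).2 ≤ Kw} := by
    have hm : MeasurableSet {z : ℝ × ℝ | z.2 ≤ Kw} :=
      measurableSet_le measurable_snd measurable_const
    conv_lhs => rw [measureReal_def, ← Measure.infinitePi_map_eval (fun _ : ℕ => ρ) 0,
      Measure.map_apply (by fun_prop) hm]
    rfl
  refine hw.trans (h1.le.trans (measureReal_mono fun ζ hζ => Or.inr ⟨0, by omega, ?_⟩))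
  have : (ζ 0).2 ≤ Kw := hζ
  rw [S_zero, add_zero, add_zero]
  linarith

/-! ### The potential -/

/-- the iterated logarithm -/
noncomputable def LL (t : ℝ) : ℝ := Real.log (Real.log t)

lemma one_le_log {a : ℝ} (ha : 3 ≤ a) : 1 ≤ Real.log a := by
  rw [Real.le_log_iff_exp_le (by linarith)]
  have := Real.exp_one_lt_d9
  linarith

lemma LL_add {a l : ℝ} (ha : 3 ≤ a) (hl : 0 ≤ l) :
    LL (a + l) ≤ LL a + l / (a * Real.log a) := by
  have h1 := one_le_log ha
  have ha0 : 0 < a := by linarith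
  have h2 : Real.log (a + l) ≤ Real.log a + l / a := by
    have : a + l = a * (1 + l / a) := by field_simp
    rw [this, Real.log_mul ha0.ne' (by positivity)]
    have := Real.log_le_sub_one_of_pos (show 0 < 1 + l / a by positivity)
    linarith
  have h3 : 0 < Real.log (a + l) := by
    have := one_le_log (show 3 ≤ a + l by linarith)
    linarith
  have h4 : LL (a + l) ≤ Real.log (Real.log a + l / a) := Real.log_le_log h3 h2
  have h5 : Real.log a + l / a = Real.log a * (1 + l / (a * Real.log a)) := by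
    field_simp
  rw [h5, Real.log_mul (by linarith) (by positivity)] at h4
  have := Real.log_le_sub_one_of_pos (show 0 < 1 + l / (a * Real.log a) by positivity)
  unfold LL at *
  linarith

/-- the potential -/
noncomputable def Mp (ε Λ : ℝ) (a : ℝ) : ℝ := min (1 / 4) (ε * max 0 (Λ - LL a))

lemma Mp_nonneg {ε Λ a : ℝ} (hε : 0 ≤ ε) : 0 ≤ Mp ε Λ a :=
  le_min (by norm_num) (mul_nonneg hε (le_max_left _ _))

lemma Mp_le {ε Λ a : ℝ} : Mp ε Λ a ≤ 1 / 4 := min_le_left _ _

lemma Mp_add {ε Λ a l : ℝ} (hε : 0 ≤ ε) (ha : 3 ≤ a) (hl : 0 ≤ l) :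
    Mp ε Λ a - ε / (a * Real.log a) * l ≤ Mp ε Λ (a + l) := by
  have h1 := LL_add ha hl
  have h0 := one_le_log ha
  have ha0 : 0 < a := by linarith
  have h2 : 0 ≤ l / (a * Real.log a) := by positivity
  have h3 : ε / (a * Real.log a) * l = ε * (l / (a * Real.log a)) := by ring
  rw [h3]
  unfold Mp
  refine le_min ?_ ?_
  · have := min_le_left (1 / 4 : ℝ) (ε * max 0 (Λ - LL a))
    have : 0 ≤ ε * (l / (a * Real.log a)) := mul_nonneg hε h2
    linarith
  · have h5 := min_le_right (1 / 4 : ℝ) (ε * max 0 (Λ - LL a))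
    have h6 : max 0 (Λ - LL a) - l / (a * Real.log a) ≤ max 0 (Λ - LL (a + l)) := by
      rcases max_cases 0 (Λ - LL a) with ⟨h, _⟩ | ⟨h, _⟩
      · rw [h]; exact le_trans (by linarith) (le_max_left _ _)
      · rw [h]; exact le_trans (by linarith) (le_max_right _ _)
    have := mul_le_mul_of_nonneg_left h6 hε
    rw [mul_sub] at this
    linarith

/-- the number of steps allowed for a trial started at distance `a` -/
noncomputable def nf (g : ℝ) (n₀ : ℕ) (a : ℝ) : ℕ := n₀ + ⌈2 * g ^ 2 * Real.log a⌉₊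

lemma nf_mono {g : ℝ} {n₀ : ℕ} {a b : ℝ} (ha : 0 < a) (hab : a ≤ b) :
    nf g n₀ a ≤ nf g n₀ b := by
  unfold nf
  have : Real.log a ≤ Real.log b := Real.log_le_log ha hab
  gcongr

lemma exists_n₀ (g c : ℝ) (hg : 0 < g) : ∃ n₀ : ℕ, ∀ n : ℕ, n₀ ≤ n →
    c + g ^ 2 * Real.log (n + 1) ≤ n / 2 := by
  have h1 := Real.isLittleO_log_id_atTop.def (show 0 < 1 / (4 * g ^ 2) by positivity)
  have h2 : Tendsto (fun n : ℕ => (n : ℝ) + 1) atTop atTop :=
    tendsto_atTop_add_const_right _ _ tendsto_natCast_atTop_atTop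
  have h3 := h2.eventually h1
  have h4 : ∀ᶠ n : ℕ in atTop, 4 * c + 1 ≤ (n : ℝ) :=
    tendsto_natCast_atTop_atTop.eventually_ge_atTop _
  obtain ⟨n₀, hn₀⟩ := (h3.and h4).exists_forall_of_atTop
  refine ⟨n₀, fun n hn => ?_⟩
  obtain ⟨h5, h6⟩ := hn₀ n hn
  have hn0 : (0 : ℝ) ≤ n := Nat.cast_nonneg n
  have h7 : 0 ≤ Real.log ((n : ℝ) + 1) := Real.log_nonneg (by linarith)
  rw [Real.norm_of_nonneg h7, id, Real.norm_of_nonneg (by linarith)] at h5
  have h8 : g ^ 2 * Real.log ((n : ℝ) + 1) ≤ ((n : ℝ) + 1) / 4 := by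
    calc g ^ 2 * Real.log ((n : ℝ) + 1) ≤ g ^ 2 * (1 / (4 * g ^ 2) * ((n : ℝ) + 1)) := by gcongr
      _ = ((n : ℝ) + 1) / 4 := by field_simp
  linarith

lemma prob_start {γ Kw K0 : ℝ} (hρ : ρ.map Prod.fst = gaussianReal γ 1)
    (hw : 1 / 2 ≤ ρ.real {z | z.2 ≤ Kw}) (hK : Kw + 2 * γ + 4 ≤ K0) :
    1 / 4 ≤ ρ.real {z | -K0 ≤ - z.2 - 2 * z.1} := by
  have h1 : ρ.real {z : ℝ × ℝ | γ + 2 < z.1} ≤ 1 / 4 := by
    have h2 : ρ.real {z : ℝ × ℝ | γ + 2 < z.1} = (gaussianReal γ 1).real (Set.Ioi (γ + 2)) := by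
      rw [measureReal_def, measureReal_def, ← hρ, Measure.map_apply measurable_fst
        measurableSet_Ioi]
      rfl
    rw [h2]
    have h3 := meas_ge_le_variance_div_sq (μ := gaussianReal γ 1) (X := id)
      (memLp_id_gaussianReal 2) (c := 2) (by norm_num)
    have hint : ∫ x, id x ∂gaussianReal γ 1 = γ := integral_id_gaussianReal
    rw [variance_id_gaussianReal, hint] at h3
    have h4 : (gaussianReal γ 1) (Set.Ioi (γ + 2)) ≤ ENNReal.ofReal (1 / 4) := by
      refine (measure_mono ?_).trans (h3.trans (le_of_eq ?_))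
      · intro x hx
        simp only [Set.mem_Ioi] at hx
        change 2 ≤ |id x - γ|
        rw [le_abs]; left; simp only [id]; linarith
      · congr 1; norm_num
    rw [measureReal_def]
    exact ENNReal.toReal_le_of_le_ofReal (by norm_num) h4
  have h5 : {z : ℝ × ℝ | z.2 ≤ Kw} ⊆ {z | -K0 ≤ - z.2 - 2 * z.1} ∪ {z | γ + 2 < z.1} := by
    intro z hz
    have hz' : z.2 ≤ Kw := hz
    by_cases h : γ + 2 < z.1
    · exact Or.inr h
    · left; push Not at h
      change -K0 ≤ - z.2 - 2 * z.1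
      linarith
  have h6 := (measureReal_mono (μ := ρ) h5).trans (measureReal_union_le _ _)
  linarith

/-- The step of the potential argument. -/
lemma trial {γ g Cr co Cn Kw K0 : ℝ} (hC : 0 ≤ C) (hg : 0 < g) (hγg : γ * g = 1)
    (hgα : g = 1 + α) (hCr : 0 ≤ Cr) (hco : 0 < co)
    (hclimb : ∀ (k : ℕ → ℝ → ℝ) (M σ G u y₀ : ℝ) (n : ℕ), 0 ≤ σ → 0 ≤ G → y₀ < u →
      (u - y₀) / γ + Cn ≤ n →
      (∀ l < n, ∀ y, Integrable (fun x => k (l + 1) (y - 2 * x)) (gaussianReal γ 1)) →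
      (∀ l < n, ∀ y, ∫ x, k (l + 1) (y - 2 * x) ∂(gaussianReal γ 1) ≤ k l y) →
      (∀ l ≤ n, ∀ y, M - σ * l ≤ k l y) →
      (∀ l ≤ n, ∀ y, u ≤ y → M - σ * l + G ≤ k l y) →
      M - σ * Cr + G * co * Real.exp (- γ * (u - y₀)) ≤ k 0 y₀)
    (hρ : ρ.map Prod.fst = gaussianReal γ 1) (hw : 1 / 2 ≤ ρ.real {z | z.2 ≤ Kw})
    (hK : Kw + 2 * γ + 4 ≤ K0) (hK' : 0 < Γ + Kw + K0) (n₀ : ℕ)
    (hn₀ : ∀ n : ℕ, n₀ ≤ n → (g * (Γ + Kw + K0 + 2 * C) + Cn) + g ^ 2 * Real.log (n + 1) ≤ n / 2)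
    {ε : ℝ} (hε0 : 0 ≤ ε)
    (hε : ε * (16 * (n₀ + 2 * g ^ 2 + 2) * (1 + Cr)) ≤
      Real.exp (- γ * (Γ + Kw + 2 * C + K0)) * co)
    (Λ : ℝ) (a N : ℕ) (ha : 3 ≤ a) (hN : nf g n₀ a + 2 ≤ N + 1)
    (ih : ∀ l ≤ N, Mp ε Λ (a + (l + 1) : ℕ) ≤ f α C Γ ρ (a + (l + 1)) (N - l)) :
    Mp ε Λ a ≤ f α C Γ ρ a (N + 1) := by
  have ha' : (3 : ℝ) ≤ a := by exact_mod_cast ha
  have ha0 : (0 : ℝ) < a := by linarith
  have hlog := one_le_log ha'
  set n := nf g n₀ a with hn
  set σ : ℝ := ε / (a * Real.log a) with hσ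
  have hσ0 : 0 ≤ σ := by positivity
  set u : ℝ := Γ + Kw + kap α C a + kap α C (n + 1) with hu
  set M : ℝ := Mp ε Λ a with hM
  have hM4 : M ≤ 1 / 4 := Mp_le
  have hnn : n₀ ≤ n := Nat.le_add_right _ _
  have hcast : ((n : ℕ) : ℝ) = n₀ + (⌈2 * g ^ 2 * Real.log a⌉₊ : ℝ) := by
    rw [hn]; unfold nf; push_cast; ring
  have hceil : 2 * g ^ 2 * Real.log a ≤ n := by
    rw [hcast]
    have := Nat.le_ceil (2 * g ^ 2 * Real.log a)
    have : (0 : ℝ) ≤ n₀ := Nat.cast_nonneg _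
    linarith
  have hceil2 : (n : ℝ) + 1 ≤ (n₀ + 2 * g ^ 2 + 2) * Real.log a := by
    rw [hcast]
    have h1 := Nat.ceil_lt_add_one (show 0 ≤ 2 * g ^ 2 * Real.log a by positivity)
    have h2 : (0 : ℝ) ≤ n₀ := Nat.cast_nonneg _
    nlinarith
  have hkap : ∀ m : ℕ, kap α C m = g * Real.log m + C := fun m => by
    unfold kap; rw [hgα]
  have hkap_mono : ∀ m m' : ℕ, 1 ≤ m → m ≤ m' → kap α C m ≤ kap α C m' := by
    intro m m' h1 h2
    rw [hkap, hkap]
    have : Real.log m ≤ Real.log m' := Real.log_le_log (by exact_mod_cast h1) (by exact_mod_cast h2)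
    nlinarith
  have hlogn : 0 ≤ Real.log ((n + 1 : ℕ) : ℝ) := Real.log_nonneg (by
    push_cast; have : (0 : ℝ) ≤ n := Nat.cast_nonneg _; linarith)
  -- lower bound for k
  have hlow : ∀ l ≤ N, ∀ y, M - σ - σ * l ≤ kA α C Γ ρ a (l + 1) y (N - l) := by
    intro l hl y
    refine le_trans ?_ (kA_abandon a (l + 1) y (N - l))
    refine le_trans ?_ (ih l hl)
    have := Mp_add (Λ := Λ) hε0 ha' (l := ((l + 1 : ℕ) : ℝ)) (Nat.cast_nonneg _)
    push_cast at this ⊢
    rw [← hσ] at this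
    nlinarith
  have hmain := hclimb (fun l y => kA α C Γ ρ a (l + 1) y (N - l)) (M - σ) σ (1 / 4) u (-K0) n
    hσ0 (by norm_num)
    (by
      rw [hu, hkap, hkap]
      have h1 : 0 ≤ g * Real.log a := by positivity
      have h2 : 0 ≤ g * Real.log ((n + 1 : ℕ) : ℝ) := by positivity
      linarith)
    (by
      have h1 := hn₀ n hnn
      have h2 : (u - -K0) / γ = g * (u + K0) := by
        have hγ : γ ≠ 0 := by rintro rfl; simp at hγg
        field_simp
        linear_combination (-(u + K0)) * hγg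
      rw [h2, hu, hkap, hkap]
      push_cast
      nlinarith)
    (fun l _ y => by
      refine Integrable.mono' (integrable_const (1 : ℝ)) ?_ (Eventually.of_forall fun z => ?_)
      · exact ((measurable_kA a (l + 1 + 1) (N - (l + 1))).comp
          (by fun_prop : Measurable fun x : ℝ => y - 2 * x)).aestronglyMeasurable
      · rw [Real.norm_of_nonneg kA_nonneg]; exact kA_le_one)
    (fun l hl y => by
      have h1 : N - l = (N - (l + 1)) + 1 := by omega
      rw [h1]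
      refine le_trans (le_of_eq ?_) (kA_step a (l + 1) y (N - (l + 1)))
      rw [← hρ, integral_map measurable_fst.aemeasurable]
      exact ((measurable_kA a (l + 1 + 1) (N - (l + 1))).comp
          (by fun_prop : Measurable fun x : ℝ => y - 2 * x)).aestronglyMeasurable)
    (fun l hl y => hlow l (by omega) y)
    (fun l hl y hy => by
      have h1 : N - l = (N - l - 1) + 1 := by omega
      have h2 : 1 / 2 ≤ kA α C Γ ρ a (l + 1) y (N - l) := by
        rw [h1]
        refine kA_win hw a (l + 1) y _ ?_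
        have := hkap_mono (l + 1) (n + 1) (by omega) (by omega)
        linarith
      have h3 : 0 ≤ σ * l := by positivity
      linarith)
  simp only [Nat.sub_zero, zero_add] at hmain
  -- the exponential
  have hexp : Real.exp (- γ * (u - -K0)) =
      Real.exp (- γ * (Γ + Kw + 2 * C + K0)) * ((a : ℝ)⁻¹ * ((n : ℝ) + 1)⁻¹) := by
    have hn1 : (0 : ℝ) < (n : ℝ) + 1 := by positivity
    rw [← Real.exp_log ha0, ← Real.exp_log hn1, ← Real.exp_neg, ← Real.exp_neg, ← Real.exp_add,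
      ← Real.exp_add]
    congr 1
    rw [hu, hkap, hkap]
    push_cast
    linear_combination (-(Real.log a) - Real.log (n + 1)) * hγg
  have hR : 4 * σ * (1 + Cr) ≤ 1 / 4 * co * Real.exp (- γ * (u - -K0)) := by
    rw [hexp]
    set E := Real.exp (- γ * (Γ + Kw + 2 * C + K0)) with hE
    have hEpos : 0 < E := Real.exp_pos _
    have hn1 : (0 : ℝ) < (n : ℝ) + 1 := by positivity
    have hCL : (0 : ℝ) < n₀ + 2 * g ^ 2 + 2 := by positivity
    have h1 : ((n₀ + 2 * g ^ 2 + 2) * Real.log a)⁻¹ ≤ ((n : ℝ) + 1)⁻¹ :=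
      inv_anti₀ hn1 hceil2
    have h2 : 4 * σ * (1 + Cr) ≤
        1 / 4 * co * (E * ((a : ℝ)⁻¹ * ((n₀ + 2 * g ^ 2 + 2) * Real.log a)⁻¹)) := by
      rw [hσ]
      have hla : 0 < Real.log a := by linarith
      rw [mul_inv, show 4 * (ε / (a * Real.log a)) * (1 + Cr) =
        (4 * ε * (1 + Cr)) * ((a : ℝ)⁻¹ * (Real.log a)⁻¹) by field_simp]
      rw [show 1 / 4 * co * (E * ((a : ℝ)⁻¹ * ((n₀ + 2 * g ^ 2 + 2 : ℝ)⁻¹ * (Real.log a)⁻¹))) =
        (1 / 4 * co * E * (n₀ + 2 * g ^ 2 + 2 : ℝ)⁻¹) * ((a : ℝ)⁻¹ * (Real.log a)⁻¹) by ring]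
      refine mul_le_mul_of_nonneg_right ?_ (by positivity)
      rw [← div_eq_mul_inv, le_div_iff₀ hCL]
      nlinarith
    refine h2.trans ?_
    gcongr
  -- integrate
  refine le_trans ?_ (f_start a N)
  have hE : MeasurableSet {z : ℝ × ℝ | -K0 ≤ - z.2 - 2 * z.1} :=
    measurableSet_le measurable_const (by fun_prop)
  set R : ℝ := 1 / 4 * co * Real.exp (- γ * (u - -K0)) - σ * Cr with hRdef
  have hR0 : 3 * σ ≤ R := by
    have : 0 ≤ σ * Cr := by positivity
    nlinarith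
  have hp := prob_start hρ hw hK
  have hint : ∫ z, (M - σ + Set.indicator {z : ℝ × ℝ | -K0 ≤ - z.2 - 2 * z.1} (fun _ => R) z) ∂ρ ≤
      ∫ z, kA α C Γ ρ a 1 (- z.2 - 2 * z.1) N ∂ρ := by
    refine integral_mono ?_ (integrable_kA _ _ _ (by fun_prop)) fun z => ?_
    · exact (integrable_const _).add ((integrable_const R).indicator hE)
    · have h0 := hlow 0 (by omega) (- z.2 - 2 * z.1)
      simp only [Nat.cast_zero, mul_zero, sub_zero, zero_add, Nat.sub_zero] at h0
      by_cases hz : z ∈ {z : ℝ × ℝ | -K0 ≤ - z.2 - 2 * z.1}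
      · simp only [Set.indicator_of_mem hz]
        have h1 := kA_mono (α := α) (C := C) (Γ := Γ) (ρ := ρ) (a := a) (l := 1) (N := N)
          (show -K0 ≤ - z.2 - 2 * z.1 from hz)
        linarith
      · simp only [Set.indicator_of_notMem hz, add_zero]
        exact h0
  refine le_trans ?_ hint
  rw [integral_add (integrable_const _) ((integrable_const R).indicator hE),
    integral_indicator_const _ hE]
  simp only [integral_const, probReal_univ, smul_eq_mul, one_mul]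
  nlinarith

lemma LL_mono {a b : ℝ} (ha : 3 ≤ a) (hab : a ≤ b) : LL a ≤ LL b := by
  have h1 := one_le_log ha
  unfold LL
  exact Real.log_le_log (by linarith) (Real.log_le_log (by linarith) hab)

lemma f_shift_iter (a N m : ℕ) : f α C Γ ρ (a + m) N ≤ f α C Γ ρ a (N + m) := by
  induction m generalizing a with
  | zero => simp
  | succ m ih =>
    have h1 := ih (a + 1)
    rw [show a + 1 + m = a + (m + 1) by ring] at h1
    exact h1.trans (f_shift a (N + m))

lemma eventually_facts (A g ε : ℝ) (n₀ : ℕ) (hε : 0 < ε) :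
    ∀ᶠ D : ℕ in atTop, 3 ≤ D / 2 ∧ D / 2 + nf g n₀ ((D / 2 : ℕ) : ℝ) + 2 ≤ D - 2 ∧
      1 / 4 ≤ ε * (LL ((D / 2 : ℕ) : ℝ) - LL (3 + (|A| + 1) * (1 + Real.log D))) := by
  have hlogD : Tendsto (fun D : ℕ => Real.log (D : ℝ)) atTop atTop :=
    Real.tendsto_log_atTop.comp tendsto_natCast_atTop_atTop
  -- logarithm is small
  have h1 : ∀ᶠ D : ℕ in atTop, n₀ + 2 * g ^ 2 * Real.log D + 8 ≤ (D : ℝ) / 2 := by
    have h2 := (Real.isLittleO_log_id_atTop.def
      (show 0 < 1 / (4 * (2 * g ^ 2 + 1)) by positivity))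
    have h3 := tendsto_natCast_atTop_atTop (R := ℝ) |>.eventually h2
    have h4 : ∀ᶠ D : ℕ in atTop, 4 * ((n₀ : ℝ) + 8) ≤ (D : ℝ) :=
      tendsto_natCast_atTop_atTop.eventually_ge_atTop _
    filter_upwards [h3, h4, eventually_ge_atTop 1] with D h5 h6 h7
    have h8 : (1 : ℝ) ≤ D := by exact_mod_cast h7
    rw [Real.norm_of_nonneg (Real.log_nonneg h8), id, Real.norm_of_nonneg (by linarith)] at h5
    have h9 : 0 ≤ Real.log (D : ℝ) := Real.log_nonneg h8
    have h10 : 2 * g ^ 2 * Real.log D ≤ D / 4 := by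
      calc 2 * g ^ 2 * Real.log D ≤ (2 * g ^ 2 + 1) * Real.log D := by nlinarith
        _ ≤ (2 * g ^ 2 + 1) * (1 / (4 * (2 * g ^ 2 + 1)) * D) := by gcongr
        _ = D / 4 := by field_simp
    linarith
  -- iterated logarithm
  have h2 : ∀ᶠ D : ℕ in atTop, Real.log (3 + (|A| + 1) * (1 + Real.log D)) ≤
      (Real.exp (- (1 / (4 * ε))) / 2) * Real.log D := by
    set δ : ℝ := Real.exp (- (1 / (4 * ε))) / 2 with hδ
    have hδ0 : 0 < δ := by positivity
    have hA : 0 ≤ |A| := abs_nonneg A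
    have hc : (0 : ℝ) < 5 + 2 * |A| := by positivity
    have h3 := (Real.isLittleO_log_id_atTop.def (show 0 < δ / (5 + 2 * |A|) by positivity))
    have h4 : Tendsto (fun D : ℕ => 3 + (|A| + 1) * (1 + Real.log (D : ℝ))) atTop atTop := by
      refine tendsto_atTop_add_const_left _ _ ?_
      refine Tendsto.const_mul_atTop (by positivity) ?_
      exact tendsto_atTop_add_const_left _ _ hlogD
    filter_upwards [h4.eventually h3, hlogD.eventually_ge_atTop 1] with D h5 h6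
    have h7 : 1 ≤ 3 + (|A| + 1) * (1 + Real.log (D : ℝ)) := by nlinarith
    rw [Real.norm_of_nonneg (Real.log_nonneg h7), id, Real.norm_of_nonneg (by linarith)] at h5
    refine h5.trans ?_
    have h8 : 3 + (|A| + 1) * (1 + Real.log (D : ℝ)) ≤ (5 + 2 * |A|) * Real.log D := by nlinarith
    calc δ / (5 + 2 * |A|) * (3 + (|A| + 1) * (1 + Real.log (D : ℝ))) ≤
        δ / (5 + 2 * |A|) * ((5 + 2 * |A|) * Real.log D) := by gcongr
      _ = δ * Real.log D := by field_simp
  filter_upwards [h1, h2, eventually_ge_atTop 8, hlogD.eventually_ge_atTop 1] with D h3 h4 h5 h5'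
  have hD8 : (8 : ℝ) ≤ D := by exact_mod_cast h5
  have hD2 : 3 ≤ D / 2 := by omega
  have hcastle : ((D / 2 : ℕ) : ℝ) ≤ D / 2 := Nat.cast_div_le
  have hcastge : ((D : ℝ) - 1) / 2 ≤ ((D / 2 : ℕ) : ℝ) := by
    have : D ≤ 2 * (D / 2) + 1 := by omega
    have : (D : ℝ) ≤ 2 * ((D / 2 : ℕ) : ℝ) + 1 := by exact_mod_cast this
    linarith
  have hD2' : (3 : ℝ) ≤ ((D / 2 : ℕ) : ℝ) := by exact_mod_cast hD2
  have hlog0 : 0 ≤ Real.log ((D / 2 : ℕ) : ℝ) := Real.log_nonneg (by linarith)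
  have hlogle : Real.log ((D / 2 : ℕ) : ℝ) ≤ Real.log D :=
    Real.log_le_log (by linarith) (by linarith)
  refine ⟨hD2, ?_, ?_⟩
  · have h6 : ((D / 2 + nf g n₀ ((D / 2 : ℕ) : ℝ) + 2 : ℕ) : ℝ) ≤ ((D - 2 : ℕ) : ℝ) := by
      unfold nf
      push_cast [show 2 ≤ D by omega]
      have h7 := Nat.ceil_lt_add_one
        (show 0 ≤ 2 * g ^ 2 * Real.log ((D / 2 : ℕ) : ℝ) by positivity)
      have h8 : 2 * g ^ 2 * Real.log ((D / 2 : ℕ) : ℝ) ≤ 2 * g ^ 2 * Real.log D := by gcongr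
      linarith
    exact_mod_cast h6
  · -- log (D/2) ≥ (1/2) log D
    have h6 : 1 / 2 * Real.log D ≤ Real.log ((D / 2 : ℕ) : ℝ) := by
      have h7 : (D : ℝ) ≤ ((D / 2 : ℕ) : ℝ) ^ 2 := by nlinarith
      have h8 := Real.log_le_log (by linarith : (0 : ℝ) < D) h7
      rw [Real.log_pow] at h8
      push_cast at h8
      linarith
    have h9 : 0 ≤ |A| := abs_nonneg A
    have h10 : 1 ≤ Real.log (3 + (|A| + 1) * (1 + Real.log D)) := by
      refine one_le_log ?_
      nlinarith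
    have h11 : LL ((D / 2 : ℕ) : ℝ) - LL (3 + (|A| + 1) * (1 + Real.log D)) =
        Real.log (Real.log ((D / 2 : ℕ) : ℝ) / Real.log (3 + (|A| + 1) * (1 + Real.log D))) := by
      unfold LL
      rw [Real.log_div (by linarith) (by linarith)]
    rw [h11]
    have h12 : Real.exp (1 / (4 * ε)) ≤
        Real.log ((D / 2 : ℕ) : ℝ) / Real.log (3 + (|A| + 1) * (1 + Real.log D)) := by
      rw [le_div_iff₀ (by linarith)]
      calc Real.exp (1 / (4 * ε)) * Real.log (3 + (|A| + 1) * (1 + Real.log D))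
          ≤ Real.exp (1 / (4 * ε)) * ((Real.exp (- (1 / (4 * ε))) / 2) * Real.log D) := by gcongr
        _ = (Real.exp (1 / (4 * ε)) * Real.exp (- (1 / (4 * ε)))) * (1 / 2 * Real.log D) := by ring
        _ = 1 / 2 * Real.log D := by rw [← Real.exp_add, add_neg_cancel, Real.exp_zero, one_mul]
        _ ≤ _ := h6
    have h13 : 1 / (4 * ε) ≤
        Real.log (Real.log ((D / 2 : ℕ) : ℝ) / Real.log (3 + (|A| + 1) * (1 + Real.log D))) := by
      rw [← Real.log_exp (1 / (4 * ε))]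
      exact Real.log_le_log (Real.exp_pos _) h12
    calc (1 / 4 : ℝ) = ε * (1 / (4 * ε)) := by field_simp
      _ ≤ _ := by gcongr

end StageA

open StageA in
theorem stageA (α C : ℝ) (hα : 0 < α) (hC : 0 ≤ C) (Kw Γ A : ℝ) : ∃ D₀ : ℕ, ∀ D : ℕ, D₀ ≤ D →
    ∀ (ρ : Measure (ℝ × ℝ)) [IsProbabilityMeasure ρ],
      ρ.map Prod.fst = gaussianReal (1 / (1 + α)) 1 → 1 / 2 ≤ ρ.real {z | z.2 ≤ Kw} →
      ∀ l : ℕ, 1 ≤ l → (l : ℝ) ≤ A * (1 + Real.log D) →
        1 / 4 ≤ (nu ρ).real (VA α C l D Γ) := by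
  set γ : ℝ := 1 / (1 + α) with hγdef
  set g : ℝ := 1 + α with hgdef
  have hg : 0 < g := by linarith
  have hγg : γ * g = 1 := by rw [hγdef]; field_simp
  have hγ : 0 < γ := by positivity
  obtain ⟨Cr, co, Cn, hCr, hco, hCn, hclimb⟩ := climb γ hγ
  set K0 : ℝ := max (Kw + 2 * γ + 4) (1 - Γ - Kw) with hK0
  have hK : Kw + 2 * γ + 4 ≤ K0 := le_max_left _ _
  have hK' : 0 < Γ + Kw + K0 := by
    have := le_max_right (Kw + 2 * γ + 4) (1 - Γ - Kw)
    linarith
  obtain ⟨n₀, hn₀⟩ := exists_n₀ g (g * (Γ + Kw + K0 + 2 * C) + Cn) hg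
  set ε : ℝ := Real.exp (- γ * (Γ + Kw + 2 * C + K0)) * co /
    (16 * (n₀ + 2 * g ^ 2 + 2) * (1 + Cr)) with hεdef
  have hden : (0 : ℝ) < 16 * (n₀ + 2 * g ^ 2 + 2) * (1 + Cr) := by positivity
  have hε : 0 < ε := by positivity
  have hε' : ε * (16 * (n₀ + 2 * g ^ 2 + 2) * (1 + Cr)) ≤
      Real.exp (- γ * (Γ + Kw + 2 * C + K0)) * co := by
    rw [hεdef, div_mul_cancel₀ _ hden.ne']
  obtain ⟨D₀, hD₀⟩ := (eventually_facts A g ε n₀ hε).exists_forall_of_atTop
  refine ⟨D₀, fun D hD ρ _ hρ hw l hl1 hlA => ?_⟩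
  obtain ⟨hD1, hD2, hD3⟩ := hD₀ D hD
  set D' : ℕ := D / 2 with hD'
  have hD'3 : (3 : ℝ) ≤ (D' : ℝ) := by exact_mod_cast hD1
  -- the potential argument
  have hpot : ∀ N a : ℕ, 3 ≤ a → D' + nf g n₀ (D' : ℝ) + 2 ≤ a + N →
      Mp ε (LL D') a ≤ f α C Γ ρ a N := by
    intro N
    induction N using Nat.strong_induction_on with
    | _ N ih =>
      intro a ha haN
      have ha' : (3 : ℝ) ≤ a := by exact_mod_cast ha
      by_cases hDa : D' ≤ a
      · have h1 : LL D' ≤ LL a := LL_mono hD'3 (by exact_mod_cast hDa)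
        have h2 : Mp ε (LL D') a ≤ 0 := by
          unfold Mp
          refine (min_le_right _ _).trans ?_
          rw [max_eq_left (by linarith), mul_zero]
        exact h2.trans f_nonneg
      · push Not at hDa
        have hmono : nf g n₀ (a : ℝ) ≤ nf g n₀ (D' : ℝ) :=
          nf_mono (by linarith) (by exact_mod_cast hDa.le)
        obtain ⟨N', rfl⟩ : ∃ N', N = N' + 1 := ⟨N - 1, by omega⟩
        refine trial hC hg hγg rfl hCr hco hclimb hρ hw hK hK' n₀ hn₀ hε.le hε' (LL D') a N' ha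
          (by omega) fun l hl => ?_
        exact ih (N' - l) (by omega) (a + (l + 1)) (by omega) (by omega)
  -- conclusion
  set l2 := max l 3 with hl2
  have hl2l : l ≤ l2 := le_max_left _ _
  have hl23 : 3 ≤ l2 := le_max_right _ _
  have hl2' : l2 ≤ l + 2 := by omega
  have h1 := hpot (D - (l2 - l)) l2 hl23 (by omega)
  have h2 : f α C Γ ρ l2 (D - (l2 - l)) ≤ f α C Γ ρ l D := by
    have := f_shift_iter (α := α) (C := C) (Γ := Γ) (ρ := ρ) l (D - (l2 - l)) (l2 - l)
    rwa [show l + (l2 - l) = l2 by omega, show D - (l2 - l) + (l2 - l) = D by omega] at this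
  refine le_trans ?_ (h1.trans h2)
  have hD1' : (1 : ℝ) ≤ D := by
    have : 1 ≤ D := by omega
    exact_mod_cast this
  have hlogD : 0 ≤ Real.log (D : ℝ) := Real.log_nonneg hD1'
  have h3 : (l2 : ℝ) ≤ 3 + (|A| + 1) * (1 + Real.log D) := by
    have h4 : (l2 : ℝ) ≤ l + 2 := by exact_mod_cast hl2'
    have h5 : A * (1 + Real.log D) ≤ |A| * (1 + Real.log D) := by
      have := le_abs_self A
      gcongr
    nlinarith
  have h4 : LL l2 ≤ LL (3 + (|A| + 1) * (1 + Real.log D)) :=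
    LL_mono (by exact_mod_cast hl23) h3
  unfold Mp
  refine le_min le_rfl (hD3.trans ?_)
  gcongr
  exact le_trans (by linarith) (le_max_right _ _)

end Pool.Agent.Lib.MP_3d9a2b_pr
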