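import Pool.Agent.Lib.MP_3d9a2b_pr.Ineq

set_option autoImplicit false

namespace Pool.Agent.Lib.MP_3d9a2b_pr

open MeasureTheory ProbabilityTheory Filter Topology
open scoped NNReal ENNReal

/-! ### Task F: change of measure -/

section F

theorem F_measurable_ext (D : ℕ) :
    Measurable (fun (f : (Finset.range D) → ℝ × ℝ) (i : ℕ) =>
      if h : i ∈ Finset.range D then f ⟨i, h⟩ else (0 : ℝ × ℝ)) := by
  refine measurable_pi_lambda _ fun i => ?_
  by_cases h : i ∈ Finset.range D
  · simp only [h, dif_pos]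
    exact measurable_pi_apply _
  · simp only [h, dif_neg, not_false_eq_true]
    exact measurable_const

/-- Density of the product of tilted laws on the first `D` coordinates. -/
theorem F_first (μ : Measure (ℝ × ℝ)) [IsProbabilityMeasure μ] (g : ℝ × ℝ → ℝ≥0∞)
    (hg : Measurable g) [hp : IsProbabilityMeasure (μ.withDensity g)] (D : ℕ) (A : Set Env)
    (hA : MeasurableSet A)
    (hdep : ∀ ζ ζ' : Env, (∀ i < D, ζ i = ζ' i) → (ζ ∈ A ↔ ζ' ∈ A)) :
    nu (μ.withDensity g) A = ∫⁻ ζ in A, ∏ i ∈ Finset.range D, g (ζ i) ∂nu μ := by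
  classical
  set r : Env → ((Finset.range D) → ℝ × ℝ) := (Finset.range D).restrict with hr
  have hrm : Measurable r := Finset.measurable_restrict _
  set ext : ((Finset.range D) → ℝ × ℝ) → Env := fun f i =>
      if h : i ∈ Finset.range D then f ⟨i, h⟩ else (0 : ℝ × ℝ) with hext
  have hem : Measurable ext := F_measurable_ext D
  have hAr : A = r ⁻¹' (ext ⁻¹' A) := by
    ext ζ
    simp only [Set.mem_preimage]
    refine hdep _ _ fun i hi => ?_
    simp only [hext, hr]
    rw [dif_pos (Finset.mem_range.mpr hi)]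
    rfl
  set G : Env → ℝ≥0∞ := fun ζ => ∏ i ∈ Finset.range D, g (ζ i) with hG
  have hGm : Measurable G :=
    Finset.measurable_prod _ fun i _ => hg.comp (measurable_pi_apply i)
  have hmap : ((nu μ).withDensity G).map r = (nu (μ.withDensity g)).map r := by
    have h2 : (nu (μ.withDensity g)).map r =
        Measure.pi (fun _ : (Finset.range D) => μ.withDensity g) := by
      unfold nu
      exact Measure.infinitePi_map_restrict (fun _ : ℕ => μ.withDensity g)
    rw [h2]
    refine (Measure.pi_eq fun s hs => ?_).symm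
    set s' : ℕ → Set (ℝ × ℝ) := fun i =>
      if h : i ∈ Finset.range D then s ⟨i, h⟩ else Set.univ with hs'
    have hs'm : ∀ i, MeasurableSet (s' i) := by
      intro i
      by_cases h : i ∈ Finset.range D
      · simp only [hs', h, dif_pos]; exact hs _
      · simp only [hs', h, dif_neg, not_false_eq_true]; exact MeasurableSet.univ
    have hbox : MeasurableSet (r ⁻¹' (Set.univ.pi s)) :=
      hrm (MeasurableSet.univ_pi hs)
    rw [Measure.map_apply hrm (MeasurableSet.univ_pi hs), withDensity_apply _ hbox,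
      ← lintegral_indicator hbox]
    have hpt : ∀ ζ : Env, (r ⁻¹' (Set.univ.pi s)).indicator G ζ =
        ∏ i ∈ Finset.range D, (s' i).indicator g (ζ i) := by
      intro ζ
      by_cases hζ : ζ ∈ r ⁻¹' (Set.univ.pi s)
      · rw [Set.indicator_of_mem hζ]
        refine Finset.prod_congr rfl fun i hi => ?_
        rw [Set.indicator_of_mem]
        simp only [hs']
        rw [dif_pos hi]
        exact hζ ⟨i, hi⟩ (Set.mem_univ _)
      · rw [Set.indicator_of_notMem hζ]
        simp only [Set.mem_preimage, Set.mem_pi, Set.mem_univ, forall_const, not_forall] at hζ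
        obtain ⟨⟨i, hi⟩, hζi⟩ := hζ
        symm
        refine Finset.prod_eq_zero hi ?_
        rw [Set.indicator_of_notMem]
        simp only [hs']
        rw [dif_pos hi]
        exact hζi
    rw [lintegral_congr hpt]
    have hX : iIndepFun (fun (i : ℕ) (ζ : Env) => (s' i).indicator g (ζ i)) (nu μ) := by
      unfold nu
      exact iIndepFun_infinitePi (P := fun _ : ℕ => μ) (X := fun i z => (s' i).indicator g z)
        (fun i => hg.indicator (hs'm i))
    rw [lintegral_prod_eq_prod_lintegral_of_indepFun _ _ hX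
      (fun i => (hg.indicator (hs'm i)).comp (measurable_pi_apply i))]
    rw [← Finset.prod_coe_sort]
    refine Finset.prod_congr rfl fun i _ => ?_
    have h3 : ∫⁻ ζ, (s' i).indicator g (ζ i) ∂nu μ = ∫⁻ z, (s' i).indicator g z ∂μ := by
      have h4 : (nu μ).map (fun ζ : Env => ζ i) = μ := by
        unfold nu
        exact Measure.infinitePi_map_eval (fun _ : ℕ => μ) (i : ℕ)
      conv_rhs => rw [← h4]
      rw [lintegral_map (hg.indicator (hs'm i)) (measurable_pi_apply _)]
    rw [h3, lintegral_indicator (hs'm i), withDensity_apply _ (hs i)]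
    have h5 : s' i = s i := by
      simp only [hs']
      rw [dif_pos i.2]
    rw [h5]
  calc nu (μ.withDensity g) A = (nu (μ.withDensity g)).map r (ext ⁻¹' A) := by
        rw [Measure.map_apply hrm (hem hA), ← hAr]
    _ = ((nu μ).withDensity G).map r (ext ⁻¹' A) := by rw [hmap]
    _ = (nu μ).withDensity G A := by rw [Measure.map_apply hrm (hem hA), ← hAr]
    _ = ∫⁻ ζ in A, G ζ ∂nu μ := withDensity_apply _ hA

/-- the mirror image -/
def mir (z : ℝ × ℝ) : ℝ × ℝ := (-z.1, z.2)

theorem F_measurable_mir : Measurable mir := measurable_fst.neg.prodMk measurable_snd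

theorem F_S_mir (k : ℕ) (ζ : Env) : S k (fun i => mir (ζ i)) = - S k ζ := by
  unfold S mir
  simp only [Finset.sum_neg_distrib]
  ring

theorem F_mir_mem (α C : ℝ) (l D : ℕ) (Γ : ℝ) (ζ : Env) :
    (fun i => mir (ζ i)) ∈ VA α C l D Γ ↔ ζ ∈ UA α C l D Γ := by
  unfold UA VA
  simp only [Set.mem_ofPred_eq, F_S_mir]
  constructor
  · rintro ⟨i, j, h1, h2, h3⟩
    refine ⟨i, j, h1, h2, ?_⟩
    simp only [mir] at h3
    linarith
  · rintro ⟨i, j, h1, h2, h3⟩
    refine ⟨i, j, h1, h2, ?_⟩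
    simp only [mir]
    linarith

theorem F_measurableSet_VA (α C : ℝ) (l D : ℕ) (Γ : ℝ) : MeasurableSet (VA α C l D Γ) := by
  have h : VA α C l D Γ = ⋃ i : ℕ, ⋃ j : ℕ, {ζ | (i < j ∧ j < D) ∧
      Γ ≤ (S j ζ - S i ζ) - kap α C (l + i) - kap α C (j - i) - (ζ i).2 - (ζ j).2} := by
    ext ζ
    simp only [VA, Set.mem_ofPred_eq, Set.mem_iUnion, and_assoc]
  rw [h]
  refine MeasurableSet.iUnion fun i => MeasurableSet.iUnion fun j => ?_
  refine MeasurableSet.inter (MeasurableSet.const _) ?_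
  exact measurableSet_le measurable_const (((((A_measurable_S j).sub (A_measurable_S i)).sub
    measurable_const).sub measurable_const |>.sub (A_measurable_w i)).sub (A_measurable_w j))

theorem F_measurableSet_UA (α C : ℝ) (l D : ℕ) (Γ : ℝ) : MeasurableSet (UA α C l D Γ) := by
  have hm : Measurable (fun (ζ : Env) (i : ℕ) => mir (ζ i)) :=
    measurable_pi_lambda _ fun i => F_measurable_mir.comp (measurable_pi_apply i)
  have h : UA α C l D Γ = (fun (ζ : Env) (i : ℕ) => mir (ζ i)) ⁻¹' VA α C l D Γ := by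
    ext ζ
    rw [Set.mem_preimage, F_mir_mem]
  rw [h]
  exact hm (F_measurableSet_VA α C l D Γ)

theorem F_S_congr {D k : ℕ} (hk : k ≤ D) {ζ ζ' : Env} (h : ∀ i < D, ζ i = ζ' i) :
    S k ζ = S k ζ' := by
  unfold S
  congr 1
  refine Finset.sum_congr rfl fun i hi => ?_
  rw [h i (by rw [Finset.mem_range] at hi; omega)]

theorem F_UA_congr {α C : ℝ} {l D : ℕ} {Γ : ℝ} {ζ ζ' : Env} (h : ∀ i < D, ζ i = ζ' i)
    (hζ : ζ ∈ UA α C l D Γ) : ζ' ∈ UA α C l D Γ := by
  obtain ⟨i, j, h1, h2, h3⟩ := hζ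
  refine ⟨i, j, h1, h2, ?_⟩
  rw [← F_S_congr (le_of_lt h2) h, ← F_S_congr (le_of_lt (h1.trans h2)) h, ← h i (by omega),
    ← h j h2]
  exact h3

/-- the tilted weight -/
noncomputable def tw (γ : ℝ) (z : ℝ × ℝ) : ℝ≥0∞ := ENNReal.ofReal (Real.exp (-2 * γ * z.1))

theorem F_measurable_tw (γ : ℝ) : Measurable (tw γ) := by
  unfold tw
  exact ENNReal.measurable_ofReal.comp (Real.measurable_exp.comp (measurable_fst.const_mul _))

theorem F_pdf (γ x : ℝ) : gaussianPDF γ 1 x * ENNReal.ofReal (Real.exp (-2 * γ * x)) =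
    gaussianPDF (-γ) 1 x := by
  unfold gaussianPDF
  rw [← ENNReal.ofReal_mul (gaussianPDFReal_nonneg _ _ _)]
  congr 1
  unfold gaussianPDFReal
  rw [mul_assoc, ← Real.exp_add]
  congr 2
  simp only [NNReal.coe_one]
  ring

theorem F_gauss (γ : ℝ) :
    (gaussianReal γ 1).withDensity (fun x => ENNReal.ofReal (Real.exp (-2 * γ * x))) =
      gaussianReal (-γ) 1 := by
  have hm : Measurable (fun x : ℝ => ENNReal.ofReal (Real.exp (-2 * γ * x))) :=
    ENNReal.measurable_ofReal.comp (Real.measurable_exp.comp (measurable_id.const_mul _))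
  rw [gaussianReal_of_var_ne_zero γ (one_ne_zero), gaussianReal_of_var_ne_zero (-γ) (one_ne_zero),
    ← withDensity_mul _ (measurable_gaussianPDF γ 1) hm]
  congr 1
  funext x
  exact F_pdf γ x

theorem F_map_tw (γ : ℝ) (μ : Measure (ℝ × ℝ)) [IsProbabilityMeasure μ]
    (hμ : μ.map Prod.fst = gaussianReal γ 1) :
    (μ.withDensity (tw γ)).map Prod.fst = gaussianReal (-γ) 1 := by
  rw [← F_gauss γ, ← hμ]
  ext s hs
  have hm : Measurable (fun x : ℝ => ENNReal.ofReal (Real.exp (-2 * γ * x))) :=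
    ENNReal.measurable_ofReal.comp (Real.measurable_exp.comp (measurable_id.const_mul _))
  rw [Measure.map_apply measurable_fst hs, withDensity_apply _ (measurable_fst hs),
    withDensity_apply _ hs, setLIntegral_map hs hm measurable_fst]
  rfl

theorem F_prob_tw (γ : ℝ) (μ : Measure (ℝ × ℝ)) [IsProbabilityMeasure μ]
    (hμ : μ.map Prod.fst = gaussianReal γ 1) : IsProbabilityMeasure (μ.withDensity (tw γ)) := by
  constructor
  have h := F_map_tw γ μ hμ
  have h2 : (μ.withDensity (tw γ)).map Prod.fst Set.univ = 1 := by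
    rw [h]; exact measure_univ
  rwa [Measure.map_apply measurable_fst MeasurableSet.univ, Set.preimage_univ] at h2

theorem F_prod_tw (γ : ℝ) (D : ℕ) (ζ : Env) :
    ∏ i ∈ Finset.range D, tw γ (ζ i) = ENNReal.ofReal (Real.exp (γ * S D ζ)) := by
  unfold tw
  rw [← ENNReal.ofReal_prod_of_nonneg (fun i _ => (Real.exp_pos _).le), ← Real.exp_sum]
  congr 2
  unfold S
  rw [Finset.mul_sum, Finset.mul_sum]
  refine Finset.sum_congr rfl fun i _ => ?_
  ring

theorem F_second_moment (m : ℝ) : ∫ x, x ^ 2 ∂gaussianReal m 1 = 1 + m ^ 2 := by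
  have h := variance_eq_sub (μ := gaussianReal m 1) (X := fun x => x)
    (memLp_id_gaussianReal 2)
  rw [variance_fun_id_gaussianReal] at h
  simp only [Pi.pow_apply, integral_id_gaussianReal, NNReal.coe_one] at h
  linarith

theorem F_integrable_sq (m : ℝ) : Integrable (fun x : ℝ => x ^ 2) (gaussianReal m 1) :=
  (memLp_id_gaussianReal 2).integrable_sq

/-- Chebyshev bound under the tilted law. -/
theorem F_cheb (γ : ℝ) (hγ : 0 < γ) (hγ1 : γ ≤ 1) (μt : Measure (ℝ × ℝ)) [IsProbabilityMeasure μt]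
    (h : μt.map Prod.fst = gaussianReal (-γ) 1) (D : ℕ) {v : ℝ} (hv : 0 < v) :
    (nu μt).real {ζ | v ≤ S D ζ} ≤ 8 * D ^ 2 / v ^ 2 := by
  have hev : ∀ i : ℕ, (nu μt).map (fun ζ : Env => (ζ i).1) = gaussianReal (-γ) 1 := by
    intro i
    have h4 : (nu μt).map (fun ζ : Env => ζ i) = μt := by
      unfold nu
      exact Measure.infinitePi_map_eval (fun _ : ℕ => μt) i
    have h6 : (nu μt).map (fun ζ : Env => (ζ i).1) =
        ((nu μt).map (fun ζ : Env => ζ i)).map Prod.fst := by
      rw [Measure.map_map measurable_fst (measurable_pi_apply _)]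
      rfl
    rw [h6, h4, h]
  have hint : ∀ i : ℕ, Integrable (fun ζ : Env => (ζ i).1 ^ 2) (nu μt) := by
    intro i
    have h5 := F_integrable_sq (-γ)
    rw [← hev i] at h5
    exact h5.comp_measurable (A_measurable_x i)
  have hval : ∀ i : ℕ, ∫ ζ, (ζ i).1 ^ 2 ∂nu μt = 1 + γ ^ 2 := by
    intro i
    have h5 := F_second_moment (-γ)
    rw [← hev i, integral_map (A_measurable_x i).aemeasurable
      (by fun_prop)] at h5
    rw [h5]
    ring
  set f : Env → ℝ := fun ζ => 4 * D * ∑ i ∈ Finset.range D, (ζ i).1 ^ 2 with hf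
  have hf0 : ∀ ζ, 0 ≤ f ζ := fun ζ => by
    simp only [hf]
    exact mul_nonneg (by positivity) (Finset.sum_nonneg fun i _ => sq_nonneg _)
  have hfi : Integrable f (nu μt) :=
    (integrable_finsetSum _ fun i _ => hint i).const_mul _
  have hfv : ∫ ζ, f ζ ∂nu μt ≤ 8 * D ^ 2 := by
    simp only [hf]
    rw [integral_const_mul, integral_finsetSum _ fun i _ => hint i]
    simp only [hval, Finset.sum_const, Finset.card_range, nsmul_eq_mul]
    have : γ ^ 2 ≤ 1 := by nlinarith
    nlinarith [sq_nonneg (D : ℝ)]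
  have hsub : {ζ : Env | v ≤ S D ζ} ⊆ {ζ | v ^ 2 ≤ f ζ} := by
    intro ζ hζ
    simp only [Set.mem_ofPred_eq] at hζ ⊢
    have h6 : v ^ 2 ≤ (S D ζ) ^ 2 := by
      exact pow_le_pow_left₀ hv.le hζ 2
    refine h6.trans ?_
    simp only [hf]
    unfold S
    have h7 := sq_sum_le_card_mul_sum_sq (s := Finset.range D) (f := fun i => (ζ i).1)
    rw [Finset.card_range] at h7
    calc (-2 * ∑ i ∈ Finset.range D, (ζ i).1) ^ 2 = 4 * (∑ i ∈ Finset.range D, (ζ i).1) ^ 2 := by
          ring
      _ ≤ 4 * (D * ∑ i ∈ Finset.range D, (ζ i).1 ^ 2) := by linarith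
      _ = _ := by ring
  have h8 := mul_meas_ge_le_integral_of_nonneg (μ := nu μt) (f := f) (ae_of_all _ hf0) hfi (v ^ 2)
  have h9 : (nu μt).real {ζ | v ≤ S D ζ} ≤ (nu μt).real {ζ | v ^ 2 ≤ f ζ} := by
    have : IsProbabilityMeasure (nu μt) := by unfold nu; infer_instance
    exact measureReal_mono hsub
  rw [le_div_iff₀ (by positivity)]
  have h10 : v ^ 2 * (nu μt).real {ζ | v ≤ S D ζ} ≤ v ^ 2 * (nu μt).real {ζ | v ^ 2 ≤ f ζ} :=
    mul_le_mul_of_nonneg_left h9 (by positivity)
  linarith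

theorem F_tail (γ : ℝ) (hγ : 0 < γ) (hγ1 : γ ≤ 1) (Kw : ℝ) (μ : Measure (ℝ × ℝ))
    [IsProbabilityMeasure μ] (hμ : μ.map Prod.fst = gaussianReal γ 1)
    (h0 : ∀ᵐ z ∂μ, 0 ≤ z.2) (hi : Integrable (fun z => z.2) μ) (hK : ∫ z, z.2 ∂μ ≤ Kw) :
    (μ.withDensity (tw γ)).real {z | 4 * Real.exp 4 * (|Kw| + 1) < z.2} ≤ 1 / 2 := by
  set K1 : ℝ := 4 * Real.exp 4 * (|Kw| + 1) with hK1
  have he4 : 0 < Real.exp 4 := Real.exp_pos 4
  have hK1pos : 0 < K1 := by positivity
  set t : ℝ := (Real.exp 4)⁻¹ / 2 with ht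
  have htpos : 0 < t := by positivity
  have hms : MeasurableSet {z : ℝ × ℝ | K1 < z.2} := measurableSet_lt measurable_const measurable_snd
  -- exponential moments
  have hexp : ∀ s : ℝ, Integrable (fun z : ℝ × ℝ => Real.exp (s * z.1)) μ := by
    intro s
    have h1 : Integrable (fun x => Real.exp (s * x)) (gaussianReal γ 1) :=
      integrable_exp_mul_gaussianReal s
    rw [← hμ] at h1
    exact h1.comp_measurable measurable_fst
  have hmgf : ∫ z, Real.exp (-4 * γ * z.1) ∂μ = Real.exp (4 * γ ^ 2) := by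
    have h1 := mgf_gaussianReal (p := μ) (X := Prod.fst) hμ (-4 * γ)
    unfold mgf at h1
    rw [h1]
    congr 1
    simp only [NNReal.coe_one]
    ring
  have h1 : (μ.withDensity (tw γ)).real {z | K1 < z.2} =
      ∫ z in {z : ℝ × ℝ | K1 < z.2}, Real.exp (-2 * γ * z.1) ∂μ := by
    rw [measureReal_def, withDensity_apply _ hms,
      integral_eq_lintegral_of_nonneg_ae (ae_of_all _ fun z => (Real.exp_pos _).le)
        ((hexp (-2 * γ)).aestronglyMeasurable.restrict)]
    rfl
  rw [h1, ← integral_indicator hms]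
  have hgi : Integrable (fun z : ℝ × ℝ => t / 2 * Real.exp (-4 * γ * z.1) +
      (2 * t * K1)⁻¹ * z.2) μ := ((hexp (-4 * γ)).const_mul _).add (hi.const_mul _)
  have hle : ∫ z, {z : ℝ × ℝ | K1 < z.2}.indicator (fun z => Real.exp (-2 * γ * z.1)) z ∂μ ≤
      ∫ z, (t / 2 * Real.exp (-4 * γ * z.1) + (2 * t * K1)⁻¹ * z.2) ∂μ := by
    refine integral_mono_ae ((hexp (-2 * γ)).indicator hms) hgi ?_
    filter_upwards [h0] with z hz
    by_cases hzK : z ∈ {z : ℝ × ℝ | K1 < z.2}
    · rw [Set.indicator_of_mem hzK]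
      simp only [Set.mem_ofPred_eq] at hzK
      set A := Real.exp (-2 * γ * z.1) with hA
      have hA2 : Real.exp (-4 * γ * z.1) = A ^ 2 := by
        rw [hA, ← Real.exp_nat_mul]
        congr 1
        push_cast
        ring
      rw [hA2]
      have h2 : (2 * t)⁻¹ ≤ (2 * t * K1)⁻¹ * z.2 := by
        rw [mul_inv (2 * t) K1, mul_assoc]
        have h3 : 1 ≤ K1⁻¹ * z.2 := by
          rw [inv_mul_eq_div, le_div_iff₀ hK1pos]
          linarith
        have h4 : 0 < (2 * t)⁻¹ := by positivity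
        nlinarith
      have h5 : A ≤ t / 2 * A ^ 2 + (2 * t)⁻¹ := by
        have h6 : 0 ≤ (t * A - 1) ^ 2 / (2 * t) := by positivity
        have h7 : (t * A - 1) ^ 2 / (2 * t) = t / 2 * A ^ 2 + (2 * t)⁻¹ - A := by
          field_simp
          ring
        linarith
      linarith
    · rw [Set.indicator_of_notMem hzK]
      have h2 : 0 ≤ (2 * t * K1)⁻¹ * z.2 := mul_nonneg (by positivity) hz
      have h3 : 0 ≤ t / 2 * Real.exp (-4 * γ * z.1) := by positivity
      linarith
  refine hle.trans ?_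
  rw [integral_add ((hexp (-4 * γ)).const_mul _) (hi.const_mul _), integral_const_mul,
    integral_const_mul, hmgf]
  have h2 : Real.exp (4 * γ ^ 2) ≤ Real.exp 4 := by
    apply Real.exp_le_exp.mpr
    nlinarith
  have h3 : t / 2 * Real.exp (4 * γ ^ 2) ≤ 1 / 4 := by
    calc t / 2 * Real.exp (4 * γ ^ 2) ≤ t / 2 * Real.exp 4 :=
          mul_le_mul_of_nonneg_left h2 (by positivity)
      _ = 1 / 4 := by
          rw [ht]
          field_simp
          norm_num
  have h4 : (2 * t * K1)⁻¹ * ∫ z, z.2 ∂μ ≤ 1 / 4 := by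
    have h5 : 2 * t * K1 = 4 * (|Kw| + 1) := by
      rw [ht, hK1]
      field_simp
    rw [h5, inv_mul_eq_div, div_le_iff₀ (by positivity)]
    have := le_abs_self Kw
    linarith
  linarith

end F

theorem tilt (γ : ℝ) (hγ : 0 < γ) (hγ1 : γ ≤ 1) (Kw : ℝ) : ∃ K1 : ℝ,
    ∀ (μ : Measure (ℝ × ℝ)) [IsProbabilityMeasure μ], μ.map Prod.fst = gaussianReal γ 1 →
      (∀ᵐ z ∂μ, 0 ≤ z.2) → Integrable (fun z => z.2) μ → ∫ z, z.2 ∂μ ≤ Kw →
      ∃ ρ : Measure (ℝ × ℝ), IsProbabilityMeasure ρ ∧ ρ.map Prod.fst = gaussianReal γ 1 ∧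
        1 / 2 ≤ ρ.real {z | z.2 ≤ K1} ∧
        ∀ (α C : ℝ) (l D : ℕ) (Γ v : ℝ), 0 < v →
          (nu ρ).real (VA α C l D Γ) - 8 * D ^ 2 / v ^ 2 ≤
            ∫ ζ in UA α C l D Γ ∩ {ζ | S D ζ < v}, Real.exp (γ * S D ζ) ∂nu μ := by
  refine ⟨4 * Real.exp 4 * (|Kw| + 1), ?_⟩
  intro μ hμp hμ h0 hi hK
  have hpt := F_prob_tw γ μ hμ
  set μt := μ.withDensity (tw γ) with hμt
  have hmt : μt.map Prod.fst = gaussianReal (-γ) 1 := F_map_tw γ μ hμ
  have hpρ : IsProbabilityMeasure (μt.map mir) :=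
    Measure.isProbabilityMeasure_map F_measurable_mir.aemeasurable
  refine ⟨μt.map mir, hpρ, ?_, ?_, ?_⟩
  · rw [Measure.map_map measurable_fst F_measurable_mir]
    have h1 : (Prod.fst ∘ mir : ℝ × ℝ → ℝ) = (fun x => -x) ∘ Prod.fst := by
      funext z; rfl
    rw [h1, ← Measure.map_map measurable_neg measurable_fst, hmt, gaussianReal_map_neg, neg_neg]
  · have hms : MeasurableSet {z : ℝ × ℝ | z.2 ≤ 4 * Real.exp 4 * (|Kw| + 1)} :=
      measurableSet_le measurable_snd measurable_const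
    rw [map_measureReal_apply F_measurable_mir hms]
    have h1 : mir ⁻¹' {z : ℝ × ℝ | z.2 ≤ 4 * Real.exp 4 * (|Kw| + 1)} =
        {z : ℝ × ℝ | 4 * Real.exp 4 * (|Kw| + 1) < z.2}ᶜ := by
      ext z
      simp [mir]
    rw [h1, probReal_compl_eq_one_sub (measurableSet_lt measurable_const measurable_snd)]
    have h2 := F_tail γ hγ hγ1 Kw μ hμ h0 hi hK
    rw [← hμt] at h2
    linarith
  · intro α C l D Γ v hv
    have hnuρ : nu (μt.map mir) = (nu μt).map (fun ζ i => mir (ζ i)) := by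
      unfold nu
      exact (Measure.infinitePi_map_pi (fun _ : ℕ => μt) (fun _ => F_measurable_mir)).symm
    have hmm : Measurable (fun (ζ : Env) (i : ℕ) => mir (ζ i)) :=
      measurable_pi_lambda _ fun i => F_measurable_mir.comp (measurable_pi_apply i)
    have : IsProbabilityMeasure (nu μt) := by unfold nu; infer_instance
    have : IsProbabilityMeasure (nu μ) := by unfold nu; infer_instance
    have h1 : (nu (μt.map mir)).real (VA α C l D Γ) = (nu μt).real (UA α C l D Γ) := by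
      rw [hnuρ, map_measureReal_apply hmm (F_measurableSet_VA α C l D Γ)]
      congr 1
      ext ζ
      rw [Set.mem_preimage, F_mir_mem]
    set A : Set Env := UA α C l D Γ ∩ {ζ | S D ζ < v} with hA
    have hAm : MeasurableSet A := (F_measurableSet_UA α C l D Γ).inter
      (measurableSet_lt (A_measurable_S D) measurable_const)
    have hdep : ∀ ζ ζ' : Env, (∀ i < D, ζ i = ζ' i) → (ζ ∈ A ↔ ζ' ∈ A) := by
      intro ζ ζ' h
      have hS := F_S_congr (le_refl D) h
      constructor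
      · rintro ⟨h2, h3⟩
        refine ⟨F_UA_congr h h2, ?_⟩
        simp only [Set.mem_ofPred_eq] at h3 ⊢
        rw [← hS]; exact h3
      · rintro ⟨h2, h3⟩
        refine ⟨F_UA_congr (fun i hi => (h i hi).symm) h2, ?_⟩
        simp only [Set.mem_ofPred_eq] at h3 ⊢
        rw [hS]; exact h3
    have h2 : (nu μt).real A = ∫ ζ in A, Real.exp (γ * S D ζ) ∂nu μ := by
      rw [measureReal_def, F_first μ (tw γ) (F_measurable_tw γ) D A hAm hdep,
        integral_eq_lintegral_of_nonneg_ae (ae_of_all _ fun z => (Real.exp_pos _).le)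
          (Real.measurable_exp.comp ((A_measurable_S D).const_mul γ)).aestronglyMeasurable]
      congr 1
      refine lintegral_congr fun ζ => ?_
      rw [F_prod_tw]
    have h3 : (nu μt).real (UA α C l D Γ) ≤ (nu μt).real A + (nu μt).real {ζ | v ≤ S D ζ} := by
      refine (measureReal_mono ?_).trans (measureReal_union_le _ _)
      intro ζ hζ
      by_cases h4 : S D ζ < v
      · exact Or.inl ⟨hζ, h4⟩
      · exact Or.inr (not_lt.mp h4)
    have h5 := F_cheb γ hγ hγ1 μt hmt D hv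
    rw [h1, ← h2]
    linarith

end Pool.Agent.Lib.MP_3d9a2b_pr
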