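import Pool.Agent.Lib.MP_3d9a2b_pr.Law
import Pool.Agent.Lib.MP_3d9a2b_pr.StageA
import Pool.Agent.Lib.MP_3d9a2b_pr.Tilt

set_option autoImplicit false

namespace Pool.Agent.Lib.MP_3d9a2b_pr

open MeasureTheory ProbabilityTheory Filter Topology
open scoped NNReal ENNReal

/-- slope of `log²` -/
lemma sq_log_le {a t : ℝ} (ha : 3 ≤ a) (ht : 0 ≤ t) :
    (Real.log (a + t)) ^ 2 ≤ (Real.log a) ^ 2 + 2 * Real.log a / a * t := by
  rcases ht.eq_or_lt with rfl | ht
  · simp
  have he : Real.exp 1 ≤ a := by
    have := Real.exp_one_lt_d9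
    linarith
  have hder : ∀ x ∈ Set.Ioo a (a + t), HasDerivAt (fun x => (Real.log x) ^ 2)
      (2 * Real.log x / x) x := by
    intro x hx
    have hx0 : x ≠ 0 := by
      have := hx.1
      intro h; rw [h] at this; linarith
    have := (Real.hasDerivAt_log hx0).pow 2
    refine this.congr_deriv ?_
    simp [div_eq_mul_inv]
  have hcont : ContinuousOn (fun x => (Real.log x) ^ 2) (Set.Icc a (a + t)) := by
    apply ContinuousOn.pow
    apply Real.continuousOn_log.mono
    intro x hx
    simp only [Set.mem_compl_iff, Set.mem_singleton_iff]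
    intro h
    have := hx.1
    rw [h] at this; linarith
  obtain ⟨c, hc, hc2⟩ := exists_hasDerivAt_eq_slope (fun x => (Real.log x) ^ 2)
    (fun x => 2 * Real.log x / x) (by linarith : a < a + t) hcont hder
  have hc3 : Real.log c / c ≤ Real.log a / a :=
    Real.log_div_self_antitoneOn he (le_trans he hc.1.le) hc.1.le
  have hc4 : 2 * Real.log c / c = 2 * (Real.log c / c) := by ring
  have hc5 : 2 * Real.log a / a = 2 * (Real.log a / a) := by ring
  rw [hc4] at hc2
  rw [hc5]
  have h6 : (a + t - a) = t := by ring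
  rw [h6, eq_div_iff ht.ne'] at hc2
  nlinarith

/-- The conclusion of `climb` for fixed constants. -/
def ClimbProp (γ Cr co Cn : ℝ) : Prop :=
    ∀ (k : ℕ → ℝ → ℝ) (M σ G u y₀ : ℝ) (n : ℕ), 0 ≤ σ → 0 ≤ G → y₀ < u →
      (u - y₀) / γ + Cn ≤ n →
      (∀ l < n, ∀ y, Integrable (fun x => k (l + 1) (y - 2 * x)) (gaussianReal γ 1)) →
      (∀ l < n, ∀ y, ∫ x, k (l + 1) (y - 2 * x) ∂(gaussianReal γ 1) ≤ k l y) →
      (∀ l ≤ n, ∀ y, M - σ * l ≤ k l y) →
      (∀ l ≤ n, ∀ y, u ≤ y → M - σ * l + G ≤ k l y) →
      M - σ * Cr + G * co * Real.exp (- γ * (u - y₀)) ≤ k 0 y₀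

lemma measurable_S (D : ℕ) : Measurable (S D) := by
  unfold S
  fun_prop

lemma measurable_S' (D : ℕ) : Measurable (fun ζ : Env => S D ζ) := measurable_S D

lemma measurableSet_UA (α C : ℝ) (l D : ℕ) (Γ : ℝ) : MeasurableSet (UA α C l D Γ) := by
  have : UA α C l D Γ = ⋃ i : ℕ, ⋃ j : ℕ, ⋃ (_ : i < j ∧ j < D), {ζ : Env |
    Γ ≤ - kap α C (l + i) - kap α C (j - i) - (ζ i).2 - (ζ j).2 - (S j ζ - S i ζ)} := by
    ext ζ
    simp only [UA, Set.mem_ofPred_eq, Set.mem_iUnion, exists_prop, and_assoc]
  rw [this]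
  refine MeasurableSet.iUnion fun i => MeasurableSet.iUnion fun j => MeasurableSet.iUnion fun _ => ?_
  apply measurableSet_le measurable_const
  have h1 := measurable_S' i
  have h2 := measurable_S' j
  fun_prop

/-- One trial of the search, in abstract form. -/
theorem trial {α C γ Cr co Cn : ℝ} (hγ : 0 < γ) (hco : 0 < co)
    (hcl : ClimbProp γ Cr co Cn)
    (μ : Measure (ℝ × ℝ)) [IsProbabilityMeasure μ] (hx : μ.map Prod.fst = gaussianReal γ 1)
    (hw : Integrable (fun z : ℝ × ℝ => z.2) μ)
    (k : ℕ → ℝ → ℝ) (M σ G u r K0 Γ v hval : ℝ) (La nr nf DA : ℕ)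
    (hσ : 0 ≤ σ) (hG : 0 ≤ G) (hCr : 0 ≤ Cr)
    (hlip : ∀ l y y', |k l y - k l y'| ≤ |y - y'|)
    (hmono : ∀ l y y', y ≤ y' → k l y ≤ k l y')
    (hstep : ∀ l, 1 ≤ l → l < La → ∀ y, ∫ z, k (l + 1) (y - 2 * z.1) ∂μ ≤ k l y)
    (hab : ∀ l, 1 ≤ l → l ≤ La → ∀ y, M - σ * l ≤ k l y)
    (hfin : ∀ l ≤ La, 1 ≤ l → ∀ y, u ≤ y → M + G ≤ k l y)
    (hflip : open Classical in ∀ l, 1 ≤ l → l + DA ≤ La → ∀ y,
      ∫ ζ, k (l + DA) (y + S DA ζ + (if ζ ∈ UA α C l DA Γ then Γ else 0)) ∂nu μ ≤ k l y)
    (hstart : ∫ z, k 1 (- z.2 - 2 * z.1) ∂μ ≤ hval)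
    (hK0 : 1 / 2 ≤ μ.real {z | - K0 ≤ - z.2 - 2 * z.1})
    (hW : ∀ l : ℕ, 1 ≤ l → l ≤ 1 + nr →
      1 / 8 ≤ ∫ ζ in UA α C l DA Γ ∩ {ζ | |S DA ζ| < v}, Real.exp (γ * S DA ζ) ∂nu μ)
    (hnr : (r + K0) / γ + Cn ≤ nr) (hrK : 0 < r + K0)
    (hnf : (u - (r - v + Γ)) / γ + Cn ≤ nf) (hu : r + v + Γ < u)
    (hLa : 1 + nr + DA + nf ≤ La)
    (hG' : 0 ≤ G * co * Real.exp (-γ * (u - r - Γ)) / 8 - σ * (DA + Cr)) :
    M - σ - σ * Cr + (G * co * Real.exp (-γ * (u - r - Γ)) / 8 - σ * (DA + Cr)) * co *
      Real.exp (- γ * (r + K0)) / 2 ≤ hval := by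
  classical
  have hmk : ∀ l, Continuous (k l) := by
    intro l
    have : LipschitzWith 1 (k l) := by
      apply LipschitzWith.of_dist_le_mul
      intro y y'
      rw [Real.dist_eq, Real.dist_eq]
      simpa using hlip l y y'
    exact this.continuous
  have hgi : Integrable (fun x : ℝ => x) (gaussianReal γ 1) := by
    have := memLp_id_gaussianReal (μ := γ) (v := 1) 1
    exact memLp_one_iff_integrable.mp (by exact_mod_cast this)
  have hxi : Integrable (fun z : ℝ × ℝ => z.1) μ := by
    have h1 : Integrable (fun x : ℝ => x) (μ.map Prod.fst) := by rw [hx]; exact hgi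
    exact h1.comp_measurable measurable_fst
  -- integrability of `k l` composed with an affine function
  have hki : ∀ l y, Integrable (fun x => k l (y - 2 * x)) (gaussianReal γ 1) := by
    intro l y
    have h1 : Integrable (fun x : ℝ => |k l y| + 2 * |x|) (gaussianReal γ 1) :=
      (integrable_const _).add (hgi.abs.const_mul 2)
    refine h1.mono' ((hmk l).comp (by fun_prop)).measurable.aestronglyMeasurable ?_
    filter_upwards with x
    rw [Real.norm_eq_abs]
    have h2 := hlip l (y - 2 * x) y
    have h3 : |y - 2 * x - y| = 2 * |x| := by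
      rw [show y - 2 * x - y = -(2 * x) by ring, abs_neg, abs_mul]; norm_num
    have h4 := abs_sub_abs_le_abs_sub (k l (y - 2 * x)) (k l y)
    rw [h3] at h2
    linarith
  have hmapint : ∀ l y, ∫ x, k l (y - 2 * x) ∂(gaussianReal γ 1)
      = ∫ z, k l (y - 2 * z.1) ∂μ := by
    intro l y
    rw [← hx, integral_map measurable_fst.aemeasurable]
    exact ((hmk l).comp (by fun_prop)).measurable.aestronglyMeasurable
  -- final climb
  have hfinal : ∀ l1 : ℕ, 1 ≤ l1 → l1 + nf ≤ La → ∀ y, r - v + Γ ≤ y → y < u →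
      M - σ * l1 - σ * Cr + G * co * Real.exp (-γ * (u - y)) ≤ k l1 y := by
    intro l1 hl1 hl1' y hy1 hy2
    have := hcl (fun j y => k (l1 + j) y) (M - σ * l1) σ G u y nf hσ hG hy2 ?_ ?_ ?_ ?_ ?_
    · simpa using this
    · refine le_trans ?_ hnf
      have : (u - y) / γ ≤ (u - (r - v + Γ)) / γ := by
        apply div_le_div_of_nonneg_right _ hγ.le
        linarith
      linarith
    · intro j _ y
      exact hki _ _
    · intro j hj y
      rw [show l1 + (j + 1) = (l1 + j) + 1 by ring, hmapint]
      exact hstep _ (by omega) (by omega) _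
    · intro j hj y
      have := hab (l1 + j) (by omega) (by omega) y
      push_cast at this
      linarith
    · intro j hj y hy
      have := hfin (l1 + j) (by omega) (by omega) y hy
      have h2 : 0 ≤ σ * l1 := by positivity
      have h3 : 0 ≤ σ * j := by positivity
      linarith
  -- internal phase
  have hphase1 : ∀ l : ℕ, 1 ≤ l → l ≤ 1 + nr → ∀ y, r ≤ y →
      M - σ * l + (G * co * Real.exp (-γ * (u - r - Γ)) / 8 - σ * (DA + Cr)) ≤ k l y := by
    intro l hl hl' y hy
    refine le_trans ?_ (hmono l r y hy)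
    refine le_trans ?_ (hflip l hl (by omega) r)
    set B := UA α C l DA Γ ∩ {ζ | |S DA ζ| < v} with hB
    have hBm : MeasurableSet B := by
      refine (measurableSet_UA α C l DA Γ).inter ?_
      exact measurableSet_lt (measurable_S DA).abs measurable_const
    have hpt : ∀ ζ : Env, (M - σ * (l + DA) - σ * Cr) +
        B.indicator (fun ζ => G * co * Real.exp (-γ * (u - r - Γ)) *
          Real.exp (γ * S DA ζ)) ζ ≤
        k (l + DA) (r + S DA ζ + (if ζ ∈ UA α C l DA Γ then Γ else 0)) := by
      intro ζ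
      by_cases hζ : ζ ∈ B
      · rw [Set.indicator_of_mem hζ]
        have h1 : ζ ∈ UA α C l DA Γ := hζ.1
        have h2 : |S DA ζ| < v := hζ.2
        rw [abs_lt] at h2
        rw [if_pos h1]
        have := hfinal (l + DA) (by omega) (by omega) (r + S DA ζ + Γ) (by linarith)
          (by linarith)
        refine le_trans (le_of_eq ?_) this
        push_cast
        rw [show -γ * (u - (r + S DA ζ + Γ)) = -γ * (u - r - Γ) + γ * S DA ζ by ring,
          Real.exp_add]
        ring
      · rw [Set.indicator_of_notMem hζ]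
        have h1 := hab (l + DA) (by omega) (by omega) (r + S DA ζ + (if ζ ∈ UA α C l DA Γ then Γ else 0))
        push_cast at h1
        have : 0 ≤ σ * Cr := by positivity
        linarith
    have hcoord : ∀ i : ℕ, Integrable (fun ζ : Env => (ζ i).1) (nu μ) := by
      intro i
      have h1 : MeasurePreserving (fun ζ : Env => ζ i) (nu μ) μ :=
        measurePreserving_eval_infinitePi (fun _ : ℕ => μ) i
      exact h1.integrable_comp_of_integrable hxi
    have hSi : Integrable (fun ζ => S DA ζ) (nu μ) := by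
      unfold S
      exact (integrable_finsetSum _ fun i _ => hcoord i).const_mul _
    have hprob : IsProbabilityMeasure (nu μ) := by unfold nu; infer_instance
    have hLi : Integrable (B.indicator (fun ζ => G * co * Real.exp (-γ * (u - r - Γ)) *
          Real.exp (γ * S DA ζ))) (nu μ) := by
      have hc : Integrable (fun _ : Env => G * co * Real.exp (-γ * (u - r - Γ)) *
          Real.exp (γ * v)) (nu μ) := integrable_const _
      refine hc.mono' ?_ ?_
      · refine (Measurable.indicator ?_ hBm).aestronglyMeasurable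
        have := measurable_S' DA
        fun_prop
      · filter_upwards with ζ
        by_cases hζ : ζ ∈ B
        · rw [Set.indicator_of_mem hζ, Real.norm_eq_abs, abs_of_nonneg (by positivity)]
          have h2 : |S DA ζ| < v := hζ.2
          rw [abs_lt] at h2
          have : Real.exp (γ * S DA ζ) ≤ Real.exp (γ * v) := by
            apply Real.exp_le_exp.mpr
            nlinarith
          gcongr
        · rw [Set.indicator_of_notMem hζ, norm_zero]
          positivity
    have hRi : Integrable (fun ζ => k (l + DA)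
        (r + S DA ζ + (if ζ ∈ UA α C l DA Γ then Γ else 0))) (nu μ) := by
      have hb : Integrable (fun ζ : Env => |k (l + DA) 0| + (|r| + |S DA ζ| + |Γ|)) (nu μ) :=
        (integrable_const _).add (((integrable_const _).add hSi.abs).add (integrable_const _))
      refine hb.mono' ?_ ?_
      · apply Measurable.aestronglyMeasurable
        apply (hmk _).measurable.comp
        apply Measurable.add
        · have := measurable_S' DA
          fun_prop
        · exact Measurable.ite (measurableSet_UA α C l DA Γ) measurable_const measurable_const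
      · filter_upwards with ζ
        rw [Real.norm_eq_abs]
        set q := (if ζ ∈ UA α C l DA Γ then Γ else 0) with hq
        have hq' : |q| ≤ |Γ| := by
          rw [hq]; split_ifs
          · exact le_rfl
          · simp
        have h2 := hlip (l + DA) (r + S DA ζ + q) 0
        have h4 := abs_sub_abs_le_abs_sub (k (l + DA) (r + S DA ζ + q)) (k (l + DA) 0)
        have h5 : |r + S DA ζ + q - 0| ≤ |r| + |S DA ζ| + |q| := by
          rw [sub_zero]
          exact (abs_add_le _ _).trans (by gcongr; exact abs_add_le _ _)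
        linarith
    have hint := integral_mono ((integrable_const (M - σ * (l + DA) - σ * Cr)).add hLi) hRi hpt
    refine le_trans ?_ hint
    rw [integral_add' (integrable_const _) hLi, integral_indicator hBm, integral_const_mul,
      integral_const, probReal_univ, one_smul]
    have hW' := hW l hl hl'
    have : 0 ≤ G * co * Real.exp (-γ * (u - r - Γ)) := by positivity
    nlinarith
  -- first climb
  have hphase0 : M - σ - σ * Cr + (G * co * Real.exp (-γ * (u - r - Γ)) / 8 - σ * (DA + Cr)) *
      co * Real.exp (- γ * (r + K0)) ≤ k 1 (-K0) := by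
    have := hcl (fun j y => k (1 + j) y) (M - σ) σ
      (G * co * Real.exp (-γ * (u - r - Γ)) / 8 - σ * (DA + Cr)) r (-K0) nr hσ hG' (by linarith)
      (by rw [sub_neg_eq_add]; exact hnr) ?_ ?_ ?_ ?_
    · simpa using this
    · intro j _ y
      exact hki _ _
    · intro j hj y
      rw [show 1 + (j + 1) = (1 + j) + 1 by ring, hmapint]
      exact hstep _ (by omega) (by omega) _
    · intro j hj y
      have := hab (1 + j) (by omega) (by omega) y
      push_cast at this
      linarith
    · intro j hj y hy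
      have := hphase1 (1 + j) (by omega) (by omega) y hy
      push_cast at this
      linarith
  -- start
  refine le_trans ?_ hstart
  set Q := (G * co * Real.exp (-γ * (u - r - Γ)) / 8 - σ * (DA + Cr)) * co *
      Real.exp (- γ * (r + K0)) with hQ
  have hQ0 : 0 ≤ Q := by positivity
  set T := {z : ℝ × ℝ | - K0 ≤ - z.2 - 2 * z.1} with hT
  have hTm : MeasurableSet T := measurableSet_le measurable_const (by fun_prop)
  have hpt : ∀ z : ℝ × ℝ, (M - σ - σ * Cr) + T.indicator (fun _ => Q) z ≤
      k 1 (- z.2 - 2 * z.1) := by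
    intro z
    by_cases hz : z ∈ T
    · rw [Set.indicator_of_mem hz]
      exact hphase0.trans (hmono _ _ _ hz)
    · rw [Set.indicator_of_notMem hz]
      have := hab 1 le_rfl (by omega) (- z.2 - 2 * z.1)
      have h3 : 0 ≤ σ * Cr := by positivity
      push_cast at this
      linarith
  have hLi : Integrable (T.indicator (fun _ => Q)) μ := (integrable_const Q).indicator hTm
  have hRi : Integrable (fun z : ℝ × ℝ => k 1 (- z.2 - 2 * z.1)) μ := by
    have hb : Integrable (fun z : ℝ × ℝ => |k 1 0| + (|z.2| + 2 * |z.1|)) μ :=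
      (integrable_const _).add (hw.abs.add (hxi.abs.const_mul 2))
    refine hb.mono' ?_ ?_
    · apply Measurable.aestronglyMeasurable
      apply (hmk _).measurable.comp
      fun_prop
    · filter_upwards with z
      rw [Real.norm_eq_abs]
      have h2 := hlip 1 (- z.2 - 2 * z.1) 0
      have h4 := abs_sub_abs_le_abs_sub (k 1 (- z.2 - 2 * z.1)) (k 1 0)
      have h5 : |- z.2 - 2 * z.1 - 0| ≤ |z.2| + 2 * |z.1| := by
        rw [sub_zero]
        calc |- z.2 - 2 * z.1| ≤ |-z.2| + |2 * z.1| := abs_sub _ _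
          _ = |z.2| + 2 * |z.1| := by rw [abs_neg, abs_mul]; norm_num
      linarith
  have hint := integral_mono ((integrable_const (M - σ - σ * Cr)).add hLi) hRi hpt
  refine le_trans ?_ hint
  rw [integral_add' (integrable_const _) hLi, integral_indicator hTm, integral_const,
    probReal_univ, one_smul, setIntegral_const, smul_eq_mul]
  nlinarith

end Pool.Agent.Lib.MP_3d9a2b_pr
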