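import Pool.Agent.Lib.MP_3d9a2b_pr.StageB

set_option autoImplicit false

namespace Pool.Agent.Lib.MP_3d9a2b_pr

open MeasureTheory ProbabilityTheory Filter Topology
open scoped NNReal ENNReal

lemma eventually_params (α C γ U c1 c3 CL : ℝ) (hα : 0 < α) (hγ : γ = 1 / (1 + α))
    (hCL : CL = 2 * ((1 + α) / γ) + 1) :
    ∀ᶠ a : ℕ in atTop, 3 ≤ a ∧
      c1 < U + kap α C a + kap α C ⌈CL * Real.log a⌉₊ ∧
      (U + kap α C a + kap α C ⌈CL * Real.log a⌉₊) / γ + c3 ≤ CL * Real.log a ∧
      ⌈CL * Real.log a⌉₊ ≤ a ∧ 1 ≤ ⌈CL * Real.log a⌉₊ ∧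
      Real.exp (-γ * (U + 2 * C)) / (2 * CL) / (a * Real.log a) ≤
        Real.exp (-γ * (U + kap α C a + kap α C ⌈CL * Real.log a⌉₊)) := by
  have hγ0 : 0 < γ := by rw [hγ]; positivity
  have hγα : γ * (1 + α) = 1 := by rw [hγ]; field_simp
  have hCL0 : 1 ≤ CL := by
    rw [hCL]
    have : 0 ≤ (1 + α) / γ := by positivity
    linarith
  have hlog : Tendsto (fun a : ℕ => Real.log a) atTop atTop :=
    Real.tendsto_log_atTop.comp tendsto_natCast_atTop_atTop
  have h1 : ∀ᶠ a : ℕ in atTop, (U + 2 * C) / γ + c3 + (1 + α) / γ * Real.log (2 * CL) + 1 ≤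
      Real.log a := hlog.eventually_ge_atTop _
  have h2 : ∀ᶠ a : ℕ in atTop, c1 - U - 2 * C + 1 ≤ Real.log a := hlog.eventually_ge_atTop _
  have h3 : ∀ᶠ a : ℕ in atTop, CL * Real.log a + 1 ≤ a := by
    have ho : (fun x : ℝ => Real.log x) =o[atTop] (fun x : ℝ => x) := Real.isLittleO_log_id_atTop
    have hb := ho.bound (c := 1 / (2 * CL)) (by positivity)
    have hb' := tendsto_natCast_atTop_atTop (R := ℝ) |>.eventually hb
    filter_upwards [hb', eventually_ge_atTop 3] with a ha ha3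
    have ha3' : (3 : ℝ) ≤ a := by exact_mod_cast ha3
    rw [Real.norm_eq_abs, Real.norm_eq_abs, abs_of_nonneg (Real.log_nonneg (by linarith)),
      abs_of_nonneg (by linarith)] at ha
    have : CL * Real.log a ≤ CL * (1 / (2 * CL) * a) := by gcongr
    have h5 : CL * (1 / (2 * CL) * a) = a / 2 := by field_simp
    linarith
  have h4 : ∀ᶠ a : ℕ in atTop, 1 ≤ Real.log a := hlog.eventually_ge_atTop _
  filter_upwards [h1, h2, h3, h4, eventually_ge_atTop 3] with a h1 h2 h3 h4 ha3
  set La := ⌈CL * Real.log a⌉₊ with hLa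
  have ha3' : (3 : ℝ) ≤ a := by exact_mod_cast ha3
  have ha0 : (0 : ℝ) < a := by linarith
  have hpos : 1 ≤ CL * Real.log a := by nlinarith
  have hLa1 : (La : ℝ) ≤ CL * Real.log a + 1 := (Nat.ceil_lt_add_one (by linarith)).le
  have hLa2 : CL * Real.log a ≤ La := Nat.le_ceil _
  have hLa3 : 1 ≤ La := by
    have : (1 : ℝ) ≤ La := hpos.trans hLa2
    exact_mod_cast this
  have hLa3' : (1 : ℝ) ≤ La := by exact_mod_cast hLa3
  have hLa4 : (La : ℝ) ≤ 2 * CL * Real.log a := by linarith
  have hlogLa0 : 0 ≤ Real.log La := Real.log_nonneg hLa3'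
  have hlogLa : Real.log La ≤ Real.log (2 * CL) + (Real.log a - 1) := by
    calc Real.log La ≤ Real.log (2 * CL * Real.log a) := Real.log_le_log (by linarith) hLa4
      _ = Real.log (2 * CL) + Real.log (Real.log a) :=
          Real.log_mul (by positivity) (by positivity)
      _ ≤ _ := by gcongr; exact Real.log_le_sub_one_of_pos (by linarith)
  have hlogCL : 0 ≤ Real.log (2 * CL) := Real.log_nonneg (by linarith)
  have hkap : U + kap α C a + kap α C La = U + 2 * C + (1 + α) * (Real.log a + Real.log La) := by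
    unfold kap; ring
  refine ⟨ha3, ?_, ?_, ?_, hLa3, ?_⟩
  · rw [hkap]
    nlinarith
  · rw [hkap]
    have h6 : (U + 2 * C + (1 + α) * (Real.log a + Real.log La)) / γ
        = (U + 2 * C) / γ + (1 + α) / γ * (Real.log a + Real.log La) := by ring
    have h7 : (1 + α) / γ * (Real.log a + Real.log La) ≤
        (1 + α) / γ * (Real.log a + (Real.log (2 * CL) + (Real.log a - 1))) := by gcongr
    have h8 : 0 ≤ (1 + α) / γ := by positivity
    rw [h6, hCL]
    rw [hCL] at h1 h7
    nlinarith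
  · have : (La : ℝ) ≤ a := hLa1.trans h3
    exact_mod_cast this
  · rw [hkap]
    have h9 : -γ * (U + 2 * C + (1 + α) * (Real.log a + Real.log La)) =
        -γ * (U + 2 * C) + -(Real.log a + Real.log La) := by
      have : γ * ((1 + α) * (Real.log a + Real.log La)) = Real.log a + Real.log La := by
        rw [← mul_assoc, hγα, one_mul]
      linarith
    rw [h9, Real.exp_add, Real.exp_neg, Real.exp_add, Real.exp_log ha0,
      Real.exp_log (by linarith), div_div, div_eq_mul_inv]
    refine mul_le_mul_of_nonneg_left (inv_anti₀ (by positivity) ?_) (Real.exp_pos _).le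
    calc (a : ℝ) * La ≤ a * (2 * CL * Real.log a) := by gcongr
      _ = 2 * CL * (a * Real.log a) := by ring

end Pool.Agent.Lib.MP_3d9a2b_pr
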