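import Pool.Agent.Lib.MP_3d9a2b_pr.Bits

set_option autoImplicit false

namespace Pool.Agent.Lib.MP_3d9a2b_pr

open MeasureTheory ProbabilityTheory Filter Topology
open scoped NNReal ENNReal

namespace Model

variable {α : ℝ} {Ω Ω' : Type} [MeasurableSpace Ω] [mΩ' : MeasurableSpace Ω'] {P : Measure Ω}
  {P' : Measure Ω'} (M : Model α P P')

/-! ### The excursions of a scenario -/

/-- The index of the excursion straddling `x`. -/
noncomputable def idx (x : ℝ) (ω' : Ω') : ℕ := sInf {n | M.left n ω' ≤ x ∧ x < M.right n ω'}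

theorem idx_spec {x : ℝ} {ω' : Ω'} (h : ∃ n, M.left n ω' ≤ x ∧ x < M.right n ω') :
    M.left (M.idx x ω') ω' ≤ x ∧ x < M.right (M.idx x ω') ω' :=
  Nat.sInf_mem (s := {n | M.left n ω' ≤ x ∧ x < M.right n ω'}) h

theorem measurableSet_straddle (x : ℝ) (n : ℕ) :
    MeasurableSet[M.𝒢] {ω' | M.left n ω' ≤ x ∧ x < M.right n ω'} := by
  have h1 : MeasurableSet[M.𝒢] (M.left n ⁻¹' Set.Iic x) := M.measurable_left n measurableSet_Iic
  have h2 : MeasurableSet[M.𝒢] (M.right n ⁻¹' Set.Ioi x) := M.measurable_right n measurableSet_Ioi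
  exact @MeasurableSet.inter _ M.𝒢 _ _ h1 h2

theorem measurable_idx (x : ℝ) : Measurable[M.𝒢] (M.idx x) := by
  refine @measurable_to_countable' ℕ Ω' _ _ M.𝒢 (M.idx x) fun n => ?_
  have h : M.idx x ⁻¹' {n} = {ω' | M.left n ω' ≤ x ∧ x < M.right n ω'} ∪
      (if n = 0 then (⋃ m, {ω' | M.left m ω' ≤ x ∧ x < M.right m ω'})ᶜ else ∅) := by
    ext ω'
    simp only [Set.mem_preimage, Set.mem_singleton_iff, Set.mem_union]
    constructor
    · intro h
      by_cases hex : ∃ m, M.left m ω' ≤ x ∧ x < M.right m ω'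
      · left
        have := M.idx_spec hex
        rw [h] at this
        exact this
      · right
        have h0 : M.idx x ω' = 0 := by
          unfold idx
          have : {n | M.left n ω' ≤ x ∧ x < M.right n ω'} = ∅ := by
            ext m
            simp only [Set.mem_ofPred_eq, Set.mem_empty_iff_false, iff_false]
            exact fun hm => hex ⟨m, hm⟩
          rw [this]
          exact Nat.sInf_empty
        rw [h0] at h
        rw [if_pos h.symm]
        simpa using hex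
    · rintro (h | h)
      · have := M.idx_spec ⟨n, h⟩
        exact M.eq_of_mem this.1 this.2 h.1 h.2
      · split_ifs at h with hn
        · have h0 : M.idx x ω' = 0 := by
            unfold idx
            have : {n | M.left n ω' ≤ x ∧ x < M.right n ω'} = ∅ := by
              ext m
              simp only [Set.mem_ofPred_eq, Set.mem_empty_iff_false, iff_false]
              intro hm
              exact h (Set.mem_iUnion.2 ⟨m, hm⟩)
            rw [this]
            exact Nat.sInf_empty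
          rw [h0, hn]
        · exact absurd h (Set.notMem_empty _)
  rw [h]
  refine @MeasurableSet.union _ M.𝒢 _ _ (M.measurableSet_straddle x n) ?_
  split_ifs
  · exact @MeasurableSet.compl _ _ M.𝒢
      (@MeasurableSet.iUnion _ _ M.𝒢 _ _ fun m => M.measurableSet_straddle x m)
  · exact @MeasurableSet.empty _ M.𝒢

/-- The event that a scenario is realised. -/
def ER (θ : ℝ) (p : ℕ → ℕ) (k : ℕ) : Set Ω' :=
  {ω | ∀ i < k, nextPt (M.R ω) (θ * (p i + 1)) ∈
    Set.Ioc (θ * p (i + 1)) (θ * (p (i + 1) + 1 / 2))}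

theorem measurableSet_ER (θ : ℝ) (p : ℕ → ℕ) (k : ℕ) : MeasurableSet[M.𝒢] (M.ER θ p k) := by
  have h : M.ER θ p k = ⋂ i ∈ Finset.range k, (fun ω => nextPt (M.R ω) (θ * (p i + 1))) ⁻¹'
      Set.Ioc (θ * p (i + 1)) (θ * (p (i + 1) + 1 / 2)) := by
    ext ω
    simp [ER]
  rw [h]
  refine @Finset.measurableSet_biInter _ _ M.𝒢 _ _ fun i _ => ?_
  exact M.measurable_nextPt _ measurableSet_Ioc

theorem p_mono {p : ℕ → ℕ} {k : ℕ} (hp : ∀ i < k, p i < p (i + 1)) {i j : ℕ} (hij : i ≤ j)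
    (hj : j ≤ k) : p i ≤ p j := by
  induction j, hij using Nat.le_induction with
  | base => exact le_rfl
  | succ j hij ih =>
    exact (ih (by omega)).trans (hp j (by omega)).le

/-- The index of the `i`-th excursion of the scenario. -/
noncomputable def mi (θ : ℝ) (p : ℕ → ℕ) (ω' : Ω') (i : ℕ) : ℕ := M.idx (θ * (p i + 1)) ω'

theorem measurable_mi (θ : ℝ) (p : ℕ → ℕ) : Measurable[M.𝒢] (M.mi θ p) :=
  @measurable_pi_lambda _ _ _ M.𝒢 _ _ fun i => M.measurable_idx (θ * (p i + 1))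

section ER

variable {θ : ℝ} {p : ℕ → ℕ} {k : ℕ} {ω' : Ω'}

theorem ER_straddle (hθ : 0 < θ) (hp : ∀ i < k, p i < p (i + 1)) (h : ω' ∈ M.ER θ p k)
    {i : ℕ} (hi : i < k) :
    M.left (M.mi θ p ω' i) ω' ≤ θ * (p i + 1) ∧ θ * (p i + 1) < M.right (M.mi θ p ω' i) ω' := by
  apply M.idx_spec
  apply M.exists_excursion
  · positivity
  · refine lt_of_le_of_lt ?_ (h i hi).1
    have : ((p i : ℕ) : ℝ) + 1 ≤ p (i + 1) := by exact_mod_cast hp i hi
    nlinarith

theorem ER_right (hθ : 0 < θ) (hp : ∀ i < k, p i < p (i + 1)) (h : ω' ∈ M.ER θ p k)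
    {i : ℕ} (hi : i < k) :
    M.right (M.mi θ p ω' i) ω' ∈ Set.Ioc (θ * p (i + 1)) (θ * (p (i + 1) + 1 / 2)) := by
  have h1 := M.ER_straddle hθ hp h hi
  rw [← M.nextPt_eq_right h1.1 h1.2]
  exact h i hi

theorem ER_left (hθ : 0 < θ) (hp0 : p 0 = 0) (hp : ∀ i < k, p i < p (i + 1))
    (h : ω' ∈ M.ER θ p k) {i : ℕ} (hi : i < k) :
    M.left (M.mi θ p ω' i) ω' ∈ Set.Icc (θ * p i) (θ * (p i + 1)) := by
  have h1 := M.ER_straddle hθ hp h hi
  refine ⟨?_, h1.1⟩
  rcases Nat.eq_zero_or_pos i with rfl | hpos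
  · rw [hp0]
    simpa using M.left_nonneg _ ω'
  · obtain ⟨j, rfl⟩ : ∃ j, i = j + 1 := ⟨i - 1, by omega⟩
    have h2 := M.ER_right hθ hp h (i := j) (by omega)
    by_contra h3
    push Not at h3
    have h4 : M.right (M.mi θ p ω' j) ω' ∈
        Set.Ioo (M.left (M.mi θ p ω' (j + 1)) ω') (M.right (M.mi θ p ω' (j + 1)) ω') := by
      refine ⟨h3.trans h2.1, lt_of_le_of_lt h2.2 (lt_trans ?_ h1.2)⟩
      nlinarith
    exact M.not_mem_of_mem_Ioo h4 (M.right_mem _ ω')

theorem ER_inj (hθ : 0 < θ) (hp : ∀ i < k, p i < p (i + 1)) (h : ω' ∈ M.ER θ p k) :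
    ∀ i < k, ∀ j < k, M.mi θ p ω' i = M.mi θ p ω' j → i = j := by
  have key : ∀ i j, i < j → j < k → M.mi θ p ω' i ≠ M.mi θ p ω' j := by
    intro i j hij hj heq
    have h1 := M.ER_right hθ hp h (i := i) (by omega)
    have h2 := M.ER_straddle hθ hp h hj
    rw [heq] at h1
    have h3 : p (i + 1) ≤ p j := p_mono hp (by omega) (by omega)
    have h4 : ((p (i + 1) : ℕ) : ℝ) ≤ p j := by exact_mod_cast h3
    have h5 := h1.2
    have h6 := h2.2
    nlinarith
  intro i hi j hj heq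
  rcases lt_trichotomy i j with hij | hij | hij
  · exact absurd heq (key i j hij hj)
  · exact hij
  · exact absurd heq.symm (key j i hij hi)

end ER

/-! ### The pathwise bound -/

theorem continuous_y (h : ℝ) (ω : Ω) : Continuous fun s : ℝ => M.y h s ω := by
  unfold y
  exact ((M.continuous_B ω).comp continuous_real_toNNReal).add (continuous_const.mul continuous_id)

theorem bddAbove_osc (h θ : ℝ) (n : ℕ) (ω : Ω) : BddAbove (Set.range fun s : Set.Icc (0 : ℝ) 1 =>
    |M.y h (θ * (n + s)) ω - M.y h (θ * n) ω|) := by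
  have hc : Continuous fun s : Set.Icc (0 : ℝ) 1 =>
      |M.y h (θ * (n + s)) ω - M.y h (θ * n) ω| := by
    have := M.continuous_y h ω
    fun_prop
  exact (isCompact_range hc).bddAbove

theorem abs_sub_le_osc {h θ : ℝ} (hθ : 0 < θ) (n : ℕ) (ω : Ω) {x : ℝ}
    (hx : x ∈ Set.Icc (θ * n) (θ * (n + 1))) :
    |M.y h x ω - M.y h (θ * n) ω| ≤ M.osc h θ n ω := by
  have hs : x / θ - n ∈ Set.Icc (0 : ℝ) 1 := by
    constructor
    · rw [sub_nonneg, le_div_iff₀ hθ]
      linarith [hx.1, mul_comm θ (n : ℝ)]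
    · rw [sub_le_iff_le_add, div_le_iff₀ hθ]
      have := hx.2
      nlinarith
  have h1 := le_ciSup (M.bddAbove_osc h θ n ω) ⟨x / θ - n, hs⟩
  have h2 : θ * (n + (x / θ - n)) = x := by
    field_simp
    ring
  simp only [h2] at h1
  exact h1

theorem osc_nonneg (h θ : ℝ) (n : ℕ) (ω : Ω) : 0 ≤ M.osc h θ n ω :=
  Real.iSup_nonneg fun _ => abs_nonneg _

/-- The frozen energy: on the excursions of the scenario the prescribed sign, `1 / 2` elsewhere. -/
noncomputable def Xbar (h θ t : ℝ) (p : ℕ → ℕ) (e : ℕ → Bool) (k : ℕ) (ω : Ω) (ω' : Ω') : ℝ :=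
  (M.y h t ω - M.y h 0 ω) / 2 + ∑ i ∈ Finset.range k, (if e i then (1 / 2 : ℝ) else -(1 / 2)) *
    (M.y h (min (M.right (M.mi θ p ω' i) ω') t) ω - M.y h (min (M.left (M.mi θ p ω' i) ω') t) ω)

theorem Xbar_le {h θ t : ℝ} (hθ : 0 < θ) {p : ℕ → ℕ} (e : ℕ → Bool) {k : ℕ} (hp0 : p 0 = 0)
    (hp : ∀ i < k, p i < p (i + 1)) (ht : θ * (p k + 1) ≤ t) (ω : Ω) {ω' : Ω'}
    (hω' : ω' ∈ M.ER θ p k) :
    M.Xbar h θ t p e k ω ω' ≤ (M.y h t ω - M.y h (θ * p k) ω) / 2
      + ∑ i ∈ Finset.range k, (if e i then M.y h (θ * p (i + 1)) ω - M.y h (θ * p i) ω else 0)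
      + ∑ i ∈ Finset.range (k + 1), M.osc h θ (p i) ω := by
  have hterm : ∀ i ∈ Finset.range k, (if e i then (1 / 2 : ℝ) else -(1 / 2)) *
      (M.y h (min (M.right (M.mi θ p ω' i) ω') t) ω
        - M.y h (min (M.left (M.mi θ p ω' i) ω') t) ω) ≤
      (if e i then M.y h (θ * p (i + 1)) ω - M.y h (θ * p i) ω else 0)
      - (1 / 2) * (M.y h (θ * p (i + 1)) ω - M.y h (θ * p i) ω)
      + (1 / 2) * (M.osc h θ (p (i + 1)) ω + M.osc h θ (p i) ω) := by
    intro i hi
    have hi' : i < k := Finset.mem_range.1 hi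
    have hr := M.ER_right hθ hp hω' hi'
    have hl := M.ER_left hθ hp0 hp hω' hi'
    have h1 : ((p (i + 1) : ℕ) : ℝ) ≤ p k := by
      exact_mod_cast p_mono hp (by omega) le_rfl
    have h2 : M.right (M.mi θ p ω' i) ω' ≤ t := by
      refine hr.2.trans (le_trans ?_ ht)
      nlinarith
    have h3 : M.left (M.mi θ p ω' i) ω' ≤ t := (M.left_lt_right _ ω').le.trans h2
    rw [min_eq_left h2, min_eq_left h3]
    have h4 := M.abs_sub_le_osc (h := h) hθ (p (i + 1)) ω (x := M.right (M.mi θ p ω' i) ω')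
      ⟨hr.1.le, hr.2.trans (by nlinarith)⟩
    have h5 := M.abs_sub_le_osc (h := h) hθ (p i) ω hl
    rw [abs_le] at h4 h5
    split_ifs
    · linarith [h4.1, h4.2, h5.1, h5.2]
    · linarith [h4.1, h4.2, h5.1, h5.2]
  have hsum := Finset.sum_le_sum hterm
  rw [Finset.sum_add_distrib, Finset.sum_sub_distrib, ← Finset.mul_sum, ← Finset.mul_sum,
    Finset.sum_range_sub (fun i => M.y h (θ * p i) ω), Finset.sum_add_distrib] at hsum
  have h0 : M.y h (θ * p 0) ω = M.y h 0 ω := by rw [hp0]; simp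
  rw [h0] at hsum
  have h6 : ∑ i ∈ Finset.range k, M.osc h θ (p (i + 1)) ω ≤
      ∑ i ∈ Finset.range (k + 1), M.osc h θ (p i) ω := by
    rw [Finset.sum_range_succ']
    linarith [M.osc_nonneg h θ (p 0) ω]
  have h7 : ∑ i ∈ Finset.range k, M.osc h θ (p i) ω ≤
      ∑ i ∈ Finset.range (k + 1), M.osc h θ (p i) ω := by
    rw [Finset.sum_range_succ]
    linarith [M.osc_nonneg h θ (p k) ω]
  unfold Xbar
  linarith

end Model

end Pool.Agent.Lib.MP_3d9a2b_pr
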