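import Pool.Agent.Lib.MP_3d9a2b_pr.Excursions
import Pool.Agent.Lib.MP_3d9a2b_pr.GaussSum

set_option autoImplicit false

namespace Pool.Agent.Lib.MP_3d9a2b_pr

open MeasureTheory ProbabilityTheory Filter Topology
open scoped NNReal ENNReal

section Gauss

variable {Ω : Type} [MeasurableSpace Ω] {P : Measure Ω} {B : ℝ≥0 → Ω → ℝ}

theorem eLpNorm_le_of_law {X : Ω → ℝ} {v t : ℝ} (hv : 0 ≤ v) (hvt : v ≤ t)
    (hX : HasLaw X (gaussianReal 0 v.toNNReal) P) : eLpNorm X 2 P ≤ ENNReal.ofReal (√t) := by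
  have h1 : eLpNorm X 2 P = eLpNorm id 2 (gaussianReal 0 v.toNNReal) := by
    rw [← hX.map_eq, eLpNorm_map_measure aestronglyMeasurable_id hX.aemeasurable]
    rfl
  have hint : Integrable (fun x : ℝ => x ^ 2) (gaussianReal 0 v.toNNReal) :=
    (memLp_id_gaussianReal (μ := 0) (v := v.toNNReal) 2).integrable_sq
  have h3 : ∫ x, x ^ 2 ∂(gaussianReal 0 v.toNNReal) = v := by
    have := variance_id_gaussianReal (μ := 0) (v := v.toNNReal)
    rw [variance_eq_integral (by fun_prop)] at this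
    simpa [Real.coe_toNNReal _ hv] using this
  have h2 : eLpNorm id 2 (gaussianReal 0 v.toNNReal) = ENNReal.ofReal (√v) := by
    rw [eLpNorm_eq_lintegral_rpow_enorm_toReal (by norm_num) (by norm_num)]
    have h4 : ∫⁻ x, ‖id x‖ₑ ^ (2 : ℝ≥0∞).toReal ∂(gaussianReal 0 v.toNNReal) =
        ENNReal.ofReal v := by
      rw [← congrArg ENNReal.ofReal h3,
        ofReal_integral_eq_lintegral_ofReal hint (ae_of_all _ fun x => sq_nonneg x)]
      refine lintegral_congr fun x => ?_
      rw [ENNReal.toReal_ofNat, ENNReal.rpow_ofNat, id, Real.enorm_eq_ofReal_abs,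
        ← ENNReal.ofReal_pow (abs_nonneg x), sq_abs]
    rw [h4, ENNReal.toReal_ofNat, ENNReal.ofReal_rpow_of_nonneg hv (by norm_num),
      Real.sqrt_eq_rpow]
  rw [h1, h2]
  exact ENNReal.ofReal_le_ofReal (Real.sqrt_le_sqrt hvt)

theorem lintegral_exp_le_of_law {X : Ω → ℝ} {v t : ℝ} (hv : 0 ≤ v) (hvt : v ≤ t) (s : ℝ)
    (hX : HasLaw X (gaussianReal 0 v.toNNReal) P) :
    ∫⁻ ω, ENNReal.ofReal (Real.exp (s * X ω)) ∂P ≤ ENNReal.ofReal (Real.exp (t * s ^ 2 / 2)) := by
  have h1 : ∫⁻ ω, ENNReal.ofReal (Real.exp (s * X ω)) ∂P =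
      ∫⁻ x, ENNReal.ofReal (Real.exp (s * x)) ∂(gaussianReal 0 v.toNNReal) := by
    rw [← hX.map_eq, lintegral_map' (by fun_prop) hX.aemeasurable]
  have h2 := mgf_gaussianReal (p := gaussianReal 0 v.toNNReal) (X := id) (μ := 0)
    (v := v.toNNReal) (by simp) s
  rw [mgf] at h2
  rw [h1, ← ofReal_integral_eq_lintegral_ofReal (integrable_exp_mul_gaussianReal s)
    (ae_of_all _ fun x => (Real.exp_pos _).le)]
  apply ENNReal.ofReal_le_ofReal
  simp only [id] at h2
  rw [h2, Real.coe_toNNReal _ hv]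
  apply Real.exp_le_exp.2
  nlinarith [sq_nonneg s]

end Gauss

namespace Model

variable {α : ℝ} {Ω Ω' : Type} [MeasurableSpace Ω] [mΩ' : MeasurableSpace Ω'] {P : Measure Ω}
  {P' : Measure Ω'} (M : Model α P P')

/-- The increment of the Brownian motion over the part before `t` of the `n`-th excursion. -/
noncomputable def inc (t : ℝ) (n : ℕ) (ω : Ω) (ω' : Ω') : ℝ :=
  M.B (min (M.right n ω') t).toNNReal ω - M.B (min (M.left n ω') t).toNNReal ω

theorem hasLaw_inc_sum {t : ℝ} (ht : 0 ≤ t) (c : ℕ → ℝ) (N : ℕ) (ω' : Ω') :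
    HasLaw (fun ω => ∑ n ∈ Finset.range N, c n * M.inc t n ω ω')
      (gaussianReal 0 (∑ n ∈ Finset.range N, (c n) ^ 2 * M.len t n ω').toNNReal) P := by
  refine hasLaw_sum M.brownian.toIsPreBrownianReal (fun n => min (M.left n ω') t)
    (fun n => min (M.right n ω') t) (fun n => le_min (M.left_nonneg n ω') ht)
    (fun n => min_le_min_right _ (M.left_lt_right n ω').le) ?_ c N
  intro n m hnm
  rcases M.right_le_left_or ω' hnm with h | h
  · exact Or.inl (min_le_min_right _ h)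
  · exact Or.inr (min_le_min_right _ h)

theorem var_nonneg (t : ℝ) (c : ℕ → ℝ) (N : ℕ) (ω' : Ω') :
    0 ≤ ∑ n ∈ Finset.range N, (c n) ^ 2 * M.len t n ω' :=
  Finset.sum_nonneg fun n _ => mul_nonneg (sq_nonneg _) (M.len_nonneg t n ω')

theorem var_le {t : ℝ} (ht : 0 ≤ t) (c : ℕ → ℝ) (hc : ∀ n, |c n| ≤ 1) (N : ℕ) (ω' : Ω') :
    ∑ n ∈ Finset.range N, (c n) ^ 2 * M.len t n ω' ≤ t := by
  refine le_trans (Finset.sum_le_sum (g := fun n => M.len t n ω') fun n _ => ?_)
    (M.sum_len_le ht ω' N)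
  have h1 : (c n) ^ 2 ≤ 1 := by
    rw [sq_le_one_iff_abs_le_one]
    exact hc n
  have h2 := M.len_nonneg t n ω'
  nlinarith

theorem eLpNorm_inc_sum_le {t : ℝ} (ht : 0 ≤ t) (c : ℕ → ℝ) (hc : ∀ n, |c n| ≤ 1) (N : ℕ)
    (ω' : Ω') :
    eLpNorm (fun ω => ∑ n ∈ Finset.range N, c n * M.inc t n ω ω') 2 P ≤
      ENNReal.ofReal (√t) :=
  eLpNorm_le_of_law (M.var_nonneg t c N ω') (M.var_le ht c hc N ω') (M.hasLaw_inc_sum ht c N ω')

theorem lintegral_exp_inc_sum_le {t : ℝ} (ht : 0 ≤ t) (c : ℕ → ℝ) (hc : ∀ n, |c n| ≤ 1) (N : ℕ)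
    (ω' : Ω') (s : ℝ) :
    ∫⁻ ω, ENNReal.ofReal (Real.exp (s * ∑ n ∈ Finset.range N, c n * M.inc t n ω ω')) ∂P ≤
      ENNReal.ofReal (Real.exp (t * s ^ 2 / 2)) :=
  lintegral_exp_le_of_law (M.var_nonneg t c N ω') (M.var_le ht c hc N ω') s
    (M.hasLaw_inc_sum ht c N ω')

/-- The Wiener integral of the first `N` excursions. -/
theorem ξ_sum_eq (t : ℝ) (N : ℕ) (ω : Ω) (ω' : Ω') :
    (∑ n ∈ Finset.range N, if M.ξ n ω' then
      M.B (min (M.right n ω') t).toNNReal ω - M.B (min (M.left n ω') t).toNNReal ω else 0) =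
    ∑ n ∈ Finset.range N, (if M.ξ n ω' then (1 : ℝ) else 0) * M.inc t n ω ω' := by
  refine Finset.sum_congr rfl fun n _ => ?_
  unfold inc
  split_ifs <;> simp

theorem abs_ite_le (b : Bool) : |if b then (1 : ℝ) else 0| ≤ 1 := by
  split_ifs <;> simp

theorem wiener' {t : ℝ} (ht : 0 ≤ t) : ∀ᵐ ω' ∂P', Tendsto (fun N : ℕ => eLpNorm (fun ω =>
    M.J t ω ω' - ∑ n ∈ Finset.range N, (if M.ξ n ω' then (1 : ℝ) else 0) * M.inc t n ω ω') 2 P)
    atTop (𝓝 0) := by
  filter_upwards [M.wiener t ht] with ω' h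
  simpa only [M.ξ_sum_eq] using h

theorem measurable_J_left (t : ℝ) (ω' : Ω') : Measurable (fun ω => M.J t ω ω') :=
  (M.measurable_J t).comp measurable_prodMk_right

theorem measurable_J_right (t : ℝ) (ω : Ω) : Measurable (fun ω' => M.J t ω ω') :=
  (M.measurable_J t).comp measurable_prodMk_left

theorem measurable_inc_left (t : ℝ) (n : ℕ) (ω' : Ω') : Measurable (fun ω => M.inc t n ω ω') :=
  (M.measurable_B _).sub (M.measurable_B _)

theorem eLpNorm_J_le {t : ℝ} (ht : 0 ≤ t) :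
    ∀ᵐ ω' ∂P', eLpNorm (fun ω => M.J t ω ω') 2 P ≤ ENNReal.ofReal (√t) := by
  filter_upwards [M.wiener' ht] with ω' h
  have h1 : ∀ N : ℕ, eLpNorm (fun ω => M.J t ω ω') 2 P ≤ eLpNorm (fun ω =>
      M.J t ω ω' - ∑ n ∈ Finset.range N, (if M.ξ n ω' then (1 : ℝ) else 0) * M.inc t n ω ω') 2 P
      + ENNReal.ofReal (√t) := by
    intro N
    have hm : Measurable (fun ω => ∑ n ∈ Finset.range N,
        (if M.ξ n ω' then (1 : ℝ) else 0) * M.inc t n ω ω') := by
      apply Finset.measurable_sum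
      intro n _
      exact (M.measurable_inc_left t n ω').const_mul _
    have h2 : (fun ω => M.J t ω ω') = (fun ω =>
        M.J t ω ω' - ∑ n ∈ Finset.range N, (if M.ξ n ω' then (1 : ℝ) else 0) * M.inc t n ω ω') +
        (fun ω => ∑ n ∈ Finset.range N,
        (if M.ξ n ω' then (1 : ℝ) else 0) * M.inc t n ω ω') := by
      ext ω; simp
    calc eLpNorm (fun ω => M.J t ω ω') 2 P ≤ _ + _ := by
          rw [h2]
          exact eLpNorm_add_le ((M.measurable_J_left t ω').sub hm).aestronglyMeasurable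
            hm.aestronglyMeasurable (by norm_num)
      _ ≤ _ := by
          exact add_le_add le_rfl (M.eLpNorm_inc_sum_le ht _ (fun n => abs_ite_le _) N ω')
  have h3 := h.add_const (ENNReal.ofReal (√t))
  rw [zero_add] at h3
  exact ge_of_tendsto' h3 h1

theorem lintegral_exp_J_le {t : ℝ} (ht : 0 ≤ t) (s : ℝ) :
    ∀ᵐ ω' ∂P', ∫⁻ ω, ENNReal.ofReal (Real.exp (s * M.J t ω ω')) ∂P ≤
      ENNReal.ofReal (Real.exp (t * s ^ 2 / 2)) := by
  filter_upwards [M.wiener' ht] with ω' h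
  set S : ℕ → Ω → ℝ := fun N ω => ∑ n ∈ Finset.range N,
    (if M.ξ n ω' then (1 : ℝ) else 0) * M.inc t n ω ω' with hS
  have hm : ∀ N, Measurable (S N) := by
    intro N
    apply Finset.measurable_sum
    intro n _
    exact (M.measurable_inc_left t n ω').const_mul _
  have h1 : TendstoInMeasure P S atTop (fun ω => M.J t ω ω') := by
    refine tendstoInMeasure_of_tendsto_eLpNorm (p := 2) (by norm_num)
      (fun N => (hm N).aestronglyMeasurable) (M.measurable_J_left t ω').aestronglyMeasurable ?_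
    refine h.congr fun N => ?_
    rw [← eLpNorm_neg]
    congr 1
    ext ω
    simp [hS]
  obtain ⟨ns, _, hns⟩ := h1.exists_seq_tendsto_ae
  calc ∫⁻ ω, ENNReal.ofReal (Real.exp (s * M.J t ω ω')) ∂P
      = ∫⁻ ω, liminf (fun k => ENNReal.ofReal (Real.exp (s * S (ns k) ω))) atTop ∂P := by
        refine lintegral_congr_ae ?_
        filter_upwards [hns] with ω hω
        have : Tendsto (fun k => ENNReal.ofReal (Real.exp (s * S (ns k) ω))) atTop
            (𝓝 (ENNReal.ofReal (Real.exp (s * M.J t ω ω')))) :=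
          ENNReal.tendsto_ofReal ((Real.continuous_exp.tendsto _).comp (hω.const_mul s))
        exact this.liminf_eq.symm
    _ ≤ liminf (fun k => ∫⁻ ω, ENNReal.ofReal (Real.exp (s * S (ns k) ω)) ∂P) atTop :=
        lintegral_liminf_le fun k => by fun_prop
    _ ≤ ENNReal.ofReal (Real.exp (t * s ^ 2 / 2)) := by
        refine liminf_le_of_le (by isBoundedDefault) ?_
        intro b hb
        obtain ⟨k, hk⟩ := hb.exists
        exact hk.trans (M.lintegral_exp_inc_sum_le ht _ (fun n => abs_ite_le _) _ ω' s)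

/-! ### The time spent below the interface -/

/-- The time spent below the interface before `t`. -/
noncomputable def T (t : ℝ) (ω' : Ω') : ℝ := ∫ s in (0 : ℝ)..t, M.Δ s ω'

theorem hasSum_T {t : ℝ} (ht : 0 ≤ t) (ω' : Ω') :
    HasSum (fun n => (if M.ξ n ω' then (1 : ℝ) else 0) * M.len t n ω') (M.T t ω') := by
  unfold T
  rw [intervalIntegral.integral_of_le ht, integral_Ioc_eq_integral_Ioo]
  set F : ℕ → ℝ → ℝ := fun n s => Set.indicator (Set.Ioo (M.left n ω') (M.right n ω'))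
    (fun _ => if M.ξ n ω' then 1 else 0) s with hF
  have hI : ∀ n (c : ℝ), ∫ s in Set.Ioo 0 t,
      Set.indicator (Set.Ioo (M.left n ω') (M.right n ω')) (fun _ => c) s = c * M.len t n ω' := by
    intro n c
    rw [integral_indicator_const _ measurableSet_Ioo, measureReal_def,
      Measure.restrict_apply measurableSet_Ioo, M.volume_inter,
      ENNReal.toReal_ofReal (M.len_nonneg t n ω'), smul_eq_mul, mul_comm]
  have hint : ∀ n, Integrable (F n) (volume.restrict (Set.Ioo 0 t)) := by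
    intro n
    have : IsFiniteMeasure (volume.restrict (Set.Ioo (0 : ℝ) t)) :=
      ⟨by simp⟩
    exact (integrable_const _).indicator measurableSet_Ioo
  have hn : ∀ n, ∫ s in Set.Ioo 0 t, ‖F n s‖ =
      (if M.ξ n ω' then (1 : ℝ) else 0) * M.len t n ω' := by
    intro n
    rw [← hI n]
    refine integral_congr_ae (ae_of_all _ fun s => ?_)
    simp only [hF, Real.norm_eq_abs, Set.indicator_apply]
    split_ifs <;> simp
  have hsum : Summable fun n => ∫ s in Set.Ioo 0 t, ‖F n s‖ := by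
    simp_rw [hn]
    refine Summable.of_nonneg_of_le (fun n => mul_nonneg (by split_ifs <;> simp)
      (M.len_nonneg t n ω')) (fun n => ?_) (M.hasSum_len ht ω').summable
    have := M.len_nonneg t n ω'
    split_ifs <;> simp [this]
  have h1 := hasSum_integral_of_summable_integral_norm hint hsum
  have h2 : ∀ n, ∫ s in Set.Ioo 0 t, F n s =
      (if M.ξ n ω' then (1 : ℝ) else 0) * M.len t n ω' := fun n => hI n _
  simp_rw [h2] at h1
  exact h1

theorem T_nonneg {t : ℝ} (ht : 0 ≤ t) (ω' : Ω') : 0 ≤ M.T t ω' :=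
  (M.hasSum_T ht ω').nonneg fun n => mul_nonneg (by split_ifs <;> simp) (M.len_nonneg t n ω')

theorem T_le {t : ℝ} (ht : 0 ≤ t) (ω' : Ω') : M.T t ω' ≤ t := by
  refine hasSum_le (fun n => ?_) (M.hasSum_T ht ω') (M.hasSum_len ht ω')
  have := M.len_nonneg t n ω'
  split_ifs <;> simp [this]

theorem measurable_len (t : ℝ) (n : ℕ) : Measurable[M.𝒢] (M.len t n) := by
  have h1 := M.measurable_left n
  have h2 := M.measurable_right n
  unfold len
  exact (h2.min measurable_const).sub (h1.min measurable_const)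

theorem measurable_T {t : ℝ} (ht : 0 ≤ t) : Measurable (M.T t) := by
  refine measurable_of_tendsto_metrizable (f := fun N ω' => ∑ n ∈ Finset.range N,
    (if M.ξ n ω' then (1 : ℝ) else 0) * M.len t n ω') (fun N => ?_) ?_
  · apply Finset.measurable_sum
    intro n _
    refine Measurable.mul ?_ ((M.measurable_len t n).mono M.𝒢_le le_rfl)
    exact (measurable_of_countable (fun b : Bool => if b then (1 : ℝ) else 0)).comp
      (M.measurable_ξ n)
  · rw [tendsto_pi_nhds]
    intro ω'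
    exact (M.hasSum_T ht ω').tendsto_sum_nat

end Model

end Pool.Agent.Lib.MP_3d9a2b_pr
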